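import Pool.Agent.TB.Stmts

/-!
VAL: the value of the functor on the 2-bridge diagrams.
-/

open Polynomial
open scoped BigOperators Matrix

namespace Pool.Agent.TB

open Pool.Agent.LibH11.Sliced

namespace VAL

/-! ### Embeddings acting on vectors -/

section Emb

variable {A L : Type} [CommRing A] [Fintype L] [DecidableEq L]

theorem emb12_mulVec (M : Matrix (L × L) (L × L) A) (v : L × L × L → A) (a b c : L) :
    (emb12 M *ᵥ v) (a, b, c) = ∑ a', ∑ b', M (a, b) (a', b') * v (a', b', c) := by
  rw [Matrix.mulVec, dotProduct, Fintype.sum_prod_type]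
  refine Finset.sum_congr rfl fun a' _ => ?_
  rw [Fintype.sum_prod_type]
  refine Finset.sum_congr rfl fun b' _ => ?_
  simp [emb12]

theorem emb23_mulVec (M : Matrix (L × L) (L × L) A) (v : L × L × L → A) (a b c : L) :
    (emb23 M *ᵥ v) (a, b, c) = ∑ b', ∑ c', M (b, c) (b', c') * v (a, b', c') := by
  rw [Matrix.mulVec, dotProduct, Fintype.sum_prod_type, Finset.sum_eq_single a]
  · rw [Fintype.sum_prod_type]
    simp [emb23]
  · intro a' _ h
    refine Finset.sum_eq_zero fun t _ => ?_
    simp [emb23, Ne.symm h]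
  · intro h
    exact (h (Finset.mem_univ a)).elim

end Emb

/-! ### The functor on three strands -/

section Fun

variable {A : Type} [CommRing A] (Q : QP A) (r : ℕ)

/-- the R-matrix or its inverse -/
def Rx : Bool → Matrix (Lb r × Lb r) (Lb r × Lb r) A
  | true => Rm Q r
  | false => Rn Q r

/-- the coefficient of an antiparallel crossing -/
def cf : Bool → Aˣ
  | true => (Q.fu r)⁻¹
  | false => Q.fu r

theorem RS (e o : Bool) (x y : Ev r) (f : SL r → SL r → A) :
    ∑ a, ∑ b, (tdata Q r).R e (x, o) (y, !o) a b * f a b =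
      (cf Q r e : A) * ∑ a : Ev r, ∑ b : Ev r, Rx Q r e (x.1, y.1) (a.1, b.1) *
        f (a, !o) (b, o) := by
  rw [Fintype.sum_prod_type, Finset.mul_sum]
  refine Finset.sum_congr rfl fun a _ => ?_
  rw [Fintype.sum_bool, Fintype.sum_prod_type, Fintype.sum_prod_type, ← Finset.sum_add_distrib,
    Finset.mul_sum]
  refine Finset.sum_congr rfl fun b _ => ?_
  rw [Fintype.sum_bool, Fintype.sum_bool]
  cases o <;> cases e <;> simp [tdata, Rx, cf, mul_assoc]

theorem sum_Ev (F : Lb r → A) (h : ∀ a : Lb r, a.par = true → F a = 0) :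
    ∑ a : Ev r, F a.1 = ∑ a : Lb r, F a := by
  have h1 : ∑ a ∈ Finset.univ.filter (fun a : Lb r => a.par = false), F a =
      ∑ a : Ev r, F a.1 := by
    apply Finset.sum_subtype
    intro x
    simp
  rw [← h1]
  apply Finset.sum_subset (Finset.filter_subset _ _)
  intro x _ hx
  rw [Finset.mem_filter] at hx
  apply h
  by_contra h2
  exact hx ⟨Finset.mem_univ x, by simpa using h2⟩

theorem ES (hp : RPR_Stmt) (e : Bool) (x y : Lb r) (hx : x.par = false) (hy : y.par = false)
    (g : Lb r → Lb r → A) :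
    ∑ a : Ev r, ∑ b : Ev r, Rx Q r e (x, y) (a.1, b.1) * g a.1 b.1 =
      ∑ a : Lb r, ∑ b : Lb r, Rx Q r e (x, y) (a, b) * g a b := by
  have h0 : ∀ a b : Lb r, x.par ≠ b.par ∨ y.par ≠ a.par → Rx Q r e (x, y) (a, b) = 0 := by
    intro a b hab
    have h1 := (hp A Q r).2.1 x y a b hab
    cases e
    · exact h1.2
    · exact h1.1
  have h1 : ∀ a : Ev r, ∑ b : Ev r, Rx Q r e (x, y) (a.1, b.1) * g a.1 b.1 =
      ∑ b : Lb r, Rx Q r e (x, y) (a.1, b) * g a.1 b := by
    intro a
    refine sum_Ev r (fun b => Rx Q r e (x, y) (a.1, b) * g a.1 b) ?_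
    intro b hb
    rw [h0 a.1 b (Or.inl (by rw [hx, hb]; simp)), zero_mul]
  simp only [h1]
  refine sum_Ev r (fun a => ∑ b : Lb r, Rx Q r e (x, y) (a, b) * g a b) ?_
  intro a ha
  refine Finset.sum_eq_zero fun b _ => ?_
  rw [h0 a b (Or.inr (by rw [hy, ha]; simp)), zero_mul]

/-- two equal crossings -/
def D (e : Bool) (p : ℕ) (ψ : List (SL r) → A) : List (SL r) → A :=
  (tdata Q r).ap (.crs e) p ((tdata Q r).ap (.crs e) p ψ)

theorem ap_zero (e : Bool) (ψ : List (SL r) → A) (x y : SL r) (l : List (SL r)) :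
    (tdata Q r).ap (.crs e) 0 ψ (x :: y :: l) =
      ∑ a, ∑ b, (tdata Q r).R e x y a b * ψ (a :: b :: l) := rfl

theorem ap_one (e : Bool) (ψ : List (SL r) → A) (x y z : SL r) (l : List (SL r)) :
    (tdata Q r).ap (.crs e) 1 ψ (x :: y :: z :: l) =
      ∑ a, ∑ b, (tdata Q r).R e y z a b * ψ (x :: a :: b :: l) := rfl

/-- the position `0` or `1` -/
def pos : Bool → ℕ
  | true => 0
  | false => 1

/-- operators at the position `pos b` -/
def emb (b : Bool) (M : Matrix (Lb r × Lb r) (Lb r × Lb r) A) :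
    Matrix (Lb r × Lb r × Lb r) (Lb r × Lb r × Lb r) A :=
  match b with
  | true => emb12 M
  | false => emb23 M

/-- the operator of two equal crossings -/
def T (e b : Bool) : Matrix (Lb r × Lb r × Lb r) (Lb r × Lb r × Lb r) A :=
  (((cf Q r e : A)) ^ 2) • (emb r b (Rx Q r e) * emb r b (Rx Q r e))

/-- the relation between vectors on lists and on triples -/
structure Rel (ψ : List (SL r) → A) (v : Lb r × Lb r × Lb r → A) : Prop where
  val : ∀ a b c : Ev r, ψ [(a, true), (b, false), (c, true)] = v (a.1, b.1, c.1)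
  ori : ∀ a b c : SL r, a.2 = false → ψ [a, b, c] = 0
  par : ∀ a b c : Lb r, a.par = true → v (a, b, c) = 0

theorem R_ne (e : Bool) (x y a b : SL r) (h : ¬ (x.2 = b.2 ∧ y.2 = a.2)) :
    (tdata Q r).R e x y a b = 0 := by
  simp only [tdata]
  rw [if_neg h]

theorem Rx_ne (hp : RPR_Stmt) (e : Bool) (x y a b : Lb r) (h : x.par ≠ b.par ∨ y.par ≠ a.par) :
    Rx Q r e (x, y) (a, b) = 0 := by
  have h1 := (hp A Q r).2.1 x y a b h
  cases e
  · exact h1.2
  · exact h1.1

theorem rel_step (hp : RPR_Stmt) (e b : Bool) {ψ : List (SL r) → A}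
    {v : Lb r × Lb r × Lb r → A} (h : Rel r ψ v) : Rel r (D Q r e (pos b) ψ) (T Q r e b *ᵥ v) := by
  cases b
  · -- position 1
    refine ⟨?_, ?_, ?_⟩
    · intro a b c
      rw [T, Matrix.smul_mulVec, Pi.smul_apply, ← Matrix.mulVec_mulVec]
      simp only [emb]
      rw [emb23_mulVec]
      simp only [emb23_mulVec]
      show (tdata Q r).ap (.crs e) 1 ((tdata Q r).ap (.crs e) 1 ψ)
        [(a, true), (b, false), (c, true)] = _
      rw [ap_one]
      have h1 := RS Q r e false b c
        (fun x y => (tdata Q r).ap (.crs e) 1 ψ [(a, true), x, y])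
      simp only [Bool.not_false] at h1
      rw [h1]
      have h2 : ∀ x y : Ev r, (tdata Q r).ap (.crs e) 1 ψ [(a, true), (x, true), (y, false)] =
          (cf Q r e : A) * ∑ x' : Lb r, ∑ y' : Lb r, Rx Q r e (x.1, y.1) (x', y') *
            v (a.1, x', y') := by
        intro x y
        rw [ap_one]
        have h3 := RS Q r e true x y (fun x y => ψ [(a, true), x, y])
        simp only [Bool.not_true] at h3
        rw [h3, ← ES Q r hp e x.1 y.1 x.2 y.2 (fun x' y' => v (a.1, x', y'))]
        simp only [h.val]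
      simp only [h2]
      rw [← ES Q r hp e b.1 c.1 b.2 c.2]
      simp only [smul_eq_mul, pow_two, Finset.mul_sum]
      refine Finset.sum_congr rfl fun x _ => Finset.sum_congr rfl fun y _ =>
        Finset.sum_congr rfl fun x' _ => Finset.sum_congr rfl fun y' _ => ?_
      ring
    · intro a b c ha
      show (tdata Q r).ap (.crs e) 1 ((tdata Q r).ap (.crs e) 1 ψ) [a, b, c] = _
      rw [ap_one]
      refine Finset.sum_eq_zero fun x _ => Finset.sum_eq_zero fun y _ => ?_
      rw [ap_one]
      rw [Finset.sum_eq_zero, mul_zero]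
      intro x' _
      refine Finset.sum_eq_zero fun y' _ => ?_
      rw [h.ori a x' y' ha, mul_zero]
    · intro a b c ha
      rw [T, Matrix.smul_mulVec, Pi.smul_apply, ← Matrix.mulVec_mulVec]
      simp only [emb]
      rw [emb23_mulVec]
      simp only [emb23_mulVec]
      rw [Finset.sum_eq_zero, smul_zero]
      intro x _
      refine Finset.sum_eq_zero fun y _ => ?_
      rw [Finset.sum_eq_zero, mul_zero]
      intro x' _
      refine Finset.sum_eq_zero fun y' _ => ?_
      rw [h.par a x' y' ha, mul_zero]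
  · -- position 0
    refine ⟨?_, ?_, ?_⟩
    · intro a b c
      rw [T, Matrix.smul_mulVec, Pi.smul_apply, ← Matrix.mulVec_mulVec]
      simp only [emb]
      rw [emb12_mulVec]
      simp only [emb12_mulVec]
      show (tdata Q r).ap (.crs e) 0 ((tdata Q r).ap (.crs e) 0 ψ)
        [(a, true), (b, false), (c, true)] = _
      rw [ap_zero]
      have h1 := RS Q r e true a b
        (fun x y => (tdata Q r).ap (.crs e) 0 ψ [x, y, (c, true)])
      simp only [Bool.not_true] at h1
      rw [h1]
      have h2 : ∀ x y : Ev r, (tdata Q r).ap (.crs e) 0 ψ [(x, false), (y, true), (c, true)] =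
          (cf Q r e : A) * ∑ x' : Lb r, ∑ y' : Lb r, Rx Q r e (x.1, y.1) (x', y') *
            v (x', y', c.1) := by
        intro x y
        rw [ap_zero]
        have h3 := RS Q r e false x y (fun x y => ψ [x, y, (c, true)])
        simp only [Bool.not_false] at h3
        rw [h3, ← ES Q r hp e x.1 y.1 x.2 y.2 (fun x' y' => v (x', y', c.1))]
        simp only [h.val]
      simp only [h2]
      rw [← ES Q r hp e a.1 b.1 a.2 b.2]
      simp only [smul_eq_mul, pow_two, Finset.mul_sum]
      refine Finset.sum_congr rfl fun x _ => Finset.sum_congr rfl fun y _ =>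
        Finset.sum_congr rfl fun x' _ => Finset.sum_congr rfl fun y' _ => ?_
      ring
    · intro a b c ha
      show (tdata Q r).ap (.crs e) 0 ((tdata Q r).ap (.crs e) 0 ψ) [a, b, c] = _
      rw [ap_zero]
      refine Finset.sum_eq_zero fun x _ => Finset.sum_eq_zero fun y _ => ?_
      rw [ap_zero]
      by_cases hy : a.2 = y.2
      · rw [Finset.sum_eq_zero, mul_zero]
        intro x' _
        refine Finset.sum_eq_zero fun y' _ => ?_
        by_cases hx' : y.2 = x'.2
        · rw [h.ori x' y' c (by rw [← hx', ← hy, ha]), mul_zero]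
        · rw [R_ne Q r e x y x' y' (fun h => hx' h.2), zero_mul]
      · rw [R_ne Q r e a b x y (fun h => hy h.1), zero_mul]
    · intro a b c ha
      rw [T, Matrix.smul_mulVec, Pi.smul_apply, ← Matrix.mulVec_mulVec]
      simp only [emb]
      rw [emb12_mulVec]
      simp only [emb12_mulVec]
      rw [Finset.sum_eq_zero, smul_zero]
      intro x _
      refine Finset.sum_eq_zero fun y _ => ?_
      by_cases hy : a.par = y.par
      · rw [Finset.sum_eq_zero, mul_zero]
        intro x' _
        refine Finset.sum_eq_zero fun y' _ => ?_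
        by_cases hx' : y.par = x'.par
        · rw [h.par x' y' c (by rw [← hx', ← hy, ha]), mul_zero]
        · rw [Rx_ne Q r hp e x y x' y' (Or.inr hx'), zero_mul]
      · rw [Rx_ne Q r hp e a b x y (Or.inl hy), zero_mul]

/-! ### Twist regions -/

theorem rel_pow (hp : RPR_Stmt) (e b : Bool) (n : ℕ) {ψ : List (SL r) → A}
    {v : Lb r × Lb r × Lb r → A} (h : Rel r ψ v) :
    Rel r ((tdata Q r).st (List.replicate (2 * n) (Kind.crs e, pos b)) ψ)
      ((T Q r e b) ^ n *ᵥ v) := by
  induction n generalizing ψ v with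
  | zero =>
    rw [pow_zero, Matrix.one_mulVec]
    exact h
  | succ n ih =>
    have h1 := ih (rel_step Q r hp e b h)
    rw [pow_succ, ← Matrix.mulVec_mulVec]
    exact h1

/-- the polynomial of a twist region -/
noncomputable def P (x : ℤ) : A[X] := Q.interp r fun m => ((Q.Gu r m ^ x : Aˣ) : A)

theorem aeval_emb (he : EMB_Stmt) (b : Bool) (M : Matrix (Lb r × Lb r) (Lb r × Lb r) A)
    (p : A[X]) : aeval (emb r b M) p = emb r b (aeval M p) := by
  have h := (he A (Lb r)).2.2.2.2 M p
  cases b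
  · exact h.2
  · exact h.1

theorem emb_zero (b : Bool) : emb r b (0 : Matrix (Lb r × Lb r) (Lb r × Lb r) A) = 0 := by
  cases b <;> ext p c <;> simp [emb, emb12, emb23]

theorem pol_emb (he : EMB_Stmt) (hs : SPEC_Stmt) (hG : Q.Gen r) (b : Bool) :
    aeval (emb r b (Im Q r)) (Q.pol r) = 0 := by
  rw [aeval_emb r he, (hs A Q r hG).1, emb_zero]

theorem region (he : EMB_Stmt) (hs : SPEC_Stmt) (hf : FC_Stmt) (hG : Q.Gen r) (b : Bool)
    (x : ℤ) : aeval (emb r b (Im Q r)) (P Q r x) = (T Q r (decide (0 < x)) b) ^ x.natAbs := by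
  obtain ⟨h1, h2⟩ := hf A Q r hG
  have h3 := hs A Q r hG
  by_cases hx : 0 < x
  · rw [decide_eq_true hx]
    have h4 : aeval (emb r b (Im Q r)) ((C (((cf Q r true : A)) ^ 2) *
        (Q.interp r fun m => (Q.fu m : A)) ^ 2) ^ x.natAbs) = (T Q r true b) ^ x.natAbs := by
      generalize hc : ((cf Q r true : A)) ^ 2 = c
      rw [map_pow, map_mul, map_pow, aeval_C, aeval_emb r he, h3.2.1, ← Algebra.smul_def, pow_two
        (emb r b (Rm Q r)), ← hc]
      rfl
    rw [← h4]
    refine h2 _ _ (pol_emb Q r he hs hG b) _ _ ?_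
    intro m hm
    rw [P, h1 _ m hm, eval_pow, eval_mul, eval_pow, eval_C, h1 _ m hm]
    have h5 : Q.Gu r m ^ x = ((cf Q r true) ^ 2 * (Q.fu m) ^ 2) ^ x.natAbs := by
      have h6 : Q.Gu r m ^ x = Q.Gu r m ^ x.natAbs := by
        rw [← zpow_natCast, Int.natAbs_of_nonneg hx.le]
      rw [h6]
      congr 1
      rw [QP.Gu, cf, mul_comm, inv_pow]
    rw [h5]
    push_cast
    rfl
  · rw [decide_eq_false hx]
    have h4 : aeval (emb r b (Im Q r)) ((C (((cf Q r false : A)) ^ 2) *
        (Q.interp r fun m => (((Q.fu m)⁻¹ : Aˣ) : A)) ^ 2) ^ x.natAbs) =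
        (T Q r false b) ^ x.natAbs := by
      generalize hc : ((cf Q r false : A)) ^ 2 = c
      rw [map_pow, map_mul, map_pow, aeval_C, aeval_emb r he, h3.2.2, ← Algebra.smul_def, pow_two
        (emb r b (Rn Q r)), ← hc]
      rfl
    rw [← h4]
    refine h2 _ _ (pol_emb Q r he hs hG b) _ _ ?_
    intro m hm
    rw [P, h1 _ m hm, eval_pow, eval_mul, eval_pow, eval_C, h1 _ m hm]
    have h5 : Q.Gu r m ^ x = ((cf Q r false) ^ 2 * ((Q.fu m)⁻¹) ^ 2) ^ x.natAbs := by
      have h6 : Q.Gu r m ^ x = (Q.Gu r m)⁻¹ ^ x.natAbs := by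
        have h7 : x = -((x.natAbs : ℕ) : ℤ) := by omega
        conv_lhs => rw [h7]
        rw [zpow_neg, zpow_natCast, inv_pow]
      have h8 : (Q.Gu r m)⁻¹ = (cf Q r false) ^ 2 * ((Q.fu m)⁻¹) ^ 2 := by
        rw [QP.Gu, cf, mul_inv, inv_inv, mul_comm, inv_pow]
      rw [h6, h8]
    rw [h5]
    push_cast
    rfl

/-! ### Words -/

/-- the operators -/
noncomputable def Iop (b : Bool) : Module.End A (Lb r × Lb r × Lb r → A) :=
  Matrix.toLinAlgEquiv' (emb r b (Im Q r))

theorem Iop_apply (b : Bool) (v : Lb r × Lb r × Lb r → A) :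
    Iop Q r b v = emb r b (Im Q r) *ᵥ v := rfl

theorem aeval_Iop (b : Bool) (p : A[X]) (v : Lb r × Lb r × Lb r → A) :
    aeval (Iop Q r b) p v = aeval (emb r b (Im Q r)) p *ᵥ v := by
  unfold Iop
  rw [Polynomial.aeval_algHom_apply]
  rfl

/-- processing a word from the first letter -/
noncomputable def Fw : Bool → List ℤ → (Lb r × Lb r × Lb r → A) → (Lb r × Lb r × Lb r → A)
  | _, [], v => v
  | b, a :: l, v => Fw (!b) l (aeval (Iop Q r b) (P Q r a) v)

/-- processing a word of polynomials from the last letter -/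
noncomputable def Wg (v : Lb r × Lb r × Lb r → A) :
    Bool → List A[X] → (Lb r × Lb r × Lb r → A)
  | _, [] => v
  | b, p :: l => aeval (Iop Q r b) p (Wg v (!b) l)

theorem Wg_append (v : Lb r × Lb r × Lb r → A) (b : Bool) (l : List A[X]) (p : A[X]) :
    Wg Q r v b (l ++ [p]) =
      Wg Q r (aeval (Iop Q r (xor b l.length.bodd)) p v) b l := by
  induction l generalizing b with
  | nil => simp [Wg]
  | cons q l ih =>
    have h1 : xor b (q :: l).length.bodd = xor (!b) l.length.bodd := by
      rw [List.length_cons, Nat.bodd_succ]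
      cases b <;> cases l.length.bodd <;> rfl
    rw [List.cons_append, Wg, Wg, ih, h1]

theorem Fw_eq (c : Bool) (x : List ℤ) (v : Lb r × Lb r × Lb r → A) :
    Fw Q r c x v = Wg Q r v (xor c (!x.length.bodd)) (x.reverse.map (P Q r)) := by
  induction x generalizing c v with
  | nil => rfl
  | cons a l ih =>
    rw [Fw, ih, List.reverse_cons, List.map_append, List.map_singleton, Wg_append]
    have h1 : xor (!c) (!l.length.bodd) = xor c (!(a :: l).length.bodd) := by
      rw [List.length_cons, Nat.bodd_succ]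
      cases c <;> cases l.length.bodd <;> rfl
    have h2 : xor (xor c (!(a :: l).length.bodd)) (l.reverse.map (P Q r)).length.bodd = c := by
      rw [List.length_map, List.length_reverse, List.length_cons, Nat.bodd_succ]
      cases c <;> cases l.length.bodd <;> rfl
    rw [h1, h2]

theorem st_append (w w' : Diag) (ψ : List (SL r) → A) :
    (tdata Q r).st (w ++ w') ψ = (tdata Q r).st w' ((tdata Q r).st w ψ) := by
  induction w generalizing ψ with
  | nil => rfl
  | cons c w ih =>
    rw [List.cons_append, TData.st, TData.st, ih]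

theorem pos_not (b : Bool) : 1 - pos b = pos (!b) := by
  cases b <;> rfl

theorem rel_twd (he : EMB_Stmt) (hs : SPEC_Stmt) (hf : FC_Stmt) (hp : RPR_Stmt) (hG : Q.Gen r)
    (x : List ℤ) (b : Bool) {ψ : List (SL r) → A} {v : Lb r × Lb r × Lb r → A}
    (h : Rel r ψ v) : Rel r ((tdata Q r).st (twd (pos b) x) ψ) (Fw Q r b x v) := by
  induction x generalizing b ψ v with
  | nil => exact h
  | cons a l ih =>
    rw [twd, st_append, pos_not, Fw]
    refine ih (!b) ?_
    rw [aeval_Iop, region Q r he hs hf hG, tw]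
    exact rel_pow Q r hp _ b a.natAbs h

/-! ### The vectors -/

/-- the minimum -/
def Om : Lb r × Lb r × Lb r → A := fun t =>
  if t.1 = Lb.zero r then cupv Q r t.2.1 t.2.2 else 0

/-- the maximum -/
noncomputable def Om' : (Lb r × Lb r × Lb r → A) →ₗ[A] A where
  toFun v := ∑ a, ∑ b, capv Q r a b * v (a, b, Lb.zero r)
  map_add' v w := by
    rw [← Finset.sum_add_distrib]
    refine Finset.sum_congr rfl fun a _ => ?_
    rw [← Finset.sum_add_distrib]
    refine Finset.sum_congr rfl fun b _ => ?_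
    rw [Pi.add_apply, mul_add]
  map_smul' c v := by
    simp only [Pi.smul_apply, smul_eq_mul, RingHom.id_apply, Finset.mul_sum]
    refine Finset.sum_congr rfl fun a _ => Finset.sum_congr rfl fun b _ => ?_
    ring

theorem Om'_apply (v : Lb r × Lb r × Lb r → A) :
    Om' Q r v = ∑ a, ∑ b, capv Q r a b * v (a, b, Lb.zero r) := rfl

theorem rel_zero : Rel r ((tdata Q r).ap .cup 1 (fun l => if l = [s0 r] then 1 else 0))
    (Om Q r) := by
  have h0 : ∀ a b c : SL r, (tdata Q r).ap .cup 1 (fun l => if l = [s0 r] then (1 : A) else 0)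
      [a, b, c] = (tdata Q r).cup b c * (if [a] = [s0 r] then 1 else 0) := fun _ _ _ => rfl
  refine ⟨?_, ?_, ?_⟩
  · intro a b c
    rw [h0]
    have h1 : (tdata Q r).cup (b, false) (c, true) = cupv Q r b.1 c.1 := by
      simp [tdata]
    rw [h1, Om]
    by_cases ha : a.1 = Lb.zero r
    · have h2 : [((a, true) : SL r)] = [s0 r] := by
        have : a = ⟨Lb.zero r, Lb.par_zero r⟩ := Subtype.ext ha
        rw [this]
        rfl
      rw [if_pos h2, if_pos ha, mul_one]
    · have h2 : [((a, true) : SL r)] ≠ [s0 r] := by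
        intro h
        apply ha
        have h3 := List.head_eq_of_cons_eq h
        exact congrArg (fun t : SL r => t.1.1) h3
      rw [if_neg h2, if_neg ha, mul_zero]
  · intro a b c ha
    rw [h0, if_neg, mul_zero]
    intro h
    have h3 := List.head_eq_of_cons_eq h
    rw [h3] at ha
    exact Bool.noConfusion ha
  · intro a b c ha
    rw [Om, if_neg]
    intro h
    have h1 : a = Lb.zero r := h
    rw [h1, Lb.par_zero] at ha
    exact Bool.noConfusion ha

theorem J_eq (he : EMB_Stmt) (hs : SPEC_Stmt) (hf : FC_Stmt) (hp : RPR_Stmt) (hc : CUP_Stmt)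
    (hr : Even r) (hG : Q.Gen r) (x : List ℤ) :
    (tdata Q r).J (s0 r) (kdiag x) = Om' Q r (Fw Q r true x (Om Q r)) := by
  have h := rel_twd Q r he hs hf hp hG x true (rel_zero Q r)
  set Φ := (tdata Q r).st (twd (pos true) x)
    ((tdata Q r).ap .cup 1 (fun l => if l = [s0 r] then 1 else 0)) with hΦ
  set v := Fw Q r true x (Om Q r) with hv
  have h1 : (tdata Q r).J (s0 r) (kdiag x) =
      ∑ a, ∑ b, (tdata Q r).cap a b * Φ [a, b, s0 r] := by
    rw [hΦ]
    unfold TData.J kdiag
    rw [TData.st, st_append]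
    rfl
  rw [h1, Om'_apply]
  have h2 : ∑ a, ∑ b, (tdata Q r).cap a b * Φ [a, b, s0 r] =
      ∑ a : Ev r, ∑ b : Ev r, capv Q r a.1 b.1 * v (a.1, b.1, Lb.zero r) := by
    rw [Fintype.sum_prod_type]
    refine Finset.sum_congr rfl fun a _ => ?_
    rw [Fintype.sum_bool]
    have h3 : ∑ b, (tdata Q r).cap (a, false) b * Φ [(a, false), b, s0 r] = 0 :=
      Finset.sum_eq_zero fun b _ => by rw [h.ori (a, false) b (s0 r) rfl, mul_zero]
    rw [h3, add_zero, Fintype.sum_prod_type]
    refine Finset.sum_congr rfl fun b _ => ?_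
    rw [Fintype.sum_bool]
    have h4 : (tdata Q r).cap (a, true) (b, true) = 0 := by simp [tdata]
    have h5 : (tdata Q r).cap (a, true) (b, false) = capv Q r a.1 b.1 := by simp [tdata]
    rw [h4, h5, zero_mul, zero_add]
    have h6 := h.val a b ⟨Lb.zero r, Lb.par_zero r⟩
    rw [← h6]
    rfl
  rw [h2]
  have hcc := hc A Q r hr
  have h7 : ∀ a : Ev r, ∑ b : Ev r, capv Q r a.1 b.1 * v (a.1, b.1, Lb.zero r) =
      ∑ b : Lb r, capv Q r a.1 b * v (a.1, b, Lb.zero r) := by
    intro a
    refine sum_Ev r (fun b => capv Q r a.1 b * v (a.1, b, Lb.zero r)) ?_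
    intro b hb
    have h8 : b ≠ a.1.compl := by
      intro h9
      rw [h9, hcc.2.2.2.2, a.2] at hb
      exact Bool.noConfusion hb
    rw [(hcc.1 a.1 b h8).2, zero_mul]
  simp only [h7]
  refine sum_Ev r (fun a => ∑ b : Lb r, capv Q r a b * v (a, b, Lb.zero r)) ?_
  intro a ha
  refine Finset.sum_eq_zero fun b _ => ?_
  rw [h.par a b _ ha, mul_zero]

/-! ### The hypotheses of UNV -/

theorem I1_Om (ht : TOP_Stmt) : Iop Q r false (Om Q r) = Q.lam r • Om Q r := by
  funext t
  obtain ⟨a, b, c⟩ := t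
  rw [Iop_apply, Pi.smul_apply]
  show (emb23 (Im Q r) *ᵥ Om Q r) (a, b, c) = _
  rw [emb23_mulVec]
  by_cases ha : a = Lb.zero r
  · simp only [Om, if_pos ha, smul_eq_mul]
    exact (ht A Q r).1 b c
  · simp only [Om, if_neg ha, mul_zero, Finset.sum_const_zero, smul_zero]

theorem Om'_I2 (ht : TOP_Stmt) (v : Lb r × Lb r × Lb r → A) :
    Om' Q r (Iop Q r true v) = Q.lam r * Om' Q r v := by
  have h0 : ∀ a b : Lb r, ∑ x, ∑ y, capv Q r x y * Im Q r (x, y) (a, b) =
      Q.lam r * capv Q r a b := by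
    intro a b
    have h1 := (ht A Q r).2.1 a b
    simp only [capv, mul_assoc, ← Finset.mul_sum]
    rw [h1]
    ring
  rw [Om'_apply, Om'_apply]
  have h1 : ∀ a b : Lb r, Iop Q r true v (a, b, Lb.zero r) =
      ∑ a', ∑ b', Im Q r (a, b) (a', b') * v (a', b', Lb.zero r) := by
    intro a b
    rw [Iop_apply]
    exact emb12_mulVec (Im Q r) v a b (Lb.zero r)
  simp only [h1, Finset.mul_sum]
  have h2 : ∀ a : Lb r, ∑ b, ∑ a', ∑ b', capv Q r a b * (Im Q r (a, b) (a', b') *
      v (a', b', Lb.zero r)) = ∑ a', ∑ b', ∑ b, capv Q r a b * (Im Q r (a, b) (a', b') *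
      v (a', b', Lb.zero r)) := by
    intro a
    rw [Finset.sum_comm]
    refine Finset.sum_congr rfl fun a' _ => ?_
    rw [Finset.sum_comm]
  simp only [h2]
  rw [Finset.sum_comm]
  refine Finset.sum_congr rfl fun a' _ => ?_
  rw [Finset.sum_comm]
  refine Finset.sum_congr rfl fun b' _ => ?_
  rw [← mul_assoc, ← h0 a' b', Finset.sum_mul]
  refine Finset.sum_congr rfl fun a _ => ?_
  rw [Finset.sum_mul]
  refine Finset.sum_congr rfl fun b _ => ?_
  ring

theorem Om'_Om (hc : CUP_Stmt) (hr : Even r) : Om' Q r (Om Q r) = 1 := by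
  rw [Om'_apply, Finset.sum_eq_single (Lb.zero r)]
  · simp only [Om, if_true]
    have h1 := (hc A Q r hr).2.2.2.1 (Lb.zero r) (Lb.zero r) (Lb.par_zero r)
    rw [if_pos rfl] at h1
    exact h1
  · intro a _ ha
    refine Finset.sum_eq_zero fun b _ => ?_
    simp only [Om, if_neg ha, mul_zero]
  · intro h
    exact (h (Finset.mem_univ _)).elim

theorem aeval_eig {M : Type} [AddCommGroup M] [Module A M] (I : Module.End A M) (u : M) (μ : A)
    (h : I u = μ • u) (p : A[X]) : aeval I p u = p.eval μ • u := by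
  induction p using Polynomial.induction_on' with
  | add p q hp hq => rw [map_add, LinearMap.add_apply, hp, hq, eval_add, add_smul]
  | monomial n a =>
    rw [aeval_monomial, eval_monomial, Module.End.mul_apply, Module.algebraMap_end_apply, mul_smul]
    congr 1
    induction n with
    | zero => simp
    | succ n ih =>
      rw [pow_succ, Module.End.mul_apply, h, map_smul, ih, smul_smul, pow_succ, mul_comm]

theorem rel_End (hr : REL_Stmt) :
    Iop Q r true * Iop Q r true * Iop Q r false -
        Q.two • (Iop Q r true * Iop Q r false * Iop Q r true) +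
        Iop Q r false * Iop Q r true * Iop Q r true = -Iop Q r false ∧
      Iop Q r false * Iop Q r false * Iop Q r true -
        Q.two • (Iop Q r false * Iop Q r true * Iop Q r false) +
        Iop Q r true * Iop Q r false * Iop Q r false = -Iop Q r true := by
  obtain ⟨h1, h2⟩ := hr A Q r
  constructor
  · have h3 := congrArg (Matrix.toLinAlgEquiv' (R := A) (n := Lb r × Lb r × Lb r)) h1
    simp only [map_add, map_sub, map_mul, map_smul, map_neg] at h3
    exact h3
  · have h3 := congrArg (Matrix.toLinAlgEquiv' (R := A) (n := Lb r × Lb r × Lb r)) h2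
    simp only [map_add, map_sub, map_mul, map_smul, map_neg] at h3
    exact h3

theorem I1_I2_Om [IsDomain A] (he : EMB_Stmt) (hbk : BRK_Stmt) (hr : REL_Stmt) (hs : SPEC_Stmt)
    (ht : TOP_Stmt) (hG : Q.Gen r) (hR : Q.Reg r) :
    Iop Q r false (Iop Q r true (Om Q r)) = Q.lam (r - 1) • Iop Q r true (Om Q r) := by
  have h1 := I1_Om Q r ht
  have h2 := LinearMap.congr_fun (rel_End Q r hr).2 (Om Q r)
  set I1 := Iop Q r false with hI1
  set I2 := Iop Q r true with hI2
  simp only [LinearMap.add_apply, LinearMap.sub_apply, LinearMap.smul_apply, LinearMap.neg_apply,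
    Module.End.mul_apply, h1, map_smul] at h2
  set w := I2 (Om Q r) with hw
  -- sum and product of the neighbouring eigenvalues
  obtain ⟨-, -, -, -, -, hb1, hb2, -, -, -⟩ := hbk A Q
  have hsum : Q.lam (r + 1) + Q.lam (r - 1) = Q.two * Q.lam r := by
    have h3 := hb1 r
    unfold QP.lam
    rw [← mul_add, h3]
    ring
  have hprod : Q.lam (r + 1) * Q.lam (r - 1) = Q.lam r ^ 2 + 1 := by
    have h3 := hb2 r
    have h4 := Q.hi
    unfold QP.lam
    linear_combination (Q.br (r + 1) * Q.br (r - 1) - Q.br r ^ 2) * h4 + h3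
  set u := I1 w - Q.lam (r - 1) • w with hu
  have h5 : I1 u = Q.lam (r + 1) • u := by
    have h6 : I1 (I1 w) = (Q.two * Q.lam r) • I1 w - (Q.lam r ^ 2 + 1) • w := by
      have h7 : I1 (I1 w) - Q.two • Q.lam r • I1 w + Q.lam r • Q.lam r • w = -w := h2
      rw [smul_smul, smul_smul] at h7
      have h8 : I1 (I1 w) = (Q.two * Q.lam r) • I1 w - (Q.lam r * Q.lam r) • w - w := by
        rw [eq_sub_iff_add_eq, eq_sub_iff_add_eq]
        rw [add_comm (I1 (I1 w)) w, add_assoc, ← sub_eq_zero]
        rw [← sub_eq_zero] at h7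
        rw [← h7]
        abel
      rw [h8, add_smul, one_smul, pow_two]
      abel
    rw [hu, map_sub, map_smul, h6, ← hsum, ← hprod, smul_sub, smul_smul, add_smul]
    abel
  have h9 := aeval_eig I1 u _ h5 (Q.pol r)
  have h10 : aeval I1 (Q.pol r) u = 0 := by
    rw [hI1, aeval_Iop, pol_emb Q r he hs hG false, Matrix.zero_mulVec]
  rw [h10] at h9
  have h11 : (Q.pol r).eval (Q.lam (r + 1)) ≠ 0 := by
    rw [QP.pol, eval_prod, Finset.prod_ne_zero_iff]
    intro m hm
    rw [eval_sub, eval_X, eval_C]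
    exact sub_ne_zero.2 (Ne.symm (hR m hm).1)
  have h12 : u = 0 := by
    funext t
    have h13 := congrFun h9 t
    rw [Pi.zero_apply, Pi.smul_apply, smul_eq_mul] at h13
    rcases mul_eq_zero.1 h13.symm with h14 | h14
    · exact (h11 h14).elim
    · exact h14
  rw [hu] at h12
  exact sub_eq_zero.1 h12

end Fun

end VAL

open VAL in
theorem val (he : EMB_Stmt) (hbk : BRK_Stmt) (hr : REL_Stmt) (hs : SPEC_Stmt) (hf : FC_Stmt)
    (ht : TOP_Stmt) (hp : RPR_Stmt) (hc : CUP_Stmt) (hu : UNV_Stmt) : VAL_Stmt := by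
  intro A _ _ Q r hre hG hR x hx
  rw [J_eq Q r he hs hf hp hc hre hG, Fw_eq]
  have hb : xor true (!x.length.bodd) = false := by
    have h1 : x.length.bodd = false := by
      have h2 := Nat.mod_two_of_bodd x.length
      rw [Nat.even_iff.1 hx] at h2
      cases hb : x.length.bodd
      · rfl
      · rw [hb] at h2
        simp at h2
    rw [h1]
    rfl
  rw [hb]
  have h1 := rel_End Q r hr
  exact hu A Q.two (Q.lam r) (Q.lam (r - 1)) (Lb r × Lb r × Lb r → A) (Iop Q r false)
    (Iop Q r true) (Om Q r) (Om' Q r) (I1_Om Q r ht)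
    (I1_I2_Om Q r he hbk hr hs ht hG hR)
    (by
      intro k
      have h2 := LinearMap.congr_fun h1.1 ((Iop Q r true ^ k) (Om Q r))
      simp only [LinearMap.add_apply, LinearMap.sub_apply, LinearMap.smul_apply,
        LinearMap.neg_apply, Module.End.mul_apply] at h2
      rw [pow_succ', pow_succ', Module.End.mul_apply, Module.End.mul_apply]
      rw [eq_sub_iff_add_eq, eq_sub_iff_add_eq, ← sub_eq_zero]
      rw [← sub_eq_zero] at h2
      rw [← h2]
      abel)
    (Om'_I2 Q r ht) (Om'_Om Q r hc hre) (Wg Q r (Om Q r)) (fun b => by cases b <;> rfl)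
    (fun p l => rfl) (fun p l => rfl) (x.reverse.map (P Q r))

end Pool.Agent.TB
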