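import Pool.Agent.TB.Defs

/-!
Finite type invariants of 2-bridge knots: definitions, second part (the model at a root of unity).
See PAPER.md in this folder.
-/

open Polynomial
open scoped BigOperators Real

namespace Pool.Agent.TB

/-! ### 5. Parameters -/

/-- the unit `i` of `ℂ` -/
noncomputable def iC : ℂˣ := Units.mk0 Complex.I Complex.I_ne_zero

/-- the complex parameter `s0` -/
noncomputable def QC (s0 : ℂˣ) : QP ℂ where
  s := s0
  i := iC
  hi := by simp [iC]

theorem isUnit_oneAddX : IsUnit (1 + PowerSeries.X : PowerSeries ℂ) := by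
  rw [PowerSeries.isUnit_iff_constantCoeff]; simp

/-- the parameter `s = 1 + h` over the power series -/
noncomputable def QPS : QP (PowerSeries ℂ) where
  s := isUnit_oneAddX.unit
  i := Units.map ((PowerSeries.C : ℂ →+* PowerSeries ℂ) : ℂ →* PowerSeries ℂ) iC
  hi := by
    simp only [Units.coe_map, MonoidHom.coe_coe, iC, Units.val_mk0]
    rw [← map_mul, Complex.I_mul_I, map_neg, map_one]

/-- the parameter `s = s0 (1 + η/2)`, so `q = s0² (1 + η)`, over the dual numbers -/
noncomputable def QD (s0 : ℂˣ) : QP (DualNumber ℂ) where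
  s :=
    { val := TrivSqZeroExt.inl (s0 : ℂ) + TrivSqZeroExt.inr ((s0 : ℂ) / 2)
      inv := TrivSqZeroExt.inl ((s0 : ℂ)⁻¹) - TrivSqZeroExt.inr ((s0 : ℂ)⁻¹ / 2)
      val_inv := by
        ext
        · simp
        · simp; field_simp; ring
      inv_val := by
        ext
        · simp
        · simp; field_simp; ring }
  i := Units.map ((TrivSqZeroExt.inlHom ℂ ℂ : ℂ →+* DualNumber ℂ) : ℂ →* DualNumber ℂ) iC
  hi := by
    simp only [Units.coe_map, MonoidHom.coe_coe, iC, Units.val_mk0]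
    rw [← map_mul, Complex.I_mul_I, map_neg, map_one]

/-! ### 6. Functions on `ℤ/2n` -/

section Torus

variable (n : ℕ) [NeZero n] (ι : ℤ)

/-- `s_0 = exp(π i ι / (2n))`, so `q_0 = ζ = exp(π i ι / n)` -/
noncomputable def sz : ℂˣ :=
  Units.mk0 (Complex.exp (π * Complex.I * ι / (2 * n))) (Complex.exp_ne_zero _)

/-- `ζ^k`, `ζ = exp(π i ι / n)` -/
noncomputable def zt (k : ZMod (2 * n)) : ℂ := ZMod.stdAddChar ((ι : ZMod (2 * n)) * k)

/-- complex functions on `ℤ/2n` -/
abbrev Fn : Type := ZMod (2 * n) → ℂ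

/-- the sawtooth function `((a/n))` -/
noncomputable def saw (a : ℤ) : ℂ :=
  if (n : ℤ) ∣ a then 0 else ((a % (n : ℤ) : ℤ) : ℂ) / n - 1 / 2

/-- `c (c - n)` for the representative `0 ≤ c < n` of `u` modulo `n` -/
noncomputable def bq (u : ZMod (2 * n)) : ℂ :=
  ((u.val % n : ℕ) : ℂ) * (((u.val % n : ℕ) : ℂ) - n)

/-- the Weyl operator `(T f)(u) = ζ^(2ab+2au) f(u+2b)` -/
noncomputable def Tt (a b : ℤ) : Module.End ℂ (Fn n) where
  toFun f := fun u => zt n ι (2 * a * b + 2 * a * u) * f (u + 2 * b)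
  map_add' f g := by funext u; simp [mul_add]
  map_smul' c f := by funext u; simp; ring

/-- multiplication by a function -/
noncomputable def mulo (g : Fn n) : Module.End ℂ (Fn n) where
  toFun f := fun u => g u * f u
  map_add' f g := by funext u; simp [mul_add]
  map_smul' c f := by funext u; simp; ring

/-- the operator with the eigenvalue `g k` on `u ↦ ζ^(ku)` -/
noncomputable def cono (g : Fn n) : Module.End ℂ (Fn n) where
  toFun f := fun u => (1 / (2 * n : ℂ)) * ∑ k, ∑ v, g k * zt n ι (k * (u - v)) * f v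
  map_add' f g := by
    funext u; simp only [Pi.add_apply, mul_add, Finset.sum_add_distrib]
  map_smul' c f := by
    funext u
    simp only [Pi.smul_apply, smul_eq_mul, RingHom.id_apply, Finset.mul_sum]
    refine Finset.sum_congr rfl fun k _ => Finset.sum_congr rfl fun v _ => ?_
    ring

/-- the chirp `f(u) ↦ ζ^(a u²) f(u)` -/
noncomputable def Cc (a : ℤ) : Module.End ℂ (Fn n) := mulo n fun u => zt n ι (a * u ^ 2)

/-- the chirp in the Fourier transform -/
noncomputable def Dc (a : ℤ) : Module.End ℂ (Fn n) := cono n ι fun k => zt n ι (a * k ^ 2)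

/-- the operator `Θ/η = n Σ ((a/n)) ((b/n)) T_(a,b)` -/
noncomputable def Th : Module.End ℂ (Fn n) :=
  (n : ℂ) • ∑ a ∈ Finset.range n, ∑ b ∈ Finset.range n, (saw n a * saw n b) • Tt n ι a b

/-- the vector `G(I_1)^{x_1} G(I_2)^{x_2} ... Ω`, value and coefficient of `η` -/
noncomputable def vec : Bool → List ℤ → Fn n × Fn n
  | _, [] => (1, -(Th n ι 1))
  | false, a :: l =>
      (Dc n ι a (vec true l).1,
        Dc n ι a ((vec true l).2 + Th n ι (vec true l).1) +
          (a : ℂ) • cono n ι (bq n) (Dc n ι a (vec true l).1) - Th n ι (Dc n ι a (vec true l).1))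
  | true, a :: l =>
      (Cc n ι a (vec false l).1,
        Cc n ι a (vec false l).2 + (a : ℂ) • mulo n (bq n) (Cc n ι a (vec false l).1))

/-- the vector `W_{≤ j} O W_{> j} 1` (zeroth order) -/
noncomputable def ins (O : Module.End ℂ (Fn n)) : Bool → List ℤ → ℕ → Fn n
  | b, l, 0 => O (vec n ι b l).1
  | _, [], _ + 1 => 0
  | false, a :: l, j + 1 => Dc n ι a (ins O true l j)
  | true, a :: l, j + 1 => Cc n ι a (ins O false l j)

/-- the operator `O0 + η O1` on functions with values in the dual numbers -/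
noncomputable def lift2 (O0 O1 : Module.End ℂ (Fn n)) :
    Module.End (DualNumber ℂ) (ZMod (2 * n) → DualNumber ℂ) where
  toFun f := fun u => TrivSqZeroExt.inl (O0 (fun v => (f v).fst) u) +
    TrivSqZeroExt.inr (O0 (fun v => (f v).snd) u + O1 (fun v => (f v).fst) u)
  map_add' f g := by
    have h0 : (fun v => (f v).fst + (g v).fst) = (fun v => (f v).fst) + fun v => (g v).fst := rfl
    have h1 : (fun v => (f v).snd + (g v).snd) = (fun v => (f v).snd) + fun v => (g v).snd := rfl
    funext u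
    ext
    · simp [h0]
    · simp only [Pi.add_apply, TrivSqZeroExt.fst_add, TrivSqZeroExt.snd_add, h0, h1, map_add,
        TrivSqZeroExt.snd_inl, TrivSqZeroExt.snd_inr]
      ring
  map_smul' c f := by
    have h0 : (fun v => c.fst * (f v).fst) = c.fst • fun v => (f v).fst := rfl
    have h1 : (fun v => c.fst * (f v).snd + c.snd * (f v).fst) =
      (c.fst • fun v => (f v).snd) + c.snd • fun v => (f v).fst := rfl
    funext u
    ext
    · simp [h0]
    · have h2 : (fun v => c.fst * (f v).snd + (f v).fst * c.snd) =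
        (c.fst • fun v => (f v).snd) + c.snd • fun v => (f v).fst := by
        funext v
        simp [mul_comm]
      have h3 : (fun v => (c * f v).fst) = c.fst • fun v => (f v).fst := by
        funext v
        simp [TrivSqZeroExt.fst_mul]
      simp only [Pi.smul_apply, smul_eq_mul, RingHom.id_apply, h3, map_smul,
        TrivSqZeroExt.snd_add, TrivSqZeroExt.snd_inl, TrivSqZeroExt.snd_inr,
        TrivSqZeroExt.fst_add, TrivSqZeroExt.fst_inl, TrivSqZeroExt.fst_inr,
        TrivSqZeroExt.snd_mul, op_smul_eq_smul]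
      simp only [h2, map_add, map_smul, Pi.add_apply, Pi.smul_apply, smul_eq_mul]
      ring

/-- `min(u, 2n - u)` for the representative `0 ≤ u < 2n` -/
def cc (u : ZMod (2 * n)) : ℤ := (u.valMinAbs.natAbs : ℤ)

/-- `h(v) = Σ_a ((a/n)) ζ^(2av)` -/
noncomputable def hh (v : ZMod (2 * n)) : ℂ :=
  ∑ a ∈ Finset.range n, saw n a * zt n ι (2 * a * v)

/-- `(Y + Y⁻¹) f (u) = f(u+1) + f(u-1)` -/
noncomputable def Yy : Module.End ℂ (Fn n) where
  toFun f := fun u => f (u + 1) + f (u - 1)
  map_add' f g := by funext u; simp; ring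
  map_smul' c f := by funext u; simp; ring

end Torus

/-! ### 7. Chains and quadratic forms -/

/-- the determinant -/
def det2 (u v : ℤ × ℤ) : ℤ := u.1 * v.2 - u.2 * v.1

/-- `g_0 = (1,0)`, `g_1 = (0,1)`, `g_(i+1) = g_(i-1) + (-1)^(i-1) 2 x_i g_i`
(here `x_i = x.getD (i-1) 0`) -/
def chain (x : List ℤ) : ℕ → ℤ × ℤ
  | 0 => (1, 0)
  | 1 => (0, 1)
  | i + 2 => chain x i + ((-1) ^ i * 2 * x.getD i 0) • chain x (i + 1)

/-- the last vector of the chain, `(A, d)`: `|d|` is the determinant of the knot -/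
def lastv (x : List ℤ) : ℤ × ℤ := chain x (x.length + 1)

/-- `N(R) = ⟨g_0,R⟩ ⟨R,V⟩`, `V` the last vector of the chain -/
def Nf (x : List ℤ) (R : ℤ × ℤ) : ℤ := det2 (1, 0) R * det2 R (lastv x)

section Sums

variable (n : ℕ) [NeZero n]

/-- `cot(π a/n)`, zero for `a = 0` -/
noncomputable def ct (a : ZMod n) : ℂ := ((Real.cot (π * a.val / n) : ℝ) : ℂ)

/-- `⟨R,g⟩` modulo `n` -/
def detm (R : ZMod n × ZMod n) (g : ℤ × ℤ) : ZMod n := R.1 * g.2 - R.2 * g.1

/-- `N(R)` modulo `n` -/
def Nm (x : List ℤ) (R : ZMod n × ZMod n) : ZMod n := R.2 * detm n R (lastv x)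

/-- the sums `S_x(n, κ)` -/
noncomputable def Sx (x : List ℤ) (κ : ZMod n) : ℂ :=
  (1 / 2) * ∑ i ∈ Finset.range x.length, ((x.getD i 0 : ℤ) : ℂ) *
      ∑ ρ ∈ Finset.Ico 1 n, ((1 / Real.sin (π * ρ / n) ^ 2 : ℝ) : ℂ) *
        ZMod.stdAddChar (κ * (ρ : ZMod n) ^ 2 * (Nf x (chain x (i + 1)) : ZMod n)) +
  (1 / 4) * ∑ j ∈ Finset.range (x.length + 1), (-1 : ℂ) ^ j *
      ∑ R : ZMod n × ZMod n, ct n (detm n R (chain x j)) * ct n (detm n R (chain x (j + 1))) *
        ZMod.stdAddChar (κ * Nm n x R)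

/-- the sums over `N(R) = N_0` modulo `n` -/
noncomputable def Zs (x : List ℤ) (N0 : ZMod n) : ℂ :=
  ∑ j ∈ Finset.range (x.length + 1), (-1 : ℂ) ^ j *
    ∑ R : ZMod n × ZMod n, if Nm n x R = N0 then
      ct n (detm n R (chain x j)) * ct n (detm n R (chain x (j + 1))) else 0

end Sums

end Pool.Agent.TB
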