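import Pool.Agent.TB.Stmts

/-!
FC: functional calculus. Lagrange interpolation over a commutative ring with unit differences.
-/

open Polynomial
open scoped BigOperators

namespace Pool.Agent.TB

namespace FC

variable {A : Type} [CommRing A] (Q : QP A) {r : ℕ}

theorem eval_basis_self (h : Q.Gen r) {m : ℤ} (hm : m ∈ Finset.Icc (-(r : ℤ)) r) :
    (Q.basis r m).eval (Q.lam m) = 1 := by
  rw [QP.basis, eval_prod]
  refine Finset.prod_eq_one fun m' hm' => ?_
  rw [Finset.mem_erase] at hm'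
  rw [eval_mul, eval_C, eval_sub, eval_X, eval_C]
  exact Ring.inverse_mul_cancel _ (h m hm m' hm'.2 (Ne.symm hm'.1))

theorem eval_basis_ne {m m' : ℤ} (hm : m ∈ Finset.Icc (-(r : ℤ)) r) (hne : m ≠ m') :
    (Q.basis r m').eval (Q.lam m) = 0 := by
  rw [QP.basis, eval_prod]
  refine Finset.prod_eq_zero (i := m) (Finset.mem_erase.2 ⟨hne, hm⟩) ?_
  rw [eval_mul, eval_sub, eval_X, eval_C, eval_C, sub_self, mul_zero]

theorem eval_interp (h : Q.Gen r) (g : ℤ → A) {m : ℤ} (hm : m ∈ Finset.Icc (-(r : ℤ)) r) :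
    (Q.interp r g).eval (Q.lam m) = g m := by
  rw [QP.interp, eval_finsetSum, Finset.sum_eq_single m]
  · rw [eval_mul, eval_C, eval_basis_self Q h hm, mul_one]
  · intro m' _ hne
    rw [eval_mul, eval_basis_ne Q hm (Ne.symm hne), mul_zero]
  · intro h'
    exact absurd hm h'

theorem pol_dvd (h : Q.Gen r) (P : A[X])
    (hP : ∀ m ∈ Finset.Icc (-(r : ℤ)) r, P.eval (Q.lam m) = 0) : Q.pol r ∣ P := by
  rw [QP.pol]
  refine Finset.prod_dvd_of_coprime ?_ ?_
  · intro m hm m' hm' hne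
    exact isCoprime_X_sub_C_of_isUnit_sub (h m hm m' hm' hne)
  · intro m hm
    exact dvd_iff_isRoot.2 (hP m hm)

end FC

theorem fc : FC_Stmt := by
  intro A _ Q r h
  refine ⟨fun g m hm => FC.eval_interp Q h g hm, ?_⟩
  intro E _ _ I hI P P' hPP
  obtain ⟨k, hk⟩ := FC.pol_dvd Q h (P - P') (fun m hm => by
    rw [eval_sub, hPP m hm, sub_self])
  have h1 : aeval I (P - P') = 0 := by
    rw [hk, map_mul, hI, zero_mul]
  rwa [map_sub, sub_eq_zero] at h1

end Pool.Agent.TB
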