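import Pool.Agent.TB.Stmts

/-!
Finite type invariants of 2-bridge knots: SPEC, the spectrum of `I` and the R-matrix as a function
of `I`.
-/

open Polynomial
open scoped BigOperators

namespace Pool.Agent.TB

namespace SPEC

variable {A : Type} [CommRing A]

/-! ### Vectors on two strands, one mode more -/

theorem sum_lb {r : ℕ} (F : Lb (r + 1) → A) :
    ∑ x, F x = ∑ x : Lb r, (F (x, true) + F (x, false)) := by
  have h : ∑ x : Lb r × Bool, F x = ∑ x : Lb r, ∑ y : Bool, F (x, y) :=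
    Fintype.sum_prod_type F
  refine Eq.trans ?_ (h.trans ?_)
  · rfl
  · refine Finset.sum_congr rfl fun x _ => ?_
    rw [Fintype.sum_bool]

theorem sum_lb2 {r : ℕ} (F : Lb (r + 1) × Lb (r + 1) → A) :
    ∑ c, F c = ∑ l : Lb r × Lb r, (F ((l.1, true), (l.2, true)) + F ((l.1, true), (l.2, false)) +
      F ((l.1, false), (l.2, true)) + F ((l.1, false), (l.2, false))) := by
  rw [Fintype.sum_prod_type, Fintype.sum_prod_type, sum_lb]
  refine Finset.sum_congr rfl fun x _ => ?_
  rw [sum_lb, sum_lb, ← Finset.sum_add_distrib]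
  refine Finset.sum_congr rfl fun y _ => ?_
  ring

/-- the vector `φ` with last modes `u, v` -/
def ten {r : ℕ} (u v : Bool) (φ : Lb r × Lb r → A) : Lb (r + 1) × Lb (r + 1) → A :=
  fun p => if p.1.2 = u ∧ p.2.2 = v then φ (p.1.1, p.2.1) else 0

theorem ten_add {r : ℕ} (u v : Bool) (φ ψ : Lb r × Lb r → A) :
    ten u v (φ + ψ) = ten u v φ + ten u v ψ := by
  funext p
  simp only [ten, Pi.add_apply]
  split_ifs <;> simp

theorem ten_smul {r : ℕ} (u v : Bool) (c : A) (φ : Lb r × Lb r → A) :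
    ten u v (c • φ) = c • ten u v φ := by
  funext p
  simp only [ten, Pi.smul_apply, smul_eq_mul]
  split_ifs <;> simp

theorem ten_zero {r : ℕ} (u v : Bool) : ten u v (0 : Lb r × Lb r → A) = 0 := by
  funext p
  simp [ten]

theorem mulVec_ten {r : ℕ} (M : Matrix (Lb (r + 1) × Lb (r + 1)) (Lb (r + 1) × Lb (r + 1)) A)
    (u v : Bool) (φ : Lb r × Lb r → A) (p : Lb (r + 1) × Lb (r + 1)) :
    (M.mulVec (ten u v φ)) p = ∑ l : Lb r × Lb r, M p ((l.1, u), (l.2, v)) * φ l := by
  show ∑ c, M p c * ten u v φ c = _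
  rw [sum_lb2]
  refine Finset.sum_congr rfl fun l _ => ?_
  cases u <;> cases v <;> simp [ten]

theorem Im_ten (Q : QP A) {r : ℕ} (u v : Bool) (φ : Lb r × Lb r → A) (x y : Lb r) (a b : Bool) :
    ((Im Q (r + 1)).mulVec (ten u v φ)) ((x, a), (y, b)) =
      (if a = u ∧ b = v then kinv Q a b * ((Im Q r).mulVec φ) (x, y) else 0) +
        bm A a b u v * φ (x, y) := by
  rw [mulVec_ten]
  have h1 : ∀ l : Lb r × Lb r, Im Q (r + 1) ((x, a), (y, b)) ((l.1, u), (l.2, v)) * φ l =
      (if a = u ∧ b = v then kinv Q a b * (Im Q r (x, y) l * φ l) else 0) +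
        (if l = (x, y) then bm A a b u v * φ l else 0) := by
    rintro ⟨l1, l2⟩
    have h2 : Im Q (r + 1) ((x, a), (y, b)) ((l1, u), (l2, v)) =
        (if a = u ∧ b = v then kinv Q a b * Im Q r (x, y) (l1, l2) else 0) +
        (if x = l1 ∧ y = l2 then bm A a b u v else 0) := rfl
    have h3 : ((l1, l2) = (x, y)) ↔ (x = l1 ∧ y = l2) := by
      rw [Prod.mk.injEq]
      exact ⟨fun h => ⟨h.1.symm, h.2.symm⟩, fun h => ⟨h.1.symm, h.2.symm⟩⟩
    rw [h2]
    simp only [h3]
    split_ifs <;> ring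
  rw [Finset.sum_congr rfl fun l _ => h1 l, Finset.sum_add_distrib, Finset.sum_ite_eq' Finset.univ,
    if_pos (Finset.mem_univ _)]
  congr 1
  split_ifs
  · rw [← Finset.mul_sum]
    rfl
  · rw [Finset.sum_const_zero]

theorem sum_mulVec {ι : Type} [Fintype ι] (M : Matrix ι ι A) (φ : ι → A) (x : ι) (c : A) :
    ∑ l, c * M x l * φ l = c * (M.mulVec φ) x := by
  show _ = c * ∑ l, M x l * φ l
  rw [Finset.mul_sum]
  exact Finset.sum_congr rfl fun l _ => by ring

theorem Rm_ten (Q : QP A) {r : ℕ} (u v : Bool) (φ : Lb r × Lb r → A) (x y : Lb r) (a b : Bool) :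
    ((Rm Q (r + 1)).mulVec (ten u v φ)) ((x, a), (y, b)) =
      match a, b, u, v with
      | false, false, false, false => ((Rm Q r).mulVec φ) (x, y)
      | true, true, true, true => ((Rm Q r).mulVec φ) (x, y)
      | false, true, true, false => (Q.s : A) * ((Rm Q r).mulVec φ) (x, y)
      | true, false, false, true => -(Q.s : A) * ((Rm Q r).mulVec φ) (x, y)
      | false, true, false, true =>
          (Q.s : A) * (Q.qp 1 - Q.qp (-1)) * ((Rm Q r).mulVec ((Im Q r).mulVec φ)) (x, y)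
      | _, _, _, _ => 0 := by
  rw [mulVec_ten, Matrix.mulVec_mulVec]
  have h0 : ∀ c : A, ∑ l, c * Rm Q r (x, y) l * φ l = c * ((Rm Q r).mulVec φ) (x, y) :=
    fun c => sum_mulVec _ _ _ _
  have h1 : ∀ c : A, ∑ l, c * (Rm Q r * Im Q r) (x, y) l * φ l =
      c * ((Rm Q r * Im Q r).mulVec φ) (x, y) := fun c => sum_mulVec _ _ _ _
  have h2 : ∑ l, Rm Q r (x, y) l * φ l = ((Rm Q r).mulVec φ) (x, y) := rfl
  cases a <;> cases b <;> cases u <;> cases v <;>
    simp only [Rm, zero_mul, Finset.sum_const_zero] <;>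
    first
      | exact h2
      | exact h0 _
      | exact h1 _

theorem Rn_ten (Q : QP A) {r : ℕ} (u v : Bool) (φ : Lb r × Lb r → A) (x y : Lb r) (a b : Bool) :
    ((Rn Q (r + 1)).mulVec (ten u v φ)) ((x, a), (y, b)) =
      match a, b, u, v with
      | false, false, false, false => ((Rn Q r).mulVec φ) (x, y)
      | true, true, true, true => ((Rn Q r).mulVec φ) (x, y)
      | false, true, true, false => -((Q.s⁻¹ : Aˣ) : A) * ((Rn Q r).mulVec φ) (x, y)
      | true, false, false, true => ((Q.s⁻¹ : Aˣ) : A) * ((Rn Q r).mulVec φ) (x, y)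
      | true, false, true, false =>
          ((Q.s⁻¹ : Aˣ) : A) * (Q.qp 1 - Q.qp (-1)) *
            ((Rn Q r).mulVec ((Im Q r).mulVec φ)) (x, y)
      | _, _, _, _ => 0 := by
  rw [mulVec_ten, Matrix.mulVec_mulVec]
  have h0 : ∀ c : A, ∑ l, c * Rn Q r (x, y) l * φ l = c * ((Rn Q r).mulVec φ) (x, y) :=
    fun c => sum_mulVec _ _ _ _
  have h1 : ∀ c : A, ∑ l, c * (Rn Q r * Im Q r) (x, y) l * φ l =
      c * ((Rn Q r * Im Q r).mulVec φ) (x, y) := fun c => sum_mulVec _ _ _ _
  have h2 : ∑ l, Rn Q r (x, y) l * φ l = ((Rn Q r).mulVec φ) (x, y) := rfl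
  cases a <;> cases b <;> cases u <;> cases v <;>
    simp only [Rn, zero_mul, Finset.sum_const_zero] <;>
    first
      | exact h2
      | exact h0 _
      | exact h1 _

/-! ### Common eigenvectors -/

/-- common eigenvectors of `I`, `R`, `R⁻¹` -/
def Ev (Q : QP A) (r : ℕ) (m : ℤ) (φ : Lb r × Lb r → A) : Prop :=
  (Im Q r).mulVec φ = Q.lam m • φ ∧ (Rm Q r).mulVec φ = (Q.fu m : A) • φ ∧
    (Rn Q r).mulVec φ = (((Q.fu m)⁻¹ : Aˣ) : A) • φ

/-- all common eigenvectors -/
def Evs (Q : QP A) (r : ℕ) : Set (Lb r × Lb r → A) :=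
  {φ | ∃ m ∈ Finset.Icc (-(r : ℤ)) r, Ev Q r m φ}

theorem aeval_mulVec {ι : Type} [Fintype ι] [DecidableEq ι] (M : Matrix ι ι A) (φ : ι → A) (c : A)
    (h : M.mulVec φ = c • φ) (P : A[X]) : (aeval M P).mulVec φ = P.eval c • φ := by
  induction P using Polynomial.induction_on' with
  | add p q hp hq => rw [map_add, Matrix.add_mulVec, hp, hq, eval_add, add_smul]
  | monomial n a =>
    rw [aeval_monomial, eval_monomial, ← Algebra.smul_def, Matrix.smul_mulVec, mul_smul]
    congr 1
    induction n with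
    | zero => rw [pow_zero, pow_zero, Matrix.one_mulVec, one_smul]
    | succ n ih =>
      rw [pow_succ', ← Matrix.mulVec_mulVec, ih, Matrix.mulVec_smul, h, smul_smul, pow_succ]

section Scalars

variable (Q : QP A)

theorem qp_add (m n : ℤ) : Q.qp (m + n) = Q.qp m * Q.qp n := by
  unfold QP.qp
  rw [← Units.val_mul, ← zpow_add]
  congr 2
  ring

theorem qp_zero : Q.qp 0 = 1 := by
  unfold QP.qp
  simp

theorem qp_neg (m : ℤ) : Q.qp m * Q.qp (-m) = 1 := by
  rw [← qp_add, add_neg_cancel, qp_zero]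

theorem fu_succ (m : ℤ) : (Q.fu (m + 1) : A) = Q.i * Q.s * Q.qp m * Q.fu m := by
  unfold QP.fu QP.qp
  rw [← Units.val_mul, ← Units.val_mul, ← Units.val_mul]
  congr 1
  rw [zpow_add, zpow_one, show (m + 1) ^ 2 = 1 + 2 * m + m ^ 2 by ring, zpow_add, zpow_add,
    zpow_one]
  ac_rfl

theorem s_sq : (Q.s : A) * (Q.s : A) = Q.qp 1 := by
  unfold QP.qp
  rw [← Units.val_mul, mul_one, zpow_ofNat, pow_two]

end Scalars

section Step

variable (Q : QP A) {r : ℕ} {m : ℤ} {φ : Lb r × Lb r → A}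

/-- vectors with equal last modes -/
theorem ev_same (h : Ev Q r m φ) (u : Bool) : Ev Q (r + 1) m (ten u u φ) := by
  obtain ⟨h1, h2, h3⟩ := h
  refine ⟨?_, ?_, ?_⟩
  · funext ⟨⟨x, a⟩, ⟨y, b⟩⟩
    rw [Im_ten, h1]
    cases u <;> cases a <;> cases b <;> simp [ten, bm, kinv]
  · funext ⟨⟨x, a⟩, ⟨y, b⟩⟩
    rw [Rm_ten, h2]
    cases u <;> cases a <;> cases b <;> simp [ten]
  · funext ⟨⟨x, a⟩, ⟨y, b⟩⟩
    rw [Rn_ten, h3]
    cases u <;> cases a <;> cases b <;> simp [ten]

/-- vectors with different last modes -/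
theorem ev_step (h : Ev Q r m φ) (c : A) (m' : ℤ)
    (e1 : Q.lam m' = Q.qp (-1) * Q.lam m - c)
    (e3 : (Q.fu m' : A) = -c * Q.s * Q.fu m)
    (e7 : 1 + (Q.qp 1 - Q.qp (-1)) * Q.lam m * c + c * c = 0) :
    Ev Q (r + 1) m' (ten true false φ + c • ten false true φ) := by
  obtain ⟨h1, h2, h3⟩ := h
  have hs : (Q.s : A) * ((Q.s⁻¹ : Aˣ) : A) = 1 := Q.s.mul_inv
  have hf : (Q.fu m : A) * (((Q.fu m)⁻¹ : Aˣ) : A) = 1 := (Q.fu m).mul_inv
  have hf' : (Q.fu m' : A) * (((Q.fu m')⁻¹ : Aˣ) : A) = 1 := (Q.fu m').mul_inv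
  have e6 : ((Q.s⁻¹ : Aˣ) : A) * (((Q.fu m)⁻¹ : Aˣ) : A) =
      -c * (((Q.fu m')⁻¹ : Aˣ) : A) := by
    generalize ((Q.s⁻¹ : Aˣ) : A) = s' at *
    generalize (((Q.fu m)⁻¹ : Aˣ) : A) = g at *
    generalize (((Q.fu m')⁻¹ : Aˣ) : A) = g' at *
    generalize (Q.s : A) = s at *
    generalize (Q.fu m : A) = f at *
    generalize (Q.fu m' : A) = f' at *
    subst e3
    calc s' * g = s' * g * (-c * s * f * g') := by rw [hf', mul_one]
      _ = -c * g' * (s * s') * (f * g) := by ring
      _ = -c * g' := by rw [hs, hf, mul_one, mul_one]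
  refine ⟨?_, ?_, ?_⟩
  · rw [Matrix.mulVec_add, Matrix.mulVec_smul]
    funext ⟨⟨x, a⟩, ⟨y, b⟩⟩
    rw [Pi.add_apply, Pi.smul_apply, Im_ten, Im_ten, h1, e1]
    cases a <;> cases b <;> simp [ten, bm, kinv]
    · linear_combination (φ (x, y)) * e7
    · ring
  · rw [Matrix.mulVec_add, Matrix.mulVec_smul]
    funext ⟨⟨x, a⟩, ⟨y, b⟩⟩
    rw [Pi.add_apply, Pi.smul_apply, Rm_ten, Rm_ten, h1, Matrix.mulVec_smul, h2, e3]
    cases a <;> cases b <;> simp [ten]
    · linear_combination (Q.s * Q.fu m * φ (x, y)) * e7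
    · ring
  · rw [Matrix.mulVec_add, Matrix.mulVec_smul]
    funext ⟨⟨x, a⟩, ⟨y, b⟩⟩
    rw [Pi.add_apply, Pi.smul_apply, Rn_ten, Rn_ten, h1, Matrix.mulVec_smul, h3]
    cases a <;> cases b <;> simp [ten]
    · linear_combination (-φ (x, y)) * e6
    · linear_combination (((Q.qp 1 - Q.qp (-1)) * Q.lam m + c) * φ (x, y)) * e6 -
        ((((Q.fu m')⁻¹ : Aˣ) : A) * φ (x, y)) * e7

end Step

/-- the common eigenvectors span -/
theorem span_evs (hb : BRK_Stmt) (Q : QP A) : ∀ r : ℕ, Q.Gen r → Submodule.span A (Evs Q r) = ⊤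
  | 0, _ => by
    rw [eq_top_iff]
    intro φ _
    refine Submodule.subset_span ⟨0, by simp, ?_, ?_, ?_⟩
    · have h0 : Im Q 0 = 0 := rfl
      rw [h0, Matrix.zero_mulVec, QP.lam, (hb A Q).1, mul_zero, zero_smul]
    · have h0 : Rm Q 0 = 1 := rfl
      rw [h0, Matrix.one_mulVec, QP.fu]
      simp
    · have h0 : Rn Q 0 = 1 := rfl
      rw [h0, Matrix.one_mulVec, QP.fu]
      simp
  | r + 1, hG => by
    have hG' : Q.Gen r := by
      intro m hm m' hm' hne
      rw [Finset.mem_Icc] at hm hm'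
      exact hG m (Finset.mem_Icc.2 ⟨by push_cast; omega, by push_cast; omega⟩) m'
        (Finset.mem_Icc.2 ⟨by push_cast; omega, by push_cast; omega⟩) hne
    have ih := span_evs hb Q r hG'
    obtain ⟨b0, b1, bneg, b4, b5, b6, b7, b8, b9, b10⟩ := hb A Q
    have key : ∀ (u v : Bool) (φ : Lb r × Lb r → A),
        ten u v φ ∈ Submodule.span A (Evs Q (r + 1)) := by
      intro u v φ
      have hφ : φ ∈ Submodule.span A (Evs Q r) := by rw [ih]; trivial
      induction hφ using Submodule.span_induction with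
      | zero => rw [ten_zero]; exact Submodule.zero_mem _
      | add x y _ _ hx hy => rw [ten_add]; exact Submodule.add_mem _ hx hy
      | smul c x _ hx => rw [ten_smul]; exact Submodule.smul_mem _ _ hx
      | mem φ hφ =>
        obtain ⟨m, hm, hev⟩ := hφ
        rw [Finset.mem_Icc] at hm
        have hi := Q.hi
        have hq1 : Q.qp 1 * Q.qp (-1) = 1 := qp_neg Q 1
        have hqm : Q.qp m * Q.qp (-m) = 1 := qp_neg Q m
        have hbm : Q.br (m - 1) = Q.qp (-1) * Q.br m - Q.qp (-m) := by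
          have h1 := b4 (m - 1)
          rw [sub_add_cancel] at h1
          have h2 : Q.qp (-(m - 1)) = Q.qp 1 * Q.qp (-m) := by
            rw [← qp_add]; congr 1; ring
          rw [h2] at h1
          rw [h1]
          linear_combination (-(Q.br (m - 1)) - Q.qp (-m)) * hq1
        have hfm : (Q.fu (m - 1) : A) = -((Q.i : A) * Q.qp (-m)) * Q.s * Q.fu m := by
          have h1 := fu_succ Q (m - 1)
          rw [sub_add_cancel] at h1
          have h2 : Q.qp (m - 1) = Q.qp m * Q.qp (-1) := by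
            rw [← qp_add]; congr 1
          rw [h2] at h1
          rw [h1]
          have hss := s_sq Q
          generalize (Q.fu (m - 1) : A) = f
          linear_combination (f * (Q.s * Q.s) * (Q.qp m * Q.qp (-m)) * Q.qp (-1)) * hi -
            (f * (Q.qp m * Q.qp (-m)) * Q.qp (-1)) * hss - (f * (Q.qp m * Q.qp (-m))) * hq1 -
            f * hqm
        have hP : Ev Q (r + 1) (m + 1) (ten true false φ + (-(Q.i * Q.qp m)) • ten false true φ) := by
          refine ev_step Q hev _ _ ?_ ?_ ?_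
          · rw [QP.lam, QP.lam, b5]
            ring
          · rw [fu_succ]
            ring
          · rw [QP.lam]
            linear_combination (-(Q.qp m) * (Q.i * Q.i)) * b8 m + hqm * (Q.i * Q.i) + hi
        have hN : Ev Q (r + 1) (m - 1) (ten true false φ + (Q.i * Q.qp (-m)) • ten false true φ) := by
          refine ev_step Q hev _ _ ?_ ?_ ?_
          · rw [QP.lam, QP.lam, hbm]
            ring
          · rw [hfm]
          · rw [QP.lam]
            linear_combination ((Q.qp (-m)) * (Q.i * Q.i)) * b8 m + hqm * (Q.i * Q.i) + hi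
        have hPs : ten true false φ + (-(Q.i * Q.qp m)) • ten false true φ ∈
            Submodule.span A (Evs Q (r + 1)) :=
          Submodule.subset_span ⟨m + 1, Finset.mem_Icc.2 ⟨by push_cast; omega, by push_cast; omega⟩,
            hP⟩
        have hNs : ten true false φ + (Q.i * Q.qp (-m)) • ten false true φ ∈
            Submodule.span A (Evs Q (r + 1)) :=
          Submodule.subset_span ⟨m - 1, Finset.mem_Icc.2 ⟨by push_cast; omega, by push_cast; omega⟩,
            hN⟩
        have hu : IsUnit (Q.lam (m + 1) - Q.lam (m - 1)) :=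
          hG _ (Finset.mem_Icc.2 ⟨by push_cast; omega, by push_cast; omega⟩) _
            (Finset.mem_Icc.2 ⟨by push_cast; omega, by push_cast; omega⟩) (by omega)
        have h01 : ten false true φ ∈ Submodule.span A (Evs Q (r + 1)) := by
          obtain ⟨w, hw⟩ := hu
          have h1 := Submodule.sub_mem _ hNs hPs
          have h2 : ten true false φ + (Q.i * Q.qp (-m)) • ten false true φ -
              (ten true false φ + (-(Q.i * Q.qp m)) • ten false true φ) =
              (w : A) • ten false true φ := by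
            rw [hw, b9, add_sub_add_left_eq_sub, ← sub_smul]
            congr 1
            ring
          rw [h2] at h1
          have h3 := Submodule.smul_mem _ ((w⁻¹ : Aˣ) : A) h1
          rwa [smul_smul, Units.inv_mul, one_smul] at h3
        have h10 : ten true false φ ∈ Submodule.span A (Evs Q (r + 1)) := by
          have h1 := Submodule.sub_mem _ hNs
            (Submodule.smul_mem _ ((Q.i : A) * Q.qp (-m)) h01)
          rwa [add_sub_cancel_right] at h1
        cases u <;> cases v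
        · exact Submodule.subset_span ⟨m, Finset.mem_Icc.2 ⟨by push_cast; omega,
            by push_cast; omega⟩, ev_same Q hev false⟩
        · exact h01
        · exact h10
        · exact Submodule.subset_span ⟨m, Finset.mem_Icc.2 ⟨by push_cast; omega,
            by push_cast; omega⟩, ev_same Q hev true⟩
    rw [eq_top_iff]
    intro ψ _
    have hψ : ψ = ten true true (fun l => ψ ((l.1, true), (l.2, true))) +
        ten true false (fun l => ψ ((l.1, true), (l.2, false))) +
        ten false true (fun l => ψ ((l.1, false), (l.2, true))) +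
        ten false false (fun l => ψ ((l.1, false), (l.2, false))) := by
      funext ⟨⟨x, a⟩, ⟨y, b⟩⟩
      cases a <;> cases b <;> simp [ten]
    rw [hψ]
    exact Submodule.add_mem _ (Submodule.add_mem _ (Submodule.add_mem _ (key _ _ _) (key _ _ _))
      (key _ _ _)) (key _ _ _)

/-! ### Interpolation -/

theorem basis_eval (Q : QP A) {r : ℕ} (hG : Q.Gen r) {m m' : ℤ}
    (hm : m ∈ Finset.Icc (-(r : ℤ)) r) (hm' : m' ∈ Finset.Icc (-(r : ℤ)) r) :
    (Q.basis r m).eval (Q.lam m') = if m = m' then 1 else 0 := by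
  unfold QP.basis
  rw [eval_prod]
  split_ifs with h
  · subst h
    refine Finset.prod_eq_one fun x hx => ?_
    rw [Finset.mem_erase] at hx
    rw [eval_mul, eval_C, eval_sub, eval_X, eval_C]
    exact Ring.inverse_mul_cancel _ (hG m hm x hx.2 hx.1.symm)
  · refine Finset.prod_eq_zero (Finset.mem_erase.2 ⟨fun h' => h h'.symm, hm'⟩) ?_
    rw [eval_mul, eval_sub, eval_X, eval_C, eval_C, sub_self, mul_zero]

theorem interp_eval (Q : QP A) {r : ℕ} (hG : Q.Gen r) (g : ℤ → A) {m : ℤ}
    (hm : m ∈ Finset.Icc (-(r : ℤ)) r) : (Q.interp r g).eval (Q.lam m) = g m := by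
  unfold QP.interp
  rw [eval_finset_sum, Finset.sum_eq_single_of_mem m hm]
  · rw [eval_mul, eval_C, basis_eval Q hG hm hm, if_pos rfl, mul_one]
  · intro b hb hne
    rw [eval_mul, eval_C, basis_eval Q hG hb hm, if_neg hne, mul_zero]

theorem pol_eval (Q : QP A) {r : ℕ} {m : ℤ} (hm : m ∈ Finset.Icc (-(r : ℤ)) r) :
    (Q.pol r).eval (Q.lam m) = 0 := by
  unfold QP.pol
  rw [eval_prod]
  refine Finset.prod_eq_zero hm ?_
  rw [eval_sub, eval_X, eval_C, sub_self]

/-- two matrices which agree on all common eigenvectors are equal -/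
theorem ext_evs (hb : BRK_Stmt) (Q : QP A) {r : ℕ} (hG : Q.Gen r)
    (M N : Matrix (Lb r × Lb r) (Lb r × Lb r) A)
    (h : ∀ m ∈ Finset.Icc (-(r : ℤ)) r, ∀ φ, Ev Q r m φ → M.mulVec φ = N.mulVec φ) : M = N := by
  have h1 : ∀ φ, M.mulVec φ = N.mulVec φ := by
    intro φ
    have hφ : φ ∈ Submodule.span A (Evs Q r) := by rw [span_evs hb Q r hG]; trivial
    induction hφ using Submodule.span_induction with
    | zero => rw [Matrix.mulVec_zero, Matrix.mulVec_zero]
    | add x y _ _ hx hy => rw [Matrix.mulVec_add, Matrix.mulVec_add, hx, hy]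
    | smul c x _ hx => rw [Matrix.mulVec_smul, Matrix.mulVec_smul, hx]
    | mem φ hφ =>
      obtain ⟨m, hm, hev⟩ := hφ
      exact h m hm φ hev
  ext p c
  have h2 := congrFun (h1 (Pi.single c 1)) p
  rwa [Matrix.mulVec_single_one, Matrix.mulVec_single_one] at h2

end SPEC

/-- SPEC. -/
theorem spec (hb : BRK_Stmt) : SPEC_Stmt := by
  intro A _ Q r hG
  refine ⟨?_, ?_, ?_⟩
  · refine SPEC.ext_evs hb Q hG _ _ fun m hm φ hev => ?_
    rw [SPEC.aeval_mulVec _ _ _ hev.1, SPEC.pol_eval Q hm, zero_smul, Matrix.zero_mulVec]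
  · refine SPEC.ext_evs hb Q hG _ _ fun m hm φ hev => ?_
    rw [SPEC.aeval_mulVec _ _ _ hev.1, SPEC.interp_eval Q hG _ hm, hev.2.1]
  · refine SPEC.ext_evs hb Q hG _ _ fun m hm φ hev => ?_
    rw [SPEC.aeval_mulVec _ _ _ hev.1, SPEC.interp_eval Q hG _ hm, hev.2.2]

end Pool.Agent.TB
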