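import Pool.Agent.TB.Stmts

/-!
TOP: eigenvectors of the operator `I` for the top eigenvalue.
-/

open Polynomial Matrix
open scoped BigOperators

namespace Pool.Agent.TB

namespace TOP

variable {A : Type} [CommRing A]

lemma sum_Lb {r : ℕ} (f : Lb (r + 1) → A) :
    ∑ a, f a = ∑ a' : Lb r, ∑ u : Bool, f (a', u) :=
  Fintype.sum_prod_type (f := f)

lemma Im_succ (Q : QP A) (r : ℕ) (x y a b : Lb r) (s t u w : Bool) :
    Im Q (r + 1) (((x, s) : Lb (r + 1)), ((y, t) : Lb (r + 1)))
      (((a, u) : Lb (r + 1)), ((b, w) : Lb (r + 1))) =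
      (if s = u ∧ t = w then kinv Q s t * Im Q r (x, y) (a, b) else 0) +
        (if x = a ∧ y = b then bm A s t u w else 0) := rfl

lemma left_succ (Q : QP A) (r : ℕ) (v : Lb (r + 1) → Lb (r + 1) → A) (a b : Lb r) (s t : Bool) :
    ∑ x, ∑ y, v x y * Im Q (r + 1) (x, y) (((a, s) : Lb (r + 1)), ((b, t) : Lb (r + 1))) =
      kinv Q s t * ∑ x, ∑ y, v (x, s) (y, t) * Im Q r (x, y) (a, b) +
        ∑ u, ∑ w, v (a, u) (b, w) * bm A u w s t := by
  have h1 : ∑ x, ∑ y, v x y * Im Q (r + 1) (x, y) (((a, s) : Lb (r + 1)), ((b, t) : Lb (r + 1))) =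
      ∑ x : Lb r, ∑ u : Bool, ∑ y : Lb r, ∑ w : Bool,
        (v (x, u) (y, w) * (if u = s ∧ w = t then kinv Q u w * Im Q r (x, y) (a, b) else 0) +
        v (x, u) (y, w) * (if x = a ∧ y = b then bm A u w s t else 0)) := by
    rw [sum_Lb]
    refine Finset.sum_congr rfl fun x _ => Finset.sum_congr rfl fun u _ => ?_
    rw [sum_Lb]
    refine Finset.sum_congr rfl fun y _ => Finset.sum_congr rfl fun w _ => ?_
    rw [Im_succ, mul_add]
  rw [h1]
  simp only [Finset.sum_add_distrib]
  congr 1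
  · rw [Finset.mul_sum]
    refine Finset.sum_congr rfl fun x _ => ?_
    rw [Finset.sum_eq_single s, Finset.mul_sum]
    · refine Finset.sum_congr rfl fun y _ => ?_
      rw [Finset.sum_eq_single t]
      · rw [if_pos ⟨rfl, rfl⟩]; ring
      · intro w _ hw
        rw [if_neg (fun h => hw h.2), mul_zero]
      · intro h; exact absurd (Finset.mem_univ _) h
    · intro u _ hu
      refine Finset.sum_eq_zero fun y _ => Finset.sum_eq_zero fun w _ => ?_
      rw [if_neg (fun h => hu h.1), mul_zero]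
    · intro h; exact absurd (Finset.mem_univ _) h
  · rw [Finset.sum_eq_single a]
    · refine Finset.sum_congr rfl fun u _ => ?_
      rw [Finset.sum_eq_single b]
      · refine Finset.sum_congr rfl fun w _ => ?_
        rw [if_pos ⟨rfl, rfl⟩]
      · intro y _ hy
        refine Finset.sum_eq_zero fun w _ => ?_
        rw [if_neg (fun h => hy h.2), mul_zero]
      · intro h; exact absurd (Finset.mem_univ _) h
    · intro x _ hx
      refine Finset.sum_eq_zero fun u _ => Finset.sum_eq_zero fun y _ =>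
        Finset.sum_eq_zero fun w _ => ?_
      rw [if_neg (fun h => hx h.1), mul_zero]
    · intro h; exact absurd (Finset.mem_univ _) h

lemma right_succ (Q : QP A) (r : ℕ) (v : Lb (r + 1) → Lb (r + 1) → A) (x y : Lb r) (s t : Bool) :
    ∑ a, ∑ b, Im Q (r + 1) (((x, s) : Lb (r + 1)), ((y, t) : Lb (r + 1))) (a, b) * v a b =
      kinv Q s t * ∑ a, ∑ b, Im Q r (x, y) (a, b) * v (a, s) (b, t) +
        ∑ u, ∑ w, bm A s t u w * v (x, u) (y, w) := by
  have h1 : ∑ a, ∑ b, Im Q (r + 1) (((x, s) : Lb (r + 1)), ((y, t) : Lb (r + 1))) (a, b) * v a b =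
      ∑ a : Lb r, ∑ u : Bool, ∑ b : Lb r, ∑ w : Bool,
        ((if s = u ∧ t = w then kinv Q s t * Im Q r (x, y) (a, b) else 0) * v (a, u) (b, w) +
        (if x = a ∧ y = b then bm A s t u w else 0) * v (a, u) (b, w)) := by
    rw [sum_Lb]
    refine Finset.sum_congr rfl fun a _ => Finset.sum_congr rfl fun u _ => ?_
    rw [sum_Lb]
    refine Finset.sum_congr rfl fun b _ => Finset.sum_congr rfl fun w _ => ?_
    rw [Im_succ, add_mul]
  rw [h1]
  simp only [Finset.sum_add_distrib]
  congr 1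
  · rw [Finset.mul_sum]
    refine Finset.sum_congr rfl fun a _ => ?_
    rw [Finset.sum_eq_single s, Finset.mul_sum]
    · refine Finset.sum_congr rfl fun b _ => ?_
      rw [Finset.sum_eq_single t]
      · rw [if_pos ⟨rfl, rfl⟩]; ring
      · intro w _ hw
        rw [if_neg (fun h => hw h.2.symm), zero_mul]
      · intro h; exact absurd (Finset.mem_univ _) h
    · intro u _ hu
      refine Finset.sum_eq_zero fun y _ => Finset.sum_eq_zero fun w _ => ?_
      rw [if_neg (fun h => hu h.1.symm), zero_mul]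
    · intro h; exact absurd (Finset.mem_univ _) h
  · rw [Finset.sum_eq_single x]
    · refine Finset.sum_congr rfl fun u _ => ?_
      rw [Finset.sum_eq_single y]
      · refine Finset.sum_congr rfl fun w _ => ?_
        rw [if_pos ⟨rfl, rfl⟩]
      · intro b _ hb
        refine Finset.sum_eq_zero fun w _ => ?_
        rw [if_neg (fun h => hb h.2.symm), zero_mul]
      · intro h; exact absurd (Finset.mem_univ _) h
    · intro a _ ha
      refine Finset.sum_eq_zero fun u _ => Finset.sum_eq_zero fun b _ =>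
        Finset.sum_eq_zero fun w _ => ?_
      rw [if_neg (fun h => ha h.1.symm), zero_mul]
    · intro h; exact absurd (Finset.mem_univ _) h

lemma qp_mul (Q : QP A) (m n : ℤ) : Q.qp m * Q.qp n = Q.qp (m + n) := by
  unfold QP.qp
  rw [← Units.val_mul, ← _root_.zpow_add]
  congr 2
  ring

lemma qp_zero (Q : QP A) : Q.qp 0 = 1 := by
  unfold QP.qp
  simp

lemma cupv_succ (Q : QP A) (r : ℕ) (x y : Lb r) (s t : Bool) :
    cupv Q (r + 1) ((x, s) : Lb (r + 1)) ((y, t) : Lb (r + 1)) =
      match s, t with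
      | true, false => cupv Q r x y
      | false, true => -(Q.i : A) * Q.qp r * cupv Q r x y
      | _, _ => 0 := rfl

lemma capu_succ (Q : QP A) (r : ℕ) (x y : Lb r) (s t : Bool) :
    capu Q (r + 1) ((x, s) : Lb (r + 1)) ((y, t) : Lb (r + 1)) =
      match s, t with
      | true, false => capu Q r x y
      | false, true => (Q.i : A) * Q.qp r * capu Q r x y
      | _, _ => 0 := rfl

lemma cup_eig (hb : BRK_Stmt) (Q : QP A) (r : ℕ) (x y : Lb r) :
    ∑ a, ∑ b, Im Q r (x, y) (a, b) * cupv Q r a b = Q.lam r * cupv Q r x y := by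
  obtain ⟨b0, b1, -, bp, bm', -⟩ := hb A Q
  induction r with
  | zero => simp [Im, QP.lam, b0]
  | succ r ih =>
    obtain ⟨x, s⟩ := (x : Lb r × Bool)
    obtain ⟨y, t⟩ := (y : Lb r × Bool)
    rw [right_succ]
    have hi := Q.hi
    have e1 := bp (r : ℤ)
    have e2 := bm' (r : ℤ)
    have e3 : Q.qp (r : ℤ) * Q.qp (-(r : ℤ)) = 1 := by rw [qp_mul, add_neg_cancel, qp_zero]
    cases s <;> cases t <;>
      simp only [cupv_succ, kinv, bm, Fintype.sum_bool, mul_zero, Finset.sum_const_zero, zero_mul,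
        add_zero, zero_add, one_mul, neg_mul, mul_neg, Finset.sum_neg_distrib] 
    · have h4 : ∑ a : Lb r, ∑ b : Lb r, Im Q r (x, y) (a, b) * ((Q.i : A) * Q.qp r * cupv Q r a b) =
          (Q.i : A) * Q.qp r * (Q.lam r * cupv Q r x y) := by
        rw [← ih, Finset.mul_sum]
        refine Finset.sum_congr rfl fun a _ => ?_
        rw [Finset.mul_sum]
        refine Finset.sum_congr rfl fun b _ => ?_
        ring
      rw [h4]
      unfold QP.lam
      push_cast
      rw [e1]
      linear_combination (Q.qp r * Q.qp (-r) * cupv Q r x y) * hi - (cupv Q r x y) * e3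
    · rw [ih]
      unfold QP.lam
      push_cast
      rw [e2]
      ring

lemma cap_eig (hb : BRK_Stmt) (Q : QP A) (r : ℕ) (a b : Lb r) :
    ∑ x, ∑ y, capu Q r x y * Im Q r (x, y) (a, b) = Q.lam r * capu Q r a b := by
  obtain ⟨b0, b1, -, bp, bm', -⟩ := hb A Q
  induction r with
  | zero => simp [Im, QP.lam, b0]
  | succ r ih =>
    obtain ⟨a, s⟩ := (a : Lb r × Bool)
    obtain ⟨b, t⟩ := (b : Lb r × Bool)
    rw [left_succ]
    have hi := Q.hi
    have e1 := bp (r : ℤ)
    have e2 := bm' (r : ℤ)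
    have e3 : Q.qp (r : ℤ) * Q.qp (-(r : ℤ)) = 1 := by rw [qp_mul, add_neg_cancel, qp_zero]
    cases s <;> cases t <;>
      simp only [capu_succ, kinv, bm, Fintype.sum_bool, mul_zero, Finset.sum_const_zero, zero_mul,
        add_zero, zero_add, mul_one, mul_neg]
    · have h4 : ∑ x : Lb r, ∑ y : Lb r, (Q.i : A) * Q.qp r * capu Q r x y * Im Q r (x, y) (a, b) =
          (Q.i : A) * Q.qp r * (Q.lam r * capu Q r a b) := by
        rw [← ih, Finset.mul_sum]
        refine Finset.sum_congr rfl fun x _ => ?_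
        rw [Finset.mul_sum]
        refine Finset.sum_congr rfl fun y _ => ?_
        ring
      rw [h4]
      unfold QP.lam
      push_cast
      rw [e1]
      linear_combination (-(Q.qp r * Q.qp (-r) * capu Q r a b)) * hi + (capu Q r a b) * e3
    · rw [ih]
      unfold QP.lam
      push_cast
      rw [e2]
      ring

lemma left_aeval {ι : Type} [Fintype ι] [DecidableEq ι] (X : Matrix ι ι A) (w : ι → A) (μ : A)
    (h : w ᵥ* X = μ • w) (P : A[X]) : w ᵥ* aeval X P = P.eval μ • w := by
  induction P using Polynomial.induction_on' with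
  | add p q hp hq => rw [map_add, Matrix.vecMul_add, hp, hq, eval_add, add_smul]
  | monomial n c =>
    have hn : ∀ n : ℕ, w ᵥ* X ^ n = μ ^ n • w := by
      intro n
      induction n with
      | zero => simp
      | succ n ih =>
        rw [pow_succ, ← Matrix.vecMul_vecMul, ih, Matrix.smul_vecMul, h, smul_smul, pow_succ]
    rw [aeval_monomial, Algebra.algebraMap_eq_smul_one, smul_mul_assoc, one_mul,
      Matrix.vecMul_smul, hn, eval_monomial, smul_smul]

lemma zero_of_eig (hs : SPEC_Stmt) [IsDomain A] (Q : QP A) (r : ℕ) (hG : Q.Gen r) (μ : A)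
    (hμ : ∀ m ∈ Finset.Icc (-(r : ℤ)) r, Q.lam m ≠ μ) (w : Lb r → Lb r → A)
    (hw : ∀ a b, ∑ x, ∑ y, w x y * Im Q r (x, y) (a, b) = μ * w a b) (a b : Lb r) :
    w a b = 0 := by
  let W : Lb r × Lb r → A := fun p => w p.1 p.2
  have h1 : W ᵥ* Im Q r = μ • W := by
    ext ⟨a, b⟩
    change ∑ p : Lb r × Lb r, W p * Im Q r p (a, b) = μ * w a b
    rw [Fintype.sum_prod_type]
    exact hw a b
  have h2 := left_aeval (Im Q r) W μ h1 (Q.pol r)
  rw [(hs A Q r hG).1, Matrix.vecMul_zero] at h2
  have h3 : (Q.pol r).eval μ ≠ 0 := by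
    rw [QP.pol, eval_prod, Finset.prod_ne_zero_iff]
    intro m hm
    rw [eval_sub, eval_X, eval_C]
    exact fun h => hμ m hm (sub_eq_zero.mp h).symm
  have h4 := congrFun h2 (a, b)
  have h5 : (Q.pol r).eval μ * w a b = 0 := h4.symm
  exact (mul_eq_zero.mp h5).resolve_left h3

lemma lin_comb {r : ℕ} (Q : QP A) (c d : A) (f g h : Lb r → Lb r → A)
    (hh : ∀ x y, h x y = c * f x y + d * g x y) (a b : Lb r) :
    ∑ x, ∑ y, h x y * Im Q r (x, y) (a, b) =
      c * ∑ x, ∑ y, f x y * Im Q r (x, y) (a, b) + d * ∑ x, ∑ y, g x y * Im Q r (x, y) (a, b) := by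
  rw [Finset.mul_sum, Finset.mul_sum, ← Finset.sum_add_distrib]
  refine Finset.sum_congr rfl fun x _ => ?_
  rw [Finset.mul_sum, Finset.mul_sum, ← Finset.sum_add_distrib]
  refine Finset.sum_congr rfl fun y _ => ?_
  rw [hh]
  ring

lemma uniq (hb : BRK_Stmt) (hs : SPEC_Stmt) [IsDomain A] (Q : QP A) (r : ℕ) (hG : Q.Gen r)
    (hR : Q.Reg r) (v : Lb r → Lb r → A)
    (hv : ∀ a b, ∑ x, ∑ y, v x y * Im Q r (x, y) (a, b) = Q.lam r * v a b) :
    ∃ c, ∀ a b, v a b = c * capu Q r a b := by
  have hbb := hb A Q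
  obtain ⟨b0, b1, -, bp, bm', b2, b3, -⟩ := hbb
  induction r with
  | zero =>
    refine ⟨v () (), fun a b => ?_⟩
    change v () () = v () () * 1
    rw [mul_one]
  | succ r ih =>
    have hsub : ∀ m ∈ Finset.Icc (-(r : ℤ)) r, m ∈ Finset.Icc (-((r + 1 : ℕ) : ℤ)) (r + 1 : ℕ) := by
      intro m hm
      rw [Finset.mem_Icc] at hm ⊢
      push_cast
      omega
    have hG' : Q.Gen r := fun m hm m' hm' h => hG m (hsub m hm) m' (hsub m' hm') h
    have hne : ∀ m ∈ Finset.Icc (-(r : ℤ)) r, Q.lam m ≠ Q.lam (r + 1) := by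
      intro m hm h
      have h1 := hG m (hsub m hm) (r + 1) (by rw [Finset.mem_Icc]; push_cast; omega)
        (by rw [Finset.mem_Icc] at hm; omega)
      rw [h, sub_self] at h1
      exact not_isUnit_zero h1
    have hne2 : ∀ m ∈ Finset.Icc (-(r : ℤ)) r, Q.lam m ≠ Q.lam (-(r + 1)) := by
      intro m hm h
      have h1 := hG m (hsub m hm) (-(r + 1)) (by rw [Finset.mem_Icc]; push_cast; omega)
        (by rw [Finset.mem_Icc] at hm; omega)
      rw [h, sub_self] at h1
      exact not_isUnit_zero h1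
    have hR' : Q.Reg r := fun m hm => ⟨hne m hm, hne2 m hm⟩
    have hne3 : ∀ m ∈ Finset.Icc (-(r : ℤ)) r, Q.lam m ≠ Q.lam (r + 2) := by
      intro m hm h
      have h1 := (hR m (hsub m hm)).1
      push_cast at h1
      rw [h, add_assoc, one_add_one_eq_two] at h1
      exact h1 rfl
    have hv' : ∀ (a b : Lb r) (s t : Bool),
        kinv Q s t * ∑ x, ∑ y, v (x, s) (y, t) * Im Q r (x, y) (a, b) +
        ∑ u, ∑ w, v (a, u) (b, w) * bm A u w s t = Q.lam (r + 1) * v (a, s) (b, t) := by
      intro a b s t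
      have h1 := hv ((a, s) : Lb (r + 1)) ((b, t) : Lb (r + 1))
      rw [left_succ] at h1
      rw [h1]
      push_cast
      rfl
    -- the components
    have h00 : ∀ a b : Lb r, v (a, false) (b, false) = 0 := by
      refine zero_of_eig hs Q r hG' (Q.lam (r + 1)) hne (fun a b => v (a, false) (b, false)) ?_
      intro a b
      have h1 := hv' a b false false
      simpa only [kinv, bm, Fintype.sum_bool, mul_zero, add_zero, one_mul] using h1
    have h11 : ∀ a b : Lb r, v (a, true) (b, true) = 0 := by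
      refine zero_of_eig hs Q r hG' (Q.lam (r + 1)) hne (fun a b => v (a, true) (b, true)) ?_
      intro a b
      have h1 := hv' a b true true
      simpa only [kinv, bm, Fintype.sum_bool, mul_zero, add_zero, one_mul] using h1
    have h10 : ∀ a b : Lb r, Q.qp (-1) * ∑ x, ∑ y, v (x, true) (y, false) * Im Q r (x, y) (a, b) +
        v (a, false) (b, true) = Q.lam (r + 1) * v (a, true) (b, false) := by
      intro a b
      have h1 := hv' a b true false
      simpa only [kinv, bm, Fintype.sum_bool, mul_zero, add_zero, zero_add, mul_one] using h1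
    have h01 : ∀ a b : Lb r, Q.qp 1 * ∑ x, ∑ y, v (x, false) (y, true) * Im Q r (x, y) (a, b) -
        v (a, true) (b, false) = Q.lam (r + 1) * v (a, false) (b, true) := by
      intro a b
      have h1 := hv' a b false true
      simpa only [kinv, bm, Fintype.sum_bool, mul_zero, add_zero, zero_add, mul_neg, mul_one,
        ← sub_eq_add_neg] using h1
    let p : Lb r → Lb r → A := fun a b => v (a, true) (b, false)
    let q : Lb r → Lb r → A := fun a b => v (a, false) (b, true)
    let Xp : Lb r → Lb r → A := fun a b => ∑ x, ∑ y, p x y * Im Q r (x, y) (a, b)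
    have e10 : ∀ a b, q a b = Q.lam (r + 1) * p a b + (-Q.qp (-1)) * Xp a b := by
      intro a b
      have h1 : Q.qp (-1) * Xp a b + q a b = Q.lam (r + 1) * p a b := h10 a b
      linear_combination h1
    have e01 : ∀ a b, Q.qp 1 * ∑ x, ∑ y, q x y * Im Q r (x, y) (a, b) - p a b =
        Q.lam (r + 1) * q a b := h01
    have eq1 : Q.qp 1 * Q.qp (-1) = 1 := by rw [qp_mul, add_neg_cancel, qp_zero]
    have eL : Q.lam (r + 2) = (Q.qp 1 + Q.qp (-1)) * Q.lam (r + 1) - Q.lam r := by
      have h1 := b2 ((r : ℤ) + 1)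
      rw [add_assoc, one_add_one_eq_two, add_sub_cancel_right] at h1
      unfold QP.lam
      unfold QP.two at h1
      linear_combination (Q.i : A) * h1
    have eM : Q.lam (r + 2) * Q.lam r = Q.lam (r + 1) * Q.lam (r + 1) + 1 := by
      have h1 := b3 ((r : ℤ) + 1)
      rw [add_assoc, one_add_one_eq_two, add_sub_cancel_right] at h1
      unfold QP.lam
      linear_combination (Q.br (r + 2) * Q.br r - Q.br (r + 1) ^ 2) * Q.hi + h1
    let z : Lb r → Lb r → A := fun a b => 1 * Xp a b + (-Q.lam r) * p a b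
    have hz : ∀ a b, z a b = 0 := by
      refine zero_of_eig hs Q r hG' (Q.lam (r + 2)) hne3 z ?_
      intro a b
      rw [lin_comb Q 1 (-Q.lam r) Xp p z (fun _ _ => rfl) a b]
      have h1 := e01 a b
      rw [lin_comb Q _ _ p Xp q e10 a b, e10 a b] at h1
      change Q.qp 1 * (Q.lam (r + 1) * Xp a b +
        (-Q.qp (-1)) * ∑ x, ∑ y, Xp x y * Im Q r (x, y) (a, b)) - p a b = _ at h1
      change 1 * ∑ x, ∑ y, Xp x y * Im Q r (x, y) (a, b) + (-Q.lam r) * Xp a b =
        Q.lam (r + 2) * (1 * Xp a b + (-Q.lam r) * p a b)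
      generalize ∑ x, ∑ y, Xp x y * Im Q r (x, y) (a, b) = XXp at h1 ⊢
      linear_combination (-1 : A) * h1 - XXp * eq1 - Xp a b * eL + p a b * eM
    have hp : ∀ a b, ∑ x, ∑ y, p x y * Im Q r (x, y) (a, b) = Q.lam r * p a b := by
      intro a b
      have h1 : 1 * Xp a b + (-Q.lam r) * p a b = 0 := hz a b
      change Xp a b = Q.lam r * p a b
      linear_combination h1
    obtain ⟨c, hc⟩ := ih hG' hR' p hp
    refine ⟨c, ?_⟩
    rintro a b
    obtain ⟨a, s⟩ := (a : Lb r × Bool)
    obtain ⟨b, t⟩ := (b : Lb r × Bool)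
    cases s <;> cases t
    · exact (h00 a b).trans (mul_zero c).symm
    · change q a b = c * ((Q.i : A) * Q.qp r * capu Q r a b)
      rw [e10 a b]
      have h1 : Xp a b = Q.lam r * p a b := hp a b
      have h2 : Q.lam (r + 1) = Q.qp (-1) * Q.lam r + (Q.i : A) * Q.qp r := by
        unfold QP.lam
        rw [bm' r]
        ring
      rw [h1, h2, hc a b]
      ring
    · change p a b = c * capu Q r a b
      exact hc a b
    · exact (h11 a b).trans (mul_zero c).symm

end TOP

theorem top (hb : BRK_Stmt) (hs : SPEC_Stmt) (_hf : FC_Stmt) : TOP_Stmt := by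
  intro A _ Q r
  refine ⟨TOP.cup_eig hb Q r, TOP.cap_eig hb Q r, ?_⟩
  intro _ hG hR v hv
  exact TOP.uniq hb hs Q r hG hR v hv

end Pool.Agent.TB
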