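import Pool.Agent.TB.Stmts

/-!
Module NAT: base change of the universal values of words.
-/

open Polynomial
open scoped BigOperators

namespace Pool.Agent.TB

namespace NAT

variable {A B : Type} [CommRing A] [CommRing B] (φ : A →+* B)

theorem qp_map (Q : QP A) (m : ℤ) : (Q.map φ).qp m = φ (Q.qp m) := by
  unfold QP.qp QP.map
  simp only
  rw [← map_zpow]
  rfl

theorem two_map (Q : QP A) : (Q.map φ).two = φ Q.two := by
  unfold QP.two
  rw [qp_map, qp_map, map_add]

theorem br_map (Q : QP A) (m : ℤ) : (Q.map φ).br m = φ (Q.br m) := by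
  unfold QP.br
  split_ifs
  · rw [map_sum]
    exact Finset.sum_congr rfl fun k _ => qp_map φ Q _
  · rw [map_neg, map_sum]
    congr 1
    exact Finset.sum_congr rfl fun k _ => qp_map φ Q _

theorem lam_map (Q : QP A) (m : ℤ) : (Q.map φ).lam m = φ (Q.lam m) := by
  unfold QP.lam
  rw [br_map, map_mul]
  rfl

theorem fu_map (Q : QP A) (m : ℤ) : (Q.map φ).fu m = Units.map (φ : A →* B) (Q.fu m) := by
  unfold QP.fu
  rw [map_mul, map_zpow, map_zpow]
  rfl

theorem Gu_map (Q : QP A) (r : ℕ) (m : ℤ) :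
    (Q.map φ).Gu r m = Units.map (φ : A →* B) (Q.Gu r m) := by
  unfold QP.Gu
  rw [fu_map, fu_map, map_mul, map_inv, map_pow, map_pow]

theorem gen_map (Q : QP A) (r : ℕ) (h : Q.Gen r) : (Q.map φ).Gen r := by
  intro m hm m' hm' hne
  rw [lam_map, lam_map, ← map_sub]
  exact (h m hm m' hm' hne).map φ

theorem inverse_map (u : A) (hu : IsUnit u) : φ (Ring.inverse u) = Ring.inverse (φ u) := by
  obtain ⟨v, rfl⟩ := hu
  have h1 : φ (v : A) = ((Units.map (φ : A →* B) v : Bˣ) : B) := rfl
  rw [h1, Ring.inverse_unit, Ring.inverse_unit, ← map_inv]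
  rfl

theorem basis_map (Q : QP A) (r : ℕ) (h : Q.Gen r) (m : ℤ)
    (hm : m ∈ Finset.Icc (-(r : ℤ)) r) :
    (Q.map φ).basis r m = (Q.basis r m).map φ := by
  unfold QP.basis
  rw [Polynomial.map_prod]
  refine Finset.prod_congr rfl fun m' hm' => ?_
  have h1 : m' ∈ Finset.Icc (-(r : ℤ)) r := Finset.mem_of_mem_erase hm'
  have h2 : m ≠ m' := (Finset.ne_of_mem_erase hm').symm
  rw [Polynomial.map_mul, Polynomial.map_C, Polynomial.map_sub, Polynomial.map_X,
    Polynomial.map_C, inverse_map φ _ (h m hm m' h1 h2), map_sub, lam_map, lam_map]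

theorem interp_map (Q : QP A) (r : ℕ) (h : Q.Gen r) (g : ℤ → A) (g' : ℤ → B)
    (hg : ∀ m, g' m = φ (g m)) :
    (Q.map φ).interp r g' = (Q.interp r g).map φ := by
  unfold QP.interp
  rw [Polynomial.map_sum]
  refine Finset.sum_congr rfl fun m hm => ?_
  rw [Polynomial.map_mul, Polynomial.map_C, basis_map φ Q r h m hm, hg m]

theorem Lz_map (t μ μ' : A) : ∀ k, Lz (φ t) (φ μ) (φ μ') k = (Lz t μ μ' k).map φ
  | 0 => by simp [Lz]
  | 1 => by simp [Lz]
  | k + 2 => by
      rw [Lz, Lz, Lz_map t μ μ' (k + 1), Lz_map t μ μ' k]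
      simp

theorem Lop_monomial (t μ μ' : A) (k : ℕ) (a : A) :
    Lop t μ μ' (monomial k a) = C a * Lz t μ μ' k := by
  have h1 : (monomial k a : A[X]) = a • (Polynomial.basisMonomials A) k := by
    rw [Polynomial.coe_basisMonomials, Polynomial.smul_monomial, smul_eq_mul, mul_one]
  rw [h1, map_smul]
  unfold Lop
  rw [Module.Basis.constr_basis, Polynomial.smul_eq_C_mul]

theorem Lop_map (t μ μ' : A) (P : A[X]) :
    Lop (φ t) (φ μ) (φ μ') (P.map φ) = (Lop t μ μ' P).map φ := by
  induction P using Polynomial.induction_on' with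
  | add p q hp hq =>
    rw [Polynomial.map_add, map_add, hp, hq, map_add, Polynomial.map_add]
  | monomial k a =>
    rw [Polynomial.map_monomial, Lop_monomial, Lop_monomial, Lz_map, Polynomial.map_mul,
      Polynomial.map_C]

theorem Lop_pow_map (t μ μ' : A) (n : ℕ) (P : A[X]) :
    (Lop (φ t) (φ μ) (φ μ') ^ n) (P.map φ) = ((Lop t μ μ' ^ n) P).map φ := by
  induction n with
  | zero => rfl
  | succ n ih =>
    rw [pow_succ', pow_succ', Module.End.mul_apply, Module.End.mul_apply, ih, Lop_map]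

theorem aeval_map' (t μ μ' : A) (P v : A[X]) :
    (aeval (Lop (φ t) (φ μ) (φ μ')) (P.map φ)) (v.map φ) =
      ((aeval (Lop t μ μ') P) v).map φ := by
  induction P using Polynomial.induction_on' with
  | add p q hp hq =>
    rw [Polynomial.map_add, map_add, map_add, LinearMap.add_apply, LinearMap.add_apply,
      Polynomial.map_add, hp, hq]
  | monomial k a =>
    rw [Polynomial.map_monomial, aeval_monomial, aeval_monomial, Module.End.mul_apply,
      Module.End.mul_apply, Lop_pow_map, Module.algebraMap_end_apply, Module.algebraMap_end_apply,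
      Polynomial.smul_eq_C_mul, Polynomial.smul_eq_C_mul, Polynomial.map_mul, Polynomial.map_C]

theorem wop_map (t μ μ' : A) : ∀ (b : Bool) (l : List A[X]),
    wop (φ t) (φ μ) (φ μ') b (l.map (Polynomial.map φ)) = (wop t μ μ' b l).map φ
  | b, [] => by
      cases b <;> simp [wop]
  | false, P :: l => by
      rw [List.map_cons, wop, wop, wop_map t μ μ' true l, aeval_map']
  | true, P :: l => by
      rw [List.map_cons, wop, wop, wop_map t μ μ' false l, Polynomial.map_mul]

theorem Uval_map (t μ μ' : A) (l : List A[X]) :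
    Uval (φ t) (φ μ) (φ μ') (l.map (Polynomial.map φ)) = φ (Uval t μ μ' l) := by
  unfold Uval
  rw [wop_map, Polynomial.eval_map_apply]

end NAT

open NAT in
/-- **Module NAT.** -/
theorem nat : NAT_Stmt := by
  intro A B _ _ φ Q r h
  refine ⟨gen_map φ Q r h, fun x => ?_⟩
  unfold Jval
  rw [← Uval_map φ, two_map, lam_map, lam_map, List.map_map]
  congr 1
  refine List.map_congr_left fun a _ => ?_
  rw [Function.comp_apply]
  symm
  refine interp_map φ Q r h _ _ fun m => ?_
  rw [Gu_map, ← map_zpow]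
  rfl

end Pool.Agent.TB
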