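import Pool.Agent.TB.Stmts2

/-!
Finite type invariants of 2-bridge knots: OT, transfer of the equality of universal values from the
power series to the dual numbers.
-/

open Polynomial
open scoped BigOperators Real

namespace Pool.Agent.TB

namespace OT

section Nat

variable {A B : Type} [CommRing A] [CommRing B]

theorem qp_map (φ : A →+* B) (Q : QP A) (m : ℤ) : (Q.map φ).qp m = φ (Q.qp m) := by
  unfold QP.qp
  have h : (Q.map φ).s ^ (2 * m) = Units.map (φ : A →* B) (Q.s ^ (2 * m)) := by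
    rw [map_zpow]
    rfl
  rw [h]
  rfl

theorem br_map (φ : A →+* B) (Q : QP A) (m : ℤ) : (Q.map φ).br m = φ (Q.br m) := by
  unfold QP.br
  split_ifs
  · rw [map_sum]
    exact Finset.sum_congr rfl fun k _ => qp_map φ Q _
  · rw [map_neg, map_sum]
    exact congrArg Neg.neg (Finset.sum_congr rfl fun k _ => qp_map φ Q _)

theorem lam_map (φ : A →+* B) (Q : QP A) (m : ℤ) : (Q.map φ).lam m = φ (Q.lam m) := by
  unfold QP.lam
  rw [map_mul, br_map]
  rfl

end Nat

theorem br_one (hb : BRK_Stmt) (m : ℤ) : (QC 1).br m = (m : ℂ) := by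
  obtain ⟨b0, -, -, b4, -⟩ := hb ℂ (QC 1)
  have hq : ∀ k : ℤ, (QC 1).qp k = 1 := by
    intro k
    unfold QP.qp
    have h : (QC 1).s = 1 := rfl
    rw [h, one_zpow, Units.val_one]
  have hstep : ∀ k : ℤ, (QC 1).br (k + 1) = (QC 1).br k + 1 := by
    intro k
    rw [b4, hq, hq, one_mul]
  induction m using Int.induction_on with
  | zero => rw [b0, Int.cast_zero]
  | succ i ih =>
    rw [hstep, ih]
    push_cast
    ring
  | pred i ih =>
    have h := hstep (-(i : ℤ) - 1)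
    rw [sub_add_cancel, ih] at h
    push_cast at h ⊢
    linear_combination -h

variable (s0 : ℂˣ)

/-- the polynomials not vanishing at `1` and `s0` -/
def MM : Submonoid ℂ[X] where
  carrier := {p | p.eval 1 ≠ 0 ∧ p.eval (s0 : ℂ) ≠ 0}
  one_mem' := by simp
  mul_mem' := by
    rintro a b ⟨h1, h2⟩ ⟨h3, h4⟩
    exact ⟨by rw [eval_mul]; exact mul_ne_zero h1 h3, by rw [eval_mul]; exact mul_ne_zero h2 h4⟩

theorem X_mem : (X : ℂ[X]) ∈ MM s0 :=
  ⟨by rw [eval_X]; exact one_ne_zero, by rw [eval_X]; exact s0.ne_zero⟩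

/-- the localization -/
abbrev OO : Type := Localization (MM s0)

/-- the parameters over the localization -/
noncomputable def QO : QP (OO s0) where
  s := (IsLocalization.map_units (OO s0) (⟨X, X_mem s0⟩ : MM s0)).unit
  i := Units.map (((algebraMap ℂ[X] (OO s0)).comp C : ℂ →+* OO s0) : ℂ →* OO s0) iC
  hi := by
    simp only [Units.coe_map, MonoidHom.coe_coe, iC, Units.val_mk0]
    rw [← map_mul, Complex.I_mul_I, map_neg, map_one]

theorem QO_s : ((QO s0).s : OO s0) = algebraMap ℂ[X] (OO s0) X := rfl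

/-- the map to a ring -/
noncomputable def lft {B : Type} [CommRing B] (g : ℂ[X] →+* B) (hg : ∀ y : MM s0, IsUnit (g y)) :
    OO s0 →+* B := IsLocalization.lift hg

theorem lft_alg {B : Type} [CommRing B] (g : ℂ[X] →+* B) (hg : ∀ y : MM s0, IsUnit (g y))
    (p : ℂ[X]) : lft s0 g hg (algebraMap ℂ[X] (OO s0) p) = g p := IsLocalization.lift_eq hg p

theorem map_eq {B : Type} [CommRing B] (g : ℂ[X] →+* B) (hg : ∀ y : MM s0, IsUnit (g y))
    (Q : QP B) (h1 : g X = (Q.s : B)) (h2 : g (C Complex.I) = (Q.i : B)) :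
    (QO s0).map (lft s0 g hg) = Q := by
  have e1 : ((QO s0).map (lft s0 g hg)).s = Q.s := by
    apply Units.ext
    rw [← h1, ← lft_alg s0 g hg]
    rfl
  have e2 : ((QO s0).map (lft s0 g hg)).i = Q.i := by
    apply Units.ext
    rw [← h2, ← lft_alg s0 g hg]
    rfl
  generalize (QO s0).map (lft s0 g hg) = Q' at e1 e2
  obtain ⟨a, b, c⟩ := Q'
  obtain ⟨a', b', c'⟩ := Q
  subst e1 e2
  rfl

/-- evaluation -/
noncomputable def ev (t : ℂ) (ht : ∀ p ∈ MM s0, p.eval t ≠ 0) : OO s0 →+* ℂ :=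
  lft s0 (evalRingHom t) fun y => (ht y y.2).isUnit

theorem isUnit_iff (u : OO s0)
    (h1 : ev s0 1 (fun _ h => h.1) u ≠ 0) (h2 : ev s0 s0 (fun _ h => h.2) u ≠ 0) : IsUnit u := by
  obtain ⟨⟨a, b⟩, hab⟩ := IsLocalization.surj (MM s0) u
  have hb := b.2
  have ha : a ∈ MM s0 := by
    constructor
    · have h := congrArg (ev s0 1 (fun _ h => h.1)) hab
      rw [map_mul] at h
      have e1 : ev s0 1 (fun _ h => h.1) (algebraMap ℂ[X] (OO s0) b) = (b : ℂ[X]).eval 1 :=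
        lft_alg s0 _ _ _
      have e2 : ev s0 1 (fun _ h => h.1) (algebraMap ℂ[X] (OO s0) a) = a.eval 1 :=
        lft_alg s0 _ _ _
      rw [← e2, ← h, e1]
      exact mul_ne_zero h1 hb.1
    · have h := congrArg (ev s0 s0 (fun _ h => h.2)) hab
      rw [map_mul] at h
      have e1 : ev s0 s0 (fun _ h => h.2) (algebraMap ℂ[X] (OO s0) b) = (b : ℂ[X]).eval (s0 : ℂ) :=
        lft_alg s0 _ _ _
      have e2 : ev s0 s0 (fun _ h => h.2) (algebraMap ℂ[X] (OO s0) a) = a.eval (s0 : ℂ) :=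
        lft_alg s0 _ _ _
      rw [← e2, ← h, e1]
      exact mul_ne_zero h2 hb.2
  have h3 : IsUnit (algebraMap ℂ[X] (OO s0) a) := IsLocalization.map_units (OO s0) (⟨a, ha⟩ : MM s0)
  rw [← hab] at h3
  exact isUnit_of_mul_isUnit_left h3

/-- genericity over the localization -/
theorem gen (hb : BRK_Stmt) (r : ℕ) (h : (QC s0).Gen r) : (QO s0).Gen r := by
  intro m hm m' hm' hne
  have e1 : (QO s0).map (ev s0 1 (fun _ h => h.1)) = QC 1 := by
    refine map_eq s0 _ _ _ ?_ ?_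
    · rw [coe_evalRingHom, eval_X]
      rfl
    · rw [coe_evalRingHom, eval_C]
      rfl
  have e2 : (QO s0).map (ev s0 s0 (fun _ h => h.2)) = QC s0 := by
    refine map_eq s0 _ _ _ ?_ ?_
    · rw [coe_evalRingHom, eval_X]
      rfl
    · rw [coe_evalRingHom, eval_C]
      rfl
  apply isUnit_iff
  · rw [map_sub, ← lam_map, ← lam_map, e1, QP.lam, QP.lam, br_one hb, br_one hb, ← mul_sub]
    refine mul_ne_zero (Units.ne_zero _) (sub_ne_zero.2 ?_)
    exact_mod_cast hne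
  · rw [map_sub, ← lam_map, ← lam_map, e2]
    exact (h m hm m' hm' hne).ne_zero

/-! ### The map to the power series -/

/-- `X ↦ 1 + h` -/
noncomputable def g1 : ℂ[X] →+* PowerSeries ℂ := eval₂RingHom PowerSeries.C (1 + PowerSeries.X)

theorem g1_const (p : ℂ[X]) : PowerSeries.constantCoeff (g1 p) = p.eval 1 := by
  show PowerSeries.constantCoeff (eval₂ PowerSeries.C (1 + PowerSeries.X) p) = _
  rw [hom_eval₂, map_add, map_one, PowerSeries.constantCoeff_X, add_zero]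
  have h : (PowerSeries.constantCoeff (R := ℂ)).comp PowerSeries.C = RingHom.id ℂ := by
    ext x
    simp
  rw [h]
  rfl

theorem g1_inj : Function.Injective g1 := by
  rw [injective_iff_map_eq_zero]
  intro p hp
  have h1 : g1 p = ((p.comp (1 + X) : ℂ[X]) : PowerSeries ℂ) := by
    have h2 : ((p.comp (1 + X) : ℂ[X]) : PowerSeries ℂ) =
        coeToPowerSeries.ringHom (eval₂ C (1 + X) p) := rfl
    rw [h2, hom_eval₂]
    have h3 : (coeToPowerSeries.ringHom (R := ℂ)).comp C = PowerSeries.C := by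
      ext x
      simp
    rw [h3]
    have h4 : coeToPowerSeries.ringHom (1 + X : ℂ[X]) = 1 + PowerSeries.X := by simp
    rw [h4]
    rfl
  rw [h1] at hp
  have h5 : p.comp (1 + X) = 0 := by exact_mod_cast hp
  have h6 : p = (p.comp (1 + X)).comp (X - 1) := by
    rw [comp_assoc]
    simp
  rw [h6, h5, zero_comp]

theorem g1_unit (y : MM s0) : IsUnit (g1 y) := by
  rw [PowerSeries.isUnit_iff_constantCoeff, g1_const]
  exact y.2.1.isUnit

/-! ### The map to the dual numbers -/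

/-- `X ↦ s0 (1 + η/2)` -/
noncomputable def g2 : ℂ[X] →+* DualNumber ℂ :=
  eval₂RingHom (TrivSqZeroExt.inlHom ℂ ℂ) ((QD s0).s : DualNumber ℂ)

theorem g2_fst (p : ℂ[X]) : (g2 s0 p).fst = p.eval (s0 : ℂ) := by
  have h1 : (g2 s0 p).fst = ((TrivSqZeroExt.fstHom ℂ ℂ ℂ : DualNumber ℂ →ₐ[ℂ] ℂ) :
      DualNumber ℂ →+* ℂ) (eval₂ (TrivSqZeroExt.inlHom ℂ ℂ) ((QD s0).s : DualNumber ℂ) p) := rfl
  rw [h1, hom_eval₂]
  have h2 : ((TrivSqZeroExt.fstHom ℂ ℂ ℂ : DualNumber ℂ →ₐ[ℂ] ℂ) : DualNumber ℂ →+* ℂ).comp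
      (TrivSqZeroExt.inlHom ℂ ℂ) = RingHom.id ℂ := by
    ext x
    simp
  have h3 : ((TrivSqZeroExt.fstHom ℂ ℂ ℂ : DualNumber ℂ →ₐ[ℂ] ℂ) : DualNumber ℂ →+* ℂ)
      ((QD s0).s : DualNumber ℂ) = (s0 : ℂ) := by
    simp [QD]
  rw [h2, h3]
  rfl

theorem g2_unit (y : MM s0) : IsUnit (g2 s0 y) := by
  rw [TrivSqZeroExt.isUnit_iff_isUnit_fst, g2_fst]
  exact y.2.2.isUnit

end OT

/-- OT. -/
theorem ot (hb : BRK_Stmt) (hn : NAT_Stmt) : OT_Stmt := by
  intro r s0 hG x y hxy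
  have hGO := OT.gen s0 hb r hG
  have e1 : (OT.QO s0).map (OT.lft s0 OT.g1 (OT.g1_unit s0)) = QPS := by
    refine OT.map_eq s0 _ _ _ ?_ ?_
    · show eval₂ _ _ X = _
      rw [eval₂_X]
      rfl
    · show eval₂ _ _ (C Complex.I) = _
      rw [eval₂_C]
      rfl
  have e2 : (OT.QO s0).map (OT.lft s0 (OT.g2 s0) (OT.g2_unit s0)) = QD s0 := by
    refine OT.map_eq s0 _ _ _ ?_ ?_
    · show eval₂ _ _ X = _
      rw [eval₂_X]
    · show eval₂ _ _ (C Complex.I) = _
      rw [eval₂_C]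
      rfl
  have hinj : Function.Injective (OT.lft s0 OT.g1 (OT.g1_unit s0)) := by
    rw [injective_iff_map_eq_zero]
    intro u hu
    obtain ⟨⟨a, b⟩, hab⟩ := IsLocalization.surj (OT.MM s0) u
    have h := congrArg (OT.lft s0 OT.g1 (OT.g1_unit s0)) hab
    rw [map_mul, hu, zero_mul, OT.lft_alg] at h
    have ha : a = 0 := OT.g1_inj (by rw [← h, map_zero])
    simp only at hab
    rw [ha, map_zero] at hab
    exact (IsUnit.mul_left_eq_zero (IsLocalization.map_units (OT.OO s0) b)).1 hab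
  have n1 := (hn _ _ (OT.lft s0 OT.g1 (OT.g1_unit s0)) (OT.QO s0) r hGO).2
  have n2 := (hn _ _ (OT.lft s0 (OT.g2 s0) (OT.g2_unit s0)) (OT.QO s0) r hGO).2
  rw [e1] at n1
  rw [e2] at n2
  rw [← n1, ← n1] at hxy
  rw [← n2, ← n2, hinj hxy]

end Pool.Agent.TB
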