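import Pool.Agent.TB.Stmts

/-!
# Module RPR: properties of the R-matrix, by induction on `r`
-/

open Polynomial
open scoped BigOperators

namespace Pool.Agent.TB

namespace RPR

variable {A : Type} [CommRing A]

/-! ### Blocks -/

/-- a label with one more mode -/
def sn {r : ℕ} (x : Lb r) (u : Bool) : Lb (r + 1) := (x, u)

theorem sn_surj {r : ℕ} (x : Lb (r + 1)) : ∃ (y : Lb r) (u : Bool), x = sn y u := ⟨x.1, x.2, rfl⟩

theorem sn_inj {r : ℕ} {x y : Lb r} {u v : Bool} : sn x u = sn y v ↔ x = y ∧ u = v :=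
  Prod.mk_inj (α := Lb r) (β := Bool)

theorem par_sn {r : ℕ} (x : Lb r) (u : Bool) : (sn x u).par = xor x.par u := rfl

theorem compl_sn {r : ℕ} (x : Lb r) (u : Bool) : (sn x u).compl = sn x.compl (!u) := rfl

theorem sum_succ {M : Type} [AddCommMonoid M] {r : ℕ} (f : Lb (r + 1) → M) :
    ∑ x, f x = (∑ y : Lb r, f (sn y true)) + ∑ y : Lb r, f (sn y false) := by
  have h : ∑ x, f x = ∑ y : Lb r, ∑ u : Bool, f (sn y u) :=
    Fintype.sum_prod_type (f := fun x : Lb r × Bool => f x)
  rw [h, ← Finset.sum_add_distrib]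
  exact Finset.sum_congr rfl fun y _ => Fintype.sum_bool _

/-- the block of a matrix for given values of the last mode -/
def blk {r : ℕ} (M : Matrix (Lb (r + 1) × Lb (r + 1)) (Lb (r + 1) × Lb (r + 1)) A)
    (u v a b : Bool) : Matrix (Lb r × Lb r) (Lb r × Lb r) A :=
  fun p c => M (sn p.1 u, sn p.2 v) (sn c.1 a, sn c.2 b)

theorem blk_ext {r : ℕ} {M N : Matrix (Lb (r + 1) × Lb (r + 1)) (Lb (r + 1) × Lb (r + 1)) A}
    (h : ∀ u v a b, blk M u v a b = blk N u v a b) : M = N := by
  ext ⟨x, y⟩ ⟨z, w⟩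
  obtain ⟨x, u, rfl⟩ := sn_surj x
  obtain ⟨y, v, rfl⟩ := sn_surj y
  obtain ⟨z, a, rfl⟩ := sn_surj z
  obtain ⟨w, b, rfl⟩ := sn_surj w
  exact congrFun (congrFun (h u v a b) (x, y)) (z, w)

theorem blk_mul {r : ℕ} (M N : Matrix (Lb (r + 1) × Lb (r + 1)) (Lb (r + 1) × Lb (r + 1)) A)
    (u v a b : Bool) : blk (M * N) u v a b =
      blk M u v true true * blk N true true a b + blk M u v true false * blk N true false a b +
      blk M u v false true * blk N false true a b +
      blk M u v false false * blk N false false a b := by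
  ext p c
  show ∑ t, _ = _
  rw [Fintype.sum_prod_type, sum_succ]
  simp only [sum_succ, Finset.sum_add_distrib, Matrix.add_apply, Matrix.mul_apply,
    Fintype.sum_prod_type, blk]
  ring

theorem blk_one {r : ℕ} (u v a b : Bool) :
    blk (1 : Matrix (Lb (r + 1) × Lb (r + 1)) (Lb (r + 1) × Lb (r + 1)) A) u v a b =
      if u = a ∧ v = b then 1 else 0 := by
  ext p c
  have e : ((sn p.1 u, sn p.2 v) = (sn c.1 a, sn c.2 b)) ↔ p = c ∧ u = a ∧ v = b := by
    rw [Prod.mk.injEq, sn_inj, sn_inj, Prod.ext_iff]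
    tauto
  unfold blk
  rw [Matrix.one_apply]
  by_cases h : u = a ∧ v = b
  · rw [if_pos h, Matrix.one_apply]
    by_cases h2 : p = c
    · rw [if_pos h2, if_pos (e.2 ⟨h2, h⟩)]
    · rw [if_neg h2, if_neg (fun h3 => h2 (e.1 h3).1)]
  · rw [if_neg h, if_neg (fun h3 => h (e.1 h3).2)]
    rfl

variable (Q : QP A)

theorem blk_Im {r : ℕ} (u v a b : Bool) : blk (Im Q (r + 1)) u v a b =
    (if u = a ∧ v = b then kinv Q u v • Im Q r else 0) + bm A u v a b • 1 := by
  ext p c
  have e : (p.1 = c.1 ∧ p.2 = c.2) ↔ p = c := Prod.ext_iff.symm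
  rw [Matrix.add_apply, Matrix.smul_apply, Matrix.one_apply]
  show (if u = a ∧ v = b then kinv Q u v * Im Q r (p.1, p.2) (c.1, c.2) else 0) +
    (if p.1 = c.1 ∧ p.2 = c.2 then bm A u v a b else 0) = _
  simp only [e]
  congr 1
  · split_ifs <;> rfl
  · split_ifs <;> simp

/-- the six nonzero blocks of the R-matrix -/
theorem blk_Rm {r : ℕ} (u v a b : Bool) : blk (Rm Q (r + 1)) u v a b =
    match u, v, a, b with
      | false, false, false, false => Rm Q r
      | true, true, true, true => Rm Q r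
      | false, true, true, false => (Q.s : A) • Rm Q r
      | true, false, false, true => (-(Q.s : A)) • Rm Q r
      | false, true, false, true => ((Q.s : A) * (Q.qp 1 - Q.qp (-1))) • (Rm Q r * Im Q r)
      | _, _, _, _ => 0 := by
  cases u <;> cases v <;> cases a <;> cases b <;> rfl

theorem blk_Rn {r : ℕ} (u v a b : Bool) : blk (Rn Q (r + 1)) u v a b =
    match u, v, a, b with
      | false, false, false, false => Rn Q r
      | true, true, true, true => Rn Q r
      | false, true, true, false => (-((Q.s⁻¹ : Aˣ) : A)) • Rn Q r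
      | true, false, false, true => ((Q.s⁻¹ : Aˣ) : A) • Rn Q r
      | true, false, true, false =>
          (((Q.s⁻¹ : Aˣ) : A) * (Q.qp 1 - Q.qp (-1))) • (Rn Q r * Im Q r)
      | _, _, _, _ => 0 := by
  cases u <;> cases v <;> cases a <;> cases b <;> rfl

/-! ### Commutation and inverse -/

theorem qp_mul (m n : ℤ) : Q.qp m * Q.qp n = Q.qp (m + n) := by
  unfold QP.qp
  rw [← Units.val_mul, ← zpow_add]
  congr 2
  ring

theorem qp_zero : Q.qp 0 = 1 := by
  unfold QP.qp
  simp

theorem comm_Rm (r : ℕ) : Rm Q r * Im Q r = Im Q r * Rm Q r := by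
  induction r with
  | zero => simp [Im]
  | succ r ih =>
    apply blk_ext
    intro u v a b
    rw [blk_mul, blk_mul]
    simp only [blk_Im, blk_Rm]
    have h3 : Im Q r * (Rm Q r * Im Q r) = Rm Q r * (Im Q r * Im Q r) := by
      rw [← mul_assoc, ← ih, mul_assoc]
    have h4 : Rm Q r * Im Q r * Im Q r = Rm Q r * (Im Q r * Im Q r) := mul_assoc _ _ _
    cases u <;> cases v <;> cases a <;> cases b <;>
      simp [kinv, bm, ← ih, h3, h4, smul_smul] <;> module

theorem comm_Rn (r : ℕ) : Rn Q r * Im Q r = Im Q r * Rn Q r := by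
  induction r with
  | zero => simp [Im]
  | succ r ih =>
    apply blk_ext
    intro u v a b
    rw [blk_mul, blk_mul]
    simp only [blk_Im, blk_Rn]
    have h3 : Im Q r * (Rn Q r * Im Q r) = Rn Q r * (Im Q r * Im Q r) := by
      rw [← mul_assoc, ← ih, mul_assoc]
    have h4 : Rn Q r * Im Q r * Im Q r = Rn Q r * (Im Q r * Im Q r) := mul_assoc _ _ _
    cases u <;> cases v <;> cases a <;> cases b <;>
      simp [kinv, bm, ← ih, h3, h4, smul_smul] <;> module

theorem s_inv : (Q.s : A) * ((Q.s⁻¹ : Aˣ) : A) = 1 := Q.s.mul_inv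

theorem s_inv' : ((Q.s⁻¹ : Aˣ) : A) * (Q.s : A) = 1 := Q.s.inv_mul

theorem mul_inv_all (r : ℕ) : Rm Q r * Rn Q r = 1 ∧ Rn Q r * Rm Q r = 1 := by
  induction r with
  | zero => exact ⟨one_mul _, one_mul _⟩
  | succ r ih =>
    obtain ⟨ih1, ih2⟩ := ih
    have h5 : Rm Q r * Im Q r * Rn Q r = Im Q r := by
      rw [comm_Rm, mul_assoc, ih1, mul_one]
    have h6 : Rm Q r * (Rn Q r * Im Q r) = Im Q r := by rw [← mul_assoc, ih1, one_mul]
    have h7 : Rn Q r * Im Q r * Rm Q r = Im Q r := by
      rw [comm_Rn, mul_assoc, ih2, mul_one]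
    have h8 : Rn Q r * (Rm Q r * Im Q r) = Im Q r := by rw [← mul_assoc, ih2, one_mul]
    have s1 := s_inv Q
    have s2 := s_inv' Q
    constructor
    · apply blk_ext
      intro u v a b
      rw [blk_mul, blk_one]
      simp only [blk_Rn, blk_Rm]
      cases u <;> cases v <;> cases a <;> cases b <;>
        simp [ih1, ih2, h5, h6, h7, h8, smul_smul] <;>
        (try first | module | (match_scalars <;> linear_combination (Q.qp 1 - Q.qp (-1)) * s1) |
          (match_scalars <;> linear_combination (Q.qp (-1) - Q.qp 1) * s1))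
    · apply blk_ext
      intro u v a b
      rw [blk_mul, blk_one]
      simp only [blk_Rn, blk_Rm]
      cases u <;> cases v <;> cases a <;> cases b <;>
        simp [ih1, ih2, h5, h6, h7, h8, smul_smul] <;>
        (try first | module | (match_scalars <;> linear_combination (Q.qp 1 - Q.qp (-1)) * s1) |
          (match_scalars <;> linear_combination (Q.qp (-1) - Q.qp 1) * s1))

/-! ### Parity -/

theorem apply_blk {r : ℕ} (M : Matrix (Lb (r + 1) × Lb (r + 1)) (Lb (r + 1) × Lb (r + 1)) A)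
    (x y a b : Lb r) (u v c d : Bool) :
    M (sn x u, sn y v) (sn a c, sn b d) = blk M u v c d (x, y) (a, b) := rfl

theorem par_Im (r : ℕ) : ∀ x y a b : Lb r, x.par = a.par ∨ y.par = b.par →
    Im Q r (x, y) (a, b) = 0 := by
  induction r with
  | zero => intro x y a b _; rfl
  | succ r ih =>
    intro x y a b h
    obtain ⟨x, u, rfl⟩ := sn_surj x
    obtain ⟨y, v, rfl⟩ := sn_surj y
    obtain ⟨a, c, rfl⟩ := sn_surj a
    obtain ⟨b, d, rfl⟩ := sn_surj b
    rw [apply_blk (Im Q (r + 1)), blk_Im]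
    simp only [par_sn] at h
    have key : x.par = a.par ∨ y.par = b.par → Im Q r (x, y) (a, b) = 0 := ih x y a b
    by_cases h1 : u = c ∧ v = d
    · obtain ⟨rfl, rfl⟩ := h1
      have h2 : Im Q r (x, y) (a, b) = 0 := by
        apply key
        rcases h with h | h
        · left
          simpa using h
        · right
          simpa using h
      cases u <;> cases v <;> simp [bm, h2]
    · by_cases h3 : (x, y) = (a, b)
      · obtain ⟨rfl, rfl⟩ := Prod.mk.inj h3
        cases u <;> cases v <;> cases c <;> cases d <;> simp [bm] at h h1 ⊢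
      · rw [if_neg h1, zero_add, Matrix.smul_apply, Matrix.one_apply_ne h3, smul_zero]

theorem par_mul (r : ℕ) (M : Matrix (Lb r × Lb r) (Lb r × Lb r) A)
    (hM : ∀ x y a b : Lb r, x.par ≠ b.par ∨ y.par ≠ a.par → M (x, y) (a, b) = 0)
    (x y a b : Lb r) (h : x.par = b.par ∨ y.par = a.par) : (M * Im Q r) (x, y) (a, b) = 0 := by
  rw [Matrix.mul_apply]
  refine Finset.sum_eq_zero fun p _ => ?_
  obtain ⟨s, t⟩ := p
  by_cases h1 : x.par ≠ t.par ∨ y.par ≠ s.par
  · rw [hM _ _ _ _ h1, zero_mul]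
  · push Not at h1
    rw [par_Im Q r s t a b, mul_zero]
    rcases h with h | h
    · right
      rw [← h1.1, h]
    · left
      rw [← h1.2, h]

theorem par_Rm (r : ℕ) : ∀ x y a b : Lb r, x.par ≠ b.par ∨ y.par ≠ a.par →
    Rm Q r (x, y) (a, b) = 0 ∧ Rn Q r (x, y) (a, b) = 0 := by
  induction r with
  | zero => intro x y a b h; exact absurd rfl (h.elim id id)
  | succ r ih =>
    intro x y a b h
    obtain ⟨x, u, rfl⟩ := sn_surj x
    obtain ⟨y, v, rfl⟩ := sn_surj y
    obtain ⟨a, c, rfl⟩ := sn_surj a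
    obtain ⟨b, d, rfl⟩ := sn_surj b
    rw [apply_blk (Rm Q (r + 1)), apply_blk (Rn Q (r + 1)), blk_Rm, blk_Rn]
    simp only [par_sn] at h
    have k1 := ih x y a b
    have k2 := par_mul Q r (Rm Q r) (fun x y a b h => (ih x y a b h).1) x y a b
    have k3 := par_mul Q r (Rn Q r) (fun x y a b h => (ih x y a b h).2) x y a b
    have k4 : (x.par ≠ b.par ∨ y.par ≠ a.par) →
        Rm Q r (x, y) (a, b) = 0 ∧ Rn Q r (x, y) (a, b) = 0 := k1
    cases u <;> cases v <;> cases c <;> cases d <;>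
      simp only [Matrix.zero_apply, Matrix.smul_apply, smul_eq_mul, and_self]
    · exact k1 (by simpa using h)
    · have e := k2 (by
        revert h
        generalize x.par = p1, y.par = p2, a.par = p3, b.par = p4
        cases p1 <;> cases p2 <;> cases p3 <;> cases p4 <;> simp)
      simp [e]
    · have e := k1 (by
        revert h
        generalize x.par = p1, y.par = p2, a.par = p3, b.par = p4
        cases p1 <;> cases p2 <;> cases p3 <;> cases p4 <;> simp)
      rw [e.1, e.2, mul_zero, mul_zero]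
      exact ⟨rfl, rfl⟩
    · have e := k1 (by
        revert h
        generalize x.par = p1, y.par = p2, a.par = p3, b.par = p4
        cases p1 <;> cases p2 <;> cases p3 <;> cases p4 <;> simp)
      rw [e.1, e.2, mul_zero, mul_zero]
      exact ⟨rfl, rfl⟩
    · have e := k3 (by
        revert h
        generalize x.par = p1, y.par = p2, a.par = p3, b.par = p4
        cases p1 <;> cases p2 <;> cases p3 <;> cases p4 <;> simp)
      simp [e]
    · exact k1 (by
        revert h
        generalize x.par = p1, y.par = p2, a.par = p3, b.par = p4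
        cases p1 <;> cases p2 <;> cases p3 <;> cases p4 <;> simp)

/-! ### Symmetry -/

theorem anti_Im (r : ℕ) : ∀ x y a b : Lb r, Im Q r (x, y) (a, b) = -Im Q r (a, b) (x, y) := by
  induction r with
  | zero => intro x y a b; exact neg_zero.symm
  | succ r ih =>
    intro x y a b
    obtain ⟨x, u, rfl⟩ := sn_surj x
    obtain ⟨y, v, rfl⟩ := sn_surj y
    obtain ⟨a, c, rfl⟩ := sn_surj a
    obtain ⟨b, d, rfl⟩ := sn_surj b
    rw [apply_blk (Im Q (r + 1)), apply_blk (Im Q (r + 1)), blk_Im, blk_Im]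
    have h1 := ih x y a b
    have h2 : (1 : Matrix (Lb r × Lb r) (Lb r × Lb r) A) (x, y) (a, b) =
        (1 : Matrix (Lb r × Lb r) (Lb r × Lb r) A) (a, b) (x, y) := by
      rw [Matrix.one_apply, Matrix.one_apply]
      exact if_congr ⟨Eq.symm, Eq.symm⟩ rfl rfl
    cases u <;> cases v <;> cases c <;> cases d <;>
      simp [bm, h2, kinv, h1]

/-- the sign -/
def ep (A : Type) [CommRing A] {r : ℕ} (a b : Lb r) : A := if a.par = b.par then 1 else -1

theorem ep_aux (p3 p4 c d : Bool) : (if (p3 ^^ c) = (p4 ^^ d) then (1 : A) else -1) =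
    if c = d then if p3 = p4 then 1 else -1 else -if p3 = p4 then 1 else -1 := by
  cases c <;> cases d <;> cases p3 <;> cases p4 <;> simp

theorem sym_mul (r : ℕ) (h : ∀ x y a b : Lb r, Rm Q r (x, y) (a, b) = ep A a b * Rm Q r (a, b) (x, y))
    (x y a b : Lb r) : (Rm Q r * Im Q r) (x, y) (a, b) =
      -ep A a b * (Rm Q r * Im Q r) (a, b) (x, y) := by
  by_cases h0 : x.par = b.par ∨ y.par = a.par
  · rw [par_mul Q r (Rm Q r) (fun x y a b h => (par_Rm Q r x y a b h).1) x y a b h0,
      par_mul Q r (Rm Q r) (fun x y a b h => (par_Rm Q r x y a b h).1) a b x y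
        (h0.elim (fun h => Or.inr h.symm) (fun h => Or.inl h.symm)), mul_zero]
  · push Not at h0
    rw [comm_Rm Q r, Matrix.mul_apply, ← comm_Rm Q r, Matrix.mul_apply, Finset.mul_sum]
    refine Finset.sum_congr rfl fun p _ => ?_
    obtain ⟨s, t⟩ := p
    rw [anti_Im Q r x y s t, h s t a b]
    by_cases h1 : a.par ≠ t.par ∨ b.par ≠ s.par
    · rw [(par_Rm Q r a b s t h1).1]
      ring
    · push Not at h1
      ring

theorem sym_Rm (r : ℕ) : ∀ x y a b : Lb r,
    Rm Q r (x, y) (a, b) = ep A a b * Rm Q r (a, b) (x, y) := by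
  induction r with
  | zero =>
    intro x y a b
    have h1 : ep A a b = 1 := rfl
    rw [h1, one_mul]
    rfl
  | succ r ih =>
    intro x y a b
    obtain ⟨x, u, rfl⟩ := sn_surj x
    obtain ⟨y, v, rfl⟩ := sn_surj y
    obtain ⟨a, c, rfl⟩ := sn_surj a
    obtain ⟨b, d, rfl⟩ := sn_surj b
    rw [apply_blk (Rm Q (r + 1)), apply_blk (Rm Q (r + 1)), blk_Rm, blk_Rm]
    have h1 := ih x y a b
    have h2 := sym_mul Q r ih x y a b
    have e1 : ep A (sn a c) (sn b d) = if c = d then ep A a b else -ep A a b := by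
      unfold ep
      simp only [par_sn]
      exact ep_aux _ _ _ _
    rw [e1]
    cases u <;> cases v <;> cases c <;> cases d <;>
      simp only [Matrix.zero_apply, Matrix.smul_apply, smul_eq_mul, mul_zero, if_true]
    · exact h1
    · simp only [Bool.false_eq_true, if_false]
      rw [h2]
      ring
    · simp only [Bool.true_eq_false, if_false]
      rw [h1]
      ring
    · simp only [Bool.false_eq_true, if_false]
      rw [h1]
      ring
    · exact h1

theorem diag_Rm (r : ℕ) : ∀ x y a : Lb r,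
    Rm Q r (x, y) (a, a) = if x = a ∧ y = a then 1 else 0 := by
  induction r with
  | zero =>
    intro x y a
    show (1 : Matrix (Lb 0 × Lb 0) (Lb 0 × Lb 0) A) (x, y) (a, a) = _
    rw [Matrix.one_apply]
    simp [Prod.ext_iff]
  | succ r ih =>
    intro x y a
    obtain ⟨x, u, rfl⟩ := sn_surj x
    obtain ⟨y, v, rfl⟩ := sn_surj y
    obtain ⟨a, c, rfl⟩ := sn_surj a
    rw [apply_blk (Rm Q (r + 1)), blk_Rm]
    have h1 := ih x y a
    simp only [sn_inj]
    cases u <;> cases v <;> cases c <;> simp [h1]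

theorem compl_Rm (r : ℕ) : ∀ a d : Lb r,
    Rm Q r (a.compl, d) (a, a.compl) =
      if d = a then (-1) ^ r * (if a.par then -1 else 1) * (Q.s : A) ^ r else 0 := by
  induction r with
  | zero =>
    intro a d
    have h1 : d = a := rfl
    rw [if_pos h1]
    show (1 : Matrix (Lb 0 × Lb 0) (Lb 0 × Lb 0) A) _ _ = _
    have h2 : a.par = false := rfl
    simp [h2, Lb.compl, h1]
    rfl
  | succ r ih =>
    intro a d
    obtain ⟨a, c, rfl⟩ := sn_surj a
    obtain ⟨d, w, rfl⟩ := sn_surj d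
    have h1 := ih a d
    rw [compl_sn, apply_blk (Rm Q (r + 1)), blk_Rm]
    simp only [sn_inj, par_sn]
    by_cases h2 : d = a
    · rw [if_pos h2] at h1
      obtain rfl := h2
      by_cases hp : d.par = true
      · rw [if_pos hp] at h1
        cases w <;> cases c <;> simp [h1, hp] <;> ring
      · rw [if_neg hp] at h1
        have hp2 : d.par = false := by simpa using hp
        cases w <;> cases c <;> simp [h1, hp2] <;> ring
    · rw [if_neg h2] at h1
      cases w <;> cases c <;> simp [h1, h2]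

/-! ### Cup and cap -/

/-- the block of a vector -/
def vb {r : ℕ} (w : Lb (r + 1) × Lb (r + 1) → A) (c d : Bool) : Lb r × Lb r → A :=
  fun p => w (sn p.1 c, sn p.2 d)

theorem vb_ext {r : ℕ} {w z : Lb (r + 1) × Lb (r + 1) → A} (h : ∀ c d, vb w c d = vb z c d) :
    w = z := by
  ext ⟨x, y⟩
  obtain ⟨x, u, rfl⟩ := sn_surj x
  obtain ⟨y, v, rfl⟩ := sn_surj y
  exact congrFun (h u v) (x, y)

open Matrix in
theorem vb_mulVec {r : ℕ} (M : Matrix (Lb (r + 1) × Lb (r + 1)) (Lb (r + 1) × Lb (r + 1)) A)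
    (w : Lb (r + 1) × Lb (r + 1) → A) (u v : Bool) : vb (M *ᵥ w) u v =
      blk M u v true true *ᵥ vb w true true + blk M u v true false *ᵥ vb w true false +
      blk M u v false true *ᵥ vb w false true + blk M u v false false *ᵥ vb w false false := by
  ext p
  show ∑ t, _ = _
  rw [Fintype.sum_prod_type, sum_succ]
  simp only [sum_succ, Finset.sum_add_distrib, Pi.add_apply, Matrix.mulVec, dotProduct,
    Fintype.sum_prod_type, blk, vb]
  ring

open Matrix in
theorem vb_vecMul {r : ℕ} (M : Matrix (Lb (r + 1) × Lb (r + 1)) (Lb (r + 1) × Lb (r + 1)) A)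
    (w : Lb (r + 1) × Lb (r + 1) → A) (a b : Bool) : vb (w ᵥ* M) a b =
      vb w true true ᵥ* blk M true true a b + vb w true false ᵥ* blk M true false a b +
      vb w false true ᵥ* blk M false true a b + vb w false false ᵥ* blk M false false a b := by
  ext p
  show ∑ t, _ = _
  rw [Fintype.sum_prod_type, sum_succ]
  simp only [sum_succ, Finset.sum_add_distrib, Pi.add_apply, Matrix.vecMul, dotProduct,
    Fintype.sum_prod_type, blk, vb]
  ring

/-- the cup vector -/
def cu (r : ℕ) : Lb r × Lb r → A := fun p => cupv Q r p.1 p.2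

/-- the cap vector -/
def ca (r : ℕ) : Lb r × Lb r → A := fun p => capu Q r p.1 p.2

theorem vb_cu (r : ℕ) (c d : Bool) : vb (cu Q (r + 1)) c d =
    match c, d with
      | true, false => cu Q r
      | false, true => (-(Q.i : A) * Q.qp r) • cu Q r
      | _, _ => 0 := by
  cases c <;> cases d <;> rfl

theorem vb_ca (r : ℕ) (c d : Bool) : vb (ca Q (r + 1)) c d =
    match c, d with
      | true, false => ca Q r
      | false, true => ((Q.i : A) * Q.qp r) • ca Q r
      | _, _ => 0 := by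
  cases c <;> cases d <;> rfl

theorem fu_succ (r : ℕ) : (Q.fu (r + 1 : ℕ) : A) = Q.i * Q.s * Q.qp r * Q.fu r := by
  unfold QP.fu QP.qp
  rw [← Units.val_mul, ← Units.val_mul, ← Units.val_mul]
  congr 1
  have h1 : ((r + 1 : ℕ) : ℤ) = (r : ℤ) + 1 := by push_cast; ring
  rw [h1, zpow_add, zpow_one]
  have h2 : ((r : ℤ) + 1) ^ 2 = (r : ℤ) ^ 2 + 2 * r + 1 := by ring
  rw [h2, zpow_add, zpow_add, zpow_one]
  simp only [mul_comm, mul_left_comm, mul_assoc]

theorem vb_smul {r : ℕ} (k : A) (w : Lb (r + 1) × Lb (r + 1) → A) (c d : Bool) :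
    vb (k • w) c d = k • vb w c d := rfl

open Matrix in
theorem Im_cu (hb : BRK_Stmt) (r : ℕ) : Im Q r *ᵥ cu Q r = Q.lam r • cu Q r := by
  obtain ⟨b0, -, -, b3, b4, -, -, -, -, -⟩ := hb A Q
  induction r with
  | zero =>
    have h1 : Q.lam ((0 : ℕ) : ℤ) = 0 := by
      unfold QP.lam
      rw [Nat.cast_zero, b0, mul_zero]
    rw [h1, zero_smul]
    show (0 : Matrix _ _ A) *ᵥ _ = 0
    rw [Matrix.zero_mulVec]
  | succ r ih =>
    have e1 := Q.hi
    have e2 := b3 r
    have e3 := b4 r
    have e4 := qp_mul Q r (-r)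
    rw [add_neg_cancel, qp_zero] at e4
    have e5 : Q.lam ((r + 1 : ℕ) : ℤ) = Q.i * Q.br (r + 1) := by
      unfold QP.lam
      push_cast
      rfl
    have e6 : Q.lam (r : ℤ) = Q.i * Q.br r := rfl
    apply vb_ext
    intro c d
    rw [vb_mulVec, vb_smul]
    simp only [blk_Im, vb_cu]
    rw [e5]
    cases c <;> cases d <;>
      simp [kinv, bm, Matrix.smul_mulVec, Matrix.mulVec_smul, ih, smul_smul, Matrix.neg_mulVec]
    · rw [Matrix.mulVec_neg, Matrix.mulVec_smul, ih, e6]
      match_scalars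
      linear_combination (-Q.qp 1 * Q.qp r * Q.br r + Q.br (r + 1) * Q.qp r) * e1 -
        Q.qp r * e2 - e4
    · rw [e6]
      match_scalars
      linear_combination -(Q.i : A) * e3

open Matrix in
theorem ca_Im (hb : BRK_Stmt) (r : ℕ) : ca Q r ᵥ* Im Q r = Q.lam r • ca Q r := by
  obtain ⟨b0, -, -, b3, b4, -, -, -, -, -⟩ := hb A Q
  induction r with
  | zero =>
    have h1 : Q.lam ((0 : ℕ) : ℤ) = 0 := by
      unfold QP.lam
      rw [Nat.cast_zero, b0, mul_zero]
    rw [h1, zero_smul]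
    show _ ᵥ* (0 : Matrix _ _ A) = 0
    rw [Matrix.vecMul_zero]
  | succ r ih =>
    have e1 := Q.hi
    have e2 := b3 r
    have e3 := b4 r
    have e4 := qp_mul Q r (-r)
    rw [add_neg_cancel, qp_zero] at e4
    have e5 : Q.lam ((r + 1 : ℕ) : ℤ) = Q.i * Q.br (r + 1) := by
      unfold QP.lam
      push_cast
      rfl
    have e6 : Q.lam (r : ℤ) = Q.i * Q.br r := rfl
    apply vb_ext
    intro c d
    rw [vb_vecMul, vb_smul]
    simp only [blk_Im, vb_ca]
    rw [e5]
    cases c <;> cases d <;>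
      simp [kinv, bm, Matrix.smul_vecMul, Matrix.vecMul_smul, ih, smul_smul, Matrix.vecMul_neg,
        Matrix.vecMul_add]
    · rw [e6]
      match_scalars
      linear_combination (Q.qp 1 * Q.qp r * Q.br r - Q.br (r + 1) * Q.qp r) * e1 +
        Q.qp r * e2 + e4
    · rw [e6]
      match_scalars
      linear_combination -(Q.i : A) * e3

open Matrix in
theorem Rm_cu (hb : BRK_Stmt) (r : ℕ) : Rm Q r *ᵥ cu Q r = (Q.fu r : A) • cu Q r := by
  have hI := Im_cu Q hb
  obtain ⟨b0, -, -, b3, b4, -, -, b7, -, -⟩ := hb A Q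
  induction r with
  | zero =>
    have h1 : (Q.fu ((0 : ℕ) : ℤ) : A) = 1 := by
      unfold QP.fu
      simp
    rw [h1, one_smul]
    show (1 : Matrix _ _ A) *ᵥ _ = _
    rw [Matrix.one_mulVec]
  | succ r ih =>
    have e1 := Q.hi
    have e4 := qp_mul Q r (-r)
    rw [add_neg_cancel, qp_zero] at e4
    have e5 := b7 r
    have e6 : Q.lam (r : ℤ) = Q.i * Q.br r := rfl
    have h2 : (Rm Q r * Im Q r) *ᵥ cu Q r = (Q.fu r * Q.lam r : A) • cu Q r := by
      rw [← Matrix.mulVec_mulVec, hI r, Matrix.mulVec_smul, ih, smul_smul, mul_comm]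
    apply vb_ext
    intro c d
    rw [vb_mulVec, vb_smul, fu_succ]
    simp only [blk_Rm, vb_cu]
    cases c <;> cases d <;>
      simp [Matrix.smul_mulVec, Matrix.mulVec_smul, ih, h2, smul_smul, Matrix.neg_mulVec]
    · rw [Matrix.mulVec_neg, Matrix.mulVec_smul, h2, e6]
      match_scalars
      linear_combination (Q.s : A) * Q.fu r * (-(Q.i : A) ^ 2 * Q.qp r * e5 + (Q.i : A) ^ 2 * e4 + e1)
    · rw [Matrix.mulVec_neg, Matrix.mulVec_smul, ih]
      module

open Matrix in
theorem ca_Rm (hb : BRK_Stmt) (r : ℕ) : ca Q r ᵥ* Rm Q r = (Q.fu r : A) • ca Q r := by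
  have hI := ca_Im Q hb
  obtain ⟨b0, -, -, b3, b4, -, -, b7, -, -⟩ := hb A Q
  induction r with
  | zero =>
    have h1 : (Q.fu ((0 : ℕ) : ℤ) : A) = 1 := by
      unfold QP.fu
      simp
    rw [h1, one_smul]
    show _ ᵥ* (1 : Matrix _ _ A) = _
    rw [Matrix.vecMul_one]
  | succ r ih =>
    have e1 := Q.hi
    have e4 := qp_mul Q r (-r)
    rw [add_neg_cancel, qp_zero] at e4
    have e5 := b7 r
    have e6 : Q.lam (r : ℤ) = Q.i * Q.br r := rfl
    have h2 : ca Q r ᵥ* (Rm Q r * Im Q r) = (Q.fu r * Q.lam r : A) • ca Q r := by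
      rw [← Matrix.vecMul_vecMul, ih, Matrix.smul_vecMul, hI r, smul_smul]
    apply vb_ext
    intro c d
    rw [vb_vecMul, vb_smul, fu_succ]
    simp only [blk_Rm, vb_ca]
    cases c <;> cases d <;>
      simp [Matrix.smul_vecMul, Matrix.vecMul_smul, ih, h2, smul_smul, Matrix.vecMul_neg]
    · rw [e6]
      match_scalars
      linear_combination (Q.s : A) * Q.fu r * ((Q.i : A) ^ 2 * Q.qp r * e5 - (Q.i : A) ^ 2 * e4 - e1)
    · module

end RPR

theorem rpr (hb : BRK_Stmt) : RPR_Stmt := by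
  intro A _ Q r
  refine ⟨⟨RPR.comm_Rm Q r, RPR.comm_Rn Q r, (RPR.mul_inv_all Q r).1, (RPR.mul_inv_all Q r).2⟩,
    RPR.par_Rm Q r, ?_, RPR.diag_Rm Q r, ?_, ?_, ?_⟩
  · intro x y a b h
    rw [RPR.sym_Rm Q r x y a b]
    unfold RPR.ep
    rw [if_pos h, one_mul]
  · intro hr a d ha
    rw [RPR.compl_Rm Q r a d, ha, hr.neg_one_pow]
    simp
  · intro x y
    have h := congrFun (RPR.Rm_cu Q hb r) (x, y)
    rw [Pi.smul_apply, smul_eq_mul] at h
    refine Eq.trans ?_ h
    show _ = ∑ t, _
    rw [Fintype.sum_prod_type]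
    rfl
  · intro a b
    have h := congrFun (RPR.ca_Rm Q hb r) (a, b)
    rw [Pi.smul_apply, smul_eq_mul] at h
    refine Eq.trans ?_ h
    show _ = ∑ t, _
    rw [Fintype.sum_prod_type]
    rfl

end Pool.Agent.TB
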