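import Pool.Agent.TB.Stmts2

/-!
THE: symmetry of `Θ`.
-/

open Polynomial Filter Topology
open scoped BigOperators Real

namespace Pool.Agent.TB

namespace THE

theorem sum_neg {M : Type} [AddCommGroup M] (n : ℕ) (F : ℤ → M) (hF : ∀ a, F (a + n) = F a) :
    ∑ a ∈ Finset.range n, F (-(a : ℤ)) = ∑ a ∈ Finset.range n, F (a : ℤ) := by
  have h1 : ∑ a ∈ Finset.range n, F (-(a : ℤ)) =
      ∑ a ∈ Finset.range n, F (((n - 1 - a : ℕ) : ℤ) + 1) := by
    refine Finset.sum_congr rfl fun a ha => ?_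
    rw [← hF (-(a : ℤ))]
    congr 1
    have := Finset.mem_range.1 ha
    omega
  rw [h1, Finset.sum_range_reflect (fun j => F ((j : ℤ) + 1)) n]
  have h2 := Finset.sum_range_succ (fun j => F (j : ℤ)) n
  have h3 := Finset.sum_range_succ' (fun j => F (j : ℤ)) n
  rw [h2] at h3
  have h4 : F (n : ℤ) = F 0 := by
    have := hF 0
    rwa [zero_add] at this
  push_cast at h3
  rw [h4] at h3
  exact (add_right_cancel h3).symm

theorem saw_add (n : ℕ) (a : ℤ) : saw n (a + n) = saw n a := by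
  unfold saw
  have h1 : (n : ℤ) ∣ a + n ↔ (n : ℤ) ∣ a := by
    constructor
    · intro h
      exact (Int.dvd_add_left (dvd_refl _)).1 h
    · intro h
      exact dvd_add h (dvd_refl _)
  rw [Int.add_emod_right]
  by_cases h : (n : ℤ) ∣ a
  · rw [if_pos h, if_pos (h1.2 h)]
  · rw [if_neg h, if_neg (fun h' => h (h1.1 h'))]

theorem saw_neg (n : ℕ) [NeZero n] (a : ℤ) : saw n (-a) = -saw n a := by
  unfold saw
  have hn : (0 : ℤ) < n := by exact_mod_cast Nat.pos_of_ne_zero (NeZero.ne n)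
  by_cases h : (n : ℤ) ∣ a
  · rw [if_pos h, if_pos (by rwa [dvd_neg]), neg_zero]
  · rw [if_neg h, if_neg (by rwa [dvd_neg])]
    have h0 : a % n ≠ 0 := fun h' => h (Int.dvd_of_emod_eq_zero h')
    have h1 : 0 ≤ a % n := Int.emod_nonneg _ hn.ne'
    have h2 : a % n < n := Int.emod_lt_of_pos _ hn
    have h3 : (-a) % n = n - a % n := by
      have e : -a = (n - a % n) + n * (-(a / n) - 1) := by
        have := Int.mul_ediv_add_emod a n
        linarith
      rw [e, Int.add_mul_emod_self_left]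
      exact Int.emod_eq_of_lt (by omega) (by omega)
    rw [h3]
    have hnC : (n : ℂ) ≠ 0 := by exact_mod_cast (NeZero.ne n)
    push_cast
    field_simp
    ring

variable (n : ℕ) [NeZero n] (ι : ℤ)

omit [NeZero n] in
theorem two_n : ((2 : ZMod (2 * n)) * (n : ZMod (2 * n))) = 0 := by
  have := ZMod.natCast_self (2 * n)
  push_cast at this
  exact this

theorem Tt_add_left (a b : ℤ) (f : Fn n) (u : ZMod (2 * n)) :
    Tt n ι (a + n) b f u = Tt n ι a b f u := by
  show zt n ι (2 * ((a + n : ℤ) : ZMod (2 * n)) * b + 2 * ((a + n : ℤ) : ZMod (2 * n)) * u) *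
    f (u + 2 * b) = zt n ι (2 * a * b + 2 * a * u) * f (u + 2 * b)
  congr 2
  push_cast
  linear_combination ((b : ZMod (2 * n)) + u) * two_n n

theorem Tt_add_right (a b : ℤ) (f : Fn n) (u : ZMod (2 * n)) :
    Tt n ι a (b + n) f u = Tt n ι a b f u := by
  show zt n ι (2 * (a : ZMod (2 * n)) * ((b + n : ℤ) : ZMod (2 * n)) + 2 * a * u) *
    f (u + 2 * ((b + n : ℤ) : ZMod (2 * n))) = zt n ι (2 * a * b + 2 * a * u) * f (u + 2 * b)
  have e1 : 2 * (a : ZMod (2 * n)) * ((b + n : ℤ) : ZMod (2 * n)) + 2 * a * u =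
      2 * a * b + 2 * a * u := by
    push_cast
    linear_combination (a : ZMod (2 * n)) * two_n n
  have e2 : u + 2 * ((b + n : ℤ) : ZMod (2 * n)) = u + 2 * b := by
    push_cast
    linear_combination two_n n
  rw [e1, e2]

theorem Tt_neg (a b : ℤ) (f : Fn n) (hf : ∀ u, f (-u) = f u) (u : ZMod (2 * n)) :
    Tt n ι a b f (-u) = Tt n ι (-a) (-b) f u := by
  show zt n ι (2 * a * b + 2 * a * (-u)) * f (-u + 2 * b) =
    zt n ι (2 * ((-a : ℤ) : ZMod (2 * n)) * ((-b : ℤ) : ZMod (2 * n)) +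
      2 * ((-a : ℤ) : ZMod (2 * n)) * u) * f (u + 2 * ((-b : ℤ) : ZMod (2 * n)))
  have e1 : (2 * a * b + 2 * a * (-u) : ZMod (2 * n)) =
      2 * ((-a : ℤ) : ZMod (2 * n)) * ((-b : ℤ) : ZMod (2 * n)) +
        2 * ((-a : ℤ) : ZMod (2 * n)) * u := by
    push_cast
    ring
  have e2 : (-u + 2 * b : ZMod (2 * n)) = -(u + 2 * ((-b : ℤ) : ZMod (2 * n))) := by
    push_cast
    ring
  rw [e1, e2, hf]

theorem Th_apply (f : Fn n) (u : ZMod (2 * n)) :
    Th n ι f u = (n : ℂ) * ∑ a ∈ Finset.range n, ∑ b ∈ Finset.range n,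
      saw n (a : ℤ) * saw n (b : ℤ) * Tt n ι a b f u := by
  unfold Th
  rw [LinearMap.smul_apply, Pi.smul_apply, smul_eq_mul, LinearMap.sum_apply, Finset.sum_apply]
  congr 1
  refine Finset.sum_congr rfl fun a _ => ?_
  rw [LinearMap.sum_apply, Finset.sum_apply]
  refine Finset.sum_congr rfl fun b _ => ?_
  rw [LinearMap.smul_apply, Pi.smul_apply, smul_eq_mul]

end THE

theorem the : THE_Stmt := by
  intro n _ ι f hf u
  rw [THE.Th_apply, THE.Th_apply]
  congr 1
  set F : ℤ → ℤ → ℂ := fun a b => saw n a * saw n b * Tt n ι a b f u with hF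
  have h1 : ∀ a b : ℤ, saw n a * saw n b * Tt n ι a b f (-u) = F (-a) (-b) := by
    intro a b
    rw [hF]
    simp only
    rw [THE.Tt_neg n ι a b f hf, THE.saw_neg, THE.saw_neg]
    ring
  have hFa : ∀ a b : ℤ, F (a + n) b = F a b := by
    intro a b
    rw [hF]
    simp only
    rw [THE.saw_add, THE.Tt_add_left]
  have hFb : ∀ a b : ℤ, F a (b + n) = F a b := by
    intro a b
    rw [hF]
    simp only
    rw [THE.saw_add, THE.Tt_add_right]
  calc ∑ a ∈ Finset.range n, ∑ b ∈ Finset.range n,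
        saw n (a : ℤ) * saw n (b : ℤ) * Tt n ι a b f (-u)
      = ∑ a ∈ Finset.range n, ∑ b ∈ Finset.range n, F (-(a : ℤ)) (-(b : ℤ)) :=
        Finset.sum_congr rfl fun a _ => Finset.sum_congr rfl fun b _ => h1 a b
    _ = ∑ a ∈ Finset.range n, ∑ b ∈ Finset.range n, F (-(a : ℤ)) (b : ℤ) :=
        Finset.sum_congr rfl fun a _ => THE.sum_neg n (fun b => F (-(a : ℤ)) b) (hFb _)
    _ = ∑ a ∈ Finset.range n, ∑ b ∈ Finset.range n, F (a : ℤ) (b : ℤ) :=
        THE.sum_neg n (fun a => ∑ b ∈ Finset.range n, F a (b : ℤ))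
          (fun a => Finset.sum_congr rfl fun b _ => hFa a b)

end Pool.Agent.TB
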