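import Pool.Agent.TB.Stmts2

/-!
TOR: the universal value over the dual numbers at a root of unity.
-/

open Polynomial
open scoped BigOperators Real

namespace Pool.Agent.TB

namespace TOR

/-- a function with values in the dual numbers from its two components -/
noncomputable def mk (n : ℕ) (f0 f1 : Fn n) : ZMod (2 * n) → DualNumber ℂ :=
  fun u => TrivSqZeroExt.inl (f0 u) + TrivSqZeroExt.inr (f1 u)

section

variable {n : ℕ} [NeZero n]

theorem fst_mk (f0 f1 : Fn n) : (fun v => (mk n f0 f1 v).fst) = f0 := by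
  funext v
  simp [mk]

theorem snd_mk (f0 f1 : Fn n) : (fun v => (mk n f0 f1 v).snd) = f1 := by
  funext v
  simp [mk]

theorem mk_eta (F : ZMod (2 * n) → DualNumber ℂ) :
    mk n (fun v => (F v).fst) (fun v => (F v).snd) = F := by
  funext v
  exact TrivSqZeroExt.inl_fst_add_inr_snd_eq _

theorem lift2_mk (O0 O1 : Module.End ℂ (Fn n)) (f0 f1 : Fn n) :
    lift2 n O0 O1 (mk n f0 f1) = mk n (O0 f0) (O0 f1 + O1 f0) := by
  show (fun u => TrivSqZeroExt.inl (O0 (fun v => (mk n f0 f1 v).fst) u) +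
    TrivSqZeroExt.inr (O0 (fun v => (mk n f0 f1 v).snd) u +
      O1 (fun v => (mk n f0 f1 v).fst) u)) = _
  rw [fst_mk, snd_mk]
  rfl

theorem smul_mk (c : DualNumber ℂ) (f0 f1 : Fn n) :
    c • mk n f0 f1 = mk n (c.fst • f0) (c.fst • f1 + c.snd • f0) := by
  funext u
  ext
  · simp [mk]
  · simp [mk]

theorem mk_congr {f0 f1 f0' f1' : Fn n} (h0 : f0 = f0') (h1 : f1 = f1') :
    mk n f0 f1 = mk n f0' f1' := by rw [h0, h1]

theorem cono_char (ι : ℤ) (hz : ZT_Stmt) (hι : IsCoprime ι (2 * n : ℤ)) (g : Fn n)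
    (j : ZMod (2 * n)) :
    cono n ι g (fun v => zt n ι (j * v)) = g j • fun v => zt n ι (j * v) := by
  obtain ⟨_, hadd, _, _, hsum, _⟩ := hz n ι hι
  funext u
  show (1 / (2 * n : ℂ)) * ∑ k, ∑ v, g k * zt n ι (k * (u - v)) * zt n ι (j * v) =
    g j * zt n ι (j * u)
  have h1 : ∀ k : ZMod (2 * n), ∑ v, g k * zt n ι (k * (u - v)) * zt n ι (j * v) =
      if k = j then g j * zt n ι (j * u) * (2 * n : ℂ) else 0 := by
    intro k
    have h2 : ∀ v : ZMod (2 * n), g k * zt n ι (k * (u - v)) * zt n ι (j * v) =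
        g k * zt n ι (k * u) * zt n ι (v * (j - k)) := by
      intro v
      rw [mul_assoc, mul_assoc, ← hadd, ← hadd]
      congr 2
      ring
    rw [Finset.sum_congr rfl fun v _ => h2 v, ← Finset.mul_sum, hsum]
    by_cases hk : k = j
    · rw [if_pos (by rw [hk, sub_self]), if_pos hk, hk]
    · rw [if_neg (sub_ne_zero.2 (Ne.symm hk)), if_neg hk, mul_zero]
  rw [Finset.sum_congr rfl fun k _ => h1 k, Finset.sum_ite_eq' Finset.univ j, if_pos
    (Finset.mem_univ _)]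
  have h3 : (n : ℂ) ≠ 0 := Nat.cast_ne_zero.2 (NeZero.ne n)
  field_simp

theorem cono_shift (ι : ℤ) (hz : ZT_Stmt) (hι : IsCoprime ι (2 * n : ℤ)) (j : ZMod (2 * n))
    (f : Fn n) (u : ZMod (2 * n)) :
    cono n ι (fun k => zt n ι (j * k)) f u = f (u + j) := by
  obtain ⟨_, hadd, _, _, hsum, _⟩ := hz n ι hι
  show (1 / (2 * n : ℂ)) * ∑ k, ∑ v, zt n ι (j * k) * zt n ι (k * (u - v)) * f v = f (u + j)
  rw [Finset.sum_comm]
  have h1 : ∀ v : ZMod (2 * n), ∑ k, zt n ι (j * k) * zt n ι (k * (u - v)) * f v =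
      if v = u + j then (2 * n : ℂ) * f (u + j) else 0 := by
    intro v
    have h2 : ∀ k : ZMod (2 * n), zt n ι (j * k) * zt n ι (k * (u - v)) * f v =
        zt n ι (k * (u + j - v)) * f v := by
      intro k
      rw [← hadd]
      congr 2
      ring
    rw [Finset.sum_congr rfl fun k _ => h2 k, ← Finset.sum_mul, hsum]
    by_cases hv : v = u + j
    · rw [if_pos (by rw [hv, sub_self]), if_pos hv, hv]
    · rw [if_neg (sub_ne_zero.2 (Ne.symm hv)), if_neg hv, zero_mul]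
  rw [Finset.sum_congr rfl fun k _ => h1 k, Finset.sum_ite_eq' Finset.univ (u + j), if_pos
    (Finset.mem_univ _)]
  have h3 : (n : ℂ) ≠ 0 := Nat.cast_ne_zero.2 (NeZero.ne n)
  field_simp

theorem cono_add (ι : ℤ) (g g' : Fn n) : cono n ι (g + g') = cono n ι g + cono n ι g' := by
  refine LinearMap.ext fun f => ?_
  funext u
  show (1 / (2 * n : ℂ)) * ∑ k, ∑ v, (g k + g' k) * zt n ι (k * (u - v)) * f v =
    (1 / (2 * n : ℂ)) * ∑ k, ∑ v, g k * zt n ι (k * (u - v)) * f v +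
      (1 / (2 * n : ℂ)) * ∑ k, ∑ v, g' k * zt n ι (k * (u - v)) * f v
  rw [← mul_add, ← Finset.sum_add_distrib]
  congr 1
  refine Finset.sum_congr rfl fun k _ => ?_
  rw [← Finset.sum_add_distrib]
  exact Finset.sum_congr rfl fun v _ => by ring

theorem cono_smul (ι : ℤ) (c : ℂ) (g : Fn n) : cono n ι (c • g) = c • cono n ι g := by
  refine LinearMap.ext fun f => ?_
  funext u
  show (1 / (2 * n : ℂ)) * ∑ k, ∑ v, (c * g k) * zt n ι (k * (u - v)) * f v =
    c * ((1 / (2 * n : ℂ)) * ∑ k, ∑ v, g k * zt n ι (k * (u - v)) * f v)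
  have h : ∀ k v : ZMod (2 * n), (c * g k) * zt n ι (k * (u - v)) * f v =
      c * (g k * zt n ι (k * (u - v)) * f v) := fun k v => by ring
  simp_rw [h, ← Finset.mul_sum]
  ring

theorem cc_zero : cc n 0 = 0 := by simp [cc]

theorem cc_neg (u : ZMod (2 * n)) : cc n (-u) = cc n u := by
  simp [cc]

theorem cc_le (u : ZMod (2 * n)) : cc n u ≤ n := by
  have h := ZMod.natAbs_valMinAbs_le u
  unfold cc
  have : 2 * n / 2 = n := by omega
  rw [this] at h
  exact_mod_cast h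

theorem cc_nonneg (u : ZMod (2 * n)) : 0 ≤ cc n u := by
  unfold cc
  exact Int.natCast_nonneg _

theorem cc_add_one (hn : 1 < n) (u : ZMod (2 * n)) :
    cc n (u + 1) = cc n u + 1 ∨ cc n (u + 1) = cc n u - 1 := by
  have hne : NeZero (2 * n) := ⟨by omega⟩
  have h1 := ZMod.valMinAbs_mem_Ioc u
  have h2 := ZMod.valMinAbs_mem_Ioc (u + 1)
  rw [Set.mem_Ioc] at h1 h2
  push_cast at h1 h2
  have h3 : ((2 * n : ℕ) : ℤ) ∣ (u + 1).valMinAbs - (u.valMinAbs + 1) := by
    rw [← ZMod.intCast_zmod_eq_zero_iff_dvd]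
    push_cast
    simp
  obtain ⟨k, hk⟩ := h3
  push_cast at hk
  unfold cc
  have hn' : (1 : ℤ) < n := by exact_mod_cast hn
  have hk1 : k = 0 ∨ k = -1 := by
    have h4 : k < 1 := by
      by_contra hcon
      rw [not_lt] at hcon
      nlinarith
    have h5 : -2 < k := by
      by_contra hcon
      rw [not_lt] at hcon
      nlinarith
    omega
  rcases hk1 with rfl | rfl
  · omega
  · omega

theorem cc_sub_one (hn : 1 < n) (u : ZMod (2 * n)) :
    cc n (u - 1) = cc n u + 1 ∨ cc n (u - 1) = cc n u - 1 := by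
  have h := cc_add_one hn (u - 1)
  rw [sub_add_cancel] at h
  omega

theorem cc_one (hn : 1 < n) : cc n 1 = 1 := by
  have h := cc_add_one hn 0
  rw [zero_add, cc_zero] at h
  have h2 := cc_nonneg (n := n) 1
  omega

theorem mulo_apply (g f : Fn n) : mulo n g f = g * f := rfl

theorem Yy_eq (ι : ℤ) (hz : ZT_Stmt) (hι : IsCoprime ι (2 * n : ℤ)) :
    cono n ι (fun k => zt n ι k + zt n ι (-k)) = Yy n := by
  have h1 : (fun k => zt n ι k + zt n ι (-k)) =
      (fun k => zt n ι (1 * k)) + fun k => zt n ι (-1 * k) := by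
    funext k
    simp
  rw [h1, cono_add]
  refine LinearMap.ext fun f => ?_
  funext u
  show cono n ι (fun k => zt n ι (1 * k)) f u + cono n ι (fun k => zt n ι (-1 * k)) f u =
    f (u + 1) + f (u - 1)
  rw [cono_shift ι hz hι, cono_shift ι hz hι, ← sub_eq_add_neg]

/-- the eigenvector `ζ^u + ζ^(-u)` -/
theorem cono_c1 (ι : ℤ) (hz : ZT_Stmt) (hι : IsCoprime ι (2 * n : ℤ)) (g : Fn n)
    (hg : g (-1) = g 1) :
    cono n ι g (fun k => zt n ι k + zt n ι (-k)) = g 1 • fun k => zt n ι k + zt n ι (-k) := by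
  have h1 : (fun k => zt n ι k + zt n ι (-k)) =
      (fun k => zt n ι (1 * k)) + fun k => zt n ι (-1 * k) := by
    funext k
    simp
  rw [h1, map_add, cono_char ι hz hι, cono_char ι hz hι, hg, smul_add]

end

/-- the recursion of UNV -/
noncomputable def W {A M : Type} [CommRing A] [AddCommGroup M] [Module A M]
    (I1 I2 : Module.End A M) (Om : M) : Bool → List A[X] → M
  | _, [] => Om
  | false, P :: l => aeval I1 P (W I1 I2 Om true l)
  | true, P :: l => aeval I2 P (W I1 I2 Om false l)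

theorem aeval_conj' {A E : Type} [CommRing A] [Ring E] [Algebra A E] (U V L : E) (h : V * U = 1)
    (P : A[X]) (h' : U * V = 1) : aeval (U * L * V) P = U * aeval L P * V := by
  induction P using Polynomial.induction_on' with
  | add p q hp hq => rw [map_add, map_add, hp, hq, mul_add, add_mul]
  | monomial k a =>
    rw [aeval_monomial, aeval_monomial]
    have h1 : (U * L * V) ^ k = U * L ^ k * V := by
      induction k with
      | zero => rw [pow_zero, pow_zero, mul_one, h']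
      | succ k ih =>
        rw [pow_succ, ih, pow_succ]
        calc U * L ^ k * V * (U * L * V) = U * L ^ k * (V * U) * L * V := by noncomm_ring
          _ = U * (L ^ k * L) * V := by rw [h]; noncomm_ring
    rw [h1, ← mul_assoc, ← mul_assoc, Algebra.commutes a U, ← mul_assoc]

end TOR

open TOR in
theorem tor (hb : BRK_Stmt) (hf : FC_Stmt) (hu : UNV_Stmt) (hz : ZT_Stmt) (hg : GRT_Stmt)
    (hl : LFT_Stmt) (he : EIG_Stmt) (hn : NN_Stmt) (hm : MU_Stmt) (ht : THE_Stmt) : TOR_Stmt := by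
  intro n r _ ι hnr hr hι x _
  have hn0 : n ≠ 0 := NeZero.ne n
  have hr0 : 0 < r := by omega
  have hn1 : 1 < n := by omega
  have hG : (QD (sz n ι)).Gen r := by
    rw [hnr]
    refine (hg r ι hr0 ?_).2
    rw [hnr] at hι
    push_cast at hι
    have h1 : (4 * r : ℤ) = 2 * (2 * r) := by ring
    rw [h1]
    exact hι
  obtain ⟨hl1, hl2, hl3, hl4, hl5, hl6⟩ := hl n ι hι
  obtain ⟨⟨κ, hκ⟩, hGu⟩ := he n r ι hnr hr hι
  obtain ⟨_, _, _, _, _, _, _, _, _, hrel⟩ := hb _ (QD (sz n ι))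
  have hNN := hn n ι hn1 hι
  have hMU := hm n ι hn1 hι
  have hTHE := ht n ι
  -- the eigenvalues
  obtain ⟨lam, hlam⟩ : ∃ lam : ZMod (2 * n) → DualNumber ℂ,
      lam = fun u => (QD (sz n ι)).lam (r - cc n u) := ⟨_, rfl⟩
  have hlamv : ∀ u, lam u = (QD (sz n ι)).lam (r - cc n u) := fun u => by rw [hlam]
  have hlam0 : lam 0 = (QD (sz n ι)).lam r := by rw [hlamv, cc_zero, sub_zero]
  have hlam1 : lam 1 = (QD (sz n ι)).lam (r - 1) := by rw [hlamv, cc_one hn1]
  have hlamneg : ∀ u, lam (-u) = lam u := fun u => by rw [hlamv, hlamv, cc_neg]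
  have hrelv : ∀ u v : ZMod (2 * n), (cc n v = cc n u + 1 ∨ cc n v = cc n u - 1) →
      lam v ^ 2 - (QD (sz n ι)).two * lam v * lam u + lam u ^ 2 + 1 = 0 := by
    intro u v h
    rw [hlamv, hlamv, hrel]
    rcases h with h | h
    · rw [show (r : ℤ) - cc n v = r - cc n u - 1 by omega, sub_self, mul_zero]
    · rw [show (r : ℤ) - cc n v = r - cc n u + 1 by omega, sub_self, zero_mul]
  obtain ⟨c1, hc1⟩ : ∃ c1 : Fn n, c1 = fun k => zt n ι k + zt n ι (-k) := ⟨_, rfl⟩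
  obtain ⟨S', hS'⟩ : ∃ S' : Fn n, S' = fun k => saw n (k.val : ℤ) * (zt n ι k - zt n ι (-k)) :=
    ⟨_, rfl⟩
  obtain ⟨g0, hg0⟩ : ∃ g0 : Fn n, g0 = fun u => (lam u).fst := ⟨_, rfl⟩
  obtain ⟨g1, hg1⟩ : ∃ g1 : Fn n, g1 = fun u => (lam u).snd := ⟨_, rfl⟩
  have hgl : ∀ u, TrivSqZeroExt.inl (g0 u) + TrivSqZeroExt.inr (g1 u) = lam u := by
    intro u
    rw [hg0, hg1]
    exact TrivSqZeroExt.inl_fst_add_inr_snd_eq _
  obtain ⟨k0, hk0⟩ : ∃ k0 : ℂ, k0 = (κ : DualNumber ℂ).fst := ⟨_, rfl⟩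
  obtain ⟨k1, hk1⟩ : ∃ k1 : ℂ, k1 = (κ : DualNumber ℂ).snd := ⟨_, rfl⟩
  have hg0' : g0 = k0 • c1 := by
    funext u
    rw [hg0]
    show (lam u).fst = k0 * c1 u
    rw [hlamv, hκ, hc1, hk0, TrivSqZeroExt.fst_mul]
    simp only [TrivSqZeroExt.fst_add, TrivSqZeroExt.fst_inl, TrivSqZeroExt.fst_inr, add_zero]
  have hg1' : g1 = k0 • ((n : ℂ) • S') + k1 • c1 := by
    funext u
    rw [hg1]
    show (lam u).snd = k0 * (n * S' u) + k1 * c1 u
    rw [hlamv, hκ, hc1, hk0, hk1, hS', DualNumber.snd_mul]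
    simp only [TrivSqZeroExt.fst_add, TrivSqZeroExt.fst_inl, TrivSqZeroExt.fst_inr, add_zero,
      TrivSqZeroExt.snd_add, TrivSqZeroExt.snd_inl, TrivSqZeroExt.snd_inr, zero_add]
    ring
  -- the operators
  obtain ⟨Tp, hTp⟩ : ∃ Tp, Tp = lift2 n 1 (Th n ι) := ⟨_, rfl⟩
  obtain ⟨Tm, hTm⟩ : ∃ Tm, Tm = lift2 n 1 (-(Th n ι)) := ⟨_, rfl⟩
  have hpm : Tp * Tm = 1 := by
    rw [hTp, hTm, hl1]
    simp [hl2]
  have hmp : Tm * Tp = 1 := by
    rw [hTp, hTm, hl1]
    simp [hl2]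
  have hpmv : ∀ F, Tp (Tm F) = F := fun F => by
    have := congrArg (fun T => T F) hpm
    simpa using this
  have hmpv : ∀ F, Tm (Tp F) = F := fun F => by
    have := congrArg (fun T => T F) hmp
    simpa using this
  obtain ⟨L, hL⟩ : ∃ L, L = lift2 n (cono n ι g0) (cono n ι g1) := ⟨_, rfl⟩
  obtain ⟨I1, hI1⟩ : ∃ I1, I1 = Tm * L * Tp := ⟨_, rfl⟩
  obtain ⟨I2, hI2⟩ : ∃ I2, I2 = lift2 n (mulo n g0) (mulo n g1) := ⟨_, rfl⟩
  have hI1v : ∀ F, I1 F = Tm (L (Tp F)) := fun F => by rw [hI1]; rfl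
  have hI2v : ∀ F u, I2 F u = lam u * F u := by
    intro F u
    rw [← mk_eta F, hI2, lift2_mk, ← hgl]
    ext
    · simp [mk, mulo_apply]
    · simp [mk, mulo_apply, DualNumber.snd_mul]
  obtain ⟨Om, hOm⟩ : ∃ Om, Om = Tm (mk n 1 0) := ⟨_, rfl⟩
  have hOm' : Om = mk n 1 (-(Th n ι 1)) := by
    rw [hOm, hTm, lift2_mk]
    simp
  obtain ⟨Om', hOmp⟩ : ∃ Om' : (ZMod (2 * n) → DualNumber ℂ) →ₗ[DualNumber ℂ] DualNumber ℂ,
      Om' = (1 + TrivSqZeroExt.inr (Th n ι 1 0) : DualNumber ℂ) • LinearMap.proj 0 := ⟨_, rfl⟩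
  have hOmpv : ∀ F, Om' F = (1 + TrivSqZeroExt.inr (Th n ι 1 0) : DualNumber ℂ) * F 0 := by
    intro F
    rw [hOmp]
    rfl
  -- first eigenvector
  have e1 : I1 Om = (QD (sz n ι)).lam r • Om := by
    rw [hI1v, hOm, hpmv, hL, lift2_mk, hl6, hl6, map_zero, zero_add, ← map_smul]
    congr 1
    rw [← hlam0, ← hgl 0, smul_mk]
    refine mk_congr ?_ ?_
    · funext u
      simp
    · funext u
      simp
  -- second eigenvector
  have hTIO : Tp (I2 Om) = mk n (k0 • c1) ((k0 * ((n / 2 : ℂ) * hh n ι 1) + k1) • c1) := by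
    rw [hOm', hI2, lift2_mk, hTp, lift2_mk]
    have h1 : mulo n g0 1 = k0 • c1 := by
      rw [mulo_apply, mul_one, hg0']
    have h2 : mulo n g1 1 = k0 • ((n : ℂ) • S') + k1 • c1 := by
      rw [mulo_apply, mul_one, hg1']
    rw [h1, h2, mulo_apply, hg0']
    refine mk_congr rfl ?_
    funext u
    have h3 := hMU u
    have h4 : Th n ι (fun v => zt n ι v + zt n ι (-v)) = Th n ι c1 := by rw [hc1]
    rw [h4] at h3
    have h5 : c1 u = zt n ι u + zt n ι (-u) := by rw [hc1]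
    have h6 : S' u = saw n (u.val : ℤ) * (zt n ι u - zt n ι (-u)) := by rw [hS']
    rw [← h5] at h3
    show (1 : Module.End ℂ (Fn n)) ((k0 • c1) * (-(Th n ι 1)) + (k0 • ((n : ℂ) • S') + k1 • c1)) u +
      Th n ι (k0 • c1) u = (k0 * ((n / 2 : ℂ) * hh n ι 1) + k1) * c1 u
    rw [map_smul]
    show (k0 * c1 u) * (-(Th n ι 1 u)) + (k0 * (n * S' u) + k1 * c1 u) + k0 * Th n ι c1 u = _
    rw [h6]
    linear_combination k0 * h3
  have hgm0 : g0 (-1) = g0 1 := by
    rw [hg0]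
    show (lam (-1)).fst = (lam 1).fst
    rw [hlamneg]
  have hgm1 : g1 (-1) = g1 1 := by
    rw [hg1]
    show (lam (-1)).snd = (lam 1).snd
    rw [hlamneg]
  have e2 : I1 (I2 Om) = (QD (sz n ι)).lam (r - 1) • I2 Om := by
    have h1 : L (Tp (I2 Om)) = lam 1 • Tp (I2 Om) := by
      rw [hTIO, hL, lift2_mk, smul_mk, ← hgl 1]
      have h2 : cono n ι g0 c1 = g0 1 • c1 := by rw [hc1]; exact cono_c1 ι hz hι g0 hgm0
      have h3 : cono n ι g1 c1 = g1 1 • c1 := by rw [hc1]; exact cono_c1 ι hz hι g1 hgm1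
      rw [map_smul, map_smul, map_smul, h2, h3]
      refine mk_congr ?_ ?_
      · funext u
        simp
        ring
      · funext u
        simp
        ring
    rw [hI1v, h1, map_smul, hmpv, hlam1]
  -- nearest neighbour form on even functions
  obtain ⟨al, hal⟩ : ∃ al : ZMod (2 * n) → DualNumber ℂ, al = fun u => (κ : DualNumber ℂ) *
      (1 - TrivSqZeroExt.inr ((n / 2 : ℂ) * (hh n ι u - hh n ι (u + 1)))) := ⟨_, rfl⟩
  obtain ⟨be, hbe⟩ : ∃ be : ZMod (2 * n) → DualNumber ℂ, be = fun u => (κ : DualNumber ℂ) *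
      (1 - TrivSqZeroExt.inr ((n / 2 : ℂ) * (hh n ι (u - 1) - hh n ι u))) := ⟨_, rfl⟩
  have hC0 : cono n ι g0 = k0 • Yy n := by
    rw [hg0', cono_smul, hc1, Yy_eq ι hz hι]
  have hC1 : cono n ι g1 = k0 • ((n : ℂ) • cono n ι S') + k1 • Yy n := by
    rw [hg1', cono_add, cono_smul, cono_smul, cono_smul, hc1, Yy_eq ι hz hι]
  have hnn : ∀ F : ZMod (2 * n) → DualNumber ℂ, (∀ u, F (-u) = F u) → ∀ u,
      I1 F u = al u * F (u + 1) + be u * F (u - 1) := by
    intro F hF u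
    obtain ⟨f0, hf0⟩ : ∃ f0 : Fn n, f0 = fun v => (F v).fst := ⟨_, rfl⟩
    obtain ⟨f1, hf1⟩ : ∃ f1 : Fn n, f1 = fun v => (F v).snd := ⟨_, rfl⟩
    have hFm : F = mk n f0 f1 := by rw [hf0, hf1, mk_eta]
    have hev : ∀ u, f0 (-u) = f0 u := fun u => by
      rw [hf0]
      show (F (-u)).fst = (F u).fst
      rw [hF]
    have h1 := hNN f0 hev u
    have h2 : (cono n ι fun k => saw n (k.val : ℤ) * (zt n ι k - zt n ι (-k))) = cono n ι S' := by
      rw [hS']
    rw [h2] at h1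
    have h3 : (n : ℂ) * cono n ι S' f0 u -
        (Th n ι (Yy n f0) u - (Th n ι f0 (u + 1) + Th n ι f0 (u - 1))) =
        -(n / 2 : ℂ) * ((hh n ι u - hh n ι (u + 1)) * f0 (u + 1) +
          (hh n ι (u - 1) - hh n ι u) * f0 (u - 1)) := h1
    rw [hFm, hI1v, hTp, lift2_mk, hL, lift2_mk, hTm, lift2_mk, hC0, hC1]
    ext
    · rw [hal, hbe, TrivSqZeroExt.fst_add, TrivSqZeroExt.fst_mul, TrivSqZeroExt.fst_mul]
      simp only [mk, TrivSqZeroExt.fst_add, TrivSqZeroExt.fst_inl, TrivSqZeroExt.fst_inr, add_zero,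
        TrivSqZeroExt.fst_mul, TrivSqZeroExt.fst_sub, TrivSqZeroExt.fst_one, sub_zero, mul_one]
      rw [← hk0]
      show k0 * (f0 (u + 1) + f0 (u - 1)) = k0 * f0 (u + 1) + k0 * f0 (u - 1)
      ring
    · rw [hal, hbe, TrivSqZeroExt.snd_add, DualNumber.snd_mul, DualNumber.snd_mul]
      simp only [mk, TrivSqZeroExt.fst_add, TrivSqZeroExt.fst_inl, TrivSqZeroExt.fst_inr, add_zero,
        TrivSqZeroExt.fst_mul, TrivSqZeroExt.fst_sub, TrivSqZeroExt.fst_one, sub_zero, mul_one,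
        TrivSqZeroExt.snd_add, TrivSqZeroExt.snd_inl, TrivSqZeroExt.snd_inr, zero_add,
        DualNumber.snd_mul, TrivSqZeroExt.snd_sub, TrivSqZeroExt.snd_one, zero_sub]
      rw [← hk0, ← hk1]
      have h4 : ((1 : Module.End ℂ (Fn n)) ((k0 • Yy n) ((1 : Module.End ℂ (Fn n)) f1 + Th n ι f0) +
          (k0 • (n : ℂ) • cono n ι S' + k1 • Yy n) ((1 : Module.End ℂ (Fn n)) f0)) +
          (-(Th n ι)) ((k0 • Yy n) ((1 : Module.End ℂ (Fn n)) f0))) u =
          (k0 * ((f1 (u + 1) + Th n ι f0 (u + 1)) + (f1 (u - 1) + Th n ι f0 (u - 1))) +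
            (k0 * (n * cono n ι S' f0 u) + k1 * (f0 (u + 1) + f0 (u - 1)))) -
            k0 * Th n ι (Yy n f0) u := by
        have h5 : (-(Th n ι)) ((k0 • Yy n) ((1 : Module.End ℂ (Fn n)) f0)) =
            -(k0 • Th n ι (Yy n f0)) := by
          show -(Th n ι (k0 • Yy n f0)) = -(k0 • Th n ι (Yy n f0))
          rw [map_smul]
        rw [h5]
        rfl
      rw [h4]
      linear_combination k0 * h3
  have hev : ∀ k : ℕ, ∀ u, ((I2 ^ k) Om) (-u) = ((I2 ^ k) Om) u := by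
    intro k
    induction k with
    | zero =>
      intro u
      rw [pow_zero]
      show Om (-u) = Om u
      rw [hOm']
      show TrivSqZeroExt.inl 1 + TrivSqZeroExt.inr (-(Th n ι 1 (-u))) =
        TrivSqZeroExt.inl 1 + TrivSqZeroExt.inr (-(Th n ι 1 u))
      rw [hTHE 1 (fun _ => rfl) u]
    | succ k ih =>
      intro u
      rw [pow_succ']
      show I2 ((I2 ^ k) Om) (-u) = I2 ((I2 ^ k) Om) u
      rw [hI2v, hI2v, hlamneg, ih]
  have e3 : ∀ k : ℕ, I1 ((I2 ^ (k + 2)) Om) =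
      (QD (sz n ι)).two • I2 (I1 ((I2 ^ (k + 1)) Om)) - I2 (I2 (I1 ((I2 ^ k) Om))) -
        I1 ((I2 ^ k) Om) := by
    intro k
    funext u
    have h1 : ∀ v, ((I2 ^ (k + 1)) Om) v = lam v * ((I2 ^ k) Om) v := fun v => by
      rw [pow_succ']
      exact hI2v _ v
    have h2 : ∀ v, ((I2 ^ (k + 2)) Om) v = lam v * (lam v * ((I2 ^ k) Om) v) := fun v => by
      rw [pow_succ']
      exact (hI2v _ v).trans (by rw [h1])
    have r1 := hrelv u (u + 1) (cc_add_one hn1 u)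
    have r2 := hrelv u (u - 1) (cc_sub_one hn1 u)
    show I1 ((I2 ^ (k + 2)) Om) u =
      (QD (sz n ι)).two * I2 (I1 ((I2 ^ (k + 1)) Om)) u - I2 (I2 (I1 ((I2 ^ k) Om))) u -
        I1 ((I2 ^ k) Om) u
    rw [hI2v, hI2v, hI2v, hnn _ (hev _), hnn _ (hev _), hnn _ (hev _), h1, h1, h2, h2]
    linear_combination (al u * ((I2 ^ k) Om) (u + 1)) * r1 + (be u * ((I2 ^ k) Om) (u - 1)) * r2
  have e4 : ∀ v, Om' (I2 v) = (QD (sz n ι)).lam r * Om' v := by
    intro v
    rw [hOmpv, hOmpv, hI2v, hlam0]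
    ring
  have e5 : Om' Om = 1 := by
    rw [hOmpv, hOm']
    ext
    · simp [mk]
    · simp [mk, DualNumber.snd_mul]
  have hU := hu (DualNumber ℂ) (QD (sz n ι)).two ((QD (sz n ι)).lam r) ((QD (sz n ι)).lam (r - 1))
    (ZMod (2 * n) → DualNumber ℂ) I1 I2 Om Om' e1 e2 e3 e4 e5 (W I1 I2 Om)
    (fun b => by cases b <;> rfl) (fun P l => rfl) (fun P l => rfl)
  -- the recursion
  obtain ⟨F, hF⟩ : ∃ F : ℤ → (DualNumber ℂ)[X], F = fun a => (QD (sz n ι)).interp r fun m =>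
      (((QD (sz n ι)).Gu r m ^ a : (DualNumber ℂ)ˣ) : DualNumber ℂ) := ⟨_, rfl⟩
  have hFe : ∀ a u, (F a).eval (TrivSqZeroExt.inl (g0 u) + TrivSqZeroExt.inr (g1 u)) =
      TrivSqZeroExt.inl (zt n ι (a * u ^ 2)) + TrivSqZeroExt.inr
        (zt n ι (a * u ^ 2) * (a * bq n u)) := by
    intro a u
    rw [hgl, hlamv, hF]
    show ((QD (sz n ι)).interp r fun m => (((QD (sz n ι)).Gu r m ^ a : (DualNumber ℂ)ˣ) :
      DualNumber ℂ)).eval ((QD (sz n ι)).lam (r - cc n u)) = _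
    rw [(hf _ (QD (sz n ι)) r hG).1 _ _ ?_, hGu]
    · ext
      · simp
      · simp [DualNumber.snd_mul]
    · have h1 := cc_le u
      have h2 := cc_nonneg u
      have h3 : (n : ℤ) = 2 * r := by exact_mod_cast hnr
      rw [Finset.mem_Icc]
      constructor <;> linarith
  have hf0 : ∀ a, (fun u => ((F a).eval (TrivSqZeroExt.inl (g0 u) +
      TrivSqZeroExt.inr (g1 u))).fst) = fun u => zt n ι (a * u ^ 2) := by
    intro a
    funext u
    rw [hFe]
    simp
  have hf1 : ∀ a, (fun u => ((F a).eval (TrivSqZeroExt.inl (g0 u) +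
      TrivSqZeroExt.inr (g1 u))).snd) = (a : ℂ) • (bq n * fun u => zt n ι (a * u ^ 2)) := by
    intro a
    funext u
    rw [hFe]
    simp
    ring
  have hW : ∀ (x : List ℤ) (b : Bool), W I1 I2 Om b (x.map F) =
      mk n (vec n ι b x).1 (vec n ι b x).2 := by
    intro x
    induction x with
    | nil =>
      intro b
      have h1 : W I1 I2 Om b ([].map F) = Om := by cases b <;> rfl
      rw [h1, hOm']
      cases b <;> rfl
    | cons a l ih =>
      intro b
      cases b with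
      | false =>
        show aeval I1 (F a) (W I1 I2 Om true (l.map F)) = _
        rw [ih, hI1, aeval_conj' Tm Tp L hpm _ hmp, hL, hl4, hf0, hf1, cono_smul, hl5]
        show Tm (lift2 n (cono n ι fun u => zt n ι (a * u ^ 2))
          ((a : ℂ) • (cono n ι (bq n) * cono n ι fun u => zt n ι (a * u ^ 2)))
            (Tp (mk n (vec n ι true l).1 (vec n ι true l).2))) = _
        rw [hTp, lift2_mk, lift2_mk, hTm, lift2_mk]
        refine mk_congr rfl ?_
        show (Dc n ι a ((vec n ι true l).2 + Th n ι (vec n ι true l).1) +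
          (a : ℂ) • cono n ι (bq n) (Dc n ι a (vec n ι true l).1)) +
            -(Th n ι (Dc n ι a (vec n ι true l).1)) = _
        rw [← sub_eq_add_neg]
        rfl
      | true =>
        show aeval I2 (F a) (W I1 I2 Om false (l.map F)) = _
        rw [ih, hI2, hl3, hf0, hf1, lift2_mk]
        refine mk_congr rfl ?_
        funext u
        show zt n ι (a * u ^ 2) * (vec n ι false l).2 u +
          ((a : ℂ) * (bq n u * zt n ι (a * u ^ 2))) * (vec n ι false l).1 u =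
          zt n ι (a * u ^ 2) * (vec n ι false l).2 u +
            (a : ℂ) * (bq n u * (zt n ι (a * u ^ 2) * (vec n ι false l).1 u))
        ring
  have hfin := hU (x.map F)
  rw [hW, hOmpv] at hfin
  have hJ : Jval (QD (sz n ι)) r x =
      Uval (QD (sz n ι)).two ((QD (sz n ι)).lam r) ((QD (sz n ι)).lam (r - 1)) (x.map F) := by
    rw [hF]
    rfl
  rw [hJ, ← hfin, mul_comm]
  rfl

end Pool.Agent.TB
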