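import Pool.Agent.TB.Stmts2

/-!
EIG: the eigenvalues over the dual numbers.
-/

open Polynomial
open scoped BigOperators Real

namespace Pool.Agent.TB

namespace EIG

set_option linter.unusedSectionVars false

/-- `c ↦ 1 + η c` -/
noncomputable def ex : Multiplicative ℂ →* (DualNumber ℂ)ˣ where
  toFun c :=
    { val := 1 + TrivSqZeroExt.inr (Multiplicative.toAdd c)
      inv := 1 - TrivSqZeroExt.inr (Multiplicative.toAdd c)
      val_inv := by
        ext
        · simp
        · simp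
      inv_val := by
        ext
        · simp
        · simp }
  map_one' := by
    apply Units.ext
    simp
  map_mul' a b := by
    apply Units.ext
    ext
    · simp
    · simp [add_comm]

/-- polar form: `(z, c) ↦ z (1 + η c)` -/
noncomputable def PL : ℂˣ × Multiplicative ℂ →* (DualNumber ℂ)ˣ where
  toFun p := Units.map ((TrivSqZeroExt.inlHom ℂ ℂ : ℂ →+* DualNumber ℂ) : ℂ →* DualNumber ℂ) p.1 *
    ex p.2
  map_one' := by simp
  map_mul' a b := by
    have h : ∀ p q : (DualNumber ℂ)ˣ, p * q = q * p := fun p q => Units.ext (mul_comm _ _)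
    rw [Prod.fst_mul, Prod.snd_mul, map_mul, map_mul, mul_assoc, mul_assoc]
    congr 1
    rw [← mul_assoc, ← mul_assoc, h (Units.map _ b.1) (ex a.2)]

theorem PL_coe (z : ℂˣ) (c : ℂ) : ((PL (z, Multiplicative.ofAdd c) : (DualNumber ℂ)ˣ) :
    DualNumber ℂ) = TrivSqZeroExt.inl (z : ℂ) * (1 + TrivSqZeroExt.inr c) := rfl

theorem s_eq (s0 : ℂˣ) : (QD s0).s = PL (s0, Multiplicative.ofAdd (1 / 2 : ℂ)) := by
  apply Units.ext
  rw [PL_coe]
  show TrivSqZeroExt.inl (s0 : ℂ) + TrivSqZeroExt.inr ((s0 : ℂ) / 2) = _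
  ext
  · simp
  · simp [div_eq_mul_inv]

theorem i_eq (s0 : ℂˣ) : (QD s0).i = PL (iC, 1) := by
  show Units.map ((TrivSqZeroExt.inlHom ℂ ℂ : ℂ →+* DualNumber ℂ) : ℂ →* DualNumber ℂ) iC = _
  simp [PL]

theorem zpow_pair (z : ℂˣ) (c : ℂ) (k : ℤ) :
    ((z, Multiplicative.ofAdd c) : ℂˣ × Multiplicative ℂ) ^ k =
      (z ^ k, Multiplicative.ofAdd ((k : ℂ) * c)) := by
  refine Prod.ext rfl ?_
  show (Multiplicative.ofAdd c) ^ k = Multiplicative.ofAdd ((k : ℂ) * c)
  rw [← ofAdd_zsmul, zsmul_eq_mul]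

theorem s_zpow (s0 : ℂˣ) (k : ℤ) :
    (QD s0).s ^ k = PL (s0 ^ k, Multiplicative.ofAdd ((k : ℂ) * (1 / 2))) := by
  rw [s_eq, ← map_zpow, zpow_pair]

theorem qp_eq (s0 : ℂˣ) (m : ℤ) :
    (QD s0).qp m = TrivSqZeroExt.inl ((s0 ^ (2 * m) : ℂˣ) : ℂ) * (1 + TrivSqZeroExt.inr (m : ℂ)) := by
  rw [QP.qp, s_zpow, PL_coe]
  congr 3
  push_cast
  ring

theorem fu_eq (s0 : ℂˣ) (m : ℤ) :
    (QD s0).fu m = PL (iC ^ m * s0 ^ (m ^ 2), Multiplicative.ofAdd ((m : ℂ) ^ 2 * (1 / 2))) := by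
  rw [QP.fu, s_zpow, i_eq, ← map_zpow, ← map_mul]
  congr 1
  refine Prod.ext rfl ?_
  show (1 : Multiplicative ℂ) ^ m * Multiplicative.ofAdd (((m ^ 2 : ℤ) : ℂ) * (1 / 2)) = _
  rw [one_zpow, one_mul]
  push_cast
  rfl

theorem Gu_eq (s0 : ℂˣ) (r : ℕ) (c : ℤ) (hs : iC ^ (2 : ℤ) * s0 ^ (4 * (r : ℤ)) = 1) :
    (QD s0).Gu r (r - c) =
      PL (s0 ^ (2 * c ^ 2), Multiplicative.ofAdd ((c : ℂ) * (c - 2 * r))) := by
  rw [QP.Gu, fu_eq, fu_eq, ← map_pow, ← map_pow, ← map_inv, ← map_mul]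
  congr 1
  refine Prod.ext ?_ ?_
  · show (iC ^ ((r : ℤ) - c) * s0 ^ (((r : ℤ) - c) ^ 2)) ^ 2 *
      ((iC ^ (r : ℤ) * s0 ^ ((r : ℤ) ^ 2)) ^ 2)⁻¹ = s0 ^ (2 * c ^ 2)
    have h1 : s0 ^ (2 * c ^ 2) = s0 ^ (2 * c ^ 2) * (iC ^ (2 : ℤ) * s0 ^ (4 * (r : ℤ))) ^ (-c) := by
      rw [hs, one_zpow, mul_one]
    rw [h1, mul_zpow, ← zpow_natCast, ← zpow_natCast, mul_zpow, mul_zpow, mul_inv, ← zpow_neg,
      ← zpow_neg, ← zpow_mul, ← zpow_mul, ← zpow_mul, ← zpow_mul, ← zpow_mul, ← zpow_mul]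
    have h2 : ∀ a b c d : ℤ, iC ^ a * s0 ^ b * (iC ^ c * s0 ^ d) = iC ^ (a + c) * s0 ^ (b + d) := by
      intro a b c d
      rw [zpow_add, zpow_add]
      exact mul_mul_mul_comm _ _ _ _
    have h3 : ∀ a b c : ℤ, s0 ^ a * (iC ^ b * s0 ^ c) = iC ^ b * s0 ^ (a + c) := by
      intro a b c
      rw [zpow_add]
      exact mul_left_comm _ _ _
    rw [h2, h3]
    congr 2
    · push_cast; ring
    · push_cast; ring
  · show (Multiplicative.ofAdd ((((r : ℤ) - c : ℤ) : ℂ) ^ 2 * (1 / 2))) ^ 2 *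
      ((Multiplicative.ofAdd ((((r : ℤ) : ℤ) : ℂ) ^ 2 * (1 / 2))) ^ 2)⁻¹ = _
    rw [← ofAdd_nsmul, ← ofAdd_nsmul, ← ofAdd_neg, ← ofAdd_add]
    congr 1
    simp only [nsmul_eq_mul]
    push_cast
    ring

/-! ### The root of unity -/

section Z

variable (n : ℕ) [NeZero n] (ι : ℤ)

/-- `ζ^k` -/
noncomputable def Z (k : ℤ) : ℂ := ((sz n ι ^ (2 * k) : ℂˣ) : ℂ)

theorem Z_zero : Z n ι 0 = 1 := by simp [Z]

theorem Z_add (a b : ℤ) : Z n ι (a + b) = Z n ι a * Z n ι b := by
  unfold Z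
  rw [mul_add, zpow_add, Units.val_mul]

theorem cc_cases (u : ZMod (2 * n)) :
    ∃ v : ℤ, ((v : ℤ) : ZMod (2 * n)) = u ∧ v = (u.val : ℤ) ∧
      ((0 ≤ v ∧ v ≤ n ∧ cc n u = v) ∨ ((n : ℤ) < v ∧ v < 2 * n ∧ cc n u = 2 * n - v)) := by
  refine ⟨(u.val : ℤ), by simp, rfl, ?_⟩
  have h1 := ZMod.valMinAbs_def_pos u
  have h2 := ZMod.val_lt u
  unfold cc
  rw [h1]
  split_ifs with h
  · left
    refine ⟨by omega, by omega, by omega⟩
  · right
    refine ⟨by omega, by omega, by omega⟩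

end Z

end EIG

open EIG in
theorem eig (hb : BRK_Stmt) (hz : ZT_Stmt) : EIG_Stmt := by
  intro n r _ ι hn hr hι
  obtain ⟨-, -, hz3, hz4, -, hz6, -, -⟩ := hz n ι hι
  have hn0 : (n : ℂ) ≠ 0 := Nat.cast_ne_zero.2 (NeZero.ne n)
  have hZ : ∀ a : ℤ, zt n ι (a : ZMod (2 * n)) = Z n ι a := hz3
  have hZn : Z n ι n = -1 := by
    rw [← hZ]
    exact hz4
  have hZneg : ∀ a : ℤ, Z n ι a * Z n ι (-a) = 1 := by
    intro a
    rw [← Z_add, add_neg_cancel, Z_zero]
  have hZnn : Z n ι (-n) = -1 := by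
    have h := hZneg n
    rw [hZn] at h
    linear_combination -h
  have hZ2n : Z n ι (2 * n) = 1 := by
    rw [two_mul, Z_add, hZn]
    norm_num
  -- the values of `zt` at `u` and `-u`
  have key : ∀ u : ZMod (2 * n),
      (zt n ι u = Z n ι (cc n u) ∧ zt n ι (-u) = Z n ι (-cc n u) ∧
        ((cc n u : ℤ) : ZMod (2 * n)) ^ 2 = u ^ 2 ∧
        (n : ℂ) * saw n (u.val : ℤ) * (Z n ι (cc n u) - Z n ι (-cc n u)) =
          ((cc n u : ℤ) - r : ℂ) * (Z n ι (cc n u) - Z n ι (-cc n u)) ∧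
        bq n u = ((cc n u : ℤ) : ℂ) * ((cc n u : ℤ) - 2 * r)) ∨
      (zt n ι u = Z n ι (-cc n u) ∧ zt n ι (-u) = Z n ι (cc n u) ∧
        ((cc n u : ℤ) : ZMod (2 * n)) ^ 2 = u ^ 2 ∧
        (n : ℂ) * saw n (u.val : ℤ) * (Z n ι (-cc n u) - Z n ι (cc n u)) =
          ((cc n u : ℤ) - r : ℂ) * (Z n ι (cc n u) - Z n ι (-cc n u)) ∧
        bq n u = ((cc n u : ℤ) : ℂ) * ((cc n u : ℤ) - 2 * r)) := by
    intro u
    obtain ⟨v, hv, hv2, h | h⟩ := cc_cases n u
    · obtain ⟨h1, h2, h3⟩ := h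
      left
      rw [h3]
      refine ⟨by rw [← hv, hZ], by rw [← hv, ← Int.cast_neg, hZ], by rw [hv], ?_, ?_⟩
      · rcases eq_or_lt_of_le h1 with h4 | h4
        · rw [← h4, neg_zero, sub_self, mul_zero, mul_zero]
        · rcases eq_or_lt_of_le h2 with h5 | h5
          · rw [h5, hZn, hZnn, sub_self, mul_zero, mul_zero]
          · have h6 : ¬ (n : ℤ) ∣ (u.val : ℤ) := by
              rw [← hv2]
              intro hd
              have := Int.le_of_dvd h4 hd
              omega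
            have h7 : (u.val : ℤ) % n = v := by
              rw [← hv2]
              exact Int.emod_eq_of_lt h1 h5
            rw [saw, if_neg h6, h7, hn]
            have hr0 : (r : ℂ) ≠ 0 := by
              intro hr0
              apply hn0
              rw [hn]
              push_cast
              rw [hr0, mul_zero]
            push_cast
            field_simp
      · have h8 : ((u.val % n : ℕ) : ℤ) = (u.val : ℤ) % n := by push_cast; rfl
        rcases eq_or_lt_of_le h2 with h5 | h5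
        · have h9 : u.val % n = 0 := by
            have : u.val = n := by omega
            rw [this, Nat.mod_self]
          rw [bq, h9, h5, hn]
          push_cast
          ring
        · have h9 : ((u.val % n : ℕ) : ℤ) = v := by
            rw [h8, ← hv2]
            exact Int.emod_eq_of_lt h1 h5
          have h10 : ((u.val % n : ℕ) : ℂ) = (v : ℂ) := by
            rw [← h9]
            push_cast
            rfl
          rw [bq, h10, hn]
          push_cast
          ring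
    · obtain ⟨h1, h2, h3⟩ := h
      right
      rw [h3]
      have h4 : Z n ι (-(2 * (n : ℤ) - v)) = Z n ι v := by
        have h := Z_add n ι (-(2 * (n : ℤ) - v)) (2 * n)
        rw [hZ2n, mul_one] at h
        rw [← h]
        congr 1
        ring
      have h5 : Z n ι (2 * (n : ℤ) - v) = Z n ι (-v) := by
        rw [sub_eq_add_neg, Z_add, hZ2n, one_mul]
      have h6 : ((u.val : ℤ) % n) = v - n := by
        rw [← hv2]
        rw [Int.emod_eq_iff (by omega)]
        refine ⟨by omega, by rw [Int.natAbs_natCast]; omega, ?_⟩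
        exact ⟨-1, by ring⟩
      refine ⟨by rw [← hv, hZ, h4], by rw [← hv, ← Int.cast_neg, hZ, h5], ?_, ?_, ?_⟩
      · have h7 : ((2 * (n : ℤ) - v : ℤ) : ZMod (2 * n)) = -u := by
          have h8 : ((2 * (n : ℤ) : ℤ) : ZMod (2 * n)) = 0 := by
            have := ZMod.natCast_self (2 * n)
            push_cast at this ⊢
            exact this
          rw [Int.cast_sub, h8, hv, zero_sub]
        rw [h7, neg_sq]
      · have h7 : ¬ (n : ℤ) ∣ (u.val : ℤ) := by
          intro hd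
          have h8 := Int.emod_eq_zero_of_dvd hd
          rw [h6] at h8
          omega
        rw [saw, if_neg h7, h6, hn]
        have hr0 : (r : ℂ) ≠ 0 := by
          intro hr0
          apply hn0
          rw [hn]
          push_cast
          rw [hr0, mul_zero]
        push_cast
        field_simp
        ring
      · have h8 : ((u.val % n : ℕ) : ℤ) = v - n := by
          rw [← h6]
          push_cast
          rfl
        have h10 : ((u.val % n : ℕ) : ℂ) = (v : ℂ) - n := by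
          have := congrArg (fun t : ℤ => (t : ℂ)) h8
          push_cast at this ⊢
          exact this
        rw [bq, h10, hn]
        push_cast
        ring
  constructor
  · -- the eigenvalues of `I`
    obtain ⟨-, -, -, -, -, -, -, hb8, -, -⟩ := hb (DualNumber ℂ) (QD (sz n ι))
    have hqm : ∀ m : ℤ, (QD (sz n ι)).qp m =
        TrivSqZeroExt.inl (Z n ι m) * (1 + TrivSqZeroExt.inr (m : ℂ)) := fun m => qp_eq _ m
    have hU : IsUnit ((QD (sz n ι)).qp 1 - (QD (sz n ι)).qp (-1)) := by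
      rw [TrivSqZeroExt.isUnit_iff_isUnit_fst, hqm, hqm]
      have h1 : (TrivSqZeroExt.inl (Z n ι 1) * (1 + TrivSqZeroExt.inr ((1 : ℤ) : ℂ)) -
          TrivSqZeroExt.inl (Z n ι (-1)) * (1 + TrivSqZeroExt.inr ((-1 : ℤ) : ℂ)) :
          DualNumber ℂ).fst = Z n ι 1 - Z n ι (-1) := by
        simp
      rw [h1, isUnit_iff_ne_zero, sub_ne_zero]
      intro h2
      have h3 : Z n ι 2 = 1 := by
        have h4 : Z n ι 2 = Z n ι 1 * Z n ι 1 := by
          rw [← Z_add]
          norm_num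
        rw [h4]
        nth_rewrite 2 [h2]
        exact hZneg 1
      have h4 : ((2 : ℤ) : ZMod (2 * n)) ≠ 0 := by
        intro h5
        rw [ZMod.intCast_zmod_eq_zero_iff_dvd] at h5
        have h6 := Int.le_of_dvd (by norm_num) h5
        have h7 := NeZero.ne n
        obtain ⟨k, hk⟩ := hr
        push_cast at h6
        omega
      exact hz6 _ h4 (by rw [hZ, h3])
    obtain ⟨U, hU⟩ := hU
    refine ⟨(QD (sz n ι)).i * U⁻¹ * Units.map ((TrivSqZeroExt.inlHom ℂ ℂ : ℂ →+* DualNumber ℂ) :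
      ℂ →* DualNumber ℂ) (sz n ι ^ (2 * (r : ℤ))), fun u => ?_⟩
    have h1 := hb8 (r - cc n u)
    rw [← hU] at h1
    have h2 : (QD (sz n ι)).br (r - cc n u) = ((U⁻¹ : (DualNumber ℂ)ˣ) : DualNumber ℂ) *
        ((QD (sz n ι)).qp (r - cc n u) - (QD (sz n ι)).qp (-(r - cc n u))) := by
      rw [← h1, ← mul_assoc, Units.inv_mul, one_mul]
    have h3 : (QD (sz n ι)).qp (r - cc n u) - (QD (sz n ι)).qp (-(r - cc n u)) =
        TrivSqZeroExt.inl (Z n ι r) * (TrivSqZeroExt.inl (zt n ι u + zt n ι (-u)) +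
          TrivSqZeroExt.inr (n * saw n (u.val : ℤ) * (zt n ι u - zt n ι (-u)))) := by
      rw [hqm, hqm]
      have e1 : Z n ι (r - cc n u) = Z n ι r * Z n ι (-cc n u) := by
        rw [sub_eq_add_neg, Z_add]
      have e2 : Z n ι (-(r - cc n u)) = -Z n ι r * Z n ι (cc n u) := by
        have e3 : Z n ι (-(r : ℤ)) = -Z n ι r := by
          have h4 : Z n ι r * Z n ι r = -1 := by
            rw [← Z_add, ← hZn]
            congr 1
            rw [hn]
            push_cast
            ring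
          have h5 := hZneg r
          have h6 : Z n ι (-(r : ℤ)) = (Z n ι r * Z n ι r) * Z n ι (-(r : ℤ)) * (-1) := by
            rw [h4]
            ring
          rw [h6, mul_assoc (Z n ι r) (Z n ι r), h5]
          ring
        have e4 : -((r : ℤ) - cc n u) = -(r : ℤ) + cc n u := by ring
        rw [e4, Z_add, e3]
      rw [e1, e2]
      rcases key u with ⟨k1, k2, -, k4, -⟩ | ⟨k1, k2, -, k4, -⟩
      · rw [k1, k2, k4]
        ext
        · simp
          ring
        · simp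
          ring
      · rw [k1, k2, k4]
        ext
        · simp
          ring
        · simp
          ring
    rw [QP.lam, h2, h3]
    simp only [Units.val_mul, mul_assoc]
    rfl
  · -- the eigenvalues of a full twist
    intro u a
    have hs : iC ^ (2 : ℤ) * sz n ι ^ (4 * (r : ℤ)) = 1 := by
      apply Units.ext
      have h1 : ((sz n ι ^ (4 * (r : ℤ)) : ℂˣ) : ℂ) = -1 := by
        have h2 : (4 * (r : ℤ)) = 2 * (n : ℤ) := by
          rw [hn]
          push_cast
          ring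
        rw [h2]
        exact hZn
      rw [Units.val_mul, h1]
      have h3 : ((iC ^ (2 : ℤ) : ℂˣ) : ℂ) = -1 := by
        rw [zpow_ofNat, Units.val_pow_eq_pow_val]
        show Complex.I ^ 2 = -1
        exact Complex.I_sq
      rw [h3]
      norm_num
    rw [Gu_eq _ r _ hs, ← map_zpow, zpow_pair, PL_coe]
    have h1 : ((cc n u : ℤ) : ZMod (2 * n)) ^ 2 = u ^ 2 ∧
        bq n u = ((cc n u : ℤ) : ℂ) * ((cc n u : ℤ) - 2 * r) := by
      rcases key u with ⟨-, -, k3, -, k5⟩ | ⟨-, -, k3, -, k5⟩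
      · exact ⟨k3, k5⟩
      · exact ⟨k3, k5⟩
    rw [h1.2]
    congr 2
    have h2 : (a : ZMod (2 * n)) * u ^ 2 = ((a * cc n u ^ 2 : ℤ) : ZMod (2 * n)) := by
      rw [← h1.1]
      push_cast
      rfl
    rw [h2, hZ, Z, ← zpow_mul]
    congr 2
    ring

end Pool.Agent.TB
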