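import Pool.Agent.TB.Stmts

/-!
UNV: a model of the relations has the universal values.
-/

open Polynomial

namespace Pool.Agent.TB.UNV

section

variable {A : Type} [CommRing A] {M : Type} [AddCommGroup M] [Module A M]

/-- `P ↦ P(I₂) Om` -/
noncomputable def Phi (I2 : Module.End A M) (Om : M) : A[X] →ₗ[A] M where
  toFun P := aeval I2 P Om
  map_add' P Q := by rw [map_add]; rfl
  map_smul' a P := by rw [map_smul]; rfl

theorem Phi_mul (I2 : Module.End A M) (Om : M) (P Q : A[X]) :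
    Phi I2 Om (P * Q) = aeval I2 P (Phi I2 Om Q) := by
  change aeval I2 (P * Q) Om = aeval I2 P (aeval I2 Q Om)
  rw [map_mul]
  rfl

theorem Phi_X_mul (I2 : Module.End A M) (Om : M) (Q : A[X]) :
    Phi I2 Om (X * Q) = I2 (Phi I2 Om Q) := by
  rw [Phi_mul, aeval_X]

theorem Phi_C_mul (I2 : Module.End A M) (Om : M) (a : A) (Q : A[X]) :
    Phi I2 Om (C a * Q) = a • Phi I2 Om Q := by
  rw [Phi_mul, aeval_C]
  rfl

theorem Phi_pow (I2 : Module.End A M) (Om : M) (k : ℕ) :
    Phi I2 Om (X ^ k) = (I2 ^ k) Om := by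
  change aeval I2 (X ^ k) Om = _
  rw [map_pow, aeval_X]

theorem Phi_one (I2 : Module.End A M) (Om : M) : Phi I2 Om 1 = Om := by
  have := Phi_pow I2 Om 0
  simpa using this

theorem key (t μ μ' : A) (I1 I2 : Module.End A M) (Om : M)
    (h1 : I1 Om = μ • Om) (h2 : I1 (I2 Om) = μ' • I2 Om)
    (h3 : ∀ k : ℕ, I1 ((I2 ^ (k + 2)) Om) =
      t • I2 (I1 ((I2 ^ (k + 1)) Om)) - I2 (I2 (I1 ((I2 ^ k) Om))) - I1 ((I2 ^ k) Om)) :
    ∀ k : ℕ, I1 ((I2 ^ k) Om) = Phi I2 Om (Lz t μ μ' k) := by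
  intro k
  induction k using Nat.twoStepInduction with
  | zero =>
    rw [Lz, pow_zero, Module.End.one_apply, h1, ← mul_one (C μ), Phi_C_mul, Phi_one]
  | one =>
    rw [Lz, pow_one, h2, Phi_C_mul, ← pow_one X, Phi_pow, pow_one]
  | more k ih0 ih1 =>
    rw [h3, ih0, ih1, Lz, map_sub, map_sub, mul_assoc, Phi_C_mul, Phi_X_mul, pow_two, mul_assoc,
      Phi_X_mul, Phi_X_mul]

theorem comm (t μ μ' : A) (I1 I2 : Module.End A M) (Om : M)
    (hk : ∀ k : ℕ, I1 ((I2 ^ k) Om) = Phi I2 Om (Lz t μ μ' k)) (P : A[X]) :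
    I1 (Phi I2 Om P) = Phi I2 Om (Lop t μ μ' P) := by
  have h : I1 ∘ₗ Phi I2 Om = Phi I2 Om ∘ₗ Lop t μ μ' := by
    refine (Polynomial.basisMonomials A).ext fun k => ?_
    rw [LinearMap.comp_apply, LinearMap.comp_apply]
    have h1 : Lop t μ μ' ((Polynomial.basisMonomials A) k) = Lz t μ μ' k :=
      (Polynomial.basisMonomials A).constr_basis A (Lz t μ μ') k
    rw [h1, ← hk, Polynomial.coe_basisMonomials, ← Phi_pow, X_pow_eq_monomial]
  exact LinearMap.congr_fun h P

theorem comm_aeval (t μ μ' : A) (I1 I2 : Module.End A M) (Om : M)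
    (hk : ∀ k : ℕ, I1 ((I2 ^ k) Om) = Phi I2 Om (Lz t μ μ' k)) (P Q : A[X]) :
    aeval I1 P (Phi I2 Om Q) = Phi I2 Om (aeval (Lop t μ μ') P Q) := by
  induction P using Polynomial.induction_on' with
  | add p q hp hq =>
    rw [map_add, map_add, LinearMap.add_apply, LinearMap.add_apply, map_add, hp, hq]
  | monomial n a =>
    rw [aeval_monomial, aeval_monomial, ← Algebra.smul_def, ← Algebra.smul_def,
      LinearMap.smul_apply, LinearMap.smul_apply, map_smul]
    congr 1
    induction n with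
    | zero => rfl
    | succ n ih =>
      rw [pow_succ', pow_succ', Module.End.mul_apply, Module.End.mul_apply, ih,
        comm t μ μ' I1 I2 Om hk]

theorem evalμ (μ : A) (I2 : Module.End A M) (Om : M) (Om' : M →ₗ[A] A)
    (h4 : ∀ v, Om' (I2 v) = μ * Om' v) (h5 : Om' Om = 1) (P : A[X]) :
    Om' (Phi I2 Om P) = P.eval μ := by
  have hp : ∀ k : ℕ, Om' ((I2 ^ k) Om) = μ ^ k := by
    intro k
    induction k with
    | zero => rw [pow_zero, pow_zero, Module.End.one_apply, h5]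
    | succ k ih => rw [pow_succ', pow_succ', Module.End.mul_apply, h4, ih]
  induction P using Polynomial.induction_on' with
  | add p q hp hq => rw [map_add, map_add, eval_add, hp, hq]
  | monomial n a =>
    rw [← C_mul_X_pow_eq_monomial, Phi_C_mul, map_smul, Phi_pow, hp, eval_mul, eval_C, eval_pow,
      eval_X, smul_eq_mul]

end

end Pool.Agent.TB.UNV

namespace Pool.Agent.TB

open Pool.Agent.TB.UNV in
theorem unv : UNV_Stmt := by
  intro A _ t μ μ' M _ _ I1 I2 Om Om' h1 h2 h3 h4 h5 W w0 w1 w2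
  have hk := key t μ μ' I1 I2 Om h1 h2 h3
  have hW : ∀ (l : List A[X]) (b : Bool), W b l = Phi I2 Om (wop t μ μ' b l) := by
    intro l
    induction l with
    | nil =>
      intro b
      cases b <;> rw [w0, wop, Phi_one]
    | cons P l ih =>
      intro b
      cases b
      · rw [w1, wop, ih, comm_aeval t μ μ' I1 I2 Om hk]
      · rw [w2, wop, ih, Phi_mul]
  intro l
  rw [hW, evalμ μ I2 Om Om' h4 h5, Uval]

end Pool.Agent.TB
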