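import Pool.Agent.TB.Stmts

/-!
Finite type invariants of 2-bridge knots: intertwining and braid relations (module BRD).
-/

open Polynomial
open scoped BigOperators

namespace Pool.Agent.TB

namespace BRD

variable {A : Type} [CommRing A] [IsDomain A] (Q : QP A) (r : ℕ)
  {E : Type} [Ring E] [Algebra A E]

/-- the projection to the eigenspace `m` -/
noncomputable def e (I : E) (m : ℤ) : E := aeval I (Q.interp r fun k => if k = m then 1 else 0)

/-- the function `f` of the operator -/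
noncomputable def R (I : E) : E := aeval I (Q.interp r fun m => (Q.fu m : A))

variable {Q r}

section

variable (hf : FC_Stmt) (hG : Q.Gen r) {I : E} (hI : aeval I (Q.pol r) = 0)

include hf hG hI

theorem I_e (m : ℤ) : I * e Q r I m = Q.lam m • e Q r I m := by
  obtain ⟨h1, h2⟩ := hf A Q r hG
  have h3 := h2 E I hI (X * Q.interp r fun k => if k = m then 1 else 0)
    (C (Q.lam m) * Q.interp r fun k => if k = m then 1 else 0) (by
      intro k hk
      rw [eval_mul, eval_mul, eval_X, eval_C, h1 _ k hk]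
      split_ifs with h
      · rw [h]
      · simp)
  rw [map_mul, map_mul, aeval_X, aeval_C] at h3
  rw [Algebra.smul_def]
  exact h3

theorem e_I (m : ℤ) : e Q r I m * I = Q.lam m • e Q r I m := by
  obtain ⟨h1, h2⟩ := hf A Q r hG
  have h3 := h2 E I hI ((Q.interp r fun k => if k = m then 1 else 0) * X)
    (C (Q.lam m) * Q.interp r fun k => if k = m then 1 else 0) (by
      intro k hk
      rw [eval_mul, eval_mul, eval_X, eval_C, h1 _ k hk]
      split_ifs with h
      · rw [h, mul_comm]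
      · simp)
  rw [map_mul, map_mul, aeval_X, aeval_C] at h3
  rw [Algebra.smul_def]
  exact h3

theorem R_e (m : ℤ) : R Q r I * e Q r I m = (Q.fu m : A) • e Q r I m := by
  obtain ⟨h1, h2⟩ := hf A Q r hG
  have h3 := h2 E I hI ((Q.interp r fun m => (Q.fu m : A)) *
      Q.interp r fun k => if k = m then 1 else 0)
    (C (Q.fu m : A) * Q.interp r fun k => if k = m then 1 else 0) (by
      intro k hk
      rw [eval_mul, eval_mul, eval_C, h1 _ k hk, h1 _ k hk]
      split_ifs with h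
      · rw [h]
      · simp)
  rw [map_mul, map_mul, aeval_C] at h3
  rw [Algebra.smul_def]
  exact h3

theorem e_R (m : ℤ) : e Q r I m * R Q r I = (Q.fu m : A) • e Q r I m := by
  obtain ⟨h1, h2⟩ := hf A Q r hG
  have h3 := h2 E I hI ((Q.interp r fun k => if k = m then 1 else 0) *
      Q.interp r fun m => (Q.fu m : A))
    (C (Q.fu m : A) * Q.interp r fun k => if k = m then 1 else 0) (by
      intro k hk
      rw [eval_mul, eval_mul, eval_C, h1 _ k hk, h1 _ k hk]
      split_ifs with h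
      · rw [h, mul_comm]
      · simp)
  rw [map_mul, map_mul, aeval_C] at h3
  rw [Algebra.smul_def]
  exact h3

theorem sum_e : ∑ m ∈ Finset.Icc (-(r : ℤ)) r, e Q r I m = 1 := by
  obtain ⟨h1, h2⟩ := hf A Q r hG
  have h3 := h2 E I hI (∑ m ∈ Finset.Icc (-(r : ℤ)) r,
      Q.interp r fun k => if k = m then 1 else 0) 1 (by
      intro k hk
      rw [eval_finsetSum, eval_one, Finset.sum_eq_single k]
      · rw [h1 _ k hk, if_pos rfl]
      · intro b _ hb
        rw [h1 _ k hk, if_neg (Ne.symm hb)]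
      · intro h
        exact absurd hk h)
  rw [map_sum, map_one] at h3
  exact h3

theorem ext_e {x y : E} (h : ∀ m ∈ Finset.Icc (-(r : ℤ)) r, ∀ m' ∈ Finset.Icc (-(r : ℤ)) r,
    e Q r I m * x * e Q r I m' = e Q r I m * y * e Q r I m') : x = y := by
  have hx : ∀ z : E, z = ∑ m ∈ Finset.Icc (-(r : ℤ)) r, ∑ m' ∈ Finset.Icc (-(r : ℤ)) r,
      e Q r I m * z * e Q r I m' := by
    intro z
    simp only [← Finset.mul_sum, ← Finset.sum_mul, sum_e hf hG hI, one_mul, mul_one]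
  rw [hx x, hx y]
  exact Finset.sum_congr rfl fun m hm => Finset.sum_congr rfl fun m' hm' => h m hm m' hm'

end

theorem fu_succ (m : ℤ) : (Q.fu (m + 1) : A) = Q.i * Q.s * Q.qp m * Q.fu m := by
  have h1 : Q.fu (m + 1) = Q.i * Q.s * Q.s ^ (2 * m) * Q.fu m := by
    unfold QP.fu
    have h2 : (m + 1) ^ 2 = 1 + 2 * m + m ^ 2 := by ring
    rw [h2, zpow_add, zpow_add, zpow_add, zpow_one, zpow_one]
    simp only [mul_comm, mul_left_comm, mul_assoc]
  rw [h1]
  simp only [QP.qp, Units.val_mul]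

theorem inv_s : ((Q.s⁻¹ : Aˣ) : A) = Q.s * Q.qp (-1) := by
  have h1 : (Q.s⁻¹ : Aˣ) = Q.s * Q.s ^ (2 * (-1) : ℤ) := by
    rw [← zpow_neg_one, ← zpow_one_add]
    norm_num
  rw [h1, Units.val_mul]
  rfl

theorem qp_add (m k : ℤ) : Q.qp (m + k) = Q.qp m * Q.qp k := by
  unfold QP.qp
  rw [mul_add, zpow_add, Units.val_mul]

theorem qp_zero : Q.qp 0 = 1 := by
  unfold QP.qp
  simp

/-- `f_m = f_m' (s λ_m - s⁻¹ λ_m')`, `m = m' + 1` -/
theorem f_up (hb : BRK_Stmt) (m : ℤ) : (Q.fu (m + 1) : A) =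
    Q.fu m * (Q.s * Q.lam (m + 1) - ((Q.s⁻¹ : Aˣ) : A) * Q.lam m) := by
  obtain ⟨-, -, -, -, h, -⟩ := hb A Q
  rw [fu_succ, inv_s]
  unfold QP.lam
  rw [h m]
  ring

/-- `f_m = f_m' (s λ_m - s⁻¹ λ_m')`, `m = m' - 1` -/
theorem f_down (hb : BRK_Stmt) (m : ℤ) : (Q.fu m : A) =
    Q.fu (m + 1) * (Q.s * Q.lam m - ((Q.s⁻¹ : Aˣ) : A) * Q.lam (m + 1)) := by
  obtain ⟨-, -, -, h, -⟩ := hb A Q
  rw [fu_succ, inv_s]
  unfold QP.lam
  rw [h m]
  have h1 : Q.qp (-1) * Q.qp 1 = 1 := by rw [← qp_add]; simp [qp_zero]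
  have h2 : Q.qp m * Q.qp (-m) = 1 := by rw [← qp_add]; simp [qp_zero]
  have h3 : (Q.s : A) * Q.s * Q.qp (-1) = 1 := by
    rw [mul_assoc, ← inv_s]
    simp
  have h4 := Q.hi
  linear_combination ((Q.fu m : A) * (Q.i : A) ^ 2 * (Q.s : A) ^ 2 * Q.qp m * Q.br m) * h1 +
    (Q.fu m : A) * (Q.i : A) ^ 2 * ((Q.s : A) * Q.s * Q.qp (-1)) * h2 +
    (Q.fu m : A) * (Q.i : A) ^ 2 * h3 + (Q.fu m : A) * h4

/-- the coefficient of `e_m J e_m'` in the first relation does not vanish -/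
theorem coef_ne (hb : BRK_Stmt) (hG : Q.Gen r) (hR : Q.Reg r) {m m' : ℤ}
    (hm : m ∈ Finset.Icc (-(r : ℤ)) r) (hm' : m' ∈ Finset.Icc (-(r : ℤ)) r)
    (h1 : m ≠ m' + 1) (h2 : m ≠ m' - 1) :
    Q.lam m ^ 2 - Q.two * Q.lam m * Q.lam m' + Q.lam m' ^ 2 + 1 ≠ 0 := by
  obtain ⟨-, -, -, -, -, -, -, -, -, h⟩ := hb A Q
  rw [h]
  rw [Finset.mem_Icc] at hm'
  refine mul_ne_zero ?_ ?_
  · by_cases h3 : m' + 1 ≤ r
    · exact (hG m hm (m' + 1) (by rw [Finset.mem_Icc]; omega) h1).ne_zero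
    · have h4 : m' = r := by omega
      rw [h4, sub_ne_zero]
      exact (hR m hm).1
  · by_cases h3 : -(r : ℤ) ≤ m' - 1
    · exact (hG m hm (m' - 1) (by rw [Finset.mem_Icc]; omega) h2).ne_zero
    · have h4 : m' - 1 = -((r : ℤ) + 1) := by omega
      rw [h4, sub_ne_zero]
      exact (hR m hm).2

theorem core (hb : BRK_Stmt) (hf : FC_Stmt) (hG : Q.Gen r) (hR : Q.Reg r) {I J : E}
    (htf : ∀ (a : A) (x : E), a ≠ 0 → a • x = 0 → x = 0) (hI : aeval I (Q.pol r) = 0)
    (rel : I * I * J - Q.two • (I * J * I) + J * I * I = -J) :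
    R Q r I * J = ((Q.s : A) • (I * J) - ((Q.s⁻¹ : Aˣ) : A) • (J * I)) * R Q r I ∧
      J * R Q r I = R Q r I * ((Q.s : A) • (J * I) - ((Q.s⁻¹ : Aˣ) : A) • (I * J)) := by
  -- abbreviations
  set e' : ℤ → E := e Q r I with he'
  have hIe : ∀ m, I * e' m = Q.lam m • e' m := I_e hf hG hI
  have heI : ∀ m, e' m * I = Q.lam m • e' m := e_I hf hG hI
  have hRe : ∀ m, R Q r I * e' m = (Q.fu m : A) • e' m := R_e hf hG hI
  have heR : ∀ m, e' m * R Q r I = (Q.fu m : A) • e' m := e_R hf hG hI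
  have k1 : ∀ m m' : ℤ, e' m * (I * J) * e' m' = Q.lam m • (e' m * J * e' m') := by
    intro m m'
    rw [← mul_assoc, heI, smul_mul_assoc, smul_mul_assoc]
  have k2 : ∀ m m' : ℤ, e' m * (J * I) * e' m' = Q.lam m' • (e' m * J * e' m') := by
    intro m m'
    rw [← mul_assoc, mul_assoc, hIe, mul_smul_comm]
  have hz : ∀ m ∈ Finset.Icc (-(r : ℤ)) r, ∀ m' ∈ Finset.Icc (-(r : ℤ)) r, m ≠ m' + 1 →
      m ≠ m' - 1 → e' m * J * e' m' = 0 := by
    intro m hm m' hm' h1 h2
    refine htf _ _ (coef_ne hb hG hR hm hm' h1 h2) ?_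
    have h3 : e' m * (I * I * J - Q.two • (I * J * I) + J * I * I) * e' m' =
        e' m * (-J) * e' m' := by rw [rel]
    have h4 : e' m * (I * I * J) * e' m' = (Q.lam m ^ 2) • (e' m * J * e' m') := by
      rw [mul_assoc I I J, ← mul_assoc (e' m), heI, smul_mul_assoc, smul_mul_assoc, k1, smul_smul,
        pow_two]
    have h5 : e' m * (I * J * I) * e' m' = (Q.lam m * Q.lam m') • (e' m * J * e' m') := by
      rw [mul_assoc I J I, ← mul_assoc (e' m), heI, smul_mul_assoc, smul_mul_assoc, k2, smul_smul]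
    have h6 : e' m * (J * I * I) * e' m' = (Q.lam m' ^ 2) • (e' m * J * e' m') := by
      rw [← mul_assoc, mul_assoc _ I, hIe, mul_smul_comm, k2, smul_smul, pow_two]
    rw [mul_add, mul_sub, add_mul, sub_mul, mul_smul_comm, smul_mul_assoc, h4, h5, h6, mul_neg,
      neg_mul] at h3
    rw [add_smul, add_smul, sub_smul, one_smul, mul_assoc Q.two, mul_smul Q.two, h3,
      neg_add_cancel]
  constructor
  · refine ext_e hf hG hI fun m hm m' hm' => ?_
    have h1 : e' m * (R Q r I * J) * e' m' = (Q.fu m : A) • (e' m * J * e' m') := by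
      rw [← mul_assoc, heR, smul_mul_assoc, smul_mul_assoc]
    have h2 : e' m * (((Q.s : A) • (I * J) - ((Q.s⁻¹ : Aˣ) : A) • (J * I)) * R Q r I) * e' m' =
        ((Q.fu m' : A) * (Q.s * Q.lam m - ((Q.s⁻¹ : Aˣ) : A) * Q.lam m')) •
          (e' m * J * e' m') := by
      rw [← mul_assoc, mul_assoc _ (R Q r I), hRe, mul_smul_comm, mul_sub, sub_mul,
        mul_smul_comm, mul_smul_comm, smul_mul_assoc, smul_mul_assoc, k1, k2, smul_smul, smul_smul,
        ← sub_smul, smul_smul]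
    show e' m * _ * e' m' = e' m * _ * e' m'
    rw [h1, h2]
    by_cases h3 : m = m' + 1
    · rw [h3, ← f_up hb m']
    · by_cases h4 : m = m' - 1
      · have h5 := f_down (Q := Q) hb (m' - 1)
        rw [sub_add_cancel] at h5
        rw [h4, ← h5]
      · rw [hz m hm m' hm' h3 h4, smul_zero, smul_zero]
  · refine ext_e hf hG hI fun m hm m' hm' => ?_
    have h1 : e' m * (J * R Q r I) * e' m' = (Q.fu m' : A) • (e' m * J * e' m') := by
      rw [← mul_assoc, mul_assoc _ (R Q r I), hRe, mul_smul_comm]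
    have h2 : e' m * (R Q r I * ((Q.s : A) • (J * I) - ((Q.s⁻¹ : Aˣ) : A) • (I * J))) * e' m' =
        ((Q.fu m : A) * (Q.s * Q.lam m' - ((Q.s⁻¹ : Aˣ) : A) * Q.lam m)) •
          (e' m * J * e' m') := by
      rw [← mul_assoc, heR, smul_mul_assoc, smul_mul_assoc, mul_sub, sub_mul,
        mul_smul_comm, mul_smul_comm, smul_mul_assoc, smul_mul_assoc, k1, k2, smul_smul, smul_smul,
        ← sub_smul, smul_smul]
    show e' m * _ * e' m' = e' m * _ * e' m'
    rw [h1, h2]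
    by_cases h3 : m' = m + 1
    · rw [h3, ← f_up hb m]
    · by_cases h4 : m' = m - 1
      · have h5 := f_down (Q := Q) hb (m - 1)
        rw [sub_add_cancel] at h5
        rw [h4, ← h5]
      · rw [hz m hm m' hm' (by omega) (by omega), smul_zero, smul_zero]

end BRD

theorem brd (hb : BRK_Stmt) (hf : FC_Stmt) : BRD_Stmt := by
  intro A _ _ Q r hG hR E _ _ I1 I2 htf hp1 hp2 rel1 rel2
  obtain ⟨a1, a2⟩ := BRD.core hb hf hG hR htf hp1 rel1
  obtain ⟨b1, b2⟩ := BRD.core hb hf hG hR htf hp2 rel2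
  have c1 : BRD.R Q r I2 * BRD.R Q r I1 * I2 = I1 * (BRD.R Q r I2 * BRD.R Q r I1) := by
    rw [mul_assoc, a1, ← mul_assoc, ← b2, mul_assoc]
  have c2 : BRD.R Q r I1 * BRD.R Q r I2 * I1 = I2 * (BRD.R Q r I1 * BRD.R Q r I2) := by
    rw [mul_assoc, b1, ← mul_assoc, ← a2, mul_assoc]
  refine ⟨c1, c2, ?_⟩
  have c3 : ∀ P : A[X], BRD.R Q r I2 * BRD.R Q r I1 * aeval I2 P =
      aeval I1 P * (BRD.R Q r I2 * BRD.R Q r I1) := by
    intro P
    induction P using Polynomial.induction_on' with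
    | add p q hp hq => rw [map_add, map_add, mul_add, add_mul, hp, hq]
    | monomial n a =>
      rw [aeval_monomial, aeval_monomial]
      have h1 : BRD.R Q r I2 * BRD.R Q r I1 * I2 ^ n =
          I1 ^ n * (BRD.R Q r I2 * BRD.R Q r I1) := by
        induction n with
        | zero => rw [pow_zero, pow_zero, mul_one, one_mul]
        | succ n ih => rw [pow_succ, ← mul_assoc, ih, mul_assoc, c1, ← mul_assoc, ← pow_succ]
      rw [← mul_assoc, ← Algebra.commutes, mul_assoc, h1, mul_assoc]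
  have c4 := c3 (Q.interp r fun m => (Q.fu m : A))
  show BRD.R Q r I1 * BRD.R Q r I2 * BRD.R Q r I1 = BRD.R Q r I2 * BRD.R Q r I1 * BRD.R Q r I2
  rw [mul_assoc]
  exact c4.symm

end Pool.Agent.TB
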