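import Pool.Agent.TB.Stmts

/-!
Quantum integers (module TB_BRK).
-/

open scoped BigOperators

namespace Pool.Agent.TB

namespace BRK

variable {A : Type} [CommRing A] (Q : QP A)

theorem qp_add (a b : ℤ) : Q.qp (a + b) = Q.qp a * Q.qp b := by
  unfold QP.qp
  rw [mul_add, zpow_add, Units.val_mul]

theorem qp_zero : Q.qp 0 = 1 := by
  unfold QP.qp
  simp

theorem qp_neg (a : ℤ) : Q.qp a * Q.qp (-a) = 1 := by
  rw [← qp_add, add_neg_cancel, qp_zero]

theorem br_nat (n : ℕ) : Q.br (n : ℤ) = ∑ k ∈ Finset.range n, Q.qp ((n : ℤ) - 1 - 2 * (k : ℤ)) := by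
  unfold QP.br
  rw [if_pos (Int.natCast_nonneg n), Int.toNat_natCast]

theorem br_zero : Q.br 0 = 0 := by
  have h := br_nat Q 0
  simpa using h

theorem br_neg_nat (n : ℕ) : Q.br (-(n : ℤ)) = -Q.br (n : ℤ) := by
  rcases Nat.eq_zero_or_pos n with h | h
  · subst h
    simp [br_zero]
  · rw [br_nat]
    unfold QP.br
    rw [if_neg (by omega), neg_neg, Int.toNat_natCast]

theorem br_neg (m : ℤ) : Q.br (-m) = -Q.br m := by
  rcases Int.eq_nat_or_neg m with ⟨n, rfl | rfl⟩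
  · exact br_neg_nat Q n
  · rw [br_neg_nat, neg_neg, neg_neg]

theorem step1_nat (n : ℕ) : Q.br ((n : ℤ) + 1) = Q.qp 1 * Q.br (n : ℤ) + Q.qp (-(n : ℤ)) := by
  have h := br_nat Q (n + 1)
  rw [Finset.sum_range_succ] at h
  push_cast at h
  rw [h, br_nat, Finset.mul_sum]
  congr 1
  · refine Finset.sum_congr rfl fun k _ => ?_
    rw [← qp_add]
    congr 1
    ring
  · congr 1
    ring

theorem step2_nat (n : ℕ) : Q.br ((n : ℤ) + 1) = Q.qp (-1) * Q.br (n : ℤ) + Q.qp (n : ℤ) := by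
  have h := br_nat Q (n + 1)
  rw [Finset.sum_range_succ'] at h
  push_cast at h
  rw [h, br_nat, Finset.mul_sum]
  congr 1
  · refine Finset.sum_congr rfl fun k _ => ?_
    rw [← qp_add]
    congr 1
    ring
  · congr 1
    ring

theorem step1 (m : ℤ) : Q.br (m + 1) = Q.qp 1 * Q.br m + Q.qp (-m) := by
  by_cases hm : 0 ≤ m
  · obtain ⟨n, rfl⟩ := Int.eq_ofNat_of_zero_le hm
    exact step1_nat Q n
  · obtain ⟨n, hn⟩ := Int.eq_ofNat_of_zero_le (show (0 : ℤ) ≤ -m - 1 by omega)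
    have hm' : m = -((n : ℤ) + 1) := by omega
    have h2 := step2_nat Q n
    have e1 : m + 1 = -(n : ℤ) := by omega
    rw [e1, hm', br_neg, br_neg, neg_neg, h2, qp_add]
    have h3 := qp_neg Q 1
    linear_combination (Q.br (n : ℤ)) * h3

theorem step2 (m : ℤ) : Q.br (m + 1) = Q.qp (-1) * Q.br m + Q.qp m := by
  by_cases hm : 0 ≤ m
  · obtain ⟨n, rfl⟩ := Int.eq_ofNat_of_zero_le hm
    exact step2_nat Q n
  · obtain ⟨n, hn⟩ := Int.eq_ofNat_of_zero_le (show (0 : ℤ) ≤ -m - 1 by omega)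
    have hm' : m = -((n : ℤ) + 1) := by omega
    have h2 := step1_nat Q n
    have e1 : m + 1 = -(n : ℤ) := by omega
    rw [e1, hm', br_neg, br_neg, h2, neg_add (n : ℤ) 1, qp_add]
    have h3 := qp_neg Q 1
    linear_combination (Q.br (n : ℤ)) * h3

theorem step3 (m : ℤ) : Q.br (m - 1) = Q.qp (-1) * Q.br m - Q.qp (-m) := by
  have h := step1 Q (m - 1)
  rw [sub_add_cancel, neg_sub, sub_eq_add_neg 1 m, qp_add] at h
  have h3 := qp_neg Q 1
  linear_combination (-Q.qp (-1)) * h + (-Q.br (m - 1) - Q.qp (-m)) * h3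

theorem diff (m : ℤ) : (Q.qp 1 - Q.qp (-1)) * Q.br m = Q.qp m - Q.qp (-m) := by
  have h1 := step1 Q m
  have h2 := step2 Q m
  linear_combination h2 - h1

theorem sq (m : ℤ) : Q.br m ^ 2 - Q.br (m + 1) * Q.br (m - 1) = 1 := by
  have h1 := step1 Q m
  have h2 := step3 Q m
  have h3 := qp_neg Q 1
  have h4 := diff Q m
  have h5 := qp_neg Q m
  rw [h1, h2]
  linear_combination (-Q.br m ^ 2) * h3 + Q.qp (-m) * h4 + h5

end BRK

open BRK in
theorem brk : BRK_Stmt := by
  intro A _ Q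
  refine ⟨br_zero Q, ?_, br_neg Q, step1 Q, step2 Q, ?_, sq Q, diff Q, ?_, ?_⟩
  · have h := step1 Q 0
    rw [zero_add, br_zero, mul_zero, zero_add, neg_zero, qp_zero] at h
    exact h
  · intro m
    rw [step1, step3]
    unfold QP.two
    ring
  · intro m
    unfold QP.lam
    have h := diff Q m
    rw [step1, step3]
    linear_combination (Q.i : A) * h
  · intro m m'
    unfold QP.lam
    have h1 := sq Q m'
    have h2 := Q.hi
    have h3 : Q.br (m' + 1) + Q.br (m' - 1) = Q.two * Q.br m' := by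
      rw [step1, step3]
      unfold QP.two
      ring
    linear_combination (Q.i : A) * Q.i * h1 + ((Q.i : A) * Q.i * Q.br m) * h3 + (1 : A) * h2

end Pool.Agent.TB
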