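import Pool.Agent.TB.Stmts

/-! # Module CUP: minima and maxima -/

open scoped BigOperators

namespace Pool.Agent.TB

namespace CUP

/-- the sign `(-1)^(number of zeros of x)` is `+` iff `par x = odd r` -/
def od : ℕ → Bool
  | 0 => false
  | r + 1 => !od r

theorem od_even : ∀ r, od r = false ↔ Even r
  | 0 => by simp [od]
  | r + 1 => by
      have h := od_even r
      rw [Nat.even_add_one, ← h]
      cases hr : od r <;> simp [od, hr]

theorem compl_compl : ∀ {r : ℕ} (x : Lb r), x.compl.compl = x
  | 0, _ => rfl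
  | r + 1, ⟨x, b⟩ => by
      have h := compl_compl x
      change ((Lb.compl (Lb.compl x), !(!b)) : Lb r × Bool) = (x, b)
      rw [h, Bool.not_not]

theorem par_compl : ∀ {r : ℕ} (x : Lb r), x.compl.par = xor x.par (od r)
  | 0, _ => rfl
  | r + 1, ⟨x, b⟩ => by
      have h := par_compl x
      change xor (Lb.par (Lb.compl x)) (!b) = xor (xor (Lb.par x) b) (!od r)
      rw [h]
      cases Lb.par x <;> cases b <;> cases od r <;> rfl

variable {A : Type} [CommRing A] (Q : QP A)

theorem cupv_zero : ∀ {r : ℕ} (x y : Lb r), y ≠ x.compl → cupv Q r x y = 0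
  | 0, _, _, h => absurd rfl h
  | r + 1, ⟨x, b⟩, ⟨y, c⟩, h => by
      cases b <;> cases c
      · rfl
      · have hne : y ≠ Lb.compl x := by
          intro h'
          apply h
          subst h'
          rfl
        change -(Q.i : A) * Q.qp r * cupv Q r x y = 0
        rw [cupv_zero x y hne, mul_zero]
      · have hne : y ≠ Lb.compl x := by
          intro h'
          apply h
          subst h'
          rfl
        change cupv Q r x y = 0
        exact cupv_zero x y hne
      · rfl

theorem capu_zero : ∀ {r : ℕ} (x y : Lb r), y ≠ x.compl → capu Q r x y = 0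
  | 0, _, _, h => absurd rfl h
  | r + 1, ⟨x, b⟩, ⟨y, c⟩, h => by
      cases b <;> cases c
      · rfl
      · have hne : y ≠ Lb.compl x := by
          intro h'
          apply h
          subst h'
          rfl
        change (Q.i : A) * Q.qp r * capu Q r x y = 0
        rw [capu_zero x y hne, mul_zero]
      · have hne : y ≠ Lb.compl x := by
          intro h'
          apply h
          subst h'
          rfl
        change capu Q r x y = 0
        exact capu_zero x y hne
      · rfl

theorem capv_zero {r : ℕ} (x y : Lb r) (h : y ≠ x.compl) : capv Q r x y = 0 := by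
  rw [capv, capu_zero Q x y h, mul_zero]

/-- a sign -/
def sg (A : Type) [CommRing A] (b : Bool) : A := if b then -1 else 1

theorem capu_eq : ∀ {r : ℕ} (x y : Lb r),
    capu Q r x y = sg A (xor x.par (od r)) * cupv Q r x y
  | 0, _, _ => by
      change (1 : A) = sg A false * 1
      simp [sg]
  | r + 1, ⟨x, b⟩, ⟨y, c⟩ => by
      have h := capu_eq x y
      cases b <;> cases c
      · change (0 : A) = _ * 0
        rw [mul_zero]
      · change (Q.i : A) * Q.qp r * capu Q r x y =
          sg A (xor (xor (Lb.par x) false) (!od r)) * (-(Q.i : A) * Q.qp r * cupv Q r x y)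
        rw [h]
        cases Lb.par x <;> cases od r <;> simp [sg]
      · change capu Q r x y =
          sg A (xor (xor (Lb.par x) true) (!od r)) * (cupv Q r x y)
        rw [h]
        cases Lb.par x <;> cases od r <;> simp [sg]
      · change (0 : A) = _ * 0
        rw [mul_zero]

theorem unit_succ (r : ℕ) :
    ((Q.i ^ ((r + 1 : ℕ) : ℤ) * Q.s ^ (((r + 1 : ℕ) : ℤ) * (((r + 1 : ℕ) : ℤ) - 1)) : Aˣ) : A) =
      (Q.i : A) * Q.qp r * ((Q.i ^ (r : ℤ) * Q.s ^ ((r : ℤ) * (r - 1)) : Aˣ) : A) := by
  have h1 : (Q.i ^ ((r + 1 : ℕ) : ℤ) : Aˣ) = Q.i * Q.i ^ (r : ℤ) := by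
    rw [Nat.cast_succ, zpow_add_one, mul_comm]
  have h2 : (Q.s ^ (((r + 1 : ℕ) : ℤ) * (((r + 1 : ℕ) : ℤ) - 1)) : Aˣ) =
      Q.s ^ (2 * (r : ℤ)) * Q.s ^ ((r : ℤ) * (r - 1)) := by
    rw [← zpow_add]
    congr 1
    push_cast
    ring
  rw [h1, h2, QP.qp]
  push_cast
  ring

theorem prod_one : ∀ {r : ℕ} (x : Lb r), cupv Q r x x.compl * capu Q r x.compl x =
    sg A (xor x.par (od r)) * ((Q.i ^ (r : ℤ) * Q.s ^ ((r : ℤ) * (r - 1)) : Aˣ) : A)
  | 0, _ => by
      change (1 : A) * 1 = sg A false * _
      simp [sg]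
  | r + 1, ⟨x, b⟩ => by
      have h := prod_one x
      rw [unit_succ]
      set W : A := ((Q.i ^ (r : ℤ) * Q.s ^ ((r : ℤ) * (r - 1)) : Aˣ) : A)
      cases b
      · change (-(Q.i : A) * Q.qp r * cupv Q r x (Lb.compl x)) * capu Q r (Lb.compl x) x =
          sg A (xor (xor (Lb.par x) false) (!od r)) * ((Q.i : A) * Q.qp r * W)
        have e : (-(Q.i : A) * Q.qp r * cupv Q r x (Lb.compl x)) * capu Q r (Lb.compl x) x =
            -(Q.i : A) * Q.qp r * (cupv Q r x (Lb.compl x) * capu Q r (Lb.compl x) x) := by ring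
        rw [e, h]
        cases Lb.par x <;> cases od r <;> simp [sg]
      · change cupv Q r x (Lb.compl x) * ((Q.i : A) * Q.qp r * capu Q r (Lb.compl x) x) =
          sg A (xor (xor (Lb.par x) true) (!od r)) * ((Q.i : A) * Q.qp r * W)
        have e : cupv Q r x (Lb.compl x) * ((Q.i : A) * Q.qp r * capu Q r (Lb.compl x) x) =
            (Q.i : A) * Q.qp r * (cupv Q r x (Lb.compl x) * capu Q r (Lb.compl x) x) := by ring
        rw [e, h]
        cases Lb.par x <;> cases od r <;> simp [sg]

theorem prod_two : ∀ {r : ℕ} (x : Lb r), capu Q r x x.compl * cupv Q r x.compl x =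
    sg A x.par * ((Q.i ^ (r : ℤ) * Q.s ^ ((r : ℤ) * (r - 1)) : Aˣ) : A)
  | 0, _ => by
      change (1 : A) * 1 = sg A false * _
      simp [sg]
  | r + 1, ⟨x, b⟩ => by
      have h := prod_two x
      rw [unit_succ]
      set W : A := ((Q.i ^ (r : ℤ) * Q.s ^ ((r : ℤ) * (r - 1)) : Aˣ) : A)
      cases b
      · change ((Q.i : A) * Q.qp r * capu Q r x (Lb.compl x)) * cupv Q r (Lb.compl x) x =
          sg A (xor (Lb.par x) false) * ((Q.i : A) * Q.qp r * W)
        have e : ((Q.i : A) * Q.qp r * capu Q r x (Lb.compl x)) * cupv Q r (Lb.compl x) x =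
            (Q.i : A) * Q.qp r * (capu Q r x (Lb.compl x) * cupv Q r (Lb.compl x) x) := by ring
        rw [e, h]
        cases Lb.par x <;> simp [sg]
      · change capu Q r x (Lb.compl x) * (-(Q.i : A) * Q.qp r * cupv Q r (Lb.compl x) x) =
          sg A (xor (Lb.par x) true) * ((Q.i : A) * Q.qp r * W)
        have e : capu Q r x (Lb.compl x) * (-(Q.i : A) * Q.qp r * cupv Q r (Lb.compl x) x) =
            -(Q.i : A) * Q.qp r * (capu Q r x (Lb.compl x) * cupv Q r (Lb.compl x) x) := by ring
        rw [e, h]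
        cases Lb.par x <;> simp [sg]

end CUP

open CUP in
theorem cup : CUP_Stmt := by
  intro A _ Q r hr
  have hod : od r = false := (od_even r).2 hr
  set U : Aˣ := Q.i ^ (r : ℤ) * Q.s ^ ((r : ℤ) * (r - 1)) with hU
  refine ⟨fun x y h => ⟨cupv_zero Q x y h, capv_zero Q x y h⟩, ?_, ?_, ?_, ?_⟩
  · intro x y hx
    rw [capv, capu_eq, hx, hod]
    simp [sg, hU]
  · intro x b hx
    rw [Finset.sum_eq_single x.compl]
    · by_cases hb : x = b
      · subst hb
        rw [if_pos rfl, capv, ← hU]
        have h := prod_one Q x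
        rw [hx, hod, ← hU] at h
        have h' : cupv Q r x x.compl * capu Q r x.compl x = (U : A) := by
          rw [h]; simp [sg]
        calc cupv Q r x x.compl * (((U⁻¹ : Aˣ) : A) * capu Q r x.compl x)
            = ((U⁻¹ : Aˣ) : A) * (cupv Q r x x.compl * capu Q r x.compl x) := by ring
          _ = 1 := by rw [h', Units.inv_mul]
      · rw [if_neg hb, capv_zero Q x.compl b, mul_zero]
        intro h
        rw [compl_compl] at h
        exact hb h.symm
    · intro y _ hy
      rw [cupv_zero Q x y hy, zero_mul]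
    · intro h
      exact absurd (Finset.mem_univ _) h
  · intro b y hb
    rw [Finset.sum_eq_single b.compl]
    · by_cases hy : y = b
      · subst hy
        rw [if_pos rfl, capv, ← hU]
        have h := prod_two Q y
        rw [hb, ← hU] at h
        have h' : capu Q r y y.compl * cupv Q r y.compl y = (U : A) := by
          rw [h]; simp [sg]
        calc (((U⁻¹ : Aˣ) : A) * capu Q r y y.compl) * cupv Q r y.compl y
            = ((U⁻¹ : Aˣ) : A) * (capu Q r y y.compl * cupv Q r y.compl y) := by ring
          _ = 1 := by rw [h', Units.inv_mul]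
      · rw [if_neg hy, cupv_zero Q b.compl y, mul_zero]
        intro h
        rw [compl_compl] at h
        exact hy h
    · intro x _ hx
      rw [capv_zero Q b x hx, zero_mul]
    · intro h
      exact absurd (Finset.mem_univ _) h
  · intro x
    rw [par_compl, hod]
    simp

end Pool.Agent.TB
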