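import Pool.Agent.TB.Stmts

/-!
Finite type invariants of 2-bridge knots: module EMB (the embeddings `M ↦ M ⊗ 1` and
`M ↦ 1 ⊗ M` are homomorphisms of algebras). See PAPER.md in this folder.
-/

open Polynomial
open scoped BigOperators

namespace Pool.Agent.TB

namespace EMB

variable {A L : Type} [CommRing A] [DecidableEq L]

lemma mul12 [Fintype L] (M N : Matrix (L × L) (L × L) A) : emb12 (M * N) = emb12 M * emb12 N := by
  ext ⟨x, y, z⟩ ⟨a, b, c⟩
  simp only [emb12, Matrix.mul_apply, Fintype.sum_prod_type]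
  by_cases h : z = c
  · subst h
    simp [ite_mul, mul_ite]
  · rw [if_neg h]
    symm
    refine Finset.sum_eq_zero fun i _ => Finset.sum_eq_zero fun j _ =>
      Finset.sum_eq_zero fun k _ => ?_
    by_cases h1 : z = k
    · subst h1
      simp [h]
    · simp [h1]

lemma mul23 [Fintype L] (M N : Matrix (L × L) (L × L) A) : emb23 (M * N) = emb23 M * emb23 N := by
  ext ⟨x, y, z⟩ ⟨a, b, c⟩
  simp only [emb23, Matrix.mul_apply, Fintype.sum_prod_type]
  by_cases h : x = a
  · subst h
    rw [if_pos rfl]
    symm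
    rw [Finset.sum_eq_single x]
    · simp
    · intro k _ hk
      simp [Ne.symm hk]
    · simp
  · rw [if_neg h]
    symm
    refine Finset.sum_eq_zero fun i _ => Finset.sum_eq_zero fun j _ =>
      Finset.sum_eq_zero fun k _ => ?_
    by_cases h1 : x = i
    · subst h1
      simp [h]
    · simp [h1]

lemma add12 (M N : Matrix (L × L) (L × L) A) : emb12 (M + N) = emb12 M + emb12 N := by
  ext p c
  simp only [emb12, Matrix.add_apply]
  split_ifs <;> simp

lemma add23 (M N : Matrix (L × L) (L × L) A) : emb23 (M + N) = emb23 M + emb23 N := by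
  ext p c
  simp only [emb23, Matrix.add_apply]
  split_ifs <;> simp

lemma smul12 (c : A) (M : Matrix (L × L) (L × L) A) : emb12 (c • M) = c • emb12 M := by
  ext p q
  simp only [emb12, Matrix.smul_apply, smul_eq_mul]
  split_ifs <;> simp

lemma smul23 (c : A) (M : Matrix (L × L) (L × L) A) : emb23 (c • M) = c • emb23 M := by
  ext p q
  simp only [emb23, Matrix.smul_apply, smul_eq_mul]
  split_ifs <;> simp

lemma one12 : emb12 (1 : Matrix (L × L) (L × L) A) = 1 := by
  ext ⟨x, y, z⟩ ⟨a, b, c⟩
  simp only [emb12, Matrix.one_apply, Prod.mk.injEq]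
  split_ifs <;> simp_all

lemma one23 : emb23 (1 : Matrix (L × L) (L × L) A) = 1 := by
  ext ⟨x, y, z⟩ ⟨a, b, c⟩
  simp only [emb23, Matrix.one_apply, Prod.mk.injEq]
  split_ifs <;> simp_all

lemma zero12 : emb12 (0 : Matrix (L × L) (L × L) A) = 0 := by
  ext p q
  simp [emb12]

lemma zero23 : emb23 (0 : Matrix (L × L) (L × L) A) = 0 := by
  ext p q
  simp [emb23]

/-- `emb12` as a homomorphism of algebras. -/
def hom12 [Fintype L] : Matrix (L × L) (L × L) A →ₐ[A] Matrix (L × L × L) (L × L × L) A where
  toFun := emb12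
  map_one' := one12
  map_mul' := mul12
  map_zero' := zero12
  map_add' := add12
  commutes' := fun r => by
    rw [Algebra.algebraMap_eq_smul_one, smul12, one12, Algebra.algebraMap_eq_smul_one]

/-- `emb23` as a homomorphism of algebras. -/
def hom23 [Fintype L] : Matrix (L × L) (L × L) A →ₐ[A] Matrix (L × L × L) (L × L × L) A where
  toFun := emb23
  map_one' := one23
  map_mul' := mul23
  map_zero' := zero23
  map_add' := add23
  commutes' := fun r => by
    rw [Algebra.algebraMap_eq_smul_one, smul23, one23, Algebra.algebraMap_eq_smul_one]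

end EMB

open EMB in
theorem emb : EMB_Stmt := by
  intro A L _ _ _
  refine ⟨fun M N => ⟨mul12 M N, mul23 M N⟩, fun M N => ⟨add12 M N, add23 M N⟩,
    ⟨one12, one23⟩, fun c M => ⟨smul12 c M, smul23 c M⟩, fun M P => ⟨?_, ?_⟩⟩
  · exact Polynomial.aeval_algHom_apply (hom12 (A := A) (L := L)) M P
  · exact Polynomial.aeval_algHom_apply (hom23 (A := A) (L := L)) M P

end Pool.Agent.TB
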