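import Pool.Agent.TB.Stmts
import Pool.Agent.TwoBr.StateSum

/-!
Finite type property of the state sum (module FTI).
-/

namespace Pool.Agent.TB.FTI

open Pool.Agent.LibH11.Sliced Pool.Agent.TwoBr

variable {A S : Type} [CommRing A] [Fintype S] [DecidableEq S]

omit [DecidableEq S] in
theorem ap_mem (T : TData A S) (K : Ideal A) (k : Kind) : ∀ (i : ℕ) (ψ : List S → A),
    (∀ l, ψ l ∈ K) → ∀ l, T.ap k i ψ l ∈ K := by
  intro i
  induction i with
  | zero =>
    intro ψ h l
    simp only [TData.ap]
    cases k with
    | cup =>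
      match l with
      | [] => simp [TData.ap0]
      | [_] => simp [TData.ap0]
      | x :: y :: l => exact K.mul_mem_left _ (h l)
    | cap =>
      simp only [TData.ap0]
      exact Ideal.sum_mem _ fun a _ => Ideal.sum_mem _ fun b _ => K.mul_mem_left _ (h _)
    | crs e =>
      match l with
      | [] => simp [TData.ap0]
      | [_] => simp [TData.ap0]
      | x :: y :: l =>
        simp only [TData.ap0]
        exact Ideal.sum_mem _ fun a _ => Ideal.sum_mem _ fun b _ => K.mul_mem_left _ (h _)
  | succ i ih =>
    intro ψ h l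
    match l with
    | [] => simp [TData.ap]
    | a :: l => exact ih _ (fun l' => h _) l

omit [DecidableEq S] in
theorem ap_diff_mem (T : TData A S) (I K : Ideal A)
    (hI : ∀ x y a b, T.R true x y a b - T.R false x y a b ∈ I) : ∀ (i : ℕ) (ψ : List S → A),
    (∀ l, ψ l ∈ K) → ∀ l, T.ap (.crs true) i ψ l - T.ap (.crs false) i ψ l ∈ I * K := by
  intro i
  induction i with
  | zero =>
    intro ψ h l
    match l with
    | [] => simp [TData.ap, TData.ap0]
    | [_] => simp [TData.ap, TData.ap0]
    | x :: y :: l =>
      simp only [TData.ap, TData.ap0, ← Finset.sum_sub_distrib, ← sub_mul]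
      exact Ideal.sum_mem _ fun a _ => Ideal.sum_mem _ fun b _ => Ideal.mul_mem_mul (hI _ _ _ _) (h _)
  | succ i ih =>
    intro ψ h l
    match l with
    | [] => simp [TData.ap]
    | a :: l => exact ih _ (fun l' => h _) l

omit [DecidableEq S] in
theorem ap_sub (T : TData A S) (k : Kind) : ∀ (i : ℕ) (ψ φ : List S → A) (l : List S),
    T.ap k i (ψ - φ) l = T.ap k i ψ l - T.ap k i φ l := by
  intro i
  induction i with
  | zero =>
    intro ψ φ l
    simp only [TData.ap]
    cases k with
    | cup =>
      match l with
      | [] => simp [TData.ap0]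
      | [_] => simp [TData.ap0]
      | x :: y :: l => simp only [TData.ap0, Pi.sub_apply, mul_sub]
    | cap => simp only [TData.ap0, Pi.sub_apply, mul_sub, Finset.sum_sub_distrib]
    | crs e =>
      match l with
      | [] => simp [TData.ap0]
      | [_] => simp [TData.ap0]
      | x :: y :: l => simp only [TData.ap0, Pi.sub_apply, mul_sub, Finset.sum_sub_distrib]
  | succ i ih =>
    intro ψ φ l
    match l with
    | [] => simp [TData.ap]
    | a :: l => exact ih (fun l' => ψ (a :: l')) (fun l' => φ (a :: l')) l

theorem st_sub (T : TData A S) (w : Diag) : ∀ (ψ φ : List S → A),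
    T.st w (ψ - φ) = T.st w ψ - T.st w φ := by
  induction w with
  | nil => intro ψ φ; rfl
  | cons p w ih =>
    intro ψ φ
    obtain ⟨k, i⟩ := p
    simp only [TData.st]
    rw [← ih]
    congr 1
    funext l
    exact ap_sub T k i ψ φ l

theorem resolve_st (T : TData A S) (I : Ideal A)
    (hI : ∀ x y a b, T.R true x y a b - T.R false x y a b ∈ I) (l0 : List S) :
    ∀ (s : SDiag) (K : Ideal A) (ψ : List S → A), (∀ l, ψ l ∈ K) →
      resolve (fun w => T.st w ψ l0) s ∈ I ^ dbl s * K := by
  intro s
  induction s with
  | nil => intro K ψ h; simpa [dbl, resolve, TData.st] using h l0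
  | cons p s ih =>
    intro K ψ h
    match p with
    | Sum.inl (k, i) =>
      simp only [dbl, resolve, TData.st]
      exact ih K _ (ap_mem T K k i ψ h)
    | Sum.inr i =>
      simp only [dbl, resolve, TData.st]
      rw [← resolve_sub]
      have h1 : (fun w => T.st w (T.ap (.crs true) i ψ) l0 - T.st w (T.ap (.crs false) i ψ) l0) =
          fun w => T.st w (T.ap (.crs true) i ψ - T.ap (.crs false) i ψ) l0 := by
        funext w
        rw [st_sub]
        rfl
      rw [h1, pow_succ, mul_assoc]
      exact ih (I * K) _ (ap_diff_mem T I K hI i ψ h)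

theorem main (T : TData A S) (s0 : S) (v : Knot → A) (hv : ∀ w h, v (ofDiag w h) = T.J s0 w)
    (I : Ideal A) (hI : ∀ x y a b, T.R true x y a b - T.R false x y a b ∈ I) (s : SDiag) :
    resolve (onDiags v) s ∈ I ^ dbl s := by
  by_cases hL : IsLongKnot (sflat s)
  · rw [resolve_congr s _ (fun w => T.J s0 w)]
    · have h1 := resolve_st T I hI [s0] s ⊤ (fun l => if l = [s0] then 1 else 0)
        (fun l => Submodule.mem_top)
      rwa [Ideal.mul_top] at h1
    · intro w hw
      have hw' : IsLongKnot w := by rw [← isLongKnot_flat, hw]; exact hL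
      rw [onDiags_of hw', hv]
  · rw [resolve_congr s _ (fun _ => (0 : A))]
    · rw [resolve_zero s]
      exact Ideal.zero_mem _
    · intro w hw
      have hw' : ¬ IsLongKnot w := by rw [← isLongKnot_flat, hw]; exact hL
      rw [onDiags_of_not hw']

end FTI

theorem fti : FTI_Stmt := by
  intro A S _ _ _ T s0 v hv I hI s
  exact FTI.main T s0 v hv I hI s

end Pool.Agent.TB
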