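import Pool.Agent.TB.Stmts
import Pool.Agent.TwoBr.StateSum

/-!
If all complex valued finite type invariants agree, so do the power series valued state sums
(module FTM).
-/

namespace Pool.Agent.TB

open Pool.Agent.LibH11.Sliced Pool.Agent.TwoBr

theorem ftm (h1 : INV_Stmt) (h2 : FTI_Stmt) : FTM_Stmt := by
  intro S _ _ T s0 hT hc w w' h h' hft
  let V : Knot → PowerSeries ℂ := Quot.lift (fun x => T.J s0 x.1)
    fun x y hxy => h1 _ _ T s0 hT x y hxy
  have hV : ∀ w h, V (ofDiag w h) = T.J s0 w := fun w h => rfl
  have hI : ∀ x y a b, T.R true x y a b - T.R false x y a b ∈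
      Ideal.span {(PowerSeries.X : PowerSeries ℂ)} := by
    intro x y a b
    rw [Ideal.mem_span_singleton, PowerSeries.X_dvd_iff, map_sub, hc, sub_self]
  ext k
  have h3 : IsFiniteType (fun K => PowerSeries.coeff k (V K)) := by
    refine ⟨k, fun s hs => ?_⟩
    have h4 := h2 _ _ T s0 V hV _ hI s
    rw [hs, Ideal.span_singleton_pow, Ideal.mem_span_singleton, PowerSeries.X_pow_dvd_iff] at h4
    have h5 : (onDiags fun K => PowerSeries.coeff k (V K)) =
        fun w => (PowerSeries.coeff k).toAddMonoidHom (onDiags V w) := by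
      funext w
      by_cases hw : IsLongKnot w
      · rw [onDiags_of hw, onDiags_of hw]; rfl
      · rw [onDiags_of_not hw, onDiags_of_not hw, map_zero]
    rw [h5, resolve_map]
    exact h4 k (Nat.lt_succ_self k)
  have h6 := hft _ h3
  simpa [hV] using h6

end Pool.Agent.TB
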