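import Pool.Agent.TB.Stmts2

/-!
# GPS: genericity over the power series
-/

namespace Pool.Agent.TB

namespace GPS

/-- the constant coefficient -/
noncomputable abbrev kc : PowerSeries ℂ →+* ℂ := PowerSeries.constantCoeff

lemma kc_s : Units.map (kc : PowerSeries ℂ →* ℂ) QPS.s = 1 := by
  ext
  simp [QPS]

lemma kc_qp (m : ℤ) : kc (QPS.qp m) = 1 := by
  have h : kc (QPS.qp m) = ((Units.map (kc : PowerSeries ℂ →* ℂ) (QPS.s ^ (2 * m)) : ℂˣ) : ℂ) :=
    rfl
  rw [h, map_zpow, kc_s, one_zpow, Units.val_one]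

lemma kc_br (m : ℤ) : kc (QPS.br m) = (m : ℂ) := by
  unfold QP.br
  split_ifs with h
  · rw [map_sum, Finset.sum_congr rfl (fun k _ => kc_qp _), Finset.sum_const, Finset.card_range,
      nsmul_eq_mul, mul_one]
    have : ((m.toNat : ℤ) : ℂ) = (m : ℂ) := by rw [Int.toNat_of_nonneg h]
    exact_mod_cast this
  · rw [map_neg, map_sum, Finset.sum_congr rfl (fun k _ => kc_qp _), Finset.sum_const,
      Finset.card_range, nsmul_eq_mul, mul_one]
    have : (((-m).toNat : ℤ) : ℂ) = ((-m : ℤ) : ℂ) := by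
      rw [Int.toNat_of_nonneg (by omega)]
    have h2 : (((-m).toNat : ℕ) : ℂ) = -(m : ℂ) := by
      rw [← Int.cast_neg]
      exact_mod_cast this
    rw [h2, neg_neg]

lemma kc_lam (m : ℤ) : kc (QPS.lam m) = Complex.I * m := by
  unfold QP.lam
  rw [map_mul, kc_br]
  congr 1

end GPS

open GPS in
/-- GPS: genericity over the power series. -/
theorem gps (_hb : BRK_Stmt) : GPS_Stmt := by
  intro r
  constructor
  · intro m _ m' _ hmm
    rw [PowerSeries.isUnit_iff_constantCoeff, map_sub]
    change IsUnit (kc (QPS.lam m) - kc (QPS.lam m'))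
    rw [kc_lam, kc_lam, ← mul_sub, isUnit_iff_ne_zero]
    refine mul_ne_zero Complex.I_ne_zero (sub_ne_zero.2 ?_)
    exact_mod_cast hmm
  · intro m hm
    rw [Finset.mem_Icc] at hm
    constructor
    · intro h
      have h1 := congrArg kc h
      rw [kc_lam, kc_lam] at h1
      have h2 := mul_left_cancel₀ Complex.I_ne_zero h1
      have h3 : m = (r : ℤ) + 1 := by exact_mod_cast h2
      omega
    · intro h
      have h1 := congrArg kc h
      rw [kc_lam, kc_lam] at h1
      have h2 := mul_left_cancel₀ Complex.I_ne_zero h1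
      have h3 : m = -((r : ℤ) + 1) := by exact_mod_cast h2
      omega

end Pool.Agent.TB
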