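import Pool.Agent.TB.Stmts2

/-!
Finite type invariants of 2-bridge knots, module GRT: genericity at the root of unity.
-/

open scoped BigOperators Real

namespace Pool.Agent.TB.GRT

open Pool.Agent.TB

/-- `q_0^k = 1` only if `4 r` divides `k`. -/
theorem pow_eq_one {r : ℕ} (hr : 0 < r) {ι : ℤ} (hι : IsCoprime ι (4 * r : ℤ)) {k : ℤ}
    (h : ((sz (2 * r) ι ^ (2 * k) : ℂˣ) : ℂ) = 1) : (4 * r : ℤ) ∣ k := by
  have hr' : (r : ℂ) ≠ 0 := by exact_mod_cast hr.ne'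
  have h1 : ((sz (2 * r) ι ^ (2 * k) : ℂˣ) : ℂ) =
      Complex.exp ((2 * k : ℤ) * (π * Complex.I * ι / (2 * ((2 * r : ℕ) : ℂ)))) := by
    rw [Units.val_zpow_eq_zpow_val, sz, Units.val_mk0, ← Complex.exp_int_mul]
  rw [h1, Complex.exp_eq_one_iff] at h
  obtain ⟨n, hn⟩ := h
  have hpi : (π : ℂ) ≠ 0 := by exact_mod_cast Real.pi_ne_zero
  have hI : Complex.I ≠ 0 := Complex.I_ne_zero
  have h2 : (k : ℂ) * ι = n * (4 * r) := by
    have h3 : (π * Complex.I) * ((k : ℂ) * ι) = (π * Complex.I) * (n * (4 * r)) := by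
      have h4 : (π * Complex.I) * ((k : ℂ) * ι) =
          (2 * r) * (((2 * k : ℤ) : ℂ) * (π * Complex.I * ι / (2 * ((2 * r : ℕ) : ℂ)))) := by
        push_cast
        field_simp
        try ring
      rw [h4, hn]
      ring
    exact mul_left_cancel₀ (mul_ne_zero hpi hI) h3
  have h3 : k * ι = n * (4 * r) := by exact_mod_cast h2
  apply hι.symm.dvd_of_dvd_mul_right
  exact ⟨n, by rw [h3]; ring⟩

theorem qp_add {A : Type} [CommRing A] (Q : QP A) (a b : ℤ) : Q.qp (a + b) = Q.qp a * Q.qp b := by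
  unfold QP.qp
  rw [mul_add, zpow_add, Units.val_mul]

theorem qp_zero {A : Type} [CommRing A] (Q : QP A) : Q.qp 0 = 1 := by
  unfold QP.qp
  rw [mul_zero, zpow_zero, Units.val_one]

theorem genC (hb : BRK_Stmt) {r : ℕ} {ι : ℤ} (hr : 0 < r) (hι : IsCoprime ι (4 * r : ℤ)) :
    (QC (sz (2 * r) ι)).Gen r := by
  intro m hm m' hm' hne
  rw [Finset.mem_Icc] at hm hm'
  set Q := QC (sz (2 * r) ι) with hQ
  have hone : ∀ k : ℤ, Q.qp k = 1 → (4 * r : ℤ) ∣ k := fun k hk => pow_eq_one hr hι hk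
  obtain ⟨-, -, -, -, -, -, -, hbr, -⟩ := hb ℂ Q
  rw [isUnit_iff_ne_zero]
  intro h0
  have h1 : Q.lam m = Q.lam m' := sub_eq_zero.1 h0
  have hI : (Q.i : ℂ) ≠ 0 := Q.i.ne_zero
  have h2 : Q.br m = Q.br m' := mul_left_cancel₀ hI h1
  have h3 : Q.qp m - Q.qp (-m) = Q.qp m' - Q.qp (-m') := by
    rw [← hbr m, ← hbr m', h2]
  have hm1 : Q.qp m * Q.qp (-m) = 1 := by rw [← qp_add, add_neg_cancel, qp_zero]
  have hm2 : Q.qp m' * Q.qp (-m') = 1 := by rw [← qp_add, add_neg_cancel, qp_zero]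
  have h4 : (Q.qp m * Q.qp (-m') - 1) * (Q.qp m * Q.qp m' + 1) = 0 := by
    linear_combination Q.qp m ^ 2 * hm2 + Q.qp m * h3 + hm1
  rcases mul_eq_zero.1 h4 with h5 | h5
  · have h6 : Q.qp (m + -m') = 1 := by
      rw [qp_add]
      exact sub_eq_zero.1 h5
    have h7 := hone _ h6
    have h8 : |m + -m'| < 4 * r := by
      rw [abs_lt]
      constructor <;> omega
    have h9 := Int.eq_zero_of_abs_lt_dvd h7 h8
    omega
  · have h6 : Q.qp (m + m') = -1 := by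
      rw [qp_add]
      exact eq_neg_of_add_eq_zero_left h5
    have h7 : Q.qp ((m + m') + (m + m')) = 1 := by
      rw [qp_add, h6]
      norm_num
    obtain ⟨c, hc⟩ := hone _ h7
    have h8 : (2 * r : ℤ) ∣ m + m' := ⟨c, by linarith⟩
    have h9 : |m + m'| < 2 * r := by
      rw [abs_lt]
      constructor <;> omega
    have h10 := Int.eq_zero_of_abs_lt_dvd h8 h9
    rw [h10, qp_zero] at h6
    norm_num at h6

theorem fst_lam (s0 : ℂˣ) (m : ℤ) : ((QD s0).lam m).fst = (QC s0).lam m := by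
  have hs : Units.map ((TrivSqZeroExt.fstHom ℂ ℂ ℂ : DualNumber ℂ →ₐ[ℂ] ℂ) :
      DualNumber ℂ →* ℂ) (QD s0).s = s0 := by
    ext
    simp [QD]
  have hq : ∀ k : ℤ, ((QD s0).qp k).fst = (QC s0).qp k := by
    intro k
    have h1 : ((QD s0).qp k).fst = ((Units.map ((TrivSqZeroExt.fstHom ℂ ℂ ℂ :
        DualNumber ℂ →ₐ[ℂ] ℂ) : DualNumber ℂ →* ℂ) ((QD s0).s ^ (2 * k)) : ℂˣ) : ℂ) := rfl
    rw [h1, map_zpow, hs]
    rfl
  have hi : (((QD s0).i : DualNumber ℂ)).fst = ((QC s0).i : ℂ) := by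
    simp [QD, QC]
  have hbr : ((QD s0).br m).fst = (QC s0).br m := by
    unfold QP.br
    split_ifs
    · rw [TrivSqZeroExt.fst_sum]
      exact Finset.sum_congr rfl fun k _ => hq _
    · rw [TrivSqZeroExt.fst_neg, TrivSqZeroExt.fst_sum]
      congr 1
      exact Finset.sum_congr rfl fun k _ => hq _
  unfold QP.lam
  rw [TrivSqZeroExt.fst_mul, hbr, hi]

end Pool.Agent.TB.GRT

namespace Pool.Agent.TB

theorem grt (hb : BRK_Stmt) : GRT_Stmt := by
  intro r ι hr hι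
  refine ⟨GRT.genC hb hr hι, ?_⟩
  intro m hm m' hm' hne
  have h1 := GRT.genC hb hr hι m hm m' hm' hne
  rw [TrivSqZeroExt.isUnit_iff_isUnit_fst, TrivSqZeroExt.fst_sub, GRT.fst_lam, GRT.fst_lam]
  exact h1

end Pool.Agent.TB
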