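import Pool.Agent.TB.Stmts2

/-!
Finite type invariants of 2-bridge knots: module HZ (at `h = 0` positive and negative crossings
agree). See PAPER.md in this folder, section 4.
-/

open Polynomial
open scoped BigOperators

namespace Pool.Agent.TB

namespace HZ

/-- At `s = 1` the matrices `Rm` and `Rn` agree up to the sign given by the parity of the
input. -/
theorem key {A B : Type} [CommRing A] [CommRing B] (Q : QP A) (φ : A →+* B)
    (hs : φ (Q.s : A) = 1) (hs' : φ ((Q.s⁻¹ : Aˣ) : A) = 1) (hq : φ (Q.qp 1 - Q.qp (-1)) = 0) :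
    ∀ (r : ℕ) (x y a b : Lb r), φ (Rn Q r (x, y) (a, b)) =
      (if xor a.par b.par then -1 else 1) * φ (Rm Q r (x, y) (a, b))
  | 0, x, y, a, b => by simp [Rn, Rm, Lb.par]
  | r + 1, x, y, a, b => by
      have IH := key Q φ hs hs' hq r x.1 y.1 a.1 b.1
      obtain ⟨x1, x2⟩ := x
      obtain ⟨y1, y2⟩ := y
      obtain ⟨a1, a2⟩ := a
      obtain ⟨b1, b2⟩ := b
      simp only at IH
      cases x2 <;> cases y2 <;> cases a2 <;> cases b2 <;>
        simp only [Rm, Rn, Lb.par, map_zero, map_mul, map_neg, hs, hs', hq, mul_zero, zero_mul,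
          one_mul, Bool.xor_false, Bool.xor_true, IH, neg_mul] <;>
        cases a1.par <;> cases b1.par <;> simp

theorem qps_s : PowerSeries.constantCoeff ((QPS.s : (PowerSeries ℂ)ˣ) : PowerSeries ℂ) = 1 := by
  simp [QPS]

theorem qps_mapS :
    Units.map ((PowerSeries.constantCoeff : PowerSeries ℂ →+* ℂ) : PowerSeries ℂ →* ℂ) QPS.s = 1 := by
  ext
  simp only [Units.coe_map, MonoidHom.coe_coe, Units.val_one]
  exact qps_s

theorem qps_mapI :
    Units.map ((PowerSeries.constantCoeff : PowerSeries ℂ →+* ℂ) : PowerSeries ℂ →* ℂ) QPS.i =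
      iC := by
  ext
  simp [QPS]

theorem mapv (u : (PowerSeries ℂ)ˣ) : PowerSeries.constantCoeff (u : PowerSeries ℂ) =
    ((Units.map ((PowerSeries.constantCoeff : PowerSeries ℂ →+* ℂ) : PowerSeries ℂ →* ℂ) u : ℂˣ) :
      ℂ) := rfl

theorem mapFu (m : ℤ) :
    Units.map ((PowerSeries.constantCoeff : PowerSeries ℂ →+* ℂ) : PowerSeries ℂ →* ℂ)
      (QPS.fu m) = iC ^ m := by
  rw [QP.fu, map_mul, map_zpow, map_zpow, qps_mapI, qps_mapS, one_zpow, mul_one]

theorem mapQp (m : ℤ) : PowerSeries.constantCoeff (QPS.qp m) = 1 := by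
  rw [QP.qp, mapv, map_zpow, qps_mapS, one_zpow, Units.val_one]

theorem iC_inv (r : ℕ) (hr : Even r) : (iC ^ (r : ℤ))⁻¹ = iC ^ (r : ℤ) := by
  obtain ⟨k, rfl⟩ := hr
  have h : iC * iC = -1 := by
    ext
    simp [iC]
  rw [inv_eq_iff_mul_eq_one]
  have h4 : iC ^ 4 = 1 := by
    rw [show (4 : ℕ) = 2 + 2 from rfl, pow_add, pow_two, h]; simp
  rw [← zpow_add, show ((k + k : ℕ) : ℤ) + ((k + k : ℕ) : ℤ) = 4 * k by push_cast; ring,
    zpow_mul, show (4 : ℤ) = ((4 : ℕ) : ℤ) by rfl, zpow_natCast, zpow_natCast, h4, one_pow]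

end HZ

open HZ in
/-- At `h = 0` positive and negative crossings agree. -/
theorem hz : HZ_Stmt := by
  intro r hr x y a b
  have hs' : PowerSeries.constantCoeff ((QPS.s⁻¹ : (PowerSeries ℂ)ˣ) : PowerSeries ℂ) = 1 := by
    rw [mapv, map_inv, qps_mapS, inv_one, Units.val_one]
  have hq : PowerSeries.constantCoeff (QPS.qp 1 - QPS.qp (-1)) = 0 := by
    rw [map_sub, mapQp, mapQp, sub_self]
  have hk := key QPS PowerSeries.constantCoeff qps_s hs' hq r x.1.1 y.1.1 a.1.1 b.1.1
  rw [a.1.2, b.1.2] at hk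
  simp only [Bool.xor_self, Bool.false_eq_true, if_false, one_mul] at hk
  simp only [tdata]
  split_ifs with h1 h2
  · rw [map_mul, map_mul, hk]
    congr 1
    rw [mapv, mapv, map_mul, map_mul, map_inv, map_inv, map_pow, mapFu, qps_mapS, one_pow,
      inv_one, mul_one, mul_one, iC_inv r hr]
  · rw [map_mul, map_mul, hk]
    congr 1
    rw [mapv, mapv, map_inv, mapFu, iC_inv r hr]
  · rfl

end Pool.Agent.TB
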