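import Pool.Agent.TB.Stmts
import Pool.Agent.LibH11.SlicedCalc

/-! Module KLK: the diagrams `kdiag x` are diagrams of long knots. -/

namespace Pool.Agent.TB

open Pool.Agent.LibH11.Sliced

namespace KLK

theorem run_two (e : Bool) (p N : ℕ) (lab : ℕ → ℕ) (c : ℕ) (h : p + 2 ≤ N) :
    ∀ n : ℕ, run (List.replicate (2 * n) (Kind.crs e, p)) (N, lab, c) = some (N, lab, c) := by
  intro n
  induction n with
  | zero => rfl
  | succ n ih =>
    rw [show 2 * (n + 1) = 2 * n + 1 + 1 by ring, List.replicate_succ, List.replicate_succ]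
    simp only [run, step]
    rw [if_pos h]
    simp only [Option.bind_some]
    rw [if_pos h]
    simp only [Option.bind_some, Equiv.swap_apply_self]
    exact ih

theorem run_tw (p N : ℕ) (lab : ℕ → ℕ) (c : ℕ) (x : ℤ) (h : p + 2 ≤ N) :
    run (tw p x) (N, lab, c) = some (N, lab, c) :=
  run_two _ p N lab c h _

theorem run_twd (lab : ℕ → ℕ) (c : ℕ) :
    ∀ (x : List ℤ) (p : ℕ), p ≤ 1 → run (twd p x) (3, lab, c) = some (3, lab, c) := by
  intro x
  induction x with
  | nil => intro p _; rfl
  | cons a l ih =>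
    intro p hp
    rw [twd, run_append, run_tw p 3 lab c a (by omega)]
    exact ih (1 - p) (by omega)

end KLK

theorem klk : KLK_Stmt := by
  intro x
  have h : ∃ t : State, run (kdiag x) (1, fun _ => 0, 1) = some t ∧ t.1 = 1 := by
    unfold kdiag
    simp only [run, step]
    rw [if_pos (le_refl 1)]
    simp only [Option.bind_some]
    rw [run_append, KLK.run_twd _ _ x 0 (by omega)]
    simp only [Option.bind_some, run, step]
    rw [if_pos (by simp)]
    exact ⟨_, rfl, rfl⟩
  obtain ⟨⟨n, lab, c⟩, h1, h2⟩ := h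
  have h3 : n = 1 := h2
  subst h3
  exact ⟨lab, c, h1⟩

end Pool.Agent.TB
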