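import Pool.Agent.TB.Stmts2

/-!
NN: on even functions the first order part of the operator is a nearest neighbour operator.
See PAPER.md in this folder, section 5.
-/

open Polynomial Filter Topology
open scoped BigOperators Real

namespace Pool.Agent.TB

namespace NN

variable {n : ℕ} [NeZero n] {ι : ℤ}

theorem saw_add (a k : ℤ) : saw n (a + n * k) = saw n a := by
  unfold saw
  have h1 : ((n : ℤ) ∣ a + n * k) ↔ ((n : ℤ) ∣ a) := by
    constructor
    · intro h
      have := dvd_sub h (Dvd.intro k rfl : (n : ℤ) ∣ n * k)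
      simpa using this
    · intro h
      exact dvd_add h (Dvd.intro k rfl)
  have h2 : (a + n * k) % (n : ℤ) = a % (n : ℤ) := Int.add_mul_emod_self_left a n k
  rw [h2]
  by_cases h : (n : ℤ) ∣ a
  · rw [if_pos h, if_pos (h1.2 h)]
  · rw [if_neg h, if_neg (fun h' => h (h1.1 h'))]

/-- the sawtooth function on `ℤ/2n` -/
noncomputable def sw (n : ℕ) [NeZero n] (b : ZMod (2 * n)) : ℂ := saw n (b.val : ℤ)

theorem sw_int (a : ℤ) : sw n (a : ZMod (2 * n)) = saw n a := by
  unfold sw
  rw [ZMod.val_intCast]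
  have h : a % ((2 * n : ℕ) : ℤ) = a + n * (-2 * (a / ((2 * n : ℕ) : ℤ))) := by
    rw [Int.emod_def]; push_cast; ring
  rw [h, saw_add]

theorem int_surj (b : ZMod (2 * n)) : ∃ a : ℤ, (a : ZMod (2 * n)) = b :=
  ⟨(b.val : ℤ), by simp⟩

theorem sw_add (b : ZMod (2 * n)) : sw n (b + n) = sw n b := by
  obtain ⟨a, rfl⟩ := int_surj b
  have h : ((a : ZMod (2 * n)) + (n : ZMod (2 * n))) = ((a + n * 1 : ℤ) : ZMod (2 * n)) := by
    push_cast; ring
  rw [h, sw_int, sw_int, saw_add]

theorem two_n : (2 : ZMod (2 * n)) * n = 0 := by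
  have h : ((2 * n : ℕ) : ZMod (2 * n)) = 0 := ZMod.natCast_self _
  push_cast at h
  exact h

theorem sum_range_zmod (m : ℕ) [NeZero m] (F : ZMod m → ℂ) :
    ∑ b ∈ Finset.range m, F (b : ZMod m) = ∑ b : ZMod m, F b := by
  refine Finset.sum_nbij' (fun b : ℕ => (b : ZMod m)) (fun b => b.val) ?_ ?_ ?_ ?_ ?_
  · intro b _; simp
  · intro b _
    exact Finset.mem_range.2 (ZMod.val_lt b)
  · intro b hb; exact ZMod.val_cast_of_lt (Finset.mem_range.1 hb)
  · intro b _; simp
  · intro b _; rfl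

theorem sum_half (F : ZMod (2 * n) → ℂ) (hF : ∀ b, F (b + n) = F b) :
    ∑ b : ZMod (2 * n), F b = 2 * ∑ b ∈ Finset.range n, F (b : ZMod (2 * n)) := by
  rw [← sum_range_zmod]
  have h : Finset.range (2 * n) = Finset.range (n + n) := by rw [two_mul]
  rw [h, Finset.sum_range_add, two_mul (∑ b ∈ Finset.range n, F (b : ZMod (2 * n)))]
  congr 1
  refine Finset.sum_congr rfl fun b _ => ?_
  have h2 : ((n + b : ℕ) : ZMod (2 * n)) = (b : ZMod (2 * n)) + n := by push_cast; ring
  rw [h2, hF]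

theorem sum_par (f : ℕ → ℂ) (m : ℕ) :
    ∑ w ∈ Finset.range (2 * m), f w = ∑ b ∈ Finset.range m, (f (2 * b) + f (2 * b + 1)) := by
  induction m with
  | zero => simp
  | succ m ih =>
    rw [show 2 * (m + 1) = 2 * m + 1 + 1 by ring, Finset.sum_range_succ, Finset.sum_range_succ, ih,
      Finset.sum_range_succ]
    ring

theorem sum_parity (F : ZMod (2 * n) → ℂ) :
    ∑ b : ZMod (2 * n), (F (2 * b) + F (2 * b + 1)) = 2 * ∑ w : ZMod (2 * n), F w := by
  rw [sum_half (fun b => F (2 * b) + F (2 * b + 1))]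
  · congr 1
    rw [← sum_range_zmod, sum_par]
    refine Finset.sum_congr rfl fun b _ => ?_
    push_cast
    rfl
  · intro b
    have h : (2 : ZMod (2 * n)) * (b + n) = 2 * b := by rw [mul_add, two_n, add_zero]
    simp only [h]

/-- translation in a sum -/
theorem sum_shift (F : ZMod (2 * n) → ℂ) (c : ZMod (2 * n)) :
    ∑ b : ZMod (2 * n), F (b + c) = ∑ b : ZMod (2 * n), F b :=
  Equiv.sum_comp (Equiv.addRight c) F

section

theorem z_add_n (hm : ∀ a b, zt n ι (a + b) = zt n ι a * zt n ι b)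
    (hn : zt n ι (n : ℤ) = -1) (c : ZMod (2 * n)) : zt n ι (c + n) = - zt n ι c := by
  have h : zt n ι ((n : ℕ) : ZMod (2 * n)) = -1 := by
    rw [← hn]; push_cast; rfl
  rw [hm, h]; ring

theorem hh_per (v : ZMod (2 * n)) : hh n ι (v + n) = hh n ι v := by
  unfold hh
  refine Finset.sum_congr rfl fun a _ => ?_
  have h : (2 : ZMod (2 * n)) * a * (v + n) = 2 * a * v := by
    have := two_n (n := n)
    linear_combination (a : ZMod (2 * n)) * this
  rw [h]

theorem hh_sum (v : ZMod (2 * n)) :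
    2 * hh n ι v = ∑ a : ZMod (2 * n), sw n a * zt n ι (2 * a * v) := by
  rw [sum_half]
  · congr 1
    unfold hh
    refine Finset.sum_congr rfl fun a _ => ?_
    have h := sw_int (n := n) (a : ℤ)
    push_cast at h
    rw [h]
  · intro b
    have h : (2 : ZMod (2 * n)) * (b + n) * v = 2 * b * v := by
      have := two_n (n := n)
      linear_combination v * this
    rw [sw_add, h]

theorem Th_apply (f : Fn n) (u : ZMod (2 * n)) :
    2 * Th n ι f u = n * ∑ b : ZMod (2 * n), sw n b * hh n ι (u + b) * f (u + 2 * b) := by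
  have h1 : Th n ι f u =
      n * ∑ b ∈ Finset.range n, sw n (b : ZMod (2 * n)) * hh n ι (u + b) * f (u + 2 * b) := by
    unfold Th
    simp only [LinearMap.smul_apply, LinearMap.sum_apply, Pi.smul_apply, Finset.sum_apply,
      smul_eq_mul]
    rw [Finset.sum_comm]
    congr 1
    refine Finset.sum_congr rfl fun b _ => ?_
    have h := sw_int (n := n) (b : ℤ)
    push_cast at h
    rw [h]
    unfold hh
    rw [Finset.mul_sum, Finset.sum_mul]
    refine Finset.sum_congr rfl fun a _ => ?_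
    have h2 : (2 : ZMod (2 * n)) * a * (u + b) = 2 * a * b + 2 * a * u := by ring
    rw [h2]
    simp only [Tt, LinearMap.coe_mk, AddHom.coe_mk]
    push_cast
    ring
  rw [sum_half, h1]
  · ring
  · intro b
    have h : u + 2 * (b + n) = u + 2 * b := by
      rw [mul_add, two_n, add_zero]
    rw [sw_add, h, ← add_assoc, hh_per]

end

theorem saw_nat (b : ℕ) (hb : b < n) (h0 : b ≠ 0) : saw n b = b / n - 1 / 2 := by
  unfold saw
  have h1 : ¬ (n : ℤ) ∣ b := by
    intro h
    have h2 : n ∣ b := Int.natCast_dvd_natCast.1 h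
    exact absurd (Nat.le_of_dvd (Nat.pos_of_ne_zero h0) h2) (not_le.2 hb)
  rw [if_neg h1]
  have h2 : ((b : ℤ) % (n : ℤ)) = b := by
    rw [← Int.natCast_mod, Nat.mod_eq_of_lt hb]
  rw [h2]
  push_cast
  rfl

theorem saw_zero : saw n 0 = 0 := by
  unfold saw
  rw [if_pos (dvd_zero _)]

theorem saw_self : saw n n = 0 := by
  unfold saw
  rw [if_pos (dvd_refl _)]

theorem saw_diff (h1 : 1 < n) (b : ℕ) (hb : b < n) :
    saw n b - saw n ((b + 1 : ℕ) : ℤ) =
      -(1 / n) + (if b = 0 then 1 / 2 else 0) + (if b = n - 1 then 1 / 2 else 0) := by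
  have hn0 : (n : ℂ) ≠ 0 := Nat.cast_ne_zero.2 (NeZero.ne n)
  by_cases hb0 : b = 0
  · subst hb0
    rw [if_pos rfl, if_neg (by omega), saw_nat (0 + 1) (by omega) (by omega)]
    rw [show ((0 : ℕ) : ℤ) = 0 from rfl, saw_zero]
    push_cast
    ring
  · rw [if_neg hb0]
    by_cases hb1 : b = n - 1
    · rw [if_pos hb1, saw_nat b hb hb0]
      have h2 : b + 1 = n := by omega
      rw [h2, saw_self]
      have h3 : (b : ℂ) = n - 1 := by
        have : ((b + 1 : ℕ) : ℂ) = n := by rw [h2]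
        push_cast at this
        linear_combination this
      rw [h3]
      field_simp
      ring
    · rw [if_neg hb1, saw_nat b hb hb0, saw_nat (b + 1) (by omega) (by omega)]
      push_cast
      field_simp
      ring

/-- the commutator of `Th` and `Yy` -/
theorem comm_eq (h1 : 1 < n) (f : Fn n) (u : ZMod (2 * n)) (E : ZMod (2 * n) → ℂ)
    (hE : ∀ b, E b = (hh n ι (u + b) - hh n ι (u + b + 1)) * f (u + 2 * b + 1)) :
    2 * (Th n ι (Yy n f) u - Yy n (Th n ι f) u) =
      -(∑ b, E b) + n * E 0 + n * E (-1) := by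
  have hn0 : (n : ℂ) ≠ 0 := Nat.cast_ne_zero.2 (NeZero.ne n)
  have hY : ∀ (g : Fn n) (v : ZMod (2 * n)), Yy n g v = g (v + 1) + g (v - 1) := fun g v => rfl
  have hEp : ∀ b, E (b + n) = E b := by
    intro b
    rw [hE, hE]
    have e1 : u + 2 * (b + n) + 1 = u + 2 * b + 1 := by rw [mul_add, two_n, add_zero]
    have e2 : u + (b + n) = u + b + n := by ring
    have e3 : u + b + n + 1 = u + b + 1 + n := by ring
    rw [e1, e2, e3, hh_per, hh_per]
  have hA : 2 * (Th n ι (Yy n f) u - Yy n (Th n ι f) u) =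
      n * (∑ b, sw n b * E b - ∑ b, sw n b * E (b - 1)) := by
    have t1 := Th_apply (ι := ι) (Yy n f) u
    have t2 := Th_apply (ι := ι) f (u + 1)
    have t3 := Th_apply (ι := ι) f (u - 1)
    rw [hY]
    have : 2 * (Th n ι (Yy n f) u - (Th n ι f (u + 1) + Th n ι f (u - 1))) =
        2 * Th n ι (Yy n f) u - 2 * Th n ι f (u + 1) - 2 * Th n ι f (u - 1) := by ring
    rw [this, t1, t2, t3, ← mul_sub, ← mul_sub, ← Finset.sum_sub_distrib,
      ← Finset.sum_sub_distrib, ← Finset.sum_sub_distrib]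
    congr 1
    refine Finset.sum_congr rfl fun b _ => ?_
    rw [hY, hE, hE]
    have e1 : u + 1 + b = u + b + 1 := by ring
    have e2 : u + 1 + 2 * b = u + 2 * b + 1 := by ring
    have e3 : u - 1 + b = u + (b - 1) := by ring
    have e4 : u - 1 + 2 * b = u + 2 * b - 1 := by ring
    have e5 : u + (b - 1) + 1 = u + b := by ring
    have e6 : u + 2 * (b - 1) + 1 = u + 2 * b - 1 := by ring
    rw [e1, e2, e3, e4, e5, e6]
    ring
  have hB : ∑ b, sw n b * E (b - 1) = ∑ b, sw n (b + 1) * E b := by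
    rw [← sum_shift (fun b => sw n b * E (b - 1)) 1]
    refine Finset.sum_congr rfl fun b _ => ?_
    rw [add_sub_cancel_right]
  have hC : ∑ b, sw n b * E b - ∑ b, sw n (b + 1) * E b =
      ∑ b, (sw n b - sw n (b + 1)) * E b := by
    rw [← Finset.sum_sub_distrib]
    refine Finset.sum_congr rfl fun b _ => ?_
    ring
  have hD : ∑ b, (sw n b - sw n (b + 1)) * E b =
      2 * ∑ b ∈ Finset.range n, (saw n b - saw n ((b + 1 : ℕ) : ℤ)) * E (b : ZMod (2 * n)) := by
    rw [sum_half]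
    · congr 1
      refine Finset.sum_congr rfl fun b _ => ?_
      have s1 := sw_int (n := n) (b : ℤ)
      have s2 := sw_int (n := n) ((b + 1 : ℕ) : ℤ)
      push_cast at s1 s2 ⊢
      rw [s1, s2]
    · intro b
      have e : b + n + 1 = b + 1 + n := by ring
      rw [e, sw_add, sw_add, hEp]
  have hF : ∑ b ∈ Finset.range n, (saw n b - saw n ((b + 1 : ℕ) : ℤ)) * E (b : ZMod (2 * n)) =
      -(1 / n) * (∑ b ∈ Finset.range n, E (b : ZMod (2 * n))) + 1 / 2 * E 0 + 1 / 2 * E (-1) := by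
    have e1 : ∀ b ∈ Finset.range n,
        (saw n b - saw n ((b + 1 : ℕ) : ℤ)) * E (b : ZMod (2 * n)) =
          -(1 / n) * E (b : ZMod (2 * n)) + (if b = 0 then 1 / 2 * E (b : ZMod (2 * n)) else 0) +
            (if b = n - 1 then 1 / 2 * E (b : ZMod (2 * n)) else 0) := by
      intro b hb
      rw [saw_diff h1 b (Finset.mem_range.1 hb)]
      split_ifs <;> ring
    rw [Finset.sum_congr rfl e1, Finset.sum_add_distrib, Finset.sum_add_distrib,
      ← Finset.mul_sum, Finset.sum_ite_eq' , Finset.sum_ite_eq', if_pos, if_pos]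
    · have e2 : ((n - 1 : ℕ) : ZMod (2 * n)) = -1 + n := by
        rw [Nat.cast_sub h1.le]; push_cast; ring
      rw [e2, hEp, Nat.cast_zero]
    · exact Finset.mem_range.2 (by omega)
    · exact Finset.mem_range.2 (by omega)
  have hG := sum_half E hEp
  rw [hA, hB, hC, hD, hF, hG]
  field_simp

/-- the kernel of the convolution operator -/
theorem cono_eq (hm : ∀ a b, zt n ι (a + b) = zt n ι a * zt n ι b)
    (hn : zt n ι (n : ℤ) = -1) (f : Fn n) (hf : ∀ u, f (-u) = f u) (u : ZMod (2 * n))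
    (E : ZMod (2 * n) → ℂ)
    (hE : ∀ b, E b = (hh n ι (u + b) - hh n ι (u + b + 1)) * f (u + 2 * b + 1)) :
    2 * ((n : ℂ) * cono n ι (fun k => saw n (k.val : ℤ) * (zt n ι k - zt n ι (-k))) f u) =
      -(∑ b, E b) := by
  have hn0 : (n : ℂ) ≠ 0 := Nat.cast_ne_zero.2 (NeZero.ne n)
  have hzn : ∀ c : ZMod (2 * n), zt n ι (c + n) = - zt n ι c := z_add_n hm hn
  have hzn' : ∀ c : ZMod (2 * n), zt n ι (-(c + n)) = - zt n ι (-c) := by
    intro c
    have e : -c = -(c + n) + n := by ring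
    rw [e, hzn]; ring
  let g : ZMod (2 * n) → ℂ := fun k => sw n k * (zt n ι k - zt n ι (-k))
  have hgn : ∀ c, g (c + n) = - g c := by
    intro c
    show sw n (c + n) * (zt n ι (c + n) - zt n ι (-(c + n))) = -(sw n c * (zt n ι c - zt n ι (-c)))
    rw [sw_add, hzn, hzn']; ring
  let Φ : ZMod (2 * n) → ℂ := fun w => (∑ k, g k * zt n ι (k * w)) * f (u - w)
  have hA : 2 * ((n : ℂ) * cono n ι (fun k => saw n (k.val : ℤ) * (zt n ι k - zt n ι (-k))) f u) =
      ∑ w, Φ w := by
    have e1 : cono n ι (fun k => saw n (k.val : ℤ) * (zt n ι k - zt n ι (-k))) f u =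
      (1 / (2 * n : ℂ)) * ∑ k, ∑ v, g k * zt n ι (k * (u - v)) * f v := rfl
    rw [e1, Finset.sum_comm]
    have e2 : ∑ w, Φ w = ∑ v, Φ (u - v) := (Equiv.sum_comp (Equiv.subLeft u) Φ).symm
    rw [e2]
    have e3 : ∀ v, Φ (u - v) = ∑ k, g k * zt n ι (k * (u - v)) * f v := by
      intro v
      show (∑ k, g k * zt n ι (k * (u - v))) * f (u - (u - v)) = _
      rw [sub_sub_cancel, Finset.sum_mul]
    simp only [e3]
    field_simp
  have hB : ∀ b, Φ (2 * b) = 0 := by
    intro b
    have e : ∑ k, g k * zt n ι (k * (2 * b)) = 0 := by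
      have e1 := sum_shift (fun k => g k * zt n ι (k * (2 * b))) (n : ZMod (2 * n))
      have e2 : ∀ k : ZMod (2 * n), g (k + n) * zt n ι ((k + n) * (2 * b)) =
          -(g k * zt n ι (k * (2 * b))) := by
        intro k
        have e3 : (k + n) * (2 * b) = k * (2 * b) := by
          have := two_n (n := n)
          linear_combination b * this
        rw [hgn, e3]; ring
      simp only [e2, Finset.sum_neg_distrib] at e1
      have e4 : (2 : ℂ) * ∑ k, g k * zt n ι (k * (2 * b)) = 0 := by linear_combination -e1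
      simpa using e4
    show (∑ k, g k * zt n ι (k * (2 * b))) * f (u - 2 * b) = 0
    rw [e, zero_mul]
  have hC : ∀ b, Φ (2 * b + 1) = 2 * ((hh n ι (b + 1) - hh n ι b) * f (u - (2 * b + 1))) := by
    intro b
    have e1 := hh_sum (ι := ι) (b + 1)
    have e2 := hh_sum (ι := ι) b
    have e3 : ∑ k, g k * zt n ι (k * (2 * b + 1)) = 2 * hh n ι (b + 1) - 2 * hh n ι b := by
      rw [e1, e2, ← Finset.sum_sub_distrib]
      refine Finset.sum_congr rfl fun k _ => ?_
      show sw n k * (zt n ι k - zt n ι (-k)) * zt n ι (k * (2 * b + 1)) = _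
      have e4 : 2 * k * (b + 1) = k + k * (2 * b + 1) := by ring
      have e5 : 2 * k * b = -k + k * (2 * b + 1) := by ring
      rw [e4, e5, hm, hm]
      ring
    show (∑ k, g k * zt n ι (k * (2 * b + 1))) * f (u - (2 * b + 1)) = _
    rw [e3]; ring
  have hD := sum_parity Φ
  simp only [hB, hC, zero_add] at hD
  rw [← Finset.mul_sum] at hD
  have hD' : ∑ b, (hh n ι (b + 1) - hh n ι b) * f (u - (2 * b + 1)) = ∑ w, Φ w :=
    mul_left_cancel₀ two_ne_zero hD
  rw [hA, ← hD', ← sum_shift (fun b => (hh n ι (b + 1) - hh n ι b) * f (u - (2 * b + 1))) u,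
    ← Finset.sum_neg_distrib]
  refine Finset.sum_congr rfl fun b _ => ?_
  rw [hE]
  have e1 : u - (2 * (b + u) + 1) = -(u + 2 * b + 1) := by ring
  have e2 : b + u = u + b := by ring
  show (hh n ι (b + u + 1) - hh n ι (b + u)) * f (u - (2 * (b + u) + 1)) = _
  rw [e1, hf, e2]
  ring

end NN

theorem nn (hz : ZT_Stmt) : NN_Stmt := by
  intro n _ ι h1 hι f hf u
  obtain ⟨-, hm, -, hn, -⟩ := hz n ι hι
  have hE : ∀ b : ZMod (2 * n), (fun b => (hh n ι (u + b) - hh n ι (u + b + 1)) *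
      f (u + 2 * b + 1)) b = (hh n ι (u + b) - hh n ι (u + b + 1)) * f (u + 2 * b + 1) :=
    fun b => rfl
  have hA := NN.comm_eq (ι := ι) h1 f u _ hE
  have hB := NN.cono_eq hm hn f hf u _ hE
  have e1 : u + 0 = u := add_zero u
  have e2 : u + 2 * (0 : ZMod (2 * n)) + 1 = u + 1 := by ring
  have e3 : u + -1 = u - 1 := by ring
  have e4 : u - 1 + 1 = u := by ring
  have e5 : u + 2 * (-1 : ZMod (2 * n)) + 1 = u - 1 := by ring
  simp only [e1, e2, e3, e4, e5] at hA
  simp only [Pi.sub_apply, Pi.smul_apply, smul_eq_mul]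
  linear_combination (1 / 2 : ℂ) * hB - (1 / 2 : ℂ) * hA

end Pool.Agent.TB
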