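import Pool.Agent.TB.Stmts2
import Pool.Agent.TB.Nn
import Pool.Agent.TB.The

open scoped BigOperators Real

namespace Pool.Agent.TB

namespace MU

variable {n : ℕ} [NeZero n] {ι : ℤ}

open NN

theorem diff_eq (h1 : 1 < n) (E : ZMod (2 * n) → ℂ) (hEp : ∀ b, E (b + n) = E b) :
    n * (∑ b, sw n b * E b - ∑ b, sw n b * E (b - 1)) =
      -(∑ b, E b) + n * E 0 + n * E (-1) := by
  have hn0 : (n : ℂ) ≠ 0 := Nat.cast_ne_zero.2 (NeZero.ne n)
  have hB : ∑ b, sw n b * E (b - 1) = ∑ b, sw n (b + 1) * E b := by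
    rw [← sum_shift (fun b => sw n b * E (b - 1)) 1]
    refine Finset.sum_congr rfl fun b _ => ?_
    rw [add_sub_cancel_right]
  have hC : ∑ b, sw n b * E b - ∑ b, sw n (b + 1) * E b =
      ∑ b, (sw n b - sw n (b + 1)) * E b := by
    rw [← Finset.sum_sub_distrib]
    refine Finset.sum_congr rfl fun b _ => ?_
    ring
  have hD : ∑ b, (sw n b - sw n (b + 1)) * E b =
      2 * ∑ b ∈ Finset.range n, (saw n b - saw n ((b + 1 : ℕ) : ℤ)) * E (b : ZMod (2 * n)) := by
    rw [sum_half]
    · congr 1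
      refine Finset.sum_congr rfl fun b _ => ?_
      have s1 := sw_int (n := n) (b : ℤ)
      have s2 := sw_int (n := n) ((b + 1 : ℕ) : ℤ)
      push_cast at s1 s2 ⊢
      rw [s1, s2]
    · intro b
      have e : b + n + 1 = b + 1 + n := by ring
      rw [e, sw_add, sw_add, hEp]
  have hF : ∑ b ∈ Finset.range n, (saw n b - saw n ((b + 1 : ℕ) : ℤ)) * E (b : ZMod (2 * n)) =
      -(1 / n) * (∑ b ∈ Finset.range n, E (b : ZMod (2 * n))) + 1 / 2 * E 0 + 1 / 2 * E (-1) := by
    have e1 : ∀ b ∈ Finset.range n,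
        (saw n b - saw n ((b + 1 : ℕ) : ℤ)) * E (b : ZMod (2 * n)) =
          -(1 / n) * E (b : ZMod (2 * n)) + (if b = 0 then 1 / 2 * E (b : ZMod (2 * n)) else 0) +
            (if b = n - 1 then 1 / 2 * E (b : ZMod (2 * n)) else 0) := by
      intro b hb
      rw [saw_diff h1 b (Finset.mem_range.1 hb)]
      split_ifs <;> ring
    rw [Finset.sum_congr rfl e1, Finset.sum_add_distrib, Finset.sum_add_distrib,
      ← Finset.mul_sum, Finset.sum_ite_eq' , Finset.sum_ite_eq', if_pos, if_pos]
    · have e2 : ((n - 1 : ℕ) : ZMod (2 * n)) = -1 + n := by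
        rw [Nat.cast_sub h1.le]; push_cast; ring
      rw [e2, hEp, Nat.cast_zero]
    · exact Finset.mem_range.2 (by omega)
    · exact Finset.mem_range.2 (by omega)
  have hG := sum_half E hEp
  rw [hB, hC, hD, hF, hG]
  field_simp

theorem z2n (a u c : ZMod (2 * n)) :
    zt n ι (2 * (a + n) * u + c) = zt n ι (2 * a * u + c) := by
  have h : (2 : ZMod (2 * n)) * (a + n) * u + c = 2 * a * u + c := by
    have := two_n (n := n)
    linear_combination u * this
  rw [h]

theorem Th_char (hm : ∀ a b, zt n ι (a + b) = zt n ι a * zt n ι b) (k u : ZMod (2 * n)) :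
    2 * Th n ι (fun v => zt n ι (k * v)) u =
      n * ∑ a : ZMod (2 * n), sw n a * hh n ι (a + k) * zt n ι (2 * a * u + k * u) := by
  have h1 : Th n ι (fun v => zt n ι (k * v)) u =
      n * ∑ a ∈ Finset.range n, sw n (a : ZMod (2 * n)) * hh n ι (a + k) *
        zt n ι (2 * a * u + k * u) := by
    unfold Th
    simp only [LinearMap.smul_apply, LinearMap.sum_apply, Pi.smul_apply, Finset.sum_apply,
      smul_eq_mul]
    congr 1
    refine Finset.sum_congr rfl fun a _ => ?_
    have h := sw_int (n := n) (a : ℤ)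
    push_cast at h
    rw [h]
    unfold hh
    rw [Finset.mul_sum, Finset.sum_mul]
    refine Finset.sum_congr rfl fun b _ => ?_
    simp only [Tt, LinearMap.coe_mk, AddHom.coe_mk]
    push_cast
    have e : zt n ι (2 * a * b + 2 * a * u) * zt n ι (k * (u + 2 * b)) =
        zt n ι (2 * b * (a + k)) * zt n ι (2 * a * u + k * u) := by
      rw [← hm, ← hm]
      congr 1
      ring
    linear_combination (saw n a * saw n b) * e
  rw [sum_half, h1]
  · ring
  · intro a
    have e : a + n + k = a + k + n := by ring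
    rw [sw_add, e, hh_per, z2n]

theorem hh_neg (v : ZMod (2 * n)) : hh n ι (-v) = -hh n ι v := by
  unfold hh
  have h := THE.sum_neg n (fun a : ℤ => saw n a * zt n ι (2 * (a : ZMod (2 * n)) * v)) (by
    intro a
    have e : (2 : ZMod (2 * n)) * ((a + n : ℤ) : ZMod (2 * n)) * v = 2 * (a : ZMod (2 * n)) * v := by
      have := two_n (n := n)
      push_cast
      linear_combination v * this
    rw [e, THE.saw_add])
  push_cast at h
  rw [← h, ← Finset.sum_neg_distrib]
  refine Finset.sum_congr rfl fun a _ => ?_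
  rw [THE.saw_neg]
  have e : (2 : ZMod (2 * n)) * a * -v = 2 * -a * v := by ring
  rw [e]
  ring

end MU

open NN MU in
theorem mu (hz : ZT_Stmt) : MU_Stmt := by
  intro n _ ι h1 hι u
  obtain ⟨h0, hm, -, hn, hsum, -, -, -⟩ := hz n ι hι
  have hn0 : (n : ℂ) ≠ 0 := Nat.cast_ne_zero.2 (NeZero.ne n)
  set E : ZMod (2 * n) → ℂ := fun a => (hh n ι (a + 1) - hh n ι a) * zt n ι (2 * a * u + u)
    with hE
  have hEp : ∀ b, E (b + n) = E b := by
    intro b
    have e1 : b + n + 1 = b + 1 + n := by ring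
    simp only [hE, e1, hh_per, z2n]
  have hd := diff_eq h1 E hEp
  -- the left hand side
  have hA : 2 * (Th n ι (fun v => zt n ι v + zt n ι (-v)) u -
      (zt n ι u + zt n ι (-u)) * Th n ι 1 u) =
      n * (∑ b, sw n b * E b - ∑ b, sw n b * E (b - 1)) := by
    have f1 : (fun v => zt n ι v + zt n ι (-v)) =
        (fun v => zt n ι (1 * v)) + fun v => zt n ι (-1 * v) := by
      funext v; simp
    have f2 : (1 : Fn n) = fun v => zt n ι (0 * v) := by
      funext v; simp [h0]
    rw [f1, map_add, f2]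
    have t1 := Th_char hm 1 u
    have t2 := Th_char hm (-1) u
    have t3 := Th_char hm 0 u
    rw [Pi.add_apply]
    have : 2 * (Th n ι (fun v => zt n ι (1 * v)) u + Th n ι (fun v => zt n ι (-1 * v)) u -
        (zt n ι u + zt n ι (-u)) * Th n ι (fun v => zt n ι (0 * v)) u) =
        2 * Th n ι (fun v => zt n ι (1 * v)) u + 2 * Th n ι (fun v => zt n ι (-1 * v)) u -
        (zt n ι u + zt n ι (-u)) * (2 * Th n ι (fun v => zt n ι (0 * v)) u) := by ring
    rw [this, t1, t2, t3, ← mul_add, mul_left_comm (zt n ι u + zt n ι (-u)), ← mul_sub,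
      ← Finset.sum_add_distrib, Finset.mul_sum, ← Finset.sum_sub_distrib,
      ← Finset.sum_sub_distrib]
    congr 1
    refine Finset.sum_congr rfl fun a _ => ?_
    simp only [hE]
    have e1 : a - 1 + 1 = a := by ring
    have e2 : 2 * (a - 1) * u + u = 2 * a * u + -u := by ring
    have e3 : (2 : ZMod (2 * n)) * a * u + 0 * u = 2 * a * u := by ring
    have e4 : (2 : ZMod (2 * n)) * a * u + 1 * u = 2 * a * u + u := by ring
    have e5 : (2 : ZMod (2 * n)) * a * u + -1 * u = 2 * a * u + -u := by ring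
    have e6 : a + 0 = a := by ring
    have e7 : a + -1 = a - 1 := by ring
    rw [e1, e2, e3, e4, e5, e6, e7, hm, hm]
    ring
  -- the sum of E
  have hS : ∑ a : ZMod (2 * n), hh n ι a * zt n ι (2 * a * u) =
      -(2 * n * saw n (u.val : ℤ)) := by
    have e1 : ∀ a : ZMod (2 * n), hh n ι a * zt n ι (2 * a * u) =
        ∑ b ∈ Finset.range n, saw n b * zt n ι (a * (2 * (b + u))) := by
      intro a
      unfold hh
      rw [Finset.sum_mul]
      refine Finset.sum_congr rfl fun b _ => ?_
      rw [mul_assoc, ← hm]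
      congr 2
      ring
    simp only [e1]
    rw [Finset.sum_comm]
    have e2 : ∀ b ∈ Finset.range n, ∑ a : ZMod (2 * n), saw n b * zt n ι (a * (2 * (b + u))) =
        saw n b * (if (2 * ((b : ZMod (2 * n)) + u)) = 0 then (2 * n : ℂ) else 0) := by
      intro b _
      rw [← Finset.mul_sum, hsum]
    rw [Finset.sum_congr rfl e2]
    -- the condition `2 (b + u) = 0`
    set c : ℤ := (u.val : ℤ) with hc
    have huc : ((c : ℤ) : ZMod (2 * n)) = u := by simp [hc]
    have hcond : ∀ b : ℕ, (2 * ((b : ZMod (2 * n)) + u) = 0) ↔ ((n : ℤ) ∣ b + c) := by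
      intro b
      rw [← huc]
      have : (2 : ZMod (2 * n)) * ((b : ZMod (2 * n)) + ((c : ℤ) : ZMod (2 * n))) =
          ((2 * (b + c) : ℤ) : ZMod (2 * n)) := by push_cast; ring
      rw [this, ZMod.intCast_zmod_eq_zero_iff_dvd]
      push_cast
      exact mul_dvd_mul_iff_left (by norm_num)
    have hnpos : (0 : ℤ) < n := by
      have := NeZero.pos n
      exact_mod_cast this
    set b0 : ℕ := ((-c) % (n : ℤ)).toNat with hb0
    have hb0z : (b0 : ℤ) = (-c) % (n : ℤ) := Int.toNat_of_nonneg (Int.emod_nonneg _ hnpos.ne')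
    have hb0lt : b0 < n := by
      have := Int.emod_lt_of_pos (-c) hnpos
      omega
    have hb0d : (n : ℤ) ∣ b0 + c := by
      rw [hb0z, Int.emod_def]
      exact ⟨-((-c) / n), by ring⟩
    rw [Finset.sum_eq_single b0]
    · rw [if_pos ((hcond b0).2 hb0d)]
      have : saw n (b0 : ℤ) = - saw n c := by
        obtain ⟨k, hk⟩ := hb0d
        have : (b0 : ℤ) = -c + n * k := by linarith
        rw [this, NN.saw_add, THE.saw_neg]
      rw [this]; ring
    · intro b hb hne
      rw [if_neg, mul_zero]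
      intro hcon
      have hd1 := (hcond b).1 hcon
      apply hne
      have hblt := Finset.mem_range.1 hb
      have : (n : ℤ) ∣ b - b0 := by
        have := dvd_sub hd1 hb0d
        simpa using this
      have h3 := Int.eq_zero_of_abs_lt_dvd this (by rw [abs_lt]; constructor <;> omega)
      omega
    · intro hnot
      exact absurd (Finset.mem_range.2 hb0lt) hnot
  have hES : ∑ b, E b = 2 * n * saw n (u.val : ℤ) * (zt n ι u - zt n ι (-u)) := by
    have e1 : ∑ b, E b = ∑ a : ZMod (2 * n), hh n ι (a + 1) * zt n ι (2 * (a + 1) * u) * zt n ι (-u) -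
        ∑ a : ZMod (2 * n), hh n ι a * zt n ι (2 * a * u) * zt n ι u := by
      rw [← Finset.sum_sub_distrib]
      refine Finset.sum_congr rfl fun a _ => ?_
      simp only [hE]
      have e2 : zt n ι (2 * (a + 1) * u) * zt n ι (-u) = zt n ι (2 * a * u + u) := by
        rw [← hm]; congr 1; ring
      have e3 : zt n ι (2 * a * u) * zt n ι u = zt n ι (2 * a * u + u) := by rw [← hm]
      linear_combination (-(hh n ι (a + 1))) * e2 + hh n ι a * e3
    rw [e1, sum_shift (fun a => hh n ι a * zt n ι (2 * a * u) * zt n ι (-u)) 1,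
      ← Finset.sum_mul, ← Finset.sum_mul, hS]
    ring
  have hh0 : hh n ι 0 = 0 := by
    have := hh_neg (n := n) (ι := ι) 0
    rw [neg_zero] at this
    have h2 : (2 : ℂ) * hh n ι 0 = 0 := by linear_combination this
    simpa using h2
  have hE0 : E 0 = hh n ι 1 * zt n ι u := by
    simp only [hE]
    rw [hh0]
    simp
  have hE1 : E (-1) = hh n ι 1 * zt n ι (-u) := by
    simp only [hE]
    have e1 : (-1 : ZMod (2 * n)) + 1 = 0 := by ring
    have e2 : (2 : ZMod (2 * n)) * -1 * u + u = -u := by ring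
    rw [e1, e2, hh0, hh_neg]
    ring
  rw [hES, hE0, hE1] at hd
  have hfin := hA.trans hd
  linear_combination (1 / 2 : ℂ) * hfin

end Pool.Agent.TB
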