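import Pool.Agent.TB.Defs

/-!
Finite type invariants of 2-bridge knots: statements of the modules, first part
(functor, R-matrix, universal values). See PAPER.md in this folder.
-/

open Polynomial
open scoped BigOperators

namespace Pool.Agent.TB

open Pool.Agent.LibH11.Sliced

/-! ### A. General state sums -/

/-- KLK: the diagram is a diagram of a long knot. -/
def KLK_Stmt : Prop := ∀ x : List ℤ, IsLongKnot (kdiag x)

/-- INV: invariance of the state sum. -/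
def INV_Stmt : Prop :=
  ∀ (A S : Type) [CommRing A] [Fintype S] [DecidableEq S] (T : TData A S) (s0 : S), T.Good →
    ∀ x y : {w : Diag // IsLongKnot w}, MoveIn x y → T.J s0 x.1 = T.J s0 y.1

/-- FTI: finite type property. -/
def FTI_Stmt : Prop :=
  ∀ (A S : Type) [CommRing A] [Fintype S] [DecidableEq S] (T : TData A S) (s0 : S)
    (v : Knot → A), (∀ w h, v (ofDiag w h) = T.J s0 w) →
    ∀ I : Ideal A, (∀ x y a b, T.R true x y a b - T.R false x y a b ∈ I) →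
    ∀ s : SDiag, resolve (onDiags v) s ∈ I ^ dbl s

/-- FTM: if all complex finite type invariants agree, so do the power series valued state sums. -/
def FTM_Stmt : Prop :=
  ∀ (S : Type) [Fintype S] [DecidableEq S] (T : TData (PowerSeries ℂ) S) (s0 : S), T.Good →
    (∀ x y a b, PowerSeries.constantCoeff (T.R true x y a b) =
      PowerSeries.constantCoeff (T.R false x y a b)) →
    ∀ w w' h h', (∀ v : Knot → ℂ, IsFiniteType v → v (ofDiag w h) = v (ofDiag w' h')) →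
      T.J s0 w = T.J s0 w'

/-! ### B. The R-matrix -/

/-- EMB: the embeddings are homomorphisms of algebras. -/
def EMB_Stmt : Prop :=
  ∀ (A L : Type) [CommRing A] [Fintype L] [DecidableEq L],
    (∀ M N : Matrix (L × L) (L × L) A, emb12 (M * N) = emb12 M * emb12 N ∧
      emb23 (M * N) = emb23 M * emb23 N) ∧
    (∀ M N : Matrix (L × L) (L × L) A, emb12 (M + N) = emb12 M + emb12 N ∧
      emb23 (M + N) = emb23 M + emb23 N) ∧
    (emb12 (1 : Matrix (L × L) (L × L) A) = 1 ∧ emb23 (1 : Matrix (L × L) (L × L) A) = 1) ∧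
    (∀ (c : A) (M : Matrix (L × L) (L × L) A), emb12 (c • M) = c • emb12 M ∧
      emb23 (c • M) = c • emb23 M) ∧
    ∀ (M : Matrix (L × L) (L × L) A) (P : A[X]), aeval (emb12 M) P = emb12 (aeval M P) ∧
      aeval (emb23 M) P = emb23 (aeval M P)

/-- BRK: quantum integers. -/
def BRK_Stmt : Prop :=
  ∀ (A : Type) [CommRing A] (Q : QP A),
    Q.br 0 = 0 ∧ Q.br 1 = 1 ∧ (∀ m, Q.br (-m) = -Q.br m) ∧
    (∀ m, Q.br (m + 1) = Q.qp 1 * Q.br m + Q.qp (-m)) ∧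
    (∀ m, Q.br (m + 1) = Q.qp (-1) * Q.br m + Q.qp m) ∧
    (∀ m, Q.br (m + 1) + Q.br (m - 1) = Q.two * Q.br m) ∧
    (∀ m, Q.br m ^ 2 - Q.br (m + 1) * Q.br (m - 1) = 1) ∧
    (∀ m, (Q.qp 1 - Q.qp (-1)) * Q.br m = Q.qp m - Q.qp (-m)) ∧
    (∀ m, Q.lam (m + 1) - Q.lam (m - 1) = Q.i * (Q.qp m + Q.qp (-m))) ∧
    (∀ m m', Q.lam m ^ 2 - Q.two * Q.lam m * Q.lam m' + Q.lam m' ^ 2 + 1 =
      (Q.lam m - Q.lam (m' + 1)) * (Q.lam m - Q.lam (m' - 1)))

/-- REL: the relations of `U'_q(so_3)` on three strands. -/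
def REL_Stmt : Prop :=
  ∀ (A : Type) [CommRing A] (Q : QP A) (r : ℕ),
    let I1 := emb12 (Im Q r)
    let I2 := emb23 (Im Q r)
    I1 * I1 * I2 - Q.two • (I1 * I2 * I1) + I2 * I1 * I1 = -I2 ∧
    I2 * I2 * I1 - Q.two • (I2 * I1 * I2) + I1 * I2 * I2 = -I1

/-- SPEC: the spectrum of `I`, and the R-matrix as a function of `I`. -/
def SPEC_Stmt : Prop :=
  ∀ (A : Type) [CommRing A] (Q : QP A) (r : ℕ), Q.Gen r →
    aeval (Im Q r) (Q.pol r) = 0 ∧
    aeval (Im Q r) (Q.interp r fun m => (Q.fu m : A)) = Rm Q r ∧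
    aeval (Im Q r) (Q.interp r fun m => (((Q.fu m)⁻¹ : Aˣ) : A)) = Rn Q r

/-- FC: functional calculus. -/
def FC_Stmt : Prop :=
  ∀ (A : Type) [CommRing A] (Q : QP A) (r : ℕ), Q.Gen r →
    (∀ (g : ℤ → A), ∀ m ∈ Finset.Icc (-(r : ℤ)) r, (Q.interp r g).eval (Q.lam m) = g m) ∧
    ∀ (E : Type) [Ring E] [Algebra A E] (I : E), aeval I (Q.pol r) = 0 →
      ∀ P P' : A[X], (∀ m ∈ Finset.Icc (-(r : ℤ)) r, P.eval (Q.lam m) = P'.eval (Q.lam m)) →
        aeval I P = aeval I P'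

/-- BRD: intertwining and braid relations. -/
def BRD_Stmt : Prop :=
  ∀ (A : Type) [CommRing A] [IsDomain A] (Q : QP A) (r : ℕ), Q.Gen r → Q.Reg r →
    ∀ (E : Type) [Ring E] [Algebra A E] (I1 I2 : E),
      (∀ (a : A) (x : E), a ≠ 0 → a • x = 0 → x = 0) →
      aeval I1 (Q.pol r) = 0 → aeval I2 (Q.pol r) = 0 →
      I1 * I1 * I2 - Q.two • (I1 * I2 * I1) + I2 * I1 * I1 = -I2 →
      I2 * I2 * I1 - Q.two • (I2 * I1 * I2) + I1 * I2 * I2 = -I1 →
      let R1 := aeval I1 (Q.interp r fun m => (Q.fu m : A))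
      let R2 := aeval I2 (Q.interp r fun m => (Q.fu m : A))
      R2 * R1 * I2 = I1 * (R2 * R1) ∧ R1 * R2 * I1 = I2 * (R1 * R2) ∧
        R1 * R2 * R1 = R2 * R1 * R2

/-- TOP: eigenvectors for the top eigenvalue `λ_r`. -/
def TOP_Stmt : Prop :=
  ∀ (A : Type) [CommRing A] (Q : QP A) (r : ℕ),
    (∀ x y, ∑ a, ∑ b, Im Q r (x, y) (a, b) * cupv Q r a b = Q.lam r * cupv Q r x y) ∧
    (∀ a b, ∑ x, ∑ y, capu Q r x y * Im Q r (x, y) (a, b) = Q.lam r * capu Q r a b) ∧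
    (IsDomain A → Q.Gen r → Q.Reg r → ∀ v : Lb r → Lb r → A,
      (∀ a b, ∑ x, ∑ y, v x y * Im Q r (x, y) (a, b) = Q.lam r * v a b) →
        ∃ c, ∀ a b, v a b = c * capu Q r a b)

/-- RPR: properties of the R-matrix, by induction on `r`. -/
def RPR_Stmt : Prop :=
  ∀ (A : Type) [CommRing A] (Q : QP A) (r : ℕ),
    (Rm Q r * Im Q r = Im Q r * Rm Q r ∧ Rn Q r * Im Q r = Im Q r * Rn Q r ∧
      Rm Q r * Rn Q r = 1 ∧ Rn Q r * Rm Q r = 1) ∧
    (∀ x y a b : Lb r, x.par ≠ b.par ∨ y.par ≠ a.par →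
      Rm Q r (x, y) (a, b) = 0 ∧ Rn Q r (x, y) (a, b) = 0) ∧
    (∀ x y a b : Lb r, a.par = b.par → Rm Q r (x, y) (a, b) = Rm Q r (a, b) (x, y)) ∧
    (∀ x y a : Lb r, Rm Q r (x, y) (a, a) = if x = a ∧ y = a then 1 else 0) ∧
    (Even r → ∀ a d : Lb r, a.par = false →
      Rm Q r (a.compl, d) (a, a.compl) = if d = a then ((Q.s ^ r : Aˣ) : A) else 0) ∧
    (∀ x y, ∑ a, ∑ b, Rm Q r (x, y) (a, b) * cupv Q r a b = Q.fu r * cupv Q r x y) ∧
    (∀ a b, ∑ x, ∑ y, capu Q r x y * Rm Q r (x, y) (a, b) = Q.fu r * capu Q r a b)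

/-- CUP: minima and maxima. -/
def CUP_Stmt : Prop :=
  ∀ (A : Type) [CommRing A] (Q : QP A) (r : ℕ), Even r →
    (∀ x y : Lb r, y ≠ x.compl → cupv Q r x y = 0 ∧ capv Q r x y = 0) ∧
    (∀ x y : Lb r, x.par = false → capv Q r x y =
      (((Q.i ^ (r : ℤ) * Q.s ^ ((r : ℤ) * (r - 1)))⁻¹ : Aˣ) : A) * cupv Q r x y) ∧
    (∀ x b : Lb r, x.par = false → ∑ y, cupv Q r x y * capv Q r y b = if x = b then 1 else 0) ∧
    (∀ b y : Lb r, b.par = false → ∑ x, capv Q r b x * cupv Q r x y = if y = b then 1 else 0) ∧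
    (∀ x : Lb r, x.compl.par = x.par)

/-- SLD: sliding a strand across a maximum, respectively a minimum. -/
def SLD_Stmt : Prop :=
  ∀ (A : Type) [CommRing A] [IsDomain A] (Q : QP A) (r : ℕ), Even r → Q.Gen r → Q.Reg r →
    ∀ a b c d : Lb r, a.par = false → b.par = false → c.par = false → d.par = false →
      (∑ x, ∑ y, ∑ z, capv Q r x z * Rm Q r (z, d) (y, c) * Rm Q r (x, y) (a, b) =
        if d = a then ((Q.s ^ r : Aˣ) : A) * capv Q r b c else 0) ∧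
      (∑ x, ∑ y, ∑ z, capv Q r x z * Rm Q r (d, x) (a, y) * Rm Q r (y, z) (b, c) =
        if d = c then ((Q.s ^ r : Aˣ) : A) * capv Q r a b else 0) ∧
      (∑ x, ∑ y, ∑ z, Rm Q r (a, b) (x, y) * Rm Q r (y, c) (z, d) * cupv Q r x z =
        if d = a then ((Q.s ^ r : Aˣ) : A) * cupv Q r b c else 0) ∧
      (∑ x, ∑ y, ∑ z, Rm Q r (b, c) (y, z) * Rm Q r (a, y) (d, x) * cupv Q r x z =
        if d = c then ((Q.s ^ r : Aˣ) : A) * cupv Q r a b else 0)

/-- TDG: the functor is well defined. -/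
def TDG_Stmt : Prop :=
  ∀ (A : Type) [CommRing A] [IsDomain A] (Q : QP A) (r : ℕ), Even r → Q.Gen r → Q.Reg r →
    (tdata Q r).Good

/-! ### C. Universal values -/

/-- UNV: a model of the relations has the universal values. -/
def UNV_Stmt : Prop :=
  ∀ (A : Type) [CommRing A] (t μ μ' : A) (M : Type) [AddCommGroup M] [Module A M]
    (I1 I2 : Module.End A M) (Om : M) (Om' : M →ₗ[A] A),
    I1 Om = μ • Om → I1 (I2 Om) = μ' • I2 Om →
    (∀ k : ℕ, I1 ((I2 ^ (k + 2)) Om) =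
      t • I2 (I1 ((I2 ^ (k + 1)) Om)) - I2 (I2 (I1 ((I2 ^ k) Om))) - I1 ((I2 ^ k) Om)) →
    (∀ v, Om' (I2 v) = μ * Om' v) → Om' Om = 1 →
    ∀ (W : Bool → List A[X] → M), (∀ b, W b [] = Om) →
      (∀ P l, W false (P :: l) = aeval I1 P (W true l)) →
      (∀ P l, W true (P :: l) = aeval I2 P (W false l)) →
      ∀ l, Om' (W false l) = Uval t μ μ' l

/-- NAT: base change. -/
def NAT_Stmt : Prop :=
  ∀ (A B : Type) [CommRing A] [CommRing B] (φ : A →+* B) (Q : QP A) (r : ℕ), Q.Gen r →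
    (Q.map φ).Gen r ∧ ∀ x : List ℤ, φ (Jval Q r x) = Jval (Q.map φ) r x

/-- VAL: the value of the functor on the 2-bridge diagrams. -/
def VAL_Stmt : Prop :=
  ∀ (A : Type) [CommRing A] [IsDomain A] (Q : QP A) (r : ℕ), Even r → Q.Gen r → Q.Reg r →
    ∀ x : List ℤ, Even x.length → (tdata Q r).J (s0 r) (kdiag x) = Jval Q r x.reverse

end Pool.Agent.TB
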