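import Mathlib
import Pool.Agent.TB.Stmts

set_option autoImplicit false
set_option linter.unusedSimpArgs false
set_option linter.flexible false

/-!
The relations of `U'_q(so_3)` for the operators `I` on three strands.
-/

namespace Pool.Agent.TB

namespace REL

/-- The step of the induction, in a ring. -/
theorem abs1 {A R : Type*} [CommRing A] [Ring R] [Algebra A R] (t : A) {X1 X2 k1 k2 b1 b2 : R}
    (c11 : k1 * X1 = X1 * k1) (c12 : k1 * X2 = X2 * k1) (c21 : k2 * X1 = X1 * k2)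
    (c22 : k2 * X2 = X2 * k2)
    (d11 : b1 * X1 = X1 * b1) (d12 : b1 * X2 = X2 * b1) (d21 : b2 * X1 = X1 * b2)
    (d22 : b2 * X2 = X2 * b2) (hk : k2 * k1 = k1 * k2)
    (hX : X1 * X1 * X2 - t • (X1 * X2 * X1) + X2 * X1 * X1 = -X2)
    (e1 : k1 * k1 * b2 - t • (k1 * b2 * k1) + b2 * k1 * k1 = 0)
    (e2 : k1 * b1 * k2 + b1 * k1 * k2 - t • (k1 * k2 * b1) = 0)
    (e3 : k2 * k1 * b1 + k2 * b1 * k1 - t • (b1 * k2 * k1) = 0)
    (e4 : b1 * b1 * k2 - t • (b1 * k2 * b1) + k2 * b1 * b1 - k1 * k1 * k2 + k2 = 0)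
    (e5 : k1 * b1 * b2 + b1 * k1 * b2 - t • (k1 * b2 * b1 + b1 * b2 * k1) + b2 * k1 * b1 +
      b2 * b1 * k1 = 0)
    (e6 : b1 * b1 * b2 - t • (b1 * b2 * b1) + b2 * b1 * b1 + b2 = 0) :
    (X1 * k1 + b1) * (X1 * k1 + b1) * (X2 * k2 + b2) -
      t • ((X1 * k1 + b1) * (X2 * k2 + b2) * (X1 * k1 + b1)) +
      (X2 * k2 + b2) * (X1 * k1 + b1) * (X1 * k1 + b1) = -(X2 * k2 + b2) := by
  have c11' : ∀ z, k1 * (X1 * z) = X1 * (k1 * z) := fun z => by rw [← mul_assoc, c11, mul_assoc]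
  have c12' : ∀ z, k1 * (X2 * z) = X2 * (k1 * z) := fun z => by rw [← mul_assoc, c12, mul_assoc]
  have c21' : ∀ z, k2 * (X1 * z) = X1 * (k2 * z) := fun z => by rw [← mul_assoc, c21, mul_assoc]
  have c22' : ∀ z, k2 * (X2 * z) = X2 * (k2 * z) := fun z => by rw [← mul_assoc, c22, mul_assoc]
  have d11' : ∀ z, b1 * (X1 * z) = X1 * (b1 * z) := fun z => by rw [← mul_assoc, d11, mul_assoc]
  have d12' : ∀ z, b1 * (X2 * z) = X2 * (b1 * z) := fun z => by rw [← mul_assoc, d12, mul_assoc]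
  have d21' : ∀ z, b2 * (X1 * z) = X1 * (b2 * z) := fun z => by rw [← mul_assoc, d21, mul_assoc]
  have d22' : ∀ z, b2 * (X2 * z) = X2 * (b2 * z) := fun z => by rw [← mul_assoc, d22, mul_assoc]
  have hk' : ∀ z, k2 * (k1 * z) = k1 * (k2 * z) := fun z => by rw [← mul_assoc, hk, mul_assoc]
  have key : (X1 * k1 + b1) * (X1 * k1 + b1) * (X2 * k2 + b2) -
      t • ((X1 * k1 + b1) * (X2 * k2 + b2) * (X1 * k1 + b1)) +
      (X2 * k2 + b2) * (X1 * k1 + b1) * (X1 * k1 + b1) + (X2 * k2 + b2) =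
      (X1 * X1 * X2 - t • (X1 * X2 * X1) + X2 * X1 * X1 + X2) * (k1 * k1 * k2) +
      X1 * X1 * (k1 * k1 * b2 - t • (k1 * b2 * k1) + b2 * k1 * k1) +
      X1 * X2 * (k1 * b1 * k2 + b1 * k1 * k2 - t • (k1 * k2 * b1)) +
      X2 * X1 * (k2 * k1 * b1 + k2 * b1 * k1 - t • (b1 * k2 * k1)) +
      X2 * (b1 * b1 * k2 - t • (b1 * k2 * b1) + k2 * b1 * b1 - k1 * k1 * k2 + k2) +
      X1 * (k1 * b1 * b2 + b1 * k1 * b2 - t • (k1 * b2 * b1 + b1 * b2 * k1) + b2 * k1 * b1 +
        b2 * b1 * k1) +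
      (b1 * b1 * b2 - t • (b1 * b2 * b1) + b2 * b1 * b1 + b2) := by
    simp only [mul_add, add_mul, mul_sub, sub_mul, mul_assoc, smul_mul_assoc, mul_smul_comm,
      smul_add, c11, c12, c21, c22, d11, d12, d21, d22, hk, c11', c12', c21', c22', d11', d12',
      d21', d22', hk']
    module
  rw [e1, e2, e3, e4, e5, e6, hX] at key
  rw [eq_neg_iff_add_eq_zero, key]
  simp

section Eight

variable {A : Type} [CommRing A] (Q : QP A)

/-- diagonal matrix on one mode of two strands -/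
def Kb : Matrix (Bool × Bool) (Bool × Bool) A := Matrix.diagonal fun p => kinv Q p.1 p.2

/-- the matrix `B` -/
def Bb (A : Type) [CommRing A] : Matrix (Bool × Bool) (Bool × Bool) A :=
  fun p c => bm A p.1 p.2 c.1 c.2

lemma k1_mulVec (f : Bool × Bool × Bool → A) :
    Matrix.mulVec (emb12 (Kb Q)) f = fun p => kinv Q p.1 p.2.1 * f p := by
  ext ⟨u, v, w⟩
  simp only [Matrix.mulVec, dotProduct, emb12, Kb, Matrix.diagonal, Matrix.of_apply,
    Fintype.sum_prod_type, Fintype.sum_bool]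
  cases u <;> cases v <;> cases w <;> simp

lemma k2_mulVec (f : Bool × Bool × Bool → A) :
    Matrix.mulVec (emb23 (Kb Q)) f = fun p => kinv Q p.2.1 p.2.2 * f p := by
  ext ⟨u, v, w⟩
  simp only [Matrix.mulVec, dotProduct, emb23, Kb, Matrix.diagonal, Matrix.of_apply,
    Fintype.sum_prod_type, Fintype.sum_bool]
  cases u <;> cases v <;> cases w <;> simp

lemma b1_mulVec (f : Bool × Bool × Bool → A) :
    Matrix.mulVec (emb12 (Bb A)) f = fun p => match p with
      | (false, true, w) => f (true, false, w)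
      | (true, false, w) => -f (false, true, w)
      | _ => 0 := by
  ext ⟨u, v, w⟩
  simp only [Matrix.mulVec, dotProduct, emb12, Bb, Fintype.sum_prod_type, Fintype.sum_bool]
  cases u <;> cases v <;> cases w <;> simp [bm]

lemma b2_mulVec (f : Bool × Bool × Bool → A) :
    Matrix.mulVec (emb23 (Bb A)) f = fun p => match p with
      | (u, false, true) => f (u, true, false)
      | (u, true, false) => -f (u, false, true)
      | _ => 0 := by
  ext ⟨u, v, w⟩
  simp only [Matrix.mulVec, dotProduct, emb23, Bb, Fintype.sum_prod_type, Fintype.sum_bool]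
  cases u <;> cases v <;> cases w <;> simp [bm]

lemma qp_mul : Q.qp 1 * Q.qp (-1) = 1 := by
  unfold QP.qp
  rw [← Units.val_mul, ← zpow_add]
  norm_num

/-- Matrices are equal if they act in the same way. -/
lemma eight {M N : Matrix (Bool × Bool × Bool) (Bool × Bool × Bool) A}
    (h : ∀ f : Bool × Bool × Bool → A, ∀ p, Matrix.mulVec M f p = Matrix.mulVec N f p) : M = N :=
  Matrix.mulVec_injective (funext fun f => funext fun p => h f p)

lemma e1 : emb12 (Kb Q) * emb12 (Kb Q) * emb23 (Bb A) - Q.two • (emb12 (Kb Q) * emb23 (Bb A) * emb12 (Kb Q)) + emb23 (Bb A) * emb12 (Kb Q) * emb12 (Kb Q) = 0 := by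
  have hq := qp_mul Q
  refine eight fun f p => ?_
  obtain ⟨u, v, w⟩ := p
  simp only [Matrix.sub_mulVec, Matrix.add_mulVec, Matrix.smul_mulVec, ← Matrix.mulVec_mulVec,
    k1_mulVec, k2_mulVec, b1_mulVec, b2_mulVec, Pi.add_apply, Pi.sub_apply, Pi.smul_apply,
    Matrix.zero_mulVec, Pi.zero_apply, QP.two, smul_eq_mul]
  cases u <;> cases v <;> cases w <;> simp only [kinv] <;> grind

lemma e1m : emb23 (Kb Q) * emb23 (Kb Q) * emb12 (Bb A) - Q.two • (emb23 (Kb Q) * emb12 (Bb A) * emb23 (Kb Q)) + emb12 (Bb A) * emb23 (Kb Q) * emb23 (Kb Q) = 0 := by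
  have hq := qp_mul Q
  refine eight fun f p => ?_
  obtain ⟨u, v, w⟩ := p
  simp only [Matrix.sub_mulVec, Matrix.add_mulVec, Matrix.smul_mulVec, ← Matrix.mulVec_mulVec,
    k1_mulVec, k2_mulVec, b1_mulVec, b2_mulVec, Pi.add_apply, Pi.sub_apply, Pi.smul_apply,
    Matrix.zero_mulVec, Pi.zero_apply, QP.two, smul_eq_mul]
  cases u <;> cases v <;> cases w <;> simp only [kinv] <;> grind

lemma e2 : emb12 (Kb Q) * emb12 (Bb A) * emb23 (Kb Q) + emb12 (Bb A) * emb12 (Kb Q) * emb23 (Kb Q) - Q.two • (emb12 (Kb Q) * emb23 (Kb Q) * emb12 (Bb A)) = 0 := by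
  have hq := qp_mul Q
  refine eight fun f p => ?_
  obtain ⟨u, v, w⟩ := p
  simp only [Matrix.sub_mulVec, Matrix.add_mulVec, Matrix.smul_mulVec, ← Matrix.mulVec_mulVec,
    k1_mulVec, k2_mulVec, b1_mulVec, b2_mulVec, Pi.add_apply, Pi.sub_apply, Pi.smul_apply,
    Matrix.zero_mulVec, Pi.zero_apply, QP.two, smul_eq_mul]
  cases u <;> cases v <;> cases w <;> simp only [kinv] <;> grind

lemma e2m : emb23 (Kb Q) * emb23 (Bb A) * emb12 (Kb Q) + emb23 (Bb A) * emb23 (Kb Q) * emb12 (Kb Q) - Q.two • (emb23 (Kb Q) * emb12 (Kb Q) * emb23 (Bb A)) = 0 := by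
  have hq := qp_mul Q
  refine eight fun f p => ?_
  obtain ⟨u, v, w⟩ := p
  simp only [Matrix.sub_mulVec, Matrix.add_mulVec, Matrix.smul_mulVec, ← Matrix.mulVec_mulVec,
    k1_mulVec, k2_mulVec, b1_mulVec, b2_mulVec, Pi.add_apply, Pi.sub_apply, Pi.smul_apply,
    Matrix.zero_mulVec, Pi.zero_apply, QP.two, smul_eq_mul]
  cases u <;> cases v <;> cases w <;> simp only [kinv] <;> grind

lemma e3 : emb23 (Kb Q) * emb12 (Kb Q) * emb12 (Bb A) + emb23 (Kb Q) * emb12 (Bb A) * emb12 (Kb Q) - Q.two • (emb12 (Bb A) * emb23 (Kb Q) * emb12 (Kb Q)) = 0 := by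
  have hq := qp_mul Q
  refine eight fun f p => ?_
  obtain ⟨u, v, w⟩ := p
  simp only [Matrix.sub_mulVec, Matrix.add_mulVec, Matrix.smul_mulVec, ← Matrix.mulVec_mulVec,
    k1_mulVec, k2_mulVec, b1_mulVec, b2_mulVec, Pi.add_apply, Pi.sub_apply, Pi.smul_apply,
    Matrix.zero_mulVec, Pi.zero_apply, QP.two, smul_eq_mul]
  cases u <;> cases v <;> cases w <;> simp only [kinv] <;> grind

lemma e3m : emb12 (Kb Q) * emb23 (Kb Q) * emb23 (Bb A) + emb12 (Kb Q) * emb23 (Bb A) * emb23 (Kb Q) - Q.two • (emb23 (Bb A) * emb12 (Kb Q) * emb23 (Kb Q)) = 0 := by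
  have hq := qp_mul Q
  refine eight fun f p => ?_
  obtain ⟨u, v, w⟩ := p
  simp only [Matrix.sub_mulVec, Matrix.add_mulVec, Matrix.smul_mulVec, ← Matrix.mulVec_mulVec,
    k1_mulVec, k2_mulVec, b1_mulVec, b2_mulVec, Pi.add_apply, Pi.sub_apply, Pi.smul_apply,
    Matrix.zero_mulVec, Pi.zero_apply, QP.two, smul_eq_mul]
  cases u <;> cases v <;> cases w <;> simp only [kinv] <;> grind

lemma e4 : emb12 (Bb A) * emb12 (Bb A) * emb23 (Kb Q) - Q.two • (emb12 (Bb A) * emb23 (Kb Q) * emb12 (Bb A)) + emb23 (Kb Q) * emb12 (Bb A) * emb12 (Bb A) - emb12 (Kb Q) * emb12 (Kb Q) * emb23 (Kb Q) + emb23 (Kb Q) = 0 := by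
  have hq := qp_mul Q
  refine eight fun f p => ?_
  obtain ⟨u, v, w⟩ := p
  simp only [Matrix.sub_mulVec, Matrix.add_mulVec, Matrix.smul_mulVec, ← Matrix.mulVec_mulVec,
    k1_mulVec, k2_mulVec, b1_mulVec, b2_mulVec, Pi.add_apply, Pi.sub_apply, Pi.smul_apply,
    Matrix.zero_mulVec, Pi.zero_apply, QP.two, smul_eq_mul]
  cases u <;> cases v <;> cases w <;> simp only [kinv] <;> grind

lemma e4m : emb23 (Bb A) * emb23 (Bb A) * emb12 (Kb Q) - Q.two • (emb23 (Bb A) * emb12 (Kb Q) * emb23 (Bb A)) + emb12 (Kb Q) * emb23 (Bb A) * emb23 (Bb A) - emb23 (Kb Q) * emb23 (Kb Q) * emb12 (Kb Q) + emb12 (Kb Q) = 0 := by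
  have hq := qp_mul Q
  refine eight fun f p => ?_
  obtain ⟨u, v, w⟩ := p
  simp only [Matrix.sub_mulVec, Matrix.add_mulVec, Matrix.smul_mulVec, ← Matrix.mulVec_mulVec,
    k1_mulVec, k2_mulVec, b1_mulVec, b2_mulVec, Pi.add_apply, Pi.sub_apply, Pi.smul_apply,
    Matrix.zero_mulVec, Pi.zero_apply, QP.two, smul_eq_mul]
  cases u <;> cases v <;> cases w <;> simp only [kinv] <;> grind

lemma e5 : emb12 (Kb Q) * emb12 (Bb A) * emb23 (Bb A) + emb12 (Bb A) * emb12 (Kb Q) * emb23 (Bb A) - Q.two • (emb12 (Kb Q) * emb23 (Bb A) * emb12 (Bb A) + emb12 (Bb A) * emb23 (Bb A) * emb12 (Kb Q)) + emb23 (Bb A) * emb12 (Kb Q) * emb12 (Bb A) +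
      emb23 (Bb A) * emb12 (Bb A) * emb12 (Kb Q) = 0 := by
  have hq := qp_mul Q
  refine eight fun f p => ?_
  obtain ⟨u, v, w⟩ := p
  simp only [Matrix.sub_mulVec, Matrix.add_mulVec, Matrix.smul_mulVec, ← Matrix.mulVec_mulVec,
    k1_mulVec, k2_mulVec, b1_mulVec, b2_mulVec, Pi.add_apply, Pi.sub_apply, Pi.smul_apply,
    Matrix.zero_mulVec, Pi.zero_apply, QP.two, smul_eq_mul]
  cases u <;> cases v <;> cases w <;> simp only [kinv] <;> grind

lemma e5m : emb23 (Kb Q) * emb23 (Bb A) * emb12 (Bb A) + emb23 (Bb A) * emb23 (Kb Q) * emb12 (Bb A) - Q.two • (emb23 (Kb Q) * emb12 (Bb A) * emb23 (Bb A) + emb23 (Bb A) * emb12 (Bb A) * emb23 (Kb Q)) + emb12 (Bb A) * emb23 (Kb Q) * emb23 (Bb A) +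
      emb12 (Bb A) * emb23 (Bb A) * emb23 (Kb Q) = 0 := by
  have hq := qp_mul Q
  refine eight fun f p => ?_
  obtain ⟨u, v, w⟩ := p
  simp only [Matrix.sub_mulVec, Matrix.add_mulVec, Matrix.smul_mulVec, ← Matrix.mulVec_mulVec,
    k1_mulVec, k2_mulVec, b1_mulVec, b2_mulVec, Pi.add_apply, Pi.sub_apply, Pi.smul_apply,
    Matrix.zero_mulVec, Pi.zero_apply, QP.two, smul_eq_mul]
  cases u <;> cases v <;> cases w <;> simp only [kinv] <;> grind

lemma e6 : emb12 (Bb A) * emb12 (Bb A) * emb23 (Bb A) - Q.two • (emb12 (Bb A) * emb23 (Bb A) * emb12 (Bb A)) + emb23 (Bb A) * emb12 (Bb A) * emb12 (Bb A) + emb23 (Bb A) = 0 := by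
  have hq := qp_mul Q
  refine eight fun f p => ?_
  obtain ⟨u, v, w⟩ := p
  simp only [Matrix.sub_mulVec, Matrix.add_mulVec, Matrix.smul_mulVec, ← Matrix.mulVec_mulVec,
    k1_mulVec, k2_mulVec, b1_mulVec, b2_mulVec, Pi.add_apply, Pi.sub_apply, Pi.smul_apply,
    Matrix.zero_mulVec, Pi.zero_apply, QP.two, smul_eq_mul]
  cases u <;> cases v <;> cases w <;> simp only [kinv] <;> grind

lemma e6m : emb23 (Bb A) * emb23 (Bb A) * emb12 (Bb A) - Q.two • (emb23 (Bb A) * emb12 (Bb A) * emb23 (Bb A)) + emb12 (Bb A) * emb23 (Bb A) * emb23 (Bb A) + emb12 (Bb A) = 0 := by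
  have hq := qp_mul Q
  refine eight fun f p => ?_
  obtain ⟨u, v, w⟩ := p
  simp only [Matrix.sub_mulVec, Matrix.add_mulVec, Matrix.smul_mulVec, ← Matrix.mulVec_mulVec,
    k1_mulVec, k2_mulVec, b1_mulVec, b2_mulVec, Pi.add_apply, Pi.sub_apply, Pi.smul_apply,
    Matrix.zero_mulVec, Pi.zero_apply, QP.two, smul_eq_mul]
  cases u <;> cases v <;> cases w <;> simp only [kinv] <;> grind

lemma kk : emb23 (Kb Q) * emb12 (Kb Q) = emb12 (Kb Q) * emb23 (Kb Q) := by
  refine eight fun f p => ?_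
  simp only [← Matrix.mulVec_mulVec, k1_mulVec, k2_mulVec]
  ring

end Eight

section Embed

open Kronecker

variable {A : Type} [CommRing A] (Q : QP A) {I J : Type} [Fintype I] [DecidableEq I] [Fintype J]
  [DecidableEq J]

/-- matrices acting on the first factor -/
def al (A : Type) [CommRing A] (I J : Type) [Fintype I] [DecidableEq I] [Fintype J]
    [DecidableEq J] : Matrix I I A →+* Matrix (I × J) (I × J) A where
  toFun N := N ⊗ₖ (1 : Matrix J J A)
  map_one' := Matrix.one_kronecker_one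
  map_mul' M N := by rw [← Matrix.mul_kronecker_mul, one_mul]
  map_zero' := Matrix.zero_kronecker _
  map_add' M N := Matrix.add_kronecker _ _ _

/-- matrices acting on the second factor -/
def be (A : Type) [CommRing A] (I J : Type) [Fintype I] [DecidableEq I] [Fintype J]
    [DecidableEq J] : Matrix J J A →+* Matrix (I × J) (I × J) A where
  toFun N := (1 : Matrix I I A) ⊗ₖ N
  map_one' := Matrix.one_kronecker_one
  map_mul' M N := by rw [← Matrix.mul_kronecker_mul, one_mul]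
  map_zero' := Matrix.kronecker_zero _
  map_add' M N := Matrix.kronecker_add _ _ _

lemma al_smul (t : A) (N : Matrix I I A) : al A I J (t • N) = t • al A I J N :=
  Matrix.smul_kronecker _ _ _

lemma be_smul (t : A) (N : Matrix J J A) : be A I J (t • N) = t • be A I J N :=
  Matrix.kronecker_smul _ _ _

lemma be_al (M : Matrix J J A) (N : Matrix I I A) :
    be A I J M * al A I J N = al A I J N * be A I J M := by
  show ((1 : Matrix I I A) ⊗ₖ M) * (N ⊗ₖ (1 : Matrix J J A)) =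
    (N ⊗ₖ (1 : Matrix J J A)) * ((1 : Matrix I I A) ⊗ₖ M)
  rw [← Matrix.mul_kronecker_mul, ← Matrix.mul_kronecker_mul]
  simp

/-- the step, for matrices on a product -/
theorem step (X1 X2 : Matrix I I A)
    (h : X1 * X1 * X2 - Q.two • (X1 * X2 * X1) + X2 * X1 * X1 = -X2)
    (k1 k2 b1 b2 : Matrix J J A) (hk : k2 * k1 = k1 * k2)
    (e1 : k1 * k1 * b2 - Q.two • (k1 * b2 * k1) + b2 * k1 * k1 = 0)
    (e2 : k1 * b1 * k2 + b1 * k1 * k2 - Q.two • (k1 * k2 * b1) = 0)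
    (e3 : k2 * k1 * b1 + k2 * b1 * k1 - Q.two • (b1 * k2 * k1) = 0)
    (e4 : b1 * b1 * k2 - Q.two • (b1 * k2 * b1) + k2 * b1 * b1 - k1 * k1 * k2 + k2 = 0)
    (e5 : k1 * b1 * b2 + b1 * k1 * b2 - Q.two • (k1 * b2 * b1 + b1 * b2 * k1) + b2 * k1 * b1 +
      b2 * b1 * k1 = 0)
    (e6 : b1 * b1 * b2 - Q.two • (b1 * b2 * b1) + b2 * b1 * b1 + b2 = 0) :
    let Y1 := al A I J X1 * be A I J k1 + be A I J b1
    let Y2 := al A I J X2 * be A I J k2 + be A I J b2
    Y1 * Y1 * Y2 - Q.two • (Y1 * Y2 * Y1) + Y2 * Y1 * Y1 = -Y2 := by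
  intro Y1 Y2
  refine abs1 Q.two (be_al _ _) (be_al _ _) (be_al _ _) (be_al _ _) (be_al _ _) (be_al _ _)
    (be_al _ _) (be_al _ _) ?_ ?_ ?_ ?_ ?_ ?_ ?_ ?_
  · rw [← map_mul, hk, map_mul]
  · simpa only [map_add, map_sub, map_mul, map_neg, al_smul] using congrArg (al A I J) h
  · simpa only [map_add, map_sub, map_mul, map_neg, be_smul, map_zero] using
      congrArg (be A I J) e1
  · simpa only [map_add, map_sub, map_mul, map_neg, be_smul, map_zero] using
      congrArg (be A I J) e2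
  · simpa only [map_add, map_sub, map_mul, map_neg, be_smul, map_zero] using
      congrArg (be A I J) e3
  · simpa only [map_add, map_sub, map_mul, map_neg, be_smul, map_zero] using
      congrArg (be A I J) e4
  · simpa only [map_add, map_sub, map_mul, map_neg, be_smul, map_zero] using
      congrArg (be A I J) e5
  · simpa only [map_add, map_sub, map_mul, map_neg, be_smul, map_zero] using
      congrArg (be A I J) e6

lemma subm {K K' : Type} [Fintype K] [Fintype K'] [DecidableEq K] [DecidableEq K']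
    (e : K' ≃ K) (Y1 Y2 : Matrix K K A)
    (h : Y1 * Y1 * Y2 - Q.two • (Y1 * Y2 * Y1) + Y2 * Y1 * Y1 = -Y2) :
    Y1.submatrix e e * Y1.submatrix e e * Y2.submatrix e e -
      Q.two • (Y1.submatrix e e * Y2.submatrix e e * Y1.submatrix e e) +
      Y2.submatrix e e * Y1.submatrix e e * Y1.submatrix e e = -Y2.submatrix e e := by
  have t1 := congrArg (fun M => M.submatrix e e) h
  simp only [Matrix.submatrix_add, Matrix.submatrix_sub, Matrix.submatrix_neg,
    Matrix.submatrix_smul, Pi.add_apply, Pi.sub_apply, Pi.neg_apply, Pi.smul_apply,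
    ← Matrix.submatrix_mul_equiv _ _ e e e] at t1
  exact t1

/-- splitting the last mode -/
def ee (r : ℕ) : (Lb (r + 1) × Lb (r + 1) × Lb (r + 1)) ≃
    (Lb r × Lb r × Lb r) × (Bool × Bool × Bool) where
  toFun p := ((p.1.1, p.2.1.1, p.2.2.1), (p.1.2, p.2.1.2, p.2.2.2))
  invFun p := ((p.1.1, p.2.1), (p.1.2.1, p.2.2.1), (p.1.2.2, p.2.2.2))
  left_inv _ := rfl
  right_inv _ := rfl

lemma emb12_succ (r : ℕ) : emb12 (Im Q (r + 1)) =
    (al A (Lb r × Lb r × Lb r) (Bool × Bool × Bool) (emb12 (Im Q r)) *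
      be A (Lb r × Lb r × Lb r) (Bool × Bool × Bool) (emb12 (Kb Q)) +
      be A (Lb r × Lb r × Lb r) (Bool × Bool × Bool) (emb12 (Bb A))).submatrix
        (ee r) (ee r) := by
  have h0 : al A (Lb r × Lb r × Lb r) (Bool × Bool × Bool) (emb12 (Im Q r)) *
      be A (Lb r × Lb r × Lb r) (Bool × Bool × Bool) (emb12 (Kb Q)) =
      (emb12 (Im Q r)) ⊗ₖ (emb12 (Kb Q)) := by
    show ((emb12 (Im Q r)) ⊗ₖ (1 : Matrix _ _ A)) * ((1 : Matrix _ _ A) ⊗ₖ (emb12 (Kb Q))) = _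
    rw [← Matrix.mul_kronecker_mul, mul_one, one_mul]
  rw [h0]
  ext ⟨⟨x, u⟩, ⟨y, v⟩, ⟨z, w⟩⟩ ⟨⟨x', u'⟩, ⟨y', v'⟩, ⟨z', w'⟩⟩
  show (if ((z, w) : Lb r × Bool) = (z', w') then
      (if u = u' ∧ v = v' then kinv Q u v * Im Q r (x, y) (x', y') else 0) +
        (if x = x' ∧ y = y' then bm A u v u' v' else 0) else 0) =
    (if z = z' then Im Q r (x, y) (x', y') else 0) *
      (if w = w' then (if (u, v) = (u', v') then kinv Q u v else 0) else 0) +
    (if (x, y, z) = (x', y', z') then 1 else 0) * (if w = w' then bm A u v u' v' else 0)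
  simp only [Prod.mk.injEq]
  by_cases hz : z = z' <;> by_cases hw : w = w' <;> by_cases hu : u = u' ∧ v = v' <;>
    by_cases hx : x = x' ∧ y = y' <;> simp [hz, hw, hu, hx, mul_comm]

lemma emb23_succ (r : ℕ) : emb23 (Im Q (r + 1)) =
    (al A (Lb r × Lb r × Lb r) (Bool × Bool × Bool) (emb23 (Im Q r)) *
      be A (Lb r × Lb r × Lb r) (Bool × Bool × Bool) (emb23 (Kb Q)) +
      be A (Lb r × Lb r × Lb r) (Bool × Bool × Bool) (emb23 (Bb A))).submatrix
        (ee r) (ee r) := by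
  have h0 : al A (Lb r × Lb r × Lb r) (Bool × Bool × Bool) (emb23 (Im Q r)) *
      be A (Lb r × Lb r × Lb r) (Bool × Bool × Bool) (emb23 (Kb Q)) =
      (emb23 (Im Q r)) ⊗ₖ (emb23 (Kb Q)) := by
    show ((emb23 (Im Q r)) ⊗ₖ (1 : Matrix _ _ A)) * ((1 : Matrix _ _ A) ⊗ₖ (emb23 (Kb Q))) = _
    rw [← Matrix.mul_kronecker_mul, mul_one, one_mul]
  rw [h0]
  ext ⟨⟨x, u⟩, ⟨y, v⟩, ⟨z, w⟩⟩ ⟨⟨x', u'⟩, ⟨y', v'⟩, ⟨z', w'⟩⟩
  show (if ((x, u) : Lb r × Bool) = (x', u') then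
      (if v = v' ∧ w = w' then kinv Q v w * Im Q r (y, z) (y', z') else 0) +
        (if y = y' ∧ z = z' then bm A v w v' w' else 0) else 0) =
    (if x = x' then Im Q r (y, z) (y', z') else 0) *
      (if u = u' then (if (v, w) = (v', w') then kinv Q v w else 0) else 0) +
    (if (x, y, z) = (x', y', z') then 1 else 0) * (if u = u' then bm A v w v' w' else 0)
  simp only [Prod.mk.injEq]
  by_cases hz : x = x' <;> by_cases hw : u = u' <;> by_cases hu : v = v' ∧ w = w' <;>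
    by_cases hx : y = y' ∧ z = z' <;> simp [hz, hw, hu, hx, mul_comm]

end Embed

end REL

open REL in
theorem rel : REL_Stmt := by
  intro A _ Q r
  induction r with
  | zero =>
    have h1 : emb12 (Im Q 0) = 0 := by
      ext p c
      show (if p.2.2 = c.2.2 then (0 : A) else 0) = 0
      split_ifs <;> rfl
    have h2 : emb23 (Im Q 0) = 0 := by
      ext p c
      show (if p.1 = c.1 then (0 : A) else 0) = 0
      split_ifs <;> rfl
    simp only [h1, h2]
    constructor <;> simp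
  | succ r ih =>
    obtain ⟨ih1, ih2⟩ := ih
    have s1 := step Q _ _ ih1 _ _ _ _ (kk Q) (e1 Q) (e2 Q) (e3 Q) (e4 Q) (e5 Q) (e6 Q)
    have s2 := step Q _ _ ih2 _ _ _ _ (kk Q).symm (e1m Q) (e2m Q) (e3m Q) (e4m Q) (e5m Q) (e6m Q)
    have t1 := subm Q (ee r) _ _ s1
    have t2 := subm Q (ee r) _ _ s2
    simp only [emb12_succ, emb23_succ]
    exact ⟨t1, t2⟩

end Pool.Agent.TB
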