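import Pool.Agent.TB.Stmts

/-!
SLD: sliding a strand across a maximum, respectively a minimum (PAPER.md, section 2).
-/

open Polynomial
open scoped BigOperators

namespace Pool.Agent.TB

namespace SLD

variable {A : Type} [CommRing A]

section Entries

variable {L : Type} [Fintype L] [DecidableEq L] (M N : Matrix (L × L) (L × L) A)
  (T : Matrix (L × L × L) (L × L × L) A)

lemma mul23_12 (x z d a b c : L) :
    (emb23 M * emb12 N) (x, z, d) (a, b, c) = ∑ y, M (z, d) (y, c) * N (x, y) (a, b) := by
  rw [Matrix.mul_apply, Fintype.sum_prod_type]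
  simp only [Fintype.sum_prod_type, emb23, emb12]
  rw [Finset.sum_eq_single x]
  · refine Finset.sum_congr rfl fun y _ => ?_
    rw [Finset.sum_eq_single c]
    · simp
    · intro c' _ hc'
      simp [hc']
    · simp
  · intro x' _ hx'
    simp [Ne.symm hx']
  · simp

lemma mul12_23 (d x z a b c : L) :
    (emb12 M * emb23 N) (d, x, z) (a, b, c) = ∑ y, M (d, x) (a, y) * N (y, z) (b, c) := by
  rw [Matrix.mul_apply, Fintype.sum_prod_type]
  simp only [Fintype.sum_prod_type, emb23, emb12]
  rw [Finset.sum_eq_single a]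
  · refine Finset.sum_congr rfl fun y _ => ?_
    rw [Finset.sum_eq_single z]
    · simp
    · intro c' _ hc'
      simp [Ne.symm hc']
    · simp
  · intro x' _ hx'
    simp [hx']
  · simp

lemma mulT_23 (p : L × L × L) (a b c : L) :
    (T * emb23 M) p (a, b, c) = ∑ b', ∑ c', T p (a, b', c') * M (b', c') (b, c) := by
  rw [Matrix.mul_apply, Fintype.sum_prod_type]
  simp only [Fintype.sum_prod_type, emb23]
  rw [Finset.sum_eq_single a]
  · simp
  · intro x' _ hx'
    simp [hx']
  · simp

lemma mulT_12 (p : L × L × L) (a b c : L) :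
    (T * emb12 M) p (a, b, c) = ∑ a', ∑ b', T p (a', b', c) * M (a', b') (a, b) := by
  rw [Matrix.mul_apply, Fintype.sum_prod_type]
  simp only [Fintype.sum_prod_type, emb12]
  refine Finset.sum_congr rfl fun a' _ => Finset.sum_congr rfl fun b' _ => ?_
  rw [Finset.sum_eq_single c]
  · simp
  · intro c' _ hc'
    simp [hc']
  · simp

lemma mul12_T (x z d : L) (p : L × L × L) :
    (emb12 M * T) (x, z, d) p = ∑ x', ∑ z', M (x, z) (x', z') * T (x', z', d) p := by
  rw [Matrix.mul_apply, Fintype.sum_prod_type]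
  simp only [Fintype.sum_prod_type, emb12]
  refine Finset.sum_congr rfl fun a' _ => Finset.sum_congr rfl fun b' _ => ?_
  rw [Finset.sum_eq_single d]
  · simp
  · intro c' _ hc'
    simp [Ne.symm hc']
  · simp

lemma mul23_T (d x z : L) (p : L × L × L) :
    (emb23 M * T) (d, x, z) p = ∑ x', ∑ z', M (x, z) (x', z') * T (d, x', z') p := by
  rw [Matrix.mul_apply, Fintype.sum_prod_type]
  simp only [Fintype.sum_prod_type, emb23]
  rw [Finset.sum_eq_single d]
  · simp
  · intro x' _ hx'
    simp [Ne.symm hx']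
  · simp

end Entries

lemma compl_compl : ∀ {r : ℕ} (x : Lb r), x.compl.compl = x
  | 0, _ => rfl
  | r + 1, x => by
    have h := compl_compl (r := r) x.1
    simp only [Lb.compl, Bool.not_not]
    rw [h]
    rfl

/-- content: pairs of complementary labels are mapped to pairs of complementary labels -/
def Ct {r : ℕ} (M : Matrix (Lb r × Lb r) (Lb r × Lb r) A) : Prop :=
  ∀ x y a : Lb r, y ≠ x.compl → M (x, y) (a, a.compl) = 0

lemma Ct.mul {r : ℕ} {M N : Matrix (Lb r × Lb r) (Lb r × Lb r) A} (hM : Ct M) (hN : Ct N) :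
    Ct (M * N) := by
  intro x y a h
  rw [Matrix.mul_apply, Fintype.sum_prod_type]
  refine Finset.sum_eq_zero fun u _ => Finset.sum_eq_zero fun v _ => ?_
  by_cases hv : v = u.compl
  · rw [hv, hM x y u h, zero_mul]
  · rw [hN u v a hv, mul_zero]

variable (Q : QP A)

lemma ct_im : ∀ r, Ct (Im Q r)
  | 0 => fun x y a _ => by simp [Im]
  | r + 1 => by
    rintro ⟨x, x'⟩ ⟨y, y'⟩ ⟨a, a'⟩ h
    have ih := ct_im r x y a
    have h' : y = Lb.compl x → y' ≠ !x' := fun h1 h2 => h (by simp only [Lb.compl]; rw [h1, h2])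
    simp only [Im, Lb.compl]
    by_cases hy : y = Lb.compl x
    · have := h' hy
      cases x' <;> cases y' <;> cases a' <;> simp_all [bm]
    · rw [ih hy]
      have : ¬ (x = a ∧ y = Lb.compl a) := fun ⟨h1, h2⟩ => hy (by rw [h1]; exact h2)
      refine (congrArg₂ (· + ·) (?_ : _ = (0 : A)) (if_neg this)).trans (add_zero 0)
      split_ifs <;> simp

lemma ct_rm : ∀ r, Ct (Rm Q r)
  | 0 => fun x y a h => absurd rfl h
  | r + 1 => by
    rintro ⟨x, x'⟩ ⟨y, y'⟩ ⟨a, a'⟩ h
    have ih := ct_rm r x y a
    have ih2 := (ct_rm r).mul (ct_im Q r) x y a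
    have h' : y = Lb.compl x → y' ≠ !x' := fun h1 h2 => h (by simp only [Lb.compl]; rw [h1, h2])
    simp only [Rm, Lb.compl]
    by_cases hy : y = Lb.compl x
    · have := h' hy
      cases x' <;> cases y' <;> cases a' <;> simp_all
    · cases x' <;> cases y' <;> cases a' <;> simp [ih hy, ih2 hy]

/-- torsion free matrices over a domain -/
lemma tf {A : Type} [CommRing A] [IsDomain A] {n : Type} (a : A) (x : Matrix n n A) (ha : a ≠ 0)
    (h : a • x = 0) : x = 0 := by
  ext i j
  have := congrFun (congrFun h i) j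
  simp only [Matrix.smul_apply, smul_eq_mul, Matrix.zero_apply] at this
  exact (mul_eq_zero.1 this).resolve_left ha

/-- the common part of the first two relations -/
structure Inp {A : Type} [CommRing A] (Q : QP A) (r : ℕ) : Prop where
  i1 : emb23 (Rm Q r) * emb12 (Rm Q r) * emb23 (Im Q r) =
    emb12 (Im Q r) * (emb23 (Rm Q r) * emb12 (Rm Q r))
  i2 : emb12 (Rm Q r) * emb23 (Rm Q r) * emb12 (Im Q r) =
    emb23 (Im Q r) * (emb12 (Rm Q r) * emb23 (Rm Q r))
  eig : ∀ a b, ∑ x, ∑ y, capu Q r x y * Im Q r (x, y) (a, b) = Q.lam r * capu Q r a b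
  uni : ∀ v : Lb r → Lb r → A,
      (∀ a b, ∑ x, ∑ y, v x y * Im Q r (x, y) (a, b) = Q.lam r * v a b) →
        ∃ c, ∀ a b, v a b = c * capu Q r a b
  diag : ∀ x y a : Lb r, Rm Q r (x, y) (a, a) = if x = a ∧ y = a then 1 else 0
  cc : ∀ a d : Lb r, a.par = false →
      Rm Q r (a.compl, d) (a, a.compl) = if d = a then ((Q.s ^ r : Aˣ) : A) else 0
  z : ∀ x y : Lb r, y ≠ x.compl → capu Q r x y = 0
  nz : ∀ x : Lb r, x.par = false → capu Q r x x.compl ≠ 0
  par : ∀ x : Lb r, x.compl.par = x.par

lemma inp {A : Type} [CommRing A] [IsDomain A] {Q : QP A} {r : ℕ} (hr : Even r) (hG : Q.Gen r)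
    (hR : Q.Reg r) (he : EMB_Stmt) (hrel : REL_Stmt) (hs : SPEC_Stmt) (hb : BRD_Stmt)
    (ht : TOP_Stmt) (hp : RPR_Stmt) (hc : CUP_Stmt) : Inp Q r := by
  obtain ⟨e1, e2, e3, e4, e5⟩ := he A (Lb r)
  obtain ⟨s1, s2, s3⟩ := hs A Q r hG
  have z12 : emb12 (0 : Matrix (Lb r × Lb r) (Lb r × Lb r) A) = 0 := by
    have := (e4 0 0).1
    simpa using this
  have z23 : emb23 (0 : Matrix (Lb r × Lb r) (Lb r × Lb r) A) = 0 := by
    have := (e4 0 0).2
    simpa using this
  have p1 : aeval (emb12 (Im Q r)) (Q.pol r) = 0 := by rw [(e5 _ _).1, s1, z12]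
  have p2 : aeval (emb23 (Im Q r)) (Q.pol r) = 0 := by rw [(e5 _ _).2, s1, z23]
  obtain ⟨r1, r2⟩ := hrel A Q r
  have b := hb A Q r hG hR _ (emb12 (Im Q r)) (emb23 (Im Q r)) (fun a x => tf a x) p1 p2 r1 r2
  simp only [(e5 _ _).1, (e5 _ _).2, s2] at b
  obtain ⟨b1, b2, -⟩ := b
  obtain ⟨-, t2, t3⟩ := ht A Q r
  obtain ⟨-, -, -, q4, q5, -, -⟩ := hp A Q r
  obtain ⟨c1, c2, c3, c4, c5⟩ := hc A Q r hr
  set u : Aˣ := (Q.i ^ (r : ℤ) * Q.s ^ ((r : ℤ) * (r - 1)))⁻¹ with hu
  have hcu : ∀ x y, capv Q r x y = (u : A) * capu Q r x y := fun x y => rfl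
  refine ⟨b1, b2, t2, t3 inferInstance hG hR, q4, q5 hr, fun x y h => ?_, fun x hx h => ?_, c5⟩
  · have := (c1 x y h).2
    rw [hcu] at this
    exact (mul_eq_zero.1 this).resolve_left u.ne_zero
  · have := c4 x x hx
    rw [if_pos rfl, Finset.sum_eq_single x.compl] at this
    · rw [hcu, h] at this
      simp at this
    · intro y _ hy
      rw [(c1 x y hy).2, zero_mul]
    · simp

variable {A : Type} [CommRing A] [IsDomain A] {Q : QP A} {r : ℕ}

lemma Inp.first (h : Inp Q r) {a b c d : Lb r} (ha : a.par = false) :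
    ∑ x, ∑ z, capu Q r x z * (∑ y, Rm Q r (z, d) (y, c) * Rm Q r (x, y) (a, b)) =
      (if d = a then ((Q.s ^ r : Aˣ) : A) else 0) * capu Q r b c := by
  simp only [← mul23_12]
  set T := emb23 (Rm Q r) * emb12 (Rm Q r) with hT
  obtain ⟨ξ, hξ⟩ := h.uni (fun b c => ∑ x, ∑ z, capu Q r x z * T (x, z, d) (a, b, c)) (by
    intro b c
    have e : ∀ x z, (T * emb23 (Im Q r)) (x, z, d) (a, b, c) =
        (emb12 (Im Q r) * T) (x, z, d) (a, b, c) := fun x z => by rw [h.i1]
    simp only [mulT_23, mul12_T] at e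
    calc ∑ b', ∑ c', (∑ x, ∑ z, capu Q r x z * T (x, z, d) (a, b', c')) * Im Q r (b', c') (b, c)
        = ∑ x, ∑ z, capu Q r x z * ∑ b', ∑ c', T (x, z, d) (a, b', c') * Im Q r (b', c') (b, c) := by
          simp only [Finset.sum_mul, Finset.mul_sum]
          rw [Finset.sum_congr rfl fun b' _ => Finset.sum_comm]
          rw [Finset.sum_comm]
          refine Finset.sum_congr rfl fun x _ => ?_
          rw [Finset.sum_congr rfl fun b' _ => Finset.sum_comm]
          rw [Finset.sum_comm]
          refine Finset.sum_congr rfl fun z _ => Finset.sum_congr rfl fun b' _ =>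
            Finset.sum_congr rfl fun c' _ => ?_
          ring
      _ = ∑ x, ∑ z, capu Q r x z * ∑ x', ∑ z', Im Q r (x, z) (x', z') * T (x', z', d) (a, b, c) := by
          simp only [e]
      _ = ∑ x', ∑ z', (∑ x, ∑ z, capu Q r x z * Im Q r (x, z) (x', z')) *
            T (x', z', d) (a, b, c) := by
          simp only [Finset.sum_mul, Finset.mul_sum]
          symm
          rw [Finset.sum_congr rfl fun b' _ => Finset.sum_comm]
          rw [Finset.sum_comm]
          refine Finset.sum_congr rfl fun x _ => ?_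
          rw [Finset.sum_congr rfl fun b' _ => Finset.sum_comm]
          rw [Finset.sum_comm]
          refine Finset.sum_congr rfl fun z _ => Finset.sum_congr rfl fun b' _ =>
            Finset.sum_congr rfl fun c' _ => ?_
          ring
      _ = _ := by
          simp only [h.eig, Finset.mul_sum]
          refine Finset.sum_congr rfl fun z _ => Finset.sum_congr rfl fun b' _ => ?_
          ring)
  have key := hξ a a.compl
  rw [Finset.sum_eq_single a] at key
  · rw [Finset.sum_eq_single a.compl] at key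
    · rw [hT, mul23_12, Finset.sum_eq_single a] at key
      · rw [h.diag, if_pos ⟨rfl, rfl⟩, mul_one, h.cc _ _ ha, mul_comm] at key
        have := mul_right_cancel₀ (h.nz a ha) key
        rw [hξ, this]
      · intro y _ hy
        rw [h.diag, if_neg (fun hh => hy hh.2), mul_zero]
      · simp
    · intro z _ hz
      rw [h.z _ _ hz, zero_mul]
    · simp
  · intro x _ hx
    refine Finset.sum_eq_zero fun z _ => ?_
    rw [hT, mul23_12, Finset.sum_eq_zero, mul_zero]
    intro y _
    rw [h.diag, if_neg (fun hh => hx hh.1), mul_zero]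
  · simp

lemma Inp.second (h : Inp Q r) {a b c d : Lb r} (hc : c.par = false) :
    ∑ x, ∑ z, capu Q r x z * (∑ y, Rm Q r (d, x) (a, y) * Rm Q r (y, z) (b, c)) =
      (if d = c then ((Q.s ^ r : Aˣ) : A) else 0) * capu Q r a b := by
  simp only [← mul12_23]
  set T := emb12 (Rm Q r) * emb23 (Rm Q r) with hT
  obtain ⟨ξ, hξ⟩ := h.uni (fun a b => ∑ x, ∑ z, capu Q r x z * T (d, x, z) (a, b, c)) (by
    intro a b
    have e : ∀ x z, (T * emb12 (Im Q r)) (d, x, z) (a, b, c) =
        (emb23 (Im Q r) * T) (d, x, z) (a, b, c) := fun x z => by rw [h.i2]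
    simp only [mulT_12, mul23_T] at e
    calc ∑ b', ∑ c', (∑ x, ∑ z, capu Q r x z * T (d, x, z) (b', c', c)) * Im Q r (b', c') (a, b)
        = ∑ x, ∑ z, capu Q r x z * ∑ b', ∑ c', T (d, x, z) (b', c', c) * Im Q r (b', c') (a, b) := by
          simp only [Finset.sum_mul, Finset.mul_sum]
          rw [Finset.sum_congr rfl fun b' _ => Finset.sum_comm]
          rw [Finset.sum_comm]
          refine Finset.sum_congr rfl fun x _ => ?_
          rw [Finset.sum_congr rfl fun b' _ => Finset.sum_comm]
          rw [Finset.sum_comm]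
          refine Finset.sum_congr rfl fun z _ => Finset.sum_congr rfl fun b' _ =>
            Finset.sum_congr rfl fun c' _ => ?_
          ring
      _ = ∑ x, ∑ z, capu Q r x z * ∑ x', ∑ z', Im Q r (x, z) (x', z') * T (d, x', z') (a, b, c) := by
          simp only [e]
      _ = ∑ x', ∑ z', (∑ x, ∑ z, capu Q r x z * Im Q r (x, z) (x', z')) *
            T (d, x', z') (a, b, c) := by
          simp only [Finset.sum_mul, Finset.mul_sum]
          symm
          rw [Finset.sum_congr rfl fun b' _ => Finset.sum_comm]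
          rw [Finset.sum_comm]
          refine Finset.sum_congr rfl fun x _ => ?_
          rw [Finset.sum_congr rfl fun b' _ => Finset.sum_comm]
          rw [Finset.sum_comm]
          refine Finset.sum_congr rfl fun z _ => Finset.sum_congr rfl fun b' _ =>
            Finset.sum_congr rfl fun c' _ => ?_
          ring
      _ = _ := by
          simp only [h.eig, Finset.mul_sum]
          refine Finset.sum_congr rfl fun z _ => Finset.sum_congr rfl fun b' _ => ?_
          ring)
  have hcp : c.compl.par = false := by rw [h.par, hc]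
  have key := hξ c.compl c
  have hval : Rm Q r (d, c.compl) (c.compl, c) = if d = c then ((Q.s ^ r : Aˣ) : A) else 0 := by
    have h1 := ct_rm Q r d c.compl c.compl
    have h2 := h.cc c.compl c.compl hcp
    rw [compl_compl] at h1 h2
    by_cases hd : d = c
    · rw [if_pos hd, hd, h2, if_pos rfl]
    · rw [if_neg hd]
      apply h1
      intro hh
      apply hd
      rw [← compl_compl d, ← hh, compl_compl]
  rw [Finset.sum_eq_single c.compl] at key
  · rw [Finset.sum_eq_single c] at key
    · rw [hT, mul12_23, Finset.sum_eq_single c] at key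
      · rw [h.diag, if_pos ⟨rfl, rfl⟩, mul_one, hval, mul_comm] at key
        have hnz : capu Q r c.compl c ≠ 0 := by
          have := h.nz _ hcp
          rwa [compl_compl] at this
        have := mul_right_cancel₀ hnz key
        rw [hξ, this]
      · intro y _ hy
        rw [h.diag, if_neg (fun hh => hy hh.1), mul_zero]
      · simp
    · intro z _ hz
      rw [hT, mul12_23, Finset.sum_eq_zero, mul_zero]
      intro y _
      rw [h.diag, if_neg (fun hh => hz hh.2), mul_zero]
    · simp
  · intro x _ hx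
    refine Finset.sum_eq_zero fun z _ => ?_
    by_cases hz : z = c
    · rw [hz, h.z x c, zero_mul]
      intro hh
      apply hx
      rw [hh, compl_compl]
    · rw [hT, mul12_23, Finset.sum_eq_zero, mul_zero]
      intro y _
      rw [h.diag, if_neg (fun hh => hz hh.2), mul_zero]
  · simp

end SLD

open SLD in
theorem sld (he : EMB_Stmt) (hr : REL_Stmt) (hs : SPEC_Stmt) (hf : FC_Stmt) (hb : BRD_Stmt)
    (ht : TOP_Stmt) (hp : RPR_Stmt) (hc : CUP_Stmt) : SLD_Stmt := by
  intro A _ _ Q r hev hG hR a b c d ha hb' hc' hd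
  have h := inp hev hG hR he hr hs hb ht hp hc
  obtain ⟨-, q2, q3, -, -, -, -⟩ := hp A Q r
  obtain ⟨c1, c2, -, -, -⟩ := hc A Q r hev
  set u : Aˣ := (Q.i ^ (r : ℤ) * Q.s ^ ((r : ℤ) * (r - 1)))⁻¹ with hu
  have hcu : ∀ x y, capv Q r x y = (u : A) * capu Q r x y := fun x y => rfl
  have h1 : ∑ x, ∑ y, ∑ z, capv Q r x z * Rm Q r (z, d) (y, c) * Rm Q r (x, y) (a, b) =
      if d = a then ((Q.s ^ r : Aˣ) : A) * capv Q r b c else 0 := by
    have e := congrArg (fun t => (u : A) * t) (h.first (b := b) (c := c) (d := d) ha)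
    simp only [Finset.mul_sum] at e
    rw [Finset.sum_congr rfl fun x _ => Finset.sum_comm]
    refine Eq.trans (Finset.sum_congr rfl fun x _ => Finset.sum_congr rfl fun y _ =>
      Finset.sum_congr rfl fun z _ => ?_) (e.trans ?_)
    · rw [hcu]; ring
    · rw [hcu]; split_ifs <;> ring
  have h2 : ∑ x, ∑ y, ∑ z, capv Q r x z * Rm Q r (d, x) (a, y) * Rm Q r (y, z) (b, c) =
      if d = c then ((Q.s ^ r : Aˣ) : A) * capv Q r a b else 0 := by
    have e := congrArg (fun t => (u : A) * t) (h.second (a := a) (b := b) (d := d) hc')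
    simp only [Finset.mul_sum] at e
    rw [Finset.sum_congr rfl fun x _ => Finset.sum_comm]
    refine Eq.trans (Finset.sum_congr rfl fun x _ => Finset.sum_congr rfl fun y _ =>
      Finset.sum_congr rfl fun z _ => ?_) (e.trans ?_)
    · rw [hcu]; ring
    · rw [hcu]; split_ifs <;> ring
  have z2 : ∀ x y a b : Lb r, x.par ≠ b.par ∨ y.par ≠ a.par → Rm Q r (x, y) (a, b) = 0 :=
    fun x y a b hh => (q2 x y a b hh).1
  refine ⟨h1, h2, ?_, ?_⟩
  · apply u.isUnit.mul_left_cancel
    rw [Finset.mul_sum]
    have e : (u : A) * (if d = a then ((Q.s ^ r : Aˣ) : A) * cupv Q r b c else 0) =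
        if d = a then ((Q.s ^ r : Aˣ) : A) * capv Q r b c else 0 := by
      rw [c2 b c hb']; split_ifs <;> ring
    rw [e, ← h1]
    refine Finset.sum_congr rfl fun x _ => ?_
    rw [Finset.mul_sum]
    refine Finset.sum_congr rfl fun y _ => ?_
    rw [Finset.mul_sum]
    refine Finset.sum_congr rfl fun z _ => ?_
    by_cases hx : x.par = false
    · by_cases hy : y.par = false
      · rw [q3 a b x y (by rw [hx, hy])]
        by_cases hz : z.par = false
        · rw [q3 y c z d (by rw [hz, hd]), c2 x z hx]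
          ring
        · rw [z2 y c z d (Or.inr (by rw [hc']; exact Ne.symm hz)),
            z2 z d y c (Or.inl (by rw [hc']; exact hz))]
          ring
      · rw [z2 a b x y (Or.inl (by rw [ha]; exact Ne.symm hy)),
          z2 x y a b (Or.inr (by rw [ha]; exact hy))]
        ring
    · rw [z2 a b x y (Or.inr (by rw [hb']; exact Ne.symm hx)),
        z2 x y a b (Or.inl (by rw [hb']; exact hx))]
      ring
  · apply u.isUnit.mul_left_cancel
    rw [Finset.mul_sum]
    have e : (u : A) * (if d = c then ((Q.s ^ r : Aˣ) : A) * cupv Q r a b else 0) =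
        if d = c then ((Q.s ^ r : Aˣ) : A) * capv Q r a b else 0 := by
      rw [c2 a b ha]; split_ifs <;> ring
    rw [e, ← h2]
    refine Finset.sum_congr rfl fun x _ => ?_
    rw [Finset.mul_sum]
    refine Finset.sum_congr rfl fun y _ => ?_
    rw [Finset.mul_sum]
    refine Finset.sum_congr rfl fun z _ => ?_
    by_cases hz : z.par = false
    · by_cases hy : y.par = false
      · rw [q3 b c y z (by rw [hz, hy])]
        by_cases hx : x.par = false
        · rw [q3 a y d x (by rw [hx, hd]), c2 x z hx]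
          ring
        · rw [z2 a y d x (Or.inl (by rw [ha]; exact Ne.symm hx)),
            z2 d x a y (Or.inr (by rw [ha]; exact hx))]
          ring
      · rw [z2 b c y z (Or.inr (by rw [hc']; exact Ne.symm hy)),
          z2 y z b c (Or.inl (by rw [hc']; exact hy))]
        ring
    · rw [z2 b c y z (Or.inl (by rw [hb']; exact Ne.symm hz)),
        z2 y z b c (Or.inr (by rw [hb']; exact hz))]
      ring

end Pool.Agent.TB
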