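import Pool.Agent.TB.Stmts

/-!
TDG: the functor is well defined. See PAPER.md in this folder.
-/

open Polynomial
open scoped BigOperators

namespace Pool.Agent.TB
namespace TDG

variable {A : Type} [CommRing A]

section Sums

variable {r : ℕ}

theorem sum_ev (g : Lb r → A) (hg : ∀ u : Lb r, u.par = true → g u = 0) :
    ∑ u : Ev r, g u.1 = ∑ u : Lb r, g u := by
  rw [← Finset.sum_subtype (Finset.univ.filter fun u : Lb r => u.par = false) (by simp) g]
  refine Finset.sum_subset (Finset.subset_univ _) fun u _ hu => hg u ?_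
  simpa using hu

theorem sum_SL (F : SL r → A) (o : Bool) (g : Lb r → A)
    (h1 : ∀ (u : Ev r) (p : Bool), F (u, p) = if p = o then g u.1 else 0)
    (h2 : ∀ u : Lb r, u.par = true → g u = 0) : ∑ x, F x = ∑ u, g u := by
  rw [Fintype.sum_prod_type, ← sum_ev g h2]
  refine Finset.sum_congr rfl fun u _ => ?_
  rw [Fintype.sum_bool, h1, h1]
  cases o <;> simp

theorem sum_SL2 (F : SL r → SL r → A) (o1 o2 : Bool) (G : Lb r → Lb r → A)
    (h1 : ∀ (u v : Ev r) (p q : Bool),
      F (u, p) (v, q) = if p = o1 ∧ q = o2 then G u.1 v.1 else 0)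
    (h2 : ∀ u v : Lb r, (u.par = true ∨ v.par = true) → G u v = 0) :
    ∑ x, ∑ y, F x y = ∑ u, ∑ v, G u v := by
  refine sum_SL (fun x => ∑ y, F x y) o1 (fun u => ∑ v, G u v) ?_ ?_
  · intro u p
    by_cases hp : p = o1
    · rw [if_pos hp]
      refine sum_SL (fun y => F (u, p) y) o2 (fun v => G u.1 v) ?_ ?_
      · intro v q
        rw [h1]
        simp [hp]
      · intro v hv
        exact h2 _ _ (Or.inr hv)
    · rw [if_neg hp]
      refine Finset.sum_eq_zero fun y _ => ?_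
      obtain ⟨v, q⟩ := y
      rw [h1, if_neg (fun h => hp h.1)]
  · intro u hu
    exact Finset.sum_eq_zero fun v _ => h2 _ _ (Or.inl hu)

theorem sum_SL3 (F : SL r → SL r → SL r → A) (o1 o2 o3 : Bool) (G : Lb r → Lb r → Lb r → A)
    (h1 : ∀ (u v w : Ev r) (p q t : Bool),
      F (u, p) (v, q) (w, t) = if p = o1 ∧ q = o2 ∧ t = o3 then G u.1 v.1 w.1 else 0)
    (h2 : ∀ u v w : Lb r, (u.par = true ∨ v.par = true ∨ w.par = true) → G u v w = 0) :
    ∑ x, ∑ y, ∑ z, F x y z = ∑ u, ∑ v, ∑ w, G u v w := by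
  refine sum_SL (fun x => ∑ y, ∑ z, F x y z) o1 (fun u => ∑ v, ∑ w, G u v w) ?_ ?_
  · intro u p
    by_cases hp : p = o1
    · rw [if_pos hp]
      refine sum_SL2 (fun y z => F (u, p) y z) o2 o3 (fun v w => G u.1 v w) ?_ ?_
      · intro v w q t
        rw [h1]
        simp [hp]
      · intro v w hv
        exact h2 _ _ _ (Or.inr hv)
    · rw [if_neg hp]
      refine Finset.sum_eq_zero fun y _ => Finset.sum_eq_zero fun z _ => ?_
      obtain ⟨v, q⟩ := y
      obtain ⟨w, t⟩ := z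
      rw [h1, if_neg (fun h => hp h.1)]
  · intro u hu
    exact Finset.sum_eq_zero fun v _ => Finset.sum_eq_zero fun w _ => h2 _ _ _ (Or.inl hu)

end Sums

variable (Q : QP A) (r : ℕ)

/-- The coefficient of a crossing; `o` is true if the strands are parallel. -/
def cf (e o : Bool) : Aˣ :=
  match e, o with
  | true, true => Q.fu r * (Q.s ^ r)⁻¹
  | true, false => (Q.fu r)⁻¹
  | false, true => (Q.fu r)⁻¹ * Q.s ^ r
  | false, false => Q.fu r

/-- The matrix of a crossing. -/
def RM : Bool → Matrix (Lb r × Lb r) (Lb r × Lb r) A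
  | true => Rm Q r
  | false => Rn Q r

theorem R_eq (e : Bool) (x y a b : SL r) : (tdata Q r).R e x y a b =
    if x.2 = b.2 ∧ y.2 = a.2 then
      ((cf Q r e (a.2 == b.2) : Aˣ) : A) * RM Q r e (x.1.1, y.1.1) (a.1.1, b.1.1) else 0 := by
  cases e
  · change (if x.2 = b.2 ∧ y.2 = a.2 then
      ((if a.2 = b.2 then (Q.fu r)⁻¹ * Q.s ^ r else Q.fu r : Aˣ) : A) *
            Rn Q r (x.1.1, y.1.1) (a.1.1, b.1.1) else 0) = _
    by_cases h : a.2 = b.2
    · have hb : (a.2 == b.2) = true := by simpa using h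
      rw [hb, if_pos h]
      rfl
    · have hb : (a.2 == b.2) = false := by simpa using h
      rw [hb, if_neg h]
      rfl
  · change (if x.2 = b.2 ∧ y.2 = a.2 then
      ((if a.2 = b.2 then Q.fu r * (Q.s ^ r)⁻¹ else (Q.fu r)⁻¹ : Aˣ) : A) *
            Rm Q r (x.1.1, y.1.1) (a.1.1, b.1.1) else 0) = _
    by_cases h : a.2 = b.2
    · have hb : (a.2 == b.2) = true := by simpa using h
      rw [hb, if_pos h]
      rfl
    · have hb : (a.2 == b.2) = false := by simpa using h
      rw [hb, if_neg h]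
      rfl

theorem cup_eq (x y : SL r) : (tdata Q r).cup x y =
    if x.2 ≠ y.2 then cupv Q r x.1.1 y.1.1 else 0 := rfl

theorem cap_eq (x y : SL r) : (tdata Q r).cap x y =
    if x.2 ≠ y.2 then capv Q r x.1.1 y.1.1 else 0 := rfl

theorem cf_mul (e o : Bool) : cf Q r (!e) o * cf Q r e o = 1 := by
  cases e <;> cases o <;> simp only [cf, Bool.not_true, Bool.not_false]
  · rw [inv_mul_cancel]
  · rw [mul_mul_mul_comm, mul_inv_cancel, inv_mul_cancel, one_mul]
  · rw [mul_inv_cancel]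
  · rw [mul_mul_mul_comm, mul_inv_cancel, inv_mul_cancel, one_mul]

theorem cf_mul' (e o : Bool) : ((cf Q r (!e) o : Aˣ) : A) * ((cf Q r e o : Aˣ) : A) = 1 := by
  rw [← Units.val_mul, cf_mul, Units.val_one]

/-- the factor `κ` -/
def kp (e : Bool) : Aˣ := if e then 1 else Q.s ^ r

theorem cf_kp (e o : Bool) :
    cf Q r e o * (kp Q r e)⁻¹ = cf Q r (!e) (!o) * (kp Q r (!e))⁻¹ := by
  cases e <;> cases o <;> simp [cf, kp]

/-- pass from `κ(e) X = κ(!e) Y` to the coefficients. -/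
theorem slide_aux (e o : Bool) (X Y : A)
    (h : ((kp Q r e : Aˣ) : A) * X = ((kp Q r (!e) : Aˣ) : A) * Y) :
    ((cf Q r e o : Aˣ) : A) * X = ((cf Q r (!e) (!o) : Aˣ) : A) * Y := by
  have h1 : ((cf Q r e o : Aˣ) : A) =
      ((cf Q r e o * (kp Q r e)⁻¹ : Aˣ) : A) * ((kp Q r e : Aˣ) : A) := by
    rw [← Units.val_mul, inv_mul_cancel_right]
  have h2 : ((cf Q r (!e) (!o) : Aˣ) : A) =
      ((cf Q r (!e) (!o) * (kp Q r (!e))⁻¹ : Aˣ) : A) * ((kp Q r (!e) : Aˣ) : A) := by
    rw [← Units.val_mul, inv_mul_cancel_right]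
  rw [h1, h2, mul_assoc, h, cf_kp, mul_assoc]

/-! ### Consequences of the hypotheses -/

section Hyp

variable {Q r}

theorem RM_mul (hp : RPR_Stmt) (e : Bool) : RM Q r (!e) * RM Q r e = 1 := by
  obtain ⟨⟨_, _, h1, h2⟩, _⟩ := hp A Q r
  cases e
  · exact h1
  · exact h2

theorem RM_par (hp : RPR_Stmt) (e : Bool) (x y a b : Lb r) (h : x.par ≠ b.par ∨ y.par ≠ a.par) :
    RM Q r e (x, y) (a, b) = 0 := by
  obtain ⟨_, h1, _⟩ := hp A Q r
  cases e
  · exact (h1 x y a b h).2
  · exact (h1 x y a b h).1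

/-- `Σ RM (!e) p t RM e t c = δ` -/
theorem RM_sum (hp : RPR_Stmt) (e : Bool) (a b c d : Lb r) :
    ∑ x, ∑ y, RM Q r (!e) (a, b) (x, y) * RM Q r e (x, y) (c, d) =
      if a = c ∧ b = d then 1 else 0 := by
  have h := congrFun (congrFun (RM_mul (Q := Q) (r := r) hp e) (a, b)) (c, d)
  rw [Matrix.mul_apply, Fintype.sum_prod_type, Matrix.one_apply] at h
  rw [h]
  simp [Prod.ext_iff]

/-- If `V RM(e) = W` on even labels then `V = W RM(!e)`. -/
theorem row_inv (hp : RPR_Stmt) (e : Bool) (V W : Lb r → Lb r → A)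
    (h : ∀ a b : Lb r, a.par = false → b.par = false →
      ∑ x, ∑ y, V x y * RM Q r e (x, y) (a, b) = W a b) (a' b' : Lb r)
    (ha : a'.par = false) (hb : b'.par = false) :
    V a' b' = ∑ a, ∑ b, W a b * RM Q r (!e) (a, b) (a', b') := by
  have h1 : ∑ a, ∑ b, W a b * RM Q r (!e) (a, b) (a', b') =
      ∑ a, ∑ b, (∑ x, ∑ y, V x y * RM Q r e (x, y) (a, b)) * RM Q r (!e) (a, b) (a', b') := by
    refine Finset.sum_congr rfl fun a _ => Finset.sum_congr rfl fun b _ => ?_
    by_cases hab : a.par = false ∧ b.par = false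
    · rw [h a b hab.1 hab.2]
    · rw [RM_par hp, mul_zero, mul_zero]
      rw [ha, hb]
      tauto
  rw [h1]
  have h2 : ∀ a b : Lb r,
      (∑ x, ∑ y, V x y * RM Q r e (x, y) (a, b)) * RM Q r (!e) (a, b) (a', b') =
        ∑ x, ∑ y, V x y * (RM Q r e (x, y) (a, b) * RM Q r (!e) (a, b) (a', b')) := by
    intro a b
    rw [Finset.sum_mul]
    refine Finset.sum_congr rfl fun x _ => ?_
    rw [Finset.sum_mul]
    exact Finset.sum_congr rfl fun y _ => mul_assoc _ _ _
  have h3 : ∑ a, ∑ b, (∑ x, ∑ y, V x y * RM Q r e (x, y) (a, b)) *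
      RM Q r (!e) (a, b) (a', b') =
        ∑ x, ∑ y, V x y * ∑ a, ∑ b, RM Q r e (x, y) (a, b) * RM Q r (!e) (a, b) (a', b') := by
    calc ∑ a, ∑ b, (∑ x, ∑ y, V x y * RM Q r e (x, y) (a, b)) * RM Q r (!e) (a, b) (a', b')
        = ∑ a, ∑ b, ∑ x, ∑ y,
            V x y * (RM Q r e (x, y) (a, b) * RM Q r (!e) (a, b) (a', b')) :=
          Finset.sum_congr rfl fun a _ => Finset.sum_congr rfl fun b _ => h2 a b
      _ = ∑ p : Lb r × Lb r, ∑ t : Lb r × Lb r,
            V t.1 t.2 * (RM Q r e t p * RM Q r (!e) p (a', b')) := by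
          rw [Fintype.sum_prod_type]
          refine Finset.sum_congr rfl fun a _ => Finset.sum_congr rfl fun b _ => ?_
          rw [Fintype.sum_prod_type]
      _ = ∑ t : Lb r × Lb r, ∑ p : Lb r × Lb r,
            V t.1 t.2 * (RM Q r e t p * RM Q r (!e) p (a', b')) := Finset.sum_comm
      _ = _ := by
          rw [Fintype.sum_prod_type]
          refine Finset.sum_congr rfl fun x _ => Finset.sum_congr rfl fun y _ => ?_
          rw [Finset.mul_sum, Fintype.sum_prod_type]
          refine Finset.sum_congr rfl fun a _ => ?_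
          rw [Finset.mul_sum]
  rw [h3]
  have h4 : ∀ x y : Lb r, ∑ a, ∑ b, RM Q r e (x, y) (a, b) * RM Q r (!e) (a, b) (a', b') =
      if x = a' ∧ y = b' then 1 else 0 := by
    intro x y
    have := RM_sum (Q := Q) hp (!e) x y a' b'
    rwa [Bool.not_not] at this
  simp only [h4]
  rw [Finset.sum_eq_single a', Finset.sum_eq_single b']
  · simp
  · intro y _ hy
    simp [hy]
  · simp
  · intro x _ hx
    refine Finset.sum_eq_zero fun y _ => ?_
    simp [hx]
  · simp

/-- If `RM(e) V = W` on even labels then `V = RM(!e) W`. -/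
theorem col_inv (hp : RPR_Stmt) (e : Bool) (V W : Lb r → Lb r → A)
    (h : ∀ a b : Lb r, a.par = false → b.par = false →
      ∑ x, ∑ y, RM Q r e (a, b) (x, y) * V x y = W a b) (a' b' : Lb r)
    (ha : a'.par = false) (hb : b'.par = false) :
    V a' b' = ∑ a, ∑ b, RM Q r (!e) (a', b') (a, b) * W a b := by
  have h1 : ∑ a, ∑ b, RM Q r (!e) (a', b') (a, b) * W a b =
      ∑ a, ∑ b, RM Q r (!e) (a', b') (a, b) * (∑ x, ∑ y, RM Q r e (a, b) (x, y) * V x y) := by
    refine Finset.sum_congr rfl fun a _ => Finset.sum_congr rfl fun b _ => ?_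
    by_cases hab : a.par = false ∧ b.par = false
    · rw [h a b hab.1 hab.2]
    · rw [RM_par hp, zero_mul, zero_mul]
      rw [ha, hb]
      cases h1 : a.par <;> cases h2 : b.par <;> simp_all
  rw [h1]
  have h3 : ∑ a, ∑ b, RM Q r (!e) (a', b') (a, b) *
      (∑ x, ∑ y, RM Q r e (a, b) (x, y) * V x y) =
        ∑ x, ∑ y, (∑ a, ∑ b, RM Q r (!e) (a', b') (a, b) * RM Q r e (a, b) (x, y)) * V x y := by
    calc ∑ a, ∑ b, RM Q r (!e) (a', b') (a, b) * (∑ x, ∑ y, RM Q r e (a, b) (x, y) * V x y)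
        = ∑ p : Lb r × Lb r, ∑ t : Lb r × Lb r,
            RM Q r (!e) (a', b') p * RM Q r e p t * V t.1 t.2 := by
          rw [Fintype.sum_prod_type]
          refine Finset.sum_congr rfl fun a _ => Finset.sum_congr rfl fun b _ => ?_
          rw [Fintype.sum_prod_type, Finset.mul_sum]
          refine Finset.sum_congr rfl fun x _ => ?_
          rw [Finset.mul_sum]
          exact Finset.sum_congr rfl fun y _ => (mul_assoc _ _ _).symm
      _ = ∑ t : Lb r × Lb r, ∑ p : Lb r × Lb r,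
            RM Q r (!e) (a', b') p * RM Q r e p t * V t.1 t.2 := Finset.sum_comm
      _ = _ := by
          rw [Fintype.sum_prod_type]
          refine Finset.sum_congr rfl fun x _ => Finset.sum_congr rfl fun y _ => ?_
          rw [Finset.sum_mul, Fintype.sum_prod_type]
          refine Finset.sum_congr rfl fun a _ => ?_
          rw [Finset.sum_mul]
  rw [h3]
  simp only [RM_sum hp]
  rw [Finset.sum_eq_single a', Finset.sum_eq_single b']
  · simp
  · intro y _ hy
    simp [Ne.symm hy]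
  · simp
  · intro x _ hx
    refine Finset.sum_eq_zero fun y _ => ?_
    simp [Ne.symm hx]
  · simp

/-- sliding across a maximum -/
theorem SC [IsDomain A] (hp : RPR_Stmt) (hl : SLD_Stmt) (hr : Even r) (hg : Q.Gen r)
    (hreg : Q.Reg r) (e : Bool) (d a b c : Lb r) (hd : d.par = false) (ha : a.par = false)
    (hb : b.par = false) (hc : c.par = false) :
    ((kp Q r e : Aˣ) : A) * ∑ x, RM Q r e (x, d) (b, c) * capv Q r a x =
      ((kp Q r (!e) : Aˣ) : A) * ∑ x, RM Q r (!e) (d, x) (a, b) * capv Q r x c := by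
  cases e
  · have h1 := row_inv (Q := Q) hp true
      (fun y z => ∑ x, capv Q r x z * Rm Q r (d, x) (a, y))
      (fun b c => if d = c then ((Q.s ^ r : Aˣ) : A) * capv Q r a b else 0)
      (fun b c hb' hc' => by
        have h2 := (hl A Q r hr hg hreg a b c d ha hb' hc' hd).2.1
        rw [← h2]
        calc ∑ y, ∑ z, (∑ x, capv Q r x z * Rm Q r (d, x) (a, y)) * RM Q r true (y, z) (b, c)
            = ∑ y, ∑ z, ∑ x, capv Q r x z * Rm Q r (d, x) (a, y) * Rm Q r (y, z) (b, c) :=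
              Finset.sum_congr rfl fun y _ => Finset.sum_congr rfl fun z _ => Finset.sum_mul _ _ _
          _ = ∑ y, ∑ x, ∑ z, capv Q r x z * Rm Q r (d, x) (a, y) * Rm Q r (y, z) (b, c) :=
              Finset.sum_congr rfl fun y _ => Finset.sum_comm
          _ = _ := Finset.sum_comm) b c hb hc
    have h3 : ∑ b', ∑ c', (if d = c' then ((Q.s ^ r : Aˣ) : A) * capv Q r a b' else 0) *
        RM Q r (!true) (b', c') (b, c) =
        ((Q.s ^ r : Aˣ) : A) * ∑ x, RM Q r false (x, d) (b, c) * capv Q r a x := by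
      rw [Finset.mul_sum]
      refine Finset.sum_congr rfl fun b' _ => ?_
      rw [Finset.sum_eq_single d]
      · rw [if_pos rfl, Bool.not_true]
        ring
      · intro c' _ hc'
        rw [if_neg (Ne.symm hc'), zero_mul]
      · simp
    rw [h3] at h1
    simp only [kp, Bool.not_false, if_true, Units.val_one, one_mul, Bool.false_eq_true, if_false]
    rw [← h1]
    exact Finset.sum_congr rfl fun x _ => mul_comm _ _
  · have h1 := row_inv (Q := Q) hp true
      (fun x y => ∑ z, capv Q r x z * Rm Q r (z, d) (y, c))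
      (fun a b => if d = a then ((Q.s ^ r : Aˣ) : A) * capv Q r b c else 0)
      (fun a b ha' hb' => by
        have h2 := (hl A Q r hr hg hreg a b c d ha' hb' hc hd).1
        rw [← h2]
        exact Finset.sum_congr rfl fun y _ => Finset.sum_congr rfl fun z _ =>
          Finset.sum_mul _ _ _) a b ha hb
    have h3 : ∑ a', ∑ b', (if d = a' then ((Q.s ^ r : Aˣ) : A) * capv Q r b' c else 0) *
        RM Q r (!true) (a', b') (a, b) =
        ((Q.s ^ r : Aˣ) : A) * ∑ x, RM Q r false (d, x) (a, b) * capv Q r x c := by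
      rw [Finset.mul_sum, Finset.sum_eq_single d]
      · refine Finset.sum_congr rfl fun b' _ => ?_
        rw [if_pos rfl, Bool.not_true]
        ring
      · intro a' _ ha'
        exact Finset.sum_eq_zero fun b' _ => by rw [if_neg (Ne.symm ha'), zero_mul]
      · simp
    rw [h3] at h1
    simp only [kp, Bool.not_true, if_true, Units.val_one, one_mul, Bool.false_eq_true, if_false]
    rw [← h1]
    exact Finset.sum_congr rfl fun x _ => mul_comm _ _

/-- sliding across a minimum -/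
theorem SU [IsDomain A] (hp : RPR_Stmt) (hl : SLD_Stmt) (hr : Even r) (hg : Q.Gen r)
    (hreg : Q.Reg r) (e : Bool) (x p z a : Lb r) (hx : x.par = false) (hp' : p.par = false)
    (hz : z.par = false) (ha : a.par = false) :
    ((kp Q r e : Aˣ) : A) * ∑ y, cupv Q r x y * RM Q r e (p, z) (y, a) =
      ((kp Q r (!e) : Aˣ) : A) * ∑ y, RM Q r (!e) (x, p) (a, y) * cupv Q r y z := by
  cases e
  · have h1 := col_inv (Q := Q) hp true
      (fun y z => ∑ x', Rm Q r (x, y) (a, x') * cupv Q r x' z)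
      (fun b c => if a = c then ((Q.s ^ r : Aˣ) : A) * cupv Q r x b else 0)
      (fun b c hb' hc' => by
        have h2 := (hl A Q r hr hg hreg x b c a hx hb' hc' ha).2.2.2
        rw [← h2]
        calc ∑ y, ∑ z, RM Q r true (b, c) (y, z) * (∑ x', Rm Q r (x, y) (a, x') * cupv Q r x' z)
            = ∑ y, ∑ z, ∑ x', Rm Q r (b, c) (y, z) * Rm Q r (x, y) (a, x') * cupv Q r x' z := by
              refine Finset.sum_congr rfl fun y _ => Finset.sum_congr rfl fun z _ => ?_
              rw [Finset.mul_sum]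
              exact Finset.sum_congr rfl fun x' _ => (mul_assoc _ _ _).symm
          _ = ∑ y, ∑ x', ∑ z, Rm Q r (b, c) (y, z) * Rm Q r (x, y) (a, x') * cupv Q r x' z :=
              Finset.sum_congr rfl fun y _ => Finset.sum_comm
          _ = _ := Finset.sum_comm) p z hp' hz
    have h3 : ∑ b', ∑ c', RM Q r (!true) (p, z) (b', c') *
        (if a = c' then ((Q.s ^ r : Aˣ) : A) * cupv Q r x b' else 0) =
        ((Q.s ^ r : Aˣ) : A) * ∑ y, cupv Q r x y * RM Q r false (p, z) (y, a) := by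
      rw [Finset.mul_sum]
      refine Finset.sum_congr rfl fun b' _ => ?_
      rw [Finset.sum_eq_single a]
      · rw [if_pos rfl, Bool.not_true]
        ring
      · intro c' _ hc'
        rw [if_neg (Ne.symm hc'), mul_zero]
      · simp
    rw [h3] at h1
    simp only [kp, Bool.not_false, if_true, Units.val_one, one_mul, Bool.false_eq_true, if_false]
    rw [← h1]
    rfl
  · have h1 := col_inv (Q := Q) hp true
      (fun x' y => ∑ z', Rm Q r (y, z) (z', a) * cupv Q r x' z')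
      (fun a' b => if a = a' then ((Q.s ^ r : Aˣ) : A) * cupv Q r b z else 0)
      (fun a' b ha' hb' => by
        have h2 := (hl A Q r hr hg hreg a' b z a ha' hb' hz ha).2.2.1
        rw [← h2]
        refine Finset.sum_congr rfl fun y _ => Finset.sum_congr rfl fun z _ => ?_
        rw [Finset.mul_sum]
        exact Finset.sum_congr rfl fun x' _ => (mul_assoc _ _ _).symm) x p hx hp'
    have h3 : ∑ a', ∑ b', RM Q r (!true) (x, p) (a', b') *
        (if a = a' then ((Q.s ^ r : Aˣ) : A) * cupv Q r b' z else 0) =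
        ((Q.s ^ r : Aˣ) : A) * ∑ y, RM Q r false (x, p) (a, y) * cupv Q r y z := by
      rw [Finset.mul_sum, Finset.sum_eq_single a]
      · refine Finset.sum_congr rfl fun b' _ => ?_
        rw [if_pos rfl, Bool.not_true]
        ring
      · intro a' _ ha'
        exact Finset.sum_eq_zero fun b' _ => by rw [if_neg (Ne.symm ha'), mul_zero]
      · simp
    rw [h3] at h1
    simp only [kp, Bool.not_true, if_true, Units.val_one, one_mul, Bool.false_eq_true, if_false]
    rw [← h1]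
    exact Finset.sum_congr rfl fun x _ => mul_comm _ _

/-- the kink with a maximum -/
theorem K1 (hp : RPR_Stmt) (e : Bool) (a b : Lb r) (ha : a.par = false) (hb : b.par = false) :
    ∑ x, ∑ y, capv Q r x y * (((cf Q r e false : Aˣ) : A) * RM Q r e (x, y) (a, b)) =
      capv Q r a b := by
  have h0 : ∀ a b : Lb r, ∑ x, ∑ y, capv Q r x y * RM Q r true (x, y) (a, b) =
      Q.fu r * capv Q r a b := by
    intro a b
    obtain ⟨_, _, _, _, _, _, h1⟩ := hp A Q r
    have h2 := h1 a b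
    simp only [capv]
    rw [mul_left_comm, ← h2, Finset.mul_sum]
    refine Finset.sum_congr rfl fun x _ => ?_
    rw [Finset.mul_sum]
    exact Finset.sum_congr rfl fun y _ => mul_assoc _ _ _
  cases e
  · have h1 := row_inv (Q := Q) hp true (fun x y => capv Q r x y)
      (fun a b => Q.fu r * capv Q r a b) (fun a b _ _ => h0 a b) a b ha hb
    rw [h1]
    refine Finset.sum_congr rfl fun x _ => Finset.sum_congr rfl fun y _ => ?_
    simp only [cf, Bool.not_true]
    ring
  · have h1 : ∑ x, ∑ y, capv Q r x y * (((cf Q r true false : Aˣ) : A) *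
        RM Q r true (x, y) (a, b)) = ((cf Q r true false : Aˣ) : A) *
          ∑ x, ∑ y, capv Q r x y * RM Q r true (x, y) (a, b) := by
      rw [Finset.mul_sum]
      refine Finset.sum_congr rfl fun x _ => ?_
      rw [Finset.mul_sum]
      exact Finset.sum_congr rfl fun y _ => by ring
    rw [h1, h0, ← mul_assoc]
    simp only [cf, Units.inv_mul, one_mul]

/-- the kink with a minimum -/
theorem K2 (hp : RPR_Stmt) (e : Bool) (a b : Lb r) (ha : a.par = false) (hb : b.par = false) :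
    ∑ x, ∑ y, (((cf Q r e false : Aˣ) : A) * RM Q r e (a, b) (x, y)) * cupv Q r x y =
      cupv Q r a b := by
  have h0 : ∀ a b : Lb r, ∑ x, ∑ y, RM Q r true (a, b) (x, y) * cupv Q r x y =
      Q.fu r * cupv Q r a b := by
    intro a b
    obtain ⟨_, _, _, _, _, h1, _⟩ := hp A Q r
    exact h1 a b
  cases e
  · have h1 := col_inv (Q := Q) hp true (fun x y => cupv Q r x y)
      (fun a b => Q.fu r * cupv Q r a b) (fun a b _ _ => h0 a b) a b ha hb
    rw [h1]
    refine Finset.sum_congr rfl fun x _ => Finset.sum_congr rfl fun y _ => ?_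
    simp only [cf, Bool.not_true]
    ring
  · have h1 : ∑ x, ∑ y, (((cf Q r true false : Aˣ) : A) *
        RM Q r true (a, b) (x, y)) * cupv Q r x y = ((cf Q r true false : Aˣ) : A) *
          ∑ x, ∑ y, RM Q r true (a, b) (x, y) * cupv Q r x y := by
      rw [Finset.mul_sum]
      refine Finset.sum_congr rfl fun x _ => ?_
      rw [Finset.mul_sum]
      exact Finset.sum_congr rfl fun y _ => by ring
    rw [h1, h0, ← mul_assoc]
    simp only [cf, Units.inv_mul, one_mul]

/-- the braid relation as an identity of matrices -/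
theorem ybm [IsDomain A] (he : EMB_Stmt) (hrel : REL_Stmt) (hs : SPEC_Stmt) (hb : BRD_Stmt)
    (hg : Q.Gen r) (hreg : Q.Reg r) :
    emb12 (Rm Q r) * emb23 (Rm Q r) * emb12 (Rm Q r) =
      emb23 (Rm Q r) * emb12 (Rm Q r) * emb23 (Rm Q r) := by
  obtain ⟨_, _, _, _, he5⟩ := he A (Lb r)
  obtain ⟨hs1, hs2, _⟩ := hs A Q r hg
  have hz1 : emb12 (0 : Matrix (Lb r × Lb r) (Lb r × Lb r) A) = 0 := by
    ext p c
    simp [emb12]
  have hz2 : emb23 (0 : Matrix (Lb r × Lb r) (Lb r × Lb r) A) = 0 := by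
    ext p c
    simp [emb23]
  have h := hb A Q r hg hreg (Matrix (Lb r × Lb r × Lb r) (Lb r × Lb r × Lb r) A)
    (emb12 (Im Q r)) (emb23 (Im Q r))
    (fun a x ha hx => by
      ext p c
      have h1 := congrFun (congrFun hx p) c
      simpa [ha] using h1)
    (by rw [(he5 _ _).1, hs1, hz1]) (by rw [(he5 _ _).2, hs1, hz2])
    (hrel A Q r).1 (hrel A Q r).2
  have h3 := h.2.2
  rw [(he5 _ _).1, (he5 _ _).2, hs2] at h3
  exact h3

/-- the braid relation for the entries -/
theorem yb [IsDomain A] (he : EMB_Stmt) (hrel : REL_Stmt) (hs : SPEC_Stmt) (hb : BRD_Stmt)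
    (hg : Q.Gen r) (hreg : Q.Reg r) (a b c a' b' c' : Lb r) :
    ∑ x, ∑ y, ∑ z, Rm Q r (a, b) (x, y) * Rm Q r (y, c) (z, c') * Rm Q r (x, z) (a', b') =
      ∑ x, ∑ y, ∑ z, Rm Q r (b, c) (y, z) * Rm Q r (a, y) (a', x) * Rm Q r (x, z) (b', c') := by
  have h := congrFun (congrFun (ybm (Q := Q) (r := r) he hrel hs hb hg hreg) (a, b, c)) (a', b', c')
  have hL : (emb12 (Rm Q r) * emb23 (Rm Q r) * emb12 (Rm Q r)) (a, b, c) (a', b', c') =
      ∑ x, ∑ y, ∑ z, Rm Q r (a, b) (x, y) * Rm Q r (y, c) (z, c') * Rm Q r (x, z) (a', b') := by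
    rw [mul_assoc, Matrix.mul_apply, Fintype.sum_prod_type]
    refine Finset.sum_congr rfl fun x _ => ?_
    rw [Fintype.sum_prod_type]
    refine Finset.sum_congr rfl fun y _ => ?_
    rw [Finset.sum_eq_single c]
    · rw [Matrix.mul_apply, Fintype.sum_prod_type, Finset.sum_eq_single x]
      · rw [Fintype.sum_prod_type, Finset.mul_sum]
        refine Finset.sum_congr rfl fun z _ => ?_
        rw [Finset.sum_eq_single c']
        · simp only [emb12, emb23, if_true]
          ring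
        · intro w _ hw
          simp only [emb12, emb23, if_neg hw, mul_zero]
        · simp
      · intro x' _ hx'
        refine Finset.sum_eq_zero fun w _ => ?_
        simp only [emb23, if_neg (Ne.symm hx'), zero_mul]
      · simp
    · intro w _ hw
      simp only [emb12, if_neg (Ne.symm hw), zero_mul]
    · simp
  have hR : (emb23 (Rm Q r) * emb12 (Rm Q r) * emb23 (Rm Q r)) (a, b, c) (a', b', c') =
      ∑ x, ∑ y, ∑ z, Rm Q r (b, c) (y, z) * Rm Q r (a, y) (a', x) * Rm Q r (x, z) (b', c') := by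
    have h1 : ∑ x, ∑ y, ∑ z, Rm Q r (b, c) (y, z) * Rm Q r (a, y) (a', x) *
        Rm Q r (x, z) (b', c') =
        ∑ y, ∑ z, ∑ x, Rm Q r (b, c) (y, z) * (Rm Q r (a, y) (a', x) *
        Rm Q r (x, z) (b', c')) := by
      rw [Finset.sum_comm]
      refine Finset.sum_congr rfl fun y _ => ?_
      rw [Finset.sum_comm]
      exact Finset.sum_congr rfl fun z _ => Finset.sum_congr rfl fun x _ => mul_assoc _ _ _
    rw [h1, mul_assoc, Matrix.mul_apply, Fintype.sum_prod_type, Finset.sum_eq_single a]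
    · rw [Fintype.sum_prod_type]
      refine Finset.sum_congr rfl fun y _ => Finset.sum_congr rfl fun z _ => ?_
      rw [Matrix.mul_apply, Fintype.sum_prod_type, Finset.sum_eq_single a']
      · rw [Fintype.sum_prod_type, Finset.mul_sum]
        refine Finset.sum_congr rfl fun x _ => ?_
        rw [Finset.sum_eq_single z]
        · simp only [emb12, emb23, if_true]
        · intro w _ hw
          simp only [emb12, emb23, if_neg (Ne.symm hw), zero_mul]
        · simp
      · intro w _ hw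
        refine Finset.sum_eq_zero fun u _ => ?_
        simp only [emb23, if_neg hw, mul_zero]
      · simp
    · intro w _ hw
      refine Finset.sum_eq_zero fun u _ => ?_
      simp only [emb23, if_neg (Ne.symm hw), zero_mul]
    · simp
  rw [hL, hR] at h
  exact h

/-! ### The fields of `Good` -/

theorem odd_cup (hc : CUP_Stmt) (hr : Even r) (x y : Lb r) (hy : y.par ≠ x.par) :
    cupv Q r x y = 0 ∧ capv Q r x y = 0 := by
  obtain ⟨h1, _, _, _, h5⟩ := hc A Q r hr
  refine h1 x y fun h => hy ?_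
  rw [h, h5]

theorem ev_eq (a b : Ev r) (o o' : Bool) : (a, o) = (b, o') ↔ a.1 = b.1 ∧ o = o' := by
  rw [Prod.ext_iff, Subtype.ext_iff]

theorem zigzag (hc : CUP_Stmt) (hr : Even r) (x b : SL r) :
    ∑ y, (tdata Q r).cup x y * (tdata Q r).cap y b = if x = b then 1 else 0 := by
  obtain ⟨⟨x, hx⟩, ox⟩ := x
  obtain ⟨⟨b, hb⟩, ob⟩ := b
  obtain ⟨_, _, h3, _, _⟩ := hc A Q r hr
  by_cases h : ox = ob
  · subst h
    rw [sum_SL _ (!ox) (fun u => cupv Q r x u * capv Q r u b) ?_ ?_, h3 x b hx]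
    · simp only [ev_eq, and_true]
    · rintro ⟨u, hu⟩ p
      rw [cup_eq, cap_eq]
      cases ox <;> cases p <;> simp
    · intro u hu
      rw [(odd_cup (Q := Q) hc hr x u (by rw [hu, hx]; simp)).1, zero_mul]
  · rw [if_neg (fun h' => h ((ev_eq _ _ _ _).1 h').2)]
    refine Finset.sum_eq_zero fun y _ => ?_
    rw [cup_eq, cap_eq]
    obtain ⟨u, p⟩ := y
    cases ox <;> cases ob <;> cases p <;> simp_all

theorem zagzig (hc : CUP_Stmt) (hr : Even r) (y b : SL r) :
    ∑ x, (tdata Q r).cap b x * (tdata Q r).cup x y = if y = b then 1 else 0 := by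
  obtain ⟨⟨y, hy⟩, oy⟩ := y
  obtain ⟨⟨b, hb⟩, ob⟩ := b
  obtain ⟨_, _, _, h4, _⟩ := hc A Q r hr
  by_cases h : oy = ob
  · subst h
    rw [sum_SL _ (!oy) (fun u => capv Q r b u * cupv Q r u y) ?_ ?_, h4 b y hb]
    · simp only [ev_eq, and_true]
    · rintro ⟨u, hu⟩ p
      rw [cup_eq, cap_eq]
      cases oy <;> cases p <;> simp
    · intro u hu
      rw [(odd_cup (Q := Q) hc hr b u (by rw [hu, hb]; simp)).2, zero_mul]
  · rw [if_neg (fun h' => h ((ev_eq _ _ _ _).1 h').2)]
    refine Finset.sum_eq_zero fun x _ => ?_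
    rw [cup_eq, cap_eq]
    obtain ⟨u, p⟩ := x
    cases oy <;> cases ob <;> cases p <;> simp_all

theorem slideCap [IsDomain A] (hp : RPR_Stmt) (hl : SLD_Stmt) (hr : Even r)
    (hg : Q.Gen r) (hreg : Q.Reg r) (e : Bool) (d a b c : SL r) :
    ∑ x, (tdata Q r).R e x d b c * (tdata Q r).cap a x =
      ∑ x, (tdata Q r).R (!e) d x a b * (tdata Q r).cap x c := by
  obtain ⟨⟨d, hd⟩, od⟩ := d
  obtain ⟨⟨a, ha⟩, oa⟩ := a
  obtain ⟨⟨b, hb⟩, ob⟩ := b
  obtain ⟨⟨c, hc⟩, oc⟩ := c
  by_cases h : od = ob ∧ oa ≠ oc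
  · obtain ⟨rfl, hac⟩ := h
    rw [sum_SL _ oc (fun u => ((cf Q r e (od == oc) : Aˣ) : A) *
        (RM Q r e (u, d) (b, c) * capv Q r a u)) ?_ ?_,
      sum_SL _ oa (fun u => ((cf Q r (!e) (oa == od) : Aˣ) : A) *
        (RM Q r (!e) (d, u) (a, b) * capv Q r u c)) ?_ ?_, ← Finset.mul_sum, ← Finset.mul_sum]
    · have h1 := slide_aux Q r e (od == oc) _ _ (SC hp hl hr hg hreg e d a b c hd ha hb hc)
      have h2 : (!(od == oc)) = (oa == od) := by
        cases od <;> cases oc <;> cases oa <;> simp_all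
      rw [h2] at h1
      exact h1
    · rintro ⟨u, hu⟩ p
      rw [R_eq, cap_eq]
      by_cases hpa : p = oa
      · subst hpa
        simp only [and_self, if_true, ne_eq, hac, not_false_eq_true]
        ring
      · simp [hpa]
    · intro u hu
      rw [RM_par hp _ _ _ _ _ (Or.inr (by rw [hu, ha]; simp)), zero_mul, mul_zero]
    · rintro ⟨u, hu⟩ p
      rw [R_eq, cap_eq]
      by_cases hpc : p = oc
      · subst hpc
        simp only [and_self, if_true, ne_eq, hac, not_false_eq_true]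
        ring
      · simp [hpc]
    · intro u hu
      rw [RM_par hp _ _ _ _ _ (Or.inl (by rw [hu, hc]; simp)), zero_mul, mul_zero]
  · rw [Finset.sum_eq_zero, Finset.sum_eq_zero]
    · rintro ⟨⟨u, hu⟩, p⟩ _
      rw [R_eq, cap_eq]
      by_cases h1 : od = ob ∧ p = oa
      · by_cases h2 : p ≠ oc
        · exact absurd ⟨h1.1, h1.2 ▸ h2⟩ h
        · rw [if_neg (c := p ≠ oc) h2, mul_zero]
      · rw [if_neg (c := od = ob ∧ p = oa) h1, zero_mul]
    · rintro ⟨⟨u, hu⟩, p⟩ _
      rw [R_eq, cap_eq]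
      by_cases h1 : p = oc ∧ od = ob
      · by_cases h2 : oa ≠ p
        · exact absurd ⟨h1.2, h1.1 ▸ h2⟩ h
        · rw [if_neg (c := oa ≠ p) h2, mul_zero]
      · rw [if_neg (c := p = oc ∧ od = ob) h1, zero_mul]

theorem slideCup [IsDomain A] (hp : RPR_Stmt) (hl : SLD_Stmt) (hr : Even r)
    (hg : Q.Gen r) (hreg : Q.Reg r) (e : Bool) (x p z a : SL r) :
    ∑ y, (tdata Q r).cup x y * (tdata Q r).R e p z y a =
      ∑ y, (tdata Q r).R (!e) x p a y * (tdata Q r).cup y z := by
  obtain ⟨⟨x, hx⟩, ox⟩ := x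
  obtain ⟨⟨p, hp'⟩, op⟩ := p
  obtain ⟨⟨z, hz⟩, oz⟩ := z
  obtain ⟨⟨a, ha⟩, oa⟩ := a
  by_cases h : op = oa ∧ ox ≠ oz
  · obtain ⟨rfl, hxz⟩ := h
    rw [sum_SL _ oz (fun u => ((cf Q r e (oz == op) : Aˣ) : A) *
        (cupv Q r x u * RM Q r e (p, z) (u, a))) ?_ ?_,
      sum_SL _ ox (fun u => ((cf Q r (!e) (op == ox) : Aˣ) : A) *
        (RM Q r (!e) (x, p) (a, u) * cupv Q r u z)) ?_ ?_, ← Finset.mul_sum, ← Finset.mul_sum]
    · have h1 := slide_aux Q r e (oz == op) _ _ (SU hp hl hr hg hreg e x p z a hx hp' hz ha)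
      have h2 : (!(oz == op)) = (op == ox) := by
        cases oz <;> cases op <;> cases ox <;> simp_all
      rw [h2] at h1
      exact h1
    · rintro ⟨u, hu⟩ t
      rw [R_eq, cup_eq]
      by_cases ht : t = ox
      · subst ht
        simp only [and_self, if_true, ne_eq, hxz, not_false_eq_true]
        ring
      · simp [ht, Ne.symm ht]
    · intro u hu
      rw [RM_par hp _ _ _ _ _ (Or.inl (by rw [hu, hx]; simp)), zero_mul, mul_zero]
    · rintro ⟨u, hu⟩ t
      rw [R_eq, cup_eq]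
      by_cases ht : t = oz
      · subst ht
        simp only [and_self, if_true, ne_eq, hxz, not_false_eq_true]
        ring
      · simp [ht, Ne.symm ht]
    · intro u hu
      rw [RM_par hp _ _ _ _ _ (Or.inr (by rw [hu, hz]; simp)), mul_zero, mul_zero]
  · rw [Finset.sum_eq_zero, Finset.sum_eq_zero]
    · rintro ⟨⟨u, hu⟩, t⟩ _
      rw [R_eq, cup_eq]
      by_cases h1 : ox = t ∧ op = oa
      · by_cases h2 : t ≠ oz
        · exact absurd ⟨h1.2, h1.1 ▸ h2⟩ h
        · rw [if_neg (c := t ≠ oz) h2, mul_zero]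
      · rw [if_neg (c := ox = t ∧ op = oa) h1, zero_mul]
    · rintro ⟨⟨u, hu⟩, t⟩ _
      rw [R_eq, cup_eq]
      by_cases h1 : op = oa ∧ oz = t
      · by_cases h2 : ox ≠ t
        · exact absurd ⟨h1.1, h1.2 ▸ h2⟩ h
        · rw [if_neg (c := ox ≠ t) h2, zero_mul]
      · rw [if_neg (c := op = oa ∧ oz = t) h1, mul_zero]

theorem r1Cap (hp : RPR_Stmt) (e : Bool) (a b : SL r) :
    ∑ x, ∑ y, (tdata Q r).cap x y * (tdata Q r).R e x y a b = (tdata Q r).cap a b := by
  obtain ⟨⟨a, ha⟩, oa⟩ := a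
  obtain ⟨⟨b, hb⟩, ob⟩ := b
  by_cases h : oa = ob
  · subst h
    rw [cap_eq, if_neg (by simp)]
    refine Finset.sum_eq_zero ?_
    rintro ⟨u, p⟩ _
    refine Finset.sum_eq_zero ?_
    rintro ⟨v, q⟩ _
    rw [cap_eq, R_eq]
    cases oa <;> cases p <;> cases q <;> simp
  · rw [sum_SL2 _ ob oa (fun x y => capv Q r x y *
      (((cf Q r e false : Aˣ) : A) * RM Q r e (x, y) (a, b))) ?_ ?_, K1 hp e a b ha hb, cap_eq,
      if_pos h]
    · rintro ⟨u, hu⟩ ⟨v, hv⟩ p q
      rw [cap_eq, R_eq]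
      have h1 : (oa == ob) = false := by simpa using h
      by_cases h2 : p = ob ∧ q = oa
      · obtain ⟨rfl, rfl⟩ := h2
        rw [h1]
        simp [Ne.symm h]
      · rw [if_neg (c := p = ob ∧ q = oa) h2, if_neg (c := p = ob ∧ q = oa) h2, mul_zero]
    · intro u v huv
      rw [RM_par hp _ _ _ _ _ ?_, mul_zero, mul_zero]
      rw [ha, hb]
      rcases huv with h | h
      · exact Or.inl (by rw [h]; simp)
      · exact Or.inr (by rw [h]; simp)

theorem r1Cup (hp : RPR_Stmt) (e : Bool) (a b : SL r) :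
    ∑ x, ∑ y, (tdata Q r).R e a b x y * (tdata Q r).cup x y = (tdata Q r).cup a b := by
  obtain ⟨⟨a, ha⟩, oa⟩ := a
  obtain ⟨⟨b, hb⟩, ob⟩ := b
  by_cases h : oa = ob
  · subst h
    rw [cup_eq, if_neg (by simp)]
    refine Finset.sum_eq_zero ?_
    rintro ⟨u, p⟩ _
    refine Finset.sum_eq_zero ?_
    rintro ⟨v, q⟩ _
    rw [cup_eq, R_eq]
    cases oa <;> cases p <;> cases q <;> simp
  · rw [sum_SL2 _ ob oa (fun x y =>
      (((cf Q r e false : Aˣ) : A) * RM Q r e (a, b) (x, y)) * cupv Q r x y) ?_ ?_,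
      K2 hp e a b ha hb, cup_eq, if_pos h]
    · rintro ⟨u, hu⟩ ⟨v, hv⟩ p q
      rw [cup_eq, R_eq]
      by_cases h2 : p = ob ∧ q = oa
      · obtain ⟨rfl, rfl⟩ := h2
        have h1 : (p == q) = false := by simpa using Ne.symm h
        simp [h1, Ne.symm h]
      · have h3 : ¬ (oa = q ∧ ob = p) := fun h' => h2 ⟨h'.2.symm, h'.1.symm⟩
        rw [if_neg (c := p = ob ∧ q = oa) h2, if_neg (c := oa = q ∧ ob = p) h3, zero_mul]
    · intro u v huv
      rw [RM_par hp _ _ _ _ _ ?_, mul_zero, zero_mul]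
      rw [ha, hb]
      rcases huv with h | h
      · exact Or.inr (by rw [h]; simp)
      · exact Or.inl (by rw [h]; simp)

theorem r2 (hp : RPR_Stmt) (e : Bool) (a b c d : SL r) :
    ∑ x, ∑ y, (tdata Q r).R (!e) a b x y * (tdata Q r).R e x y c d =
      if a = c ∧ b = d then 1 else 0 := by
  obtain ⟨⟨a, ha⟩, oa⟩ := a
  obtain ⟨⟨b, hb⟩, ob⟩ := b
  obtain ⟨⟨c, hc⟩, oc⟩ := c
  obtain ⟨⟨d, hd⟩, od⟩ := d
  by_cases h : oa = oc ∧ ob = od
  · obtain ⟨rfl, rfl⟩ := h
    rw [sum_SL2 _ ob oa (fun x y => RM Q r (!e) (a, b) (x, y) * RM Q r e (x, y) (c, d)) ?_ ?_,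
      RM_sum hp]
    · simp only [ev_eq, and_true]
    · rintro ⟨u, hu⟩ ⟨v, hv⟩ p q
      rw [R_eq, R_eq]
      by_cases h2 : p = ob ∧ q = oa
      · obtain ⟨rfl, rfl⟩ := h2
        simp only [and_self, if_true]
        have h1 : (q == p) = (p == q) := by cases p <;> cases q <;> rfl
        rw [h1, mul_mul_mul_comm, cf_mul', one_mul]
      · rw [if_neg (c := p = ob ∧ q = oa) h2, if_neg (c := p = ob ∧ q = oa) h2, mul_zero]
    · intro u v huv
      rw [RM_par hp e _ _ _ _ ?_, mul_zero]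
      rw [hc, hd]
      rcases huv with h | h
      · exact Or.inl (by rw [h]; simp)
      · exact Or.inr (by rw [h]; simp)
  · rw [if_neg]
    · refine Finset.sum_eq_zero ?_
      rintro ⟨u, p⟩ _
      refine Finset.sum_eq_zero ?_
      rintro ⟨v, q⟩ _
      rw [R_eq, R_eq]
      by_cases h1 : oa = q ∧ ob = p
      · by_cases h2 : p = od ∧ q = oc
        · exact absurd ⟨h1.1.trans h2.2, h1.2.trans h2.1⟩ h
        · rw [if_neg (c := p = od ∧ q = oc) h2, mul_zero]
      · rw [if_neg (c := oa = q ∧ ob = p) h1, zero_mul]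
    · rintro ⟨h1, h2⟩
      exact h ⟨((ev_eq _ _ _ _).1 h1).2, ((ev_eq _ _ _ _).1 h2).2⟩

theorem r3 [IsDomain A] (hp : RPR_Stmt) (he : EMB_Stmt) (hrel : REL_Stmt) (hs : SPEC_Stmt)
    (hb : BRD_Stmt) (hg : Q.Gen r) (hreg : Q.Reg r) (a b c a' b' c' : SL r) :
    ∑ x, ∑ y, ∑ z, (tdata Q r).R true a b x y * (tdata Q r).R true y c z c' *
        (tdata Q r).R true x z a' b' =
      ∑ x, ∑ y, ∑ z, (tdata Q r).R true b c y z * (tdata Q r).R true a y a' x *
        (tdata Q r).R true x z b' c' := by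
  obtain ⟨⟨a, ha⟩, oa⟩ := a
  obtain ⟨⟨b, hb'⟩, ob⟩ := b
  obtain ⟨⟨c, hc⟩, oc⟩ := c
  obtain ⟨⟨a', ha'⟩, oa'⟩ := a'
  obtain ⟨⟨b', hb''⟩, ob'⟩ := b'
  obtain ⟨⟨c', hc'⟩, oc'⟩ := c'
  by_cases h : oa = oc' ∧ ob = ob' ∧ oc = oa'
  · obtain ⟨rfl, rfl, rfl⟩ := h
    rw [sum_SL3 _ ob oa oc (fun x y z => ((cf Q r true (ob == oa) : Aˣ) : A) *
        ((cf Q r true (oc == oa) : Aˣ) : A) * ((cf Q r true (oc == ob) : Aˣ) : A) *
        (Rm Q r (a, b) (x, y) * Rm Q r (y, c) (z, c') * Rm Q r (x, z) (a', b'))) ?_ ?_,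
      sum_SL3 _ oa oc ob (fun x y z => ((cf Q r true (ob == oa) : Aˣ) : A) *
        ((cf Q r true (oc == oa) : Aˣ) : A) * ((cf Q r true (oc == ob) : Aˣ) : A) *
        (Rm Q r (b, c) (y, z) * Rm Q r (a, y) (a', x) * Rm Q r (x, z) (b', c'))) ?_ ?_]
    · have h1 := yb (Q := Q) (r := r) he hrel hs hb hg hreg a b c a' b' c'
      simp only [← Finset.mul_sum]
      rw [h1]
    · rintro ⟨u, hu⟩ ⟨v, hv⟩ ⟨w, hw⟩ p q t
      rw [R_eq, R_eq, R_eq]
      by_cases h2 : p = oa ∧ q = oc ∧ t = ob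
      · obtain ⟨rfl, rfl, rfl⟩ := h2
        simp only [and_self, if_true, RM]
        have h1 : (q == p) = (p == q) := by cases p <;> cases q <;> rfl
        have h3 : (t == p) = (p == t) := by cases p <;> cases t <;> rfl
        ring
      · rw [if_neg (c := p = oa ∧ q = oc ∧ t = ob) h2]
        by_cases h3 : ob = t ∧ oc = q
        · by_cases h4 : oa = p ∧ q = oc
          · exact absurd ⟨h4.1.symm, h4.2, h3.1.symm⟩ h2
          · rw [if_neg (c := oa = p ∧ q = oc) h4, mul_zero, zero_mul]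
        · rw [if_neg (c := ob = t ∧ oc = q) h3, zero_mul, zero_mul]
    · intro u v w huvw
      have hz : Rm Q r (b, c) (v, w) * Rm Q r (a, v) (a', u) * Rm Q r (u, w) (b', c') = 0 := by
        rcases huvw with h | h | h
        · have h1 := RM_par (Q := Q) hp true u w b' c' (Or.inl (by rw [h, hc']; simp))
          simp only [RM] at h1
          rw [h1, mul_zero]
        · have h1 := RM_par (Q := Q) hp true a v a' u (Or.inr (by rw [h, ha']; simp))
          simp only [RM] at h1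
          rw [h1, mul_zero, zero_mul]
        · have h1 := RM_par (Q := Q) hp true u w b' c' (Or.inr (by rw [h, hb'']; simp))
          simp only [RM] at h1
          rw [h1, mul_zero]
      rw [hz, mul_zero]
    · rintro ⟨u, hu⟩ ⟨v, hv⟩ ⟨w, hw⟩ p q t
      rw [R_eq, R_eq, R_eq]
      by_cases h2 : p = ob ∧ q = oa ∧ t = oc
      · obtain ⟨rfl, rfl, rfl⟩ := h2
        simp only [and_self, if_true, RM]
        ring
      · rw [if_neg (c := p = ob ∧ q = oa ∧ t = oc) h2]
        by_cases h3 : oa = q ∧ ob = p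
        · by_cases h4 : q = oa ∧ oc = t
          · exact absurd ⟨h3.2.symm, h4.1, h4.2.symm⟩ h2
          · rw [if_neg (c := q = oa ∧ oc = t) h4, mul_zero, zero_mul]
        · rw [if_neg (c := oa = q ∧ ob = p) h3, zero_mul, zero_mul]
    · intro u v w huvw
      have hz : Rm Q r (a, b) (u, v) * Rm Q r (v, c) (w, c') * Rm Q r (u, w) (a', b') = 0 := by
        rcases huvw with h | h | h
        · have h1 := RM_par (Q := Q) hp true u w a' b' (Or.inl (by rw [h, hb'']; simp))
          simp only [RM] at h1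
          rw [h1, mul_zero]
        · have h1 := RM_par (Q := Q) hp true v c w c' (Or.inl (by rw [h, hc']; simp))
          simp only [RM] at h1
          rw [h1, mul_zero, zero_mul]
        · have h1 := RM_par (Q := Q) hp true u w a' b' (Or.inr (by rw [h, ha']; simp))
          simp only [RM] at h1
          rw [h1, mul_zero]
      rw [hz, mul_zero]
  · have hL : ∀ x y z : SL r, (tdata Q r).R true (⟨a, ha⟩, oa) (⟨b, hb'⟩, ob) x y *
        (tdata Q r).R true y (⟨c, hc⟩, oc) z (⟨c', hc'⟩, oc') *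
        (tdata Q r).R true x z (⟨a', ha'⟩, oa') (⟨b', hb''⟩, ob') = 0 := by
      rintro ⟨u, p⟩ ⟨v, q⟩ ⟨w, t⟩
      rw [R_eq, R_eq, R_eq]
      by_cases h1 : oa = q ∧ ob = p
      · by_cases h2 : q = oc' ∧ oc = t
        · by_cases h3 : p = ob' ∧ t = oa'
          · exact absurd ⟨h1.1.trans h2.1, h1.2.trans h3.1, h2.2.trans h3.2⟩ h
          · rw [if_neg (c := p = ob' ∧ t = oa') h3, mul_zero]
        · rw [if_neg (c := q = oc' ∧ oc = t) h2, mul_zero, zero_mul]
      · rw [if_neg (c := oa = q ∧ ob = p) h1, zero_mul, zero_mul]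
    have hR : ∀ x y z : SL r, (tdata Q r).R true (⟨b, hb'⟩, ob) (⟨c, hc⟩, oc) y z *
        (tdata Q r).R true (⟨a, ha⟩, oa) y (⟨a', ha'⟩, oa') x *
        (tdata Q r).R true x z (⟨b', hb''⟩, ob') (⟨c', hc'⟩, oc') = 0 := by
      rintro ⟨u, p⟩ ⟨v, q⟩ ⟨w, t⟩
      rw [R_eq, R_eq, R_eq]
      by_cases h1 : ob = t ∧ oc = q
      · by_cases h2 : oa = p ∧ q = oa'
        · by_cases h3 : p = oc' ∧ t = ob'
          · exact absurd ⟨h2.1.trans h3.1, h1.1.trans h3.2, h1.2.trans h2.2⟩ h
          · rw [if_neg (c := p = oc' ∧ t = ob') h3, mul_zero]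
        · rw [if_neg (c := oa = p ∧ q = oa') h2, mul_zero, zero_mul]
      · rw [if_neg (c := ob = t ∧ oc = q) h1, zero_mul, zero_mul]
    simp only [hL, hR]

end Hyp

end TDG

theorem tdg (he : EMB_Stmt) (hr : REL_Stmt) (hs : SPEC_Stmt) (_hf : FC_Stmt) (hb : BRD_Stmt)
    (hp : RPR_Stmt) (hc : CUP_Stmt) (hl : SLD_Stmt) : TDG_Stmt := by
  intro A _ _ Q r hev hg hreg
  exact
    { zigzag := TDG.zigzag hc hev
      zagzig := TDG.zagzig hc hev
      slideCap := TDG.slideCap hp hl hev hg hreg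
      slideCup := TDG.slideCup hp hl hev hg hreg
      r1Cap := TDG.r1Cap hp
      r1Cup := TDG.r1Cup hp
      r2 := TDG.r2 hp
      r3 := TDG.r3 hp he hr hs hb hg hreg }

end Pool.Agent.TB
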