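import Pool.Agent.TB.Stmts2

/-!
Finite type invariants of 2-bridge knots: properties of the additive character.
-/

open Polynomial Filter Topology
open scoped BigOperators Real

namespace Pool.Agent.TB.ZT

theorem zt_int (n : ℕ) [NeZero n] (ι a : ℤ) :
    zt n ι (a : ZMod (2 * n)) = Complex.exp (2 * π * Complex.I * (ι * a) / (2 * n)) := by
  unfold zt
  rw [← Int.cast_mul, ZMod.stdAddChar_coe]
  push_cast
  rfl

theorem unit_iota (n : ℕ) [NeZero n] (ι : ℤ) (h : IsCoprime ι (2 * n : ℤ)) :
    IsUnit (ι : ZMod (2 * n)) := by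
  rw [ZMod.coe_int_isUnit_iff_isCoprime]
  have : ((2 * n : ℕ) : ℤ) = 2 * n := by push_cast; rfl
  rw [this]
  exact h.symm

end Pool.Agent.TB.ZT

namespace Pool.Agent.TB

open ZT

theorem zt_basic : ZT_Stmt := by
  intro n _ ι h
  have hn : (n : ℂ) ≠ 0 := Nat.cast_ne_zero.mpr (NeZero.ne n)
  have hu := unit_iota n ι h
  refine ⟨by simp [zt], fun a b => ?_, fun a => ?_, ?_, fun u => ?_, fun u hu0 => ?_,
    fun a => ?_, fun u => ?_⟩
  · unfold zt
    rw [mul_add, AddChar.map_add_eq_mul]
  · rw [zt_int]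
    rw [Units.val_zpow_eq_zpow_val]
    simp only [sz, Units.val_mk0]
    rw [← Complex.exp_int_mul]
    congr 1
    push_cast
    field_simp
  · rw [zt_int]
    have hodd : Odd ι := by
      have h2 : IsCoprime ι 2 := IsCoprime.of_mul_right_left h
      rw [← Int.not_even_iff_odd]
      intro he
      have := h2.isUnit_of_dvd' he.two_dvd (dvd_refl 2)
      revert this
      decide
    obtain ⟨k, hk⟩ := hodd
    have : (2 * π * Complex.I * (ι * (n : ℤ)) / (2 * n) : ℂ) = π * Complex.I + k * (2 * π * Complex.I) := by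
      rw [hk]
      push_cast
      field_simp
      ring
    rw [this, Complex.exp_add, Complex.exp_int_mul_two_pi_mul_I, Complex.exp_pi_mul_I, mul_one]
  · have := AddChar.sum_mulShift ((ι : ZMod (2 * n)) * u) (ZMod.isPrimitive_stdAddChar (2 * n))
    have h2 : ∀ k : ZMod (2 * n), zt n ι (k * u) =
        ZMod.stdAddChar (k * ((ι : ZMod (2 * n)) * u)) := by
      intro k
      unfold zt
      congr 1
      ring
    rw [Finset.sum_congr rfl fun k _ => h2 k, this]
    by_cases h0 : u = 0
    · simp [h0]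
    · have h3 : (ι : ZMod (2 * n)) * u ≠ 0 := by
        intro h4
        rw [hu.mul_right_eq_zero] at h4
        exact h0 h4
      simp [h0, h3]
  · unfold zt
    intro h1
    have h3 : (ZMod.stdAddChar ((ι : ZMod (2 * n)) * u) : ℂ) = ZMod.stdAddChar (0 : ZMod (2 * n)) := by
      rw [h1, AddChar.map_zero_eq_one]
    have h4 := ZMod.injective_stdAddChar h3
    rw [hu.mul_right_eq_zero] at h4
    exact hu0 h4
  · have h2 : (2 * (a : ZMod (2 * n))) = ((2 * a : ℤ) : ZMod (2 * n)) := by push_cast; rfl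
    rw [h2, zt_int, ZMod.stdAddChar_coe]
    congr 1
    push_cast
    field_simp
  · unfold zt
    rw [mul_neg, AddChar.map_neg_eq_conj]

end Pool.Agent.TB

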