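import Pool.Agent.TB.Stmts
import Pool.Agent.TB.Defs2

/-!
Finite type invariants of 2-bridge knots: statements of the modules, second part
(parameters, the model at a root of unity, logarithmic derivative, descent, limit, arithmetic).
See PAPER.md in this folder.
-/

open Polynomial Filter Topology
open scoped BigOperators Real

namespace Pool.Agent.TB

open Pool.Agent.LibH11.Sliced

/-! ### D. Parameters -/

/-- HZ: at `h = 0` positive and negative crossings agree. -/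
def HZ_Stmt : Prop :=
  ∀ (r : ℕ), Even r → ∀ x y a b : SL r,
    PowerSeries.constantCoeff ((tdata QPS r).R true x y a b) =
      PowerSeries.constantCoeff ((tdata QPS r).R false x y a b)

/-- GPS: genericity over the power series. -/
def GPS_Stmt : Prop := ∀ r : ℕ, QPS.Gen r ∧ QPS.Reg r

/-- GRT: genericity at the root of unity, over the complex numbers and over the dual numbers. -/
def GRT_Stmt : Prop :=
  ∀ (r : ℕ) (ι : ℤ), 0 < r → IsCoprime ι (4 * r : ℤ) →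
    (QC (sz (2 * r) ι)).Gen r ∧ (QD (sz (2 * r) ι)).Gen r

/-- OT: transfer of the equality of universal values from the power series to the dual numbers. -/
def OT_Stmt : Prop :=
  ∀ (r : ℕ) (s0 : ℂˣ), (QC s0).Gen r → ∀ x y : List ℤ, Jval QPS r x = Jval QPS r y →
    Jval (QD s0) r x = Jval (QD s0) r y

/-! ### E. The model at a root of unity -/

/-- ZT: the root of unity `ζ`. -/
def ZT_Stmt : Prop :=
  ∀ (n : ℕ) [NeZero n] (ι : ℤ), IsCoprime ι (2 * n : ℤ) →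
    zt n ι 0 = 1 ∧ (∀ a b, zt n ι (a + b) = zt n ι a * zt n ι b) ∧
    (∀ a : ℤ, zt n ι a = ((sz n ι ^ (2 * a) : ℂˣ) : ℂ)) ∧
    zt n ι (n : ℤ) = -1 ∧
    (∀ u : ZMod (2 * n), ∑ k, zt n ι (k * u) = if u = 0 then (2 * n : ℂ) else 0) ∧
    (∀ u : ZMod (2 * n), u ≠ 0 → zt n ι u ≠ 1) ∧
    (∀ a : ℤ, zt n ι (2 * a) = ZMod.stdAddChar ((ι * a : ℤ) : ZMod n)) ∧
    (∀ u, starRingEnd ℂ (zt n ι u) = zt n ι (-u))

/-- LFT: operators with values in the dual numbers, functional calculus. -/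
def LFT_Stmt : Prop :=
  ∀ (n : ℕ) [NeZero n] (ι : ℤ), IsCoprime ι (2 * n : ℤ) →
    (∀ O0 O1 P0 P1 : Module.End ℂ (Fn n),
      lift2 n O0 O1 * lift2 n P0 P1 = lift2 n (O0 * P0) (O0 * P1 + O1 * P0)) ∧
    lift2 n 1 0 = 1 ∧
    (∀ (g0 g1 : Fn n) (P : (DualNumber ℂ)[X]),
      aeval (lift2 n (mulo n g0) (mulo n g1)) P =
        lift2 n
          (mulo n fun u => (P.eval (TrivSqZeroExt.inl (g0 u) + TrivSqZeroExt.inr (g1 u))).fst)
          (mulo n fun u => (P.eval (TrivSqZeroExt.inl (g0 u) + TrivSqZeroExt.inr (g1 u))).snd)) ∧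
    (∀ (g0 g1 : Fn n) (P : (DualNumber ℂ)[X]),
      aeval (lift2 n (cono n ι g0) (cono n ι g1)) P =
        lift2 n
          (cono n ι fun u => (P.eval (TrivSqZeroExt.inl (g0 u) + TrivSqZeroExt.inr (g1 u))).fst)
          (cono n ι fun u => (P.eval (TrivSqZeroExt.inl (g0 u) + TrivSqZeroExt.inr (g1 u))).snd)) ∧
    (∀ (g g' : Fn n), cono n ι (g * g') = cono n ι g * cono n ι g') ∧
    (∀ g : Fn n, cono n ι g 1 = fun _ => g 0)

/-- EIG: the eigenvalues `λ_{r-c}` and `G_{r-c}` over the dual numbers. -/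
def EIG_Stmt : Prop :=
  ∀ (n r : ℕ) [NeZero n] (ι : ℤ), n = 2 * r → Even r → IsCoprime ι (2 * n : ℤ) →
    (∃ κ : (DualNumber ℂ)ˣ, ∀ u : ZMod (2 * n),
      (QD (sz n ι)).lam (r - cc n u) =
        (κ : DualNumber ℂ) * (TrivSqZeroExt.inl (zt n ι u + zt n ι (-u)) +
          TrivSqZeroExt.inr (n * saw n (u.val : ℤ) * (zt n ι u - zt n ι (-u))))) ∧
    ∀ (u : ZMod (2 * n)) (a : ℤ),
      (((QD (sz n ι)).Gu r (r - cc n u) ^ a : (DualNumber ℂ)ˣ) : DualNumber ℂ) =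
        TrivSqZeroExt.inl (zt n ι (a * u ^ 2)) * (1 + TrivSqZeroExt.inr (a * bq n u))

/-- NN: on even functions `I_1'` is a nearest neighbour operator. -/
def NN_Stmt : Prop :=
  ∀ (n : ℕ) [NeZero n] (ι : ℤ), 1 < n → IsCoprime ι (2 * n : ℤ) →
    ∀ f : Fn n, (∀ u, f (-u) = f u) → ∀ u : ZMod (2 * n),
      ((n : ℂ) • cono n ι (fun k => saw n (k.val : ℤ) * (zt n ι k - zt n ι (-k))) f -
        (Th n ι (Yy n f) - Yy n (Th n ι f))) u =
      -(n / 2 : ℂ) * ((hh n ι u - hh n ι (u + 1)) * f (u + 1) +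
        (hh n ι (u - 1) - hh n ι u) * f (u - 1))

/-- MU: the second eigenvector. -/
def MU_Stmt : Prop :=
  ∀ (n : ℕ) [NeZero n] (ι : ℤ), 1 < n → IsCoprime ι (2 * n : ℤ) →
    ∀ u : ZMod (2 * n),
      n * saw n (u.val : ℤ) * (zt n ι u - zt n ι (-u)) +
        (Th n ι (fun v => zt n ι v + zt n ι (-v)) u - (zt n ι u + zt n ι (-u)) * Th n ι 1 u) =
      (n / 2 : ℂ) * hh n ι 1 * (zt n ι u + zt n ι (-u))

/-- THE: symmetry of `Θ`. -/
def THE_Stmt : Prop :=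
  ∀ (n : ℕ) [NeZero n] (ι : ℤ) (f : Fn n), (∀ u, f (-u) = f u) →
    ∀ u, Th n ι f (-u) = Th n ι f u

/-- TOR: the universal value over the dual numbers. -/
def TOR_Stmt : Prop :=
  ∀ (n r : ℕ) [NeZero n] (ι : ℤ), n = 2 * r → Even r → IsCoprime ι (2 * n : ℤ) →
    ∀ x : List ℤ, Even x.length →
      Jval (QD (sz n ι)) r x =
        (TrivSqZeroExt.inl ((vec n ι false x).1 0) + TrivSqZeroExt.inr ((vec n ι false x).2 0)) *
          (1 + TrivSqZeroExt.inr (Th n ι 1 0))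

/-- EGO: Weyl operators and chirps. -/
def EGO_Stmt : Prop :=
  ∀ (n : ℕ) [NeZero n] (ι : ℤ), IsCoprime ι (2 * n : ℤ) →
    (∀ a b c d : ℤ, Tt n ι a b * Tt n ι c d =
      zt n ι (-2 * (a * d - b * c) : ℤ) • Tt n ι (a + c) (b + d)) ∧
    (∀ x a b : ℤ, Cc n ι x * Tt n ι a b = Tt n ι (a - 2 * x * b) b * Cc n ι x) ∧
    (∀ x a b : ℤ, Dc n ι x * Tt n ι a b = Tt n ι a (b + 2 * x * a) * Dc n ι x) ∧
    (∀ x : ℤ, Cc n ι x * Cc n ι (-x) = 1 ∧ Dc n ι x * Dc n ι (-x) = 1) ∧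
    (∀ a b c d : ℤ, (a : ZMod n) = c → (b : ZMod n) = d → Tt n ι a b = Tt n ι c d) ∧
    (∀ (a : ℤ) (f : Fn n), Tt n ι a 0 f 0 = f 0) ∧ (∀ b : ℤ, Tt n ι 0 b 1 = 1)

/-- DER: the derivative as a sum of insertions. -/
def DER_Stmt : Prop :=
  ∀ (n : ℕ) [NeZero n] (ι : ℤ) (x : List ℤ), Even x.length →
    (vec n ι false x).2 =
      -(∑ j ∈ Finset.range (x.length + 1), (-1 : ℂ) ^ j • ins n ι (Th n ι) false x j) +
        ∑ i ∈ Finset.range x.length, ((x.getD i 0 : ℤ) : ℂ) •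
          ins n ι (if Even i then cono n ι (bq n) else mulo n (bq n)) false x i

/-- EXPT: expectation values of Weyl operators. -/
def EXPT_Stmt : Prop :=
  ∀ (n : ℕ) [NeZero n] (ι : ℤ), IsCoprime ι (2 * n : ℤ) →
    ∀ (x : List ℤ), Even x.length → ∀ δ : ℤ, (δ * (lastv x).2 : ZMod n) = 1 →
    ∀ j ≤ x.length, ∀ a b : ℤ,
      ins n ι (Tt n ι a b) false x j 0 = (vec n ι false x).1 0 *
        zt n ι (2 * δ * Nf x (if Even j then a • chain x j + b • chain x (j + 1)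
          else a • chain x (j + 1) + b • chain x j) : ℤ)

/-- FOU: finite Fourier transforms. -/
def FOU_Stmt : Prop :=
  ∀ (n : ℕ) [NeZero n], 1 < n →
    (∀ a : ℤ, saw n a = (Complex.I / (2 * n)) * ∑ ρ : ZMod n, ct n ρ *
      ZMod.stdAddChar (ρ * (a : ZMod n))) ∧
    (∀ u : ZMod (2 * n), bq n u = -((n : ℂ) ^ 2 - 1) / 6 + (1 / 2) *
      ∑ ρ ∈ Finset.Ico 1 n, ((1 / Real.sin (π * ρ / n) ^ 2 : ℝ) : ℂ) *
        ZMod.stdAddChar ((ρ : ZMod n) * (u.val : ZMod n))) ∧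
    (∀ (u : ZMod n) (a b : ZMod n), IsUnit u → ∀ u' : ZMod n, u * u' = 1 →
      ∑ α : ZMod n, ∑ β : ZMod n, (ZMod.stdAddChar (u * α * β + a * α + b * β) : ℂ) =
        n * ZMod.stdAddChar (-(u' * a * b)))

/-- CHN: elementary facts on the chain. -/
def CHN_Stmt : Prop :=
  ∀ x : List ℤ,
    (∀ j, det2 (chain x j) (chain x (j + 1)) = (-1) ^ j) ∧
    (∀ j, Even j → Odd (chain x j).1 ∧ Even (chain x j).2) ∧
    (∀ j, Odd j → Even (chain x j).1 ∧ Odd (chain x j).2) ∧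
    (Even x.length → ∀ j, Even (Nf x (chain x j))) ∧
    (∀ j (a b : ℤ), Nf x (b • chain x j - a • chain x (j + 1)) =
      b ^ 2 * Nf x (chain x j) + a ^ 2 * Nf x (chain x (j + 1)) -
        a * b * (det2 (1, 0) (chain x j) * det2 (chain x (j + 1)) (lastv x) +
          det2 (1, 0) (chain x (j + 1)) * det2 (chain x j) (lastv x))) ∧
    (Even x.length → ∀ j, Odd (det2 (1, 0) (chain x j) * det2 (chain x (j + 1)) (lastv x) +
          det2 (1, 0) (chain x (j + 1)) * det2 (chain x j) (lastv x))) ∧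
    (Even x.length → (∀ a ∈ x, a ≠ 0) → |(lastv x).1| < |(lastv x).2|)

/-- JNZ: absolute value of the value. -/
def JNZ_Stmt : Prop :=
  ∀ (n : ℕ) [NeZero n] (ι : ℤ), IsCoprime ι (2 * n : ℤ) → Even n →
    ∀ (x : List ℤ), Even x.length →
      (IsCoprime (lastv x).2 (n : ℤ) → ‖(vec n ι false x).1 0‖ ^ 2 = 1) ∧
      ((lastv x).2 ∣ (n : ℤ) → ‖(vec n ι false x).1 0‖ ^ 2 = |((lastv x).2 : ℝ)|)

/-- LAM: the logarithmic derivative. -/
def LAM_Stmt : Prop :=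
  ∀ (n : ℕ) [NeZero n] (ι : ℤ), 1 < n → IsCoprime ι (2 * n : ℤ) → Even n →
    ∀ (x : List ℤ), Even x.length → ∀ κ : ZMod n, κ * ι * (lastv x).2 = 1 →
      (vec n ι false x).2 0 = (vec n ι false x).1 0 *
        (-((n : ℂ) ^ 2 - 1) / 6 * (x.sum : ℤ) + Sx n x κ)

/-! ### F. Dyadic descent -/

/-- DSC: from the equality of the logarithmic derivatives to exact identities for the sums over
`N(R) = N_0`, `N_0` odd. -/
def DSC_Stmt : Prop :=
  ∀ (x y : List ℤ) (ε ε' : ℤ), Even x.length → Even y.length → (ε = 1 ∨ ε = -1) →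
    (ε' = 1 ∨ ε' = -1) →
    (∀ s : ℕ, 2 ≤ s → ∀ τ : ZMod (2 ^ s), IsUnit τ →
      Sx (2 ^ s) x (ε * τ) - Sx (2 ^ s) y (ε' * τ) =
        (((2 ^ s : ℕ) : ℂ) ^ 2 - 1) / 6 * ((x.sum : ℤ) - (y.sum : ℤ))) →
    ∀ s : ℕ, 1 ≤ s → ∀ N0 : ℤ, Odd N0 →
      Zs (2 ^ s) x (ε * N0 : ℤ) = Zs (2 ^ s) y (ε' * N0 : ℤ)

/-! ### G. The limit -/

/-- LIM: the limit of the cot sums of one quadratic form. -/
def LIM_Stmt : Prop :=
  ∀ A B C N0 : ℤ, Even A → Odd B → Even C → Odd N0 →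
    ∀ Z : Finset (ℤ × ℤ), (∀ p : ℤ × ℤ, p ∈ Z ↔ A * p.1 ^ 2 + B * p.1 * p.2 + C * p.2 ^ 2 = N0) →
    Tendsto (fun s : ℕ => ((π : ℂ) / 2 ^ s) ^ 2 * ∑ a : ZMod (2 ^ s), ∑ b : ZMod (2 ^ s),
        if (A : ZMod (2 ^ s)) * a ^ 2 + B * a * b + C * b ^ 2 = N0 then
          ct (2 ^ s) a * ct (2 ^ s) b else 0) atTop
      (𝓝 (∑ p ∈ Z, 1 / ((p.1 : ℂ) * p.2)))

/-- TEL: the limit of `Zs`; the sum telescopes. -/
def TEL_Stmt : Prop :=
  ∀ x : List ℤ, Even x.length → ∀ N0 : ℤ, Odd N0 →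
    {R : ℤ × ℤ | Nf x R = N0}.Finite ∧
    Tendsto (fun s : ℕ => ((π : ℂ) / 2 ^ s) ^ 2 * Zs (2 ^ s) x (N0 : ℤ)) atTop
      (𝓝 (-((lastv x).2 : ℂ) / N0 * ({R : ℤ × ℤ | Nf x R = N0}.ncard : ℂ)))

/-! ### H. Arithmetic -/

/-- CNT: the counting function determines `A` up to inversion modulo `P`. -/
def CNT_Stmt : Prop :=
  ∀ P A A' : ℤ, 0 < P → Odd P → IsCoprime A P → IsCoprime A' P →
    (∀ N0 : ℤ, Odd N0 → {R : ℤ × ℤ | R.2 * (P * R.1 - A * R.2) = N0}.ncard =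
      {R : ℤ × ℤ | R.2 * (P * R.1 - A' * R.2) = N0}.ncard) →
    P ∣ A - A' ∨ P ∣ A * A' - 1

/-- CFU: uniqueness of the even continued fraction. -/
def CFU_Stmt : Prop :=
  ∀ x y : List ℤ, Even x.length → Even y.length → (∀ a ∈ x, a ≠ 0) → (∀ a ∈ y, a ≠ 0) →
    (lastv x).1 * (lastv y).2 = (lastv y).1 * (lastv x).2 → x = y

/-- RVC: the last vector of the reversed word. -/
def RVC_Stmt : Prop :=
  ∀ x : List ℤ, Even x.length → (lastv x.reverse).2 = (lastv x).2 ∧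
    (lastv x).2 ∣ (lastv x).1 * (lastv x.reverse).1 - 1

/-! ### I. Final theorem (algebraic part) -/

/-- FIN: finite type invariants determine the word up to reversal. -/
def FIN_Stmt : Prop :=
  ∀ (x y : List ℤ) (hx : IsLongKnot (kdiag x)) (hy : IsLongKnot (kdiag y)),
    Even x.length → Even y.length → (∀ a ∈ x, a ≠ 0) → (∀ a ∈ y, a ≠ 0) →
    (∀ v : Knot → ℂ, IsFiniteType v → v (ofDiag (kdiag x) hx) = v (ofDiag (kdiag y) hy)) →
    y = x ∨ y = x.reverse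

end Pool.Agent.TB
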