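import Pool.Agent.TB.Stmts2

/-!
Finite type invariants of 2-bridge knots: expectation values of Weyl operators (module EXPT).
See PAPER.md in this folder, section 6.
-/

open Polynomial
open scoped BigOperators Real

namespace Pool.Agent.TB

namespace EXPT

/-- the action of one letter on the index of a Weyl operator -/
def letter : Bool → ℤ → ℤ × ℤ → ℤ × ℤ
  | false, x, p => (p.1, p.2 + 2 * x * p.1)
  | true, x, p => (p.1 - 2 * x * p.2, p.2)

/-- the action of the first `j` letters -/
def mv : Bool → List ℤ → ℕ → ℤ × ℤ → ℤ × ℤ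
  | _, _, 0, p => p
  | _, [], _ + 1, p => p
  | β, x :: l, j + 1, p => letter β x (mv (!β) l j p)

theorem letter_zero (β : Bool) (p : ℤ × ℤ) : letter β 0 p = p := by
  cases β <;> simp [letter]

theorem mv_zero (β : Bool) (l : List ℤ) (p : ℤ × ℤ) : mv β l 0 p = p := by
  cases l <;> rfl

theorem mv_nil (β : Bool) (j : ℕ) (p : ℤ × ℤ) : mv β [] j p = p := by
  cases j <;> rfl

theorem mv_succ (j : ℕ) : ∀ (β : Bool) (l : List ℤ) (p : ℤ × ℤ),
    mv β l (j + 1) p = mv β l j (letter (xor β (decide (Odd j))) (l.getD j 0) p) := by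
  induction j with
  | zero =>
      intro β l p
      cases l with
      | nil => simp [mv_nil, letter_zero]
      | cons x l => simp [mv]
  | succ j ih =>
      intro β l p
      cases l with
      | nil => simp [mv_nil, letter_zero]
      | cons x l =>
          have h1 : mv β (x :: l) (j + 1 + 1) p = letter β x (mv (!β) l (j + 1) p) := rfl
          have h2 : ∀ q, mv β (x :: l) (j + 1) q = letter β x (mv (!β) l j q) := fun q => rfl
          rw [h1, h2, ih]
          have h3 : xor (!β) (decide (Odd j)) = xor β (decide (Odd (j + 1))) := by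
            have h4 : decide (Odd (j + 1)) = !decide (Odd j) := by
              rw [← decide_not]
              congr 1
              rw [Nat.odd_add_one]
            rw [h4]
            cases β <;> cases decide (Odd j) <;> rfl
          rw [h3]
          simp

theorem mv_false (x : List ℤ) (j : ℕ) : ∀ a b : ℤ,
    mv false x j (a, b) = if Even j then a • chain x j + b • chain x (j + 1)
      else a • chain x (j + 1) + b • chain x j := by
  induction j with
  | zero =>
      intro a b
      simp [mv_zero, chain]
  | succ j ih =>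
      intro a b
      rw [mv_succ]
      have hch : chain x (j + 1 + 1) =
          chain x j + ((-1) ^ j * 2 * x.getD j 0) • chain x (j + 1) := rfl
      by_cases hj : Even j
      · have ho : ¬ Odd j := Nat.not_odd_iff_even.mpr hj
        have he1 : ¬ Even (j + 1) := by
          rw [Nat.even_add_one]; simpa using hj
        have hl : letter (xor false (decide (Odd j))) (x.getD j 0) (a, b) =
            (a, b + 2 * x.getD j 0 * a) := by
          simp [ho, letter]
        rw [hl, ih, if_pos hj, if_neg he1, hch, hj.neg_one_pow]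
        ext <;> simp <;> ring
      · have ho : Odd j := Nat.not_even_iff_odd.mp hj
        have he1 : Even (j + 1) := by
          rw [Nat.even_add_one]; exact hj
        have hl : letter (xor false (decide (Odd j))) (x.getD j 0) (a, b) =
            (a - 2 * x.getD j 0 * b, b) := by
          simp [ho, letter]
        rw [hl, ih, if_neg hj, if_pos he1, hch, ho.neg_one_pow]
        ext <;> simp <;> ring

section

variable (n : ℕ) [NeZero n] (ι : ℤ)

theorem ins_eq (he : EGO_Stmt) (hι : IsCoprime ι (2 * n : ℤ)) (j : ℕ) :
    ∀ (β : Bool) (l : List ℤ), j ≤ l.length → ∀ p : ℤ × ℤ,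
      ins n ι (Tt n ι p.1 p.2) β l j =
        Tt n ι (mv β l j p).1 (mv β l j p).2 (vec n ι β l).1 := by
  obtain ⟨-, hC, hD, -, -, -, -⟩ := he n ι hι
  induction j with
  | zero =>
      intro β l _ p
      rw [mv_zero]
      cases β <;> cases l <;> rfl
  | succ j ih =>
      intro β l hl p
      cases l with
      | nil => simp at hl
      | cons x l =>
          have hl' : j ≤ l.length := by simpa using hl
          cases β with
          | false =>
              have h1 : ins n ι (Tt n ι p.1 p.2) false (x :: l) (j + 1) =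
                Dc n ι x (ins n ι (Tt n ι p.1 p.2) true l j) := rfl
              have h2 : (vec n ι false (x :: l)).1 = Dc n ι x (vec n ι true l).1 := rfl
              have h3 : mv false (x :: l) (j + 1) p = letter false x (mv true l j p) := rfl
              rw [h1, h2, h3, ih true l hl' p]
              have h4 := congrArg (fun T : Module.End ℂ (Fn n) => T (vec n ι true l).1)
                (hD x (mv true l j p).1 (mv true l j p).2)
              simpa [letter, Module.End.mul_apply] using h4
          | true =>
              have h1 : ins n ι (Tt n ι p.1 p.2) true (x :: l) (j + 1) =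
                Cc n ι x (ins n ι (Tt n ι p.1 p.2) false l j) := rfl
              have h2 : (vec n ι true (x :: l)).1 = Cc n ι x (vec n ι false l).1 := rfl
              have h3 : mv true (x :: l) (j + 1) p = letter true x (mv false l j p) := rfl
              rw [h1, h2, h3, ih false l hl' p]
              have h4 := congrArg (fun T : Module.End ℂ (Fn n) => T (vec n ι false l).1)
                (hC x (mv false l j p).1 (mv false l j p).2)
              simpa [letter, Module.End.mul_apply] using h4

theorem ins_end (O : Module.End ℂ (Fn n)) (hO : O 1 = 1) :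
    ∀ (l : List ℤ) (β : Bool), ins n ι O β l l.length = (vec n ι β l).1 := by
  intro l
  induction l with
  | nil =>
      intro β
      cases β <;> exact hO
  | cons x l ih =>
      intro β
      cases β with
      | false =>
          have h1 : ins n ι O false (x :: l) (x :: l).length =
            Dc n ι x (ins n ι O true l l.length) := rfl
          rw [h1, ih true]; rfl
      | true =>
          have h1 : ins n ι O true (x :: l) (x :: l).length =
            Cc n ι x (ins n ι O false l l.length) := rfl
          rw [h1, ih false]; rfl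

/-- the vector is fixed by the Weyl operators of the multiples of the last vector -/
theorem fixed (he : EGO_Stmt) (hι : IsCoprime ι (2 * n : ℤ)) (x : List ℤ) (hx : Even x.length)
    (b : ℤ) :
    Tt n ι (b * (lastv x).1) (b * (lastv x).2) (vec n ι false x).1 = (vec n ι false x).1 := by
  have h1 := ins_eq n ι he hι x.length false x le_rfl (0, b)
  obtain ⟨-, -, -, -, -, -, h01⟩ := he n ι hι
  rw [ins_end n ι _ (h01 b)] at h1
  rw [mv_false, if_pos hx] at h1
  have h2 : ((0 : ℤ) • chain x x.length + b • chain x (x.length + 1)) =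
      (b * (lastv x).1, b * (lastv x).2) := by
    ext <;> simp [lastv]
  rw [h2] at h1
  exact h1.symm

theorem value (hz : ZT_Stmt) (he : EGO_Stmt) (hι : IsCoprime ι (2 * n : ℤ)) (x : List ℤ)
    (hx : Even x.length) (δ : ℤ) (hδ : (δ * (lastv x).2 : ZMod n) = 1) (R : ℤ × ℤ) :
    Tt n ι R.1 R.2 (vec n ι false x).1 0 =
      (vec n ι false x).1 0 * zt n ι (2 * δ * Nf x R : ℤ) := by
  obtain ⟨hmul, -, -, -, hmod, h0, -⟩ := he n ι hι
  obtain ⟨z0, zadd, -, -, -, -, -, -⟩ := hz n ι hι
  set ψ := (vec n ι false x).1 with hψ
  set A := (lastv x).1 with hA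
  set d := (lastv x).2 with hd
  set α : ℤ := δ * (R.1 * d - R.2 * A) with hα
  set β : ℤ := δ * R.2 with hβ
  have hfix := fixed n ι he hι x hx β
  rw [← hψ, ← hA, ← hd] at hfix
  have e1 : ((α + β * A : ℤ) : ZMod n) = (R.1 : ZMod n) := by
    have : (α + β * A : ℤ) = δ * d * R.1 := by rw [hα, hβ]; ring
    rw [this]; push_cast
    rw [hδ, one_mul]
  have e2 : ((0 + β * d : ℤ) : ZMod n) = (R.2 : ZMod n) := by
    have : (0 + β * d : ℤ) = δ * d * R.2 := by rw [hβ]; ring
    rw [this]; push_cast
    rw [hδ, one_mul]
  have e3 := hmod _ _ _ _ e1 e2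
  have e4 := congrArg (fun T : Module.End ℂ (Fn n) => T ψ 0) (hmul α 0 (β * A) (β * d))
  simp only [Module.End.mul_apply, LinearMap.smul_apply, Pi.smul_apply, smul_eq_mul] at e4
  rw [hfix, h0, e3] at e4
  -- e4 : ψ 0 = zt (-2 (α β d)) * T_R ψ 0
  have hk : ∃ k : ℤ, δ * d - 1 = n * k := by
    have : ((δ * d - 1 : ℤ) : ZMod n) = 0 := by
      push_cast; rw [hδ, sub_self]
    exact (ZMod.intCast_zmod_eq_zero_iff_dvd _ _).mp this
  obtain ⟨k, hk⟩ := hk
  have e5 : ((2 * δ * Nf x R : ℤ) : ZMod (2 * n)) + ((-2 * (α * (β * d) - 0 * (β * A)) : ℤ) :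
      ZMod (2 * n)) = 0 := by
    rw [← Int.cast_add, ZMod.intCast_zmod_eq_zero_iff_dvd]
    have hN : Nf x R = R.2 * (R.1 * d - R.2 * A) := by
      simp [Nf, det2, hA, hd]
    refine ⟨-(δ * (R.2 * (R.1 * d - R.2 * A)) * k), ?_⟩
    rw [hN, hα, hβ]
    push_cast
    linear_combination (-2 * δ * (R.2 * (R.1 * d - R.2 * A))) * hk
  have e6 := zadd ((2 * δ * Nf x R : ℤ) : ZMod (2 * n))
    ((-2 * (α * (β * d) - 0 * (β * A)) : ℤ) : ZMod (2 * n))
  rw [e5, z0] at e6
  rw [e4]
  calc Tt n ι R.1 R.2 ψ 0 = 1 * Tt n ι R.1 R.2 ψ 0 := (one_mul _).symm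
    _ = _ := by rw [e6]; ring

end

end EXPT

/-- EXPT: expectation values of Weyl operators. -/
theorem expt (hz : ZT_Stmt) (he : EGO_Stmt) (_hc : CHN_Stmt) : EXPT_Stmt := by
  intro n _ ι hι x hx δ hδ j hj a b
  have h1 := EXPT.ins_eq n ι he hι j false x hj (a, b)
  rw [h1, EXPT.mv_false]
  exact EXPT.value n ι hz he hι x hx δ hδ _

end Pool.Agent.TB
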