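import Pool.Agent.TB.Stmts2

/-!
LAM: the logarithmic derivative (see PAPER.md, section 6).
-/

open Polynomial
open scoped BigOperators Real

namespace Pool.Agent.TB.LAM

open Pool.Agent.TB

set_option linter.unusedSectionVars false

section Ins

variable (n : ℕ) [NeZero n] (ι : ℤ)

theorem ins_add (O P : Module.End ℂ (Fn n)) (l : List ℤ) : ∀ (b : Bool) (j : ℕ),
    ins n ι (O + P) b l j = ins n ι O b l j + ins n ι P b l j := by
  induction l with
  | nil =>
    intro b j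
    cases j with
    | zero => simp [ins]
    | succ j => simp [ins]
  | cons a l ih =>
    intro b j
    cases j with
    | zero => simp [ins]
    | succ j => cases b <;> simp [ins, ih]

theorem ins_smul (c : ℂ) (O : Module.End ℂ (Fn n)) (l : List ℤ) : ∀ (b : Bool) (j : ℕ),
    ins n ι (c • O) b l j = c • ins n ι O b l j := by
  induction l with
  | nil =>
    intro b j
    cases j with
    | zero => simp [ins]
    | succ j => simp [ins]
  | cons a l ih =>
    intro b j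
    cases j with
    | zero => simp [ins]
    | succ j => cases b <;> simp [ins, ih]

/-- `ins` at the point `0` as a linear functional of the operator -/
noncomputable def insL (b : Bool) (l : List ℤ) (j : ℕ) : Module.End ℂ (Fn n) →ₗ[ℂ] ℂ where
  toFun O := ins n ι O b l j 0
  map_add' O P := by rw [ins_add]; rfl
  map_smul' c O := by rw [ins_smul]; rfl

theorem insL_apply (b : Bool) (l : List ℤ) (j : ℕ) (O : Module.End ℂ (Fn n)) :
    insL n ι b l j O = ins n ι O b l j 0 := rfl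

/-- `cono` is linear -/
noncomputable def conoL : Fn n →ₗ[ℂ] Module.End ℂ (Fn n) where
  toFun g := cono n ι g
  map_add' g h := by
    refine LinearMap.ext fun f => funext fun u => ?_
    simp only [cono, LinearMap.coe_mk, AddHom.coe_mk, LinearMap.add_apply, Pi.add_apply]
    rw [← mul_add, ← Finset.sum_add_distrib]
    congr 1
    refine Finset.sum_congr rfl fun k _ => ?_
    rw [← Finset.sum_add_distrib]
    refine Finset.sum_congr rfl fun v _ => ?_
    ring
  map_smul' c g := by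
    refine LinearMap.ext fun f => funext fun u => ?_
    simp only [cono, LinearMap.coe_mk, AddHom.coe_mk, LinearMap.smul_apply, Pi.smul_apply,
      smul_eq_mul, RingHom.id_apply]
    simp only [Finset.mul_sum]
    refine Finset.sum_congr rfl fun k _ => Finset.sum_congr rfl fun v _ => ?_
    ring

/-- `mulo` is linear -/
noncomputable def muloL : Fn n →ₗ[ℂ] Module.End ℂ (Fn n) where
  toFun g := mulo n g
  map_add' g h := by
    refine LinearMap.ext fun f => funext fun u => ?_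
    simp only [mulo, LinearMap.coe_mk, AddHom.coe_mk, LinearMap.add_apply, Pi.add_apply]
    ring
  map_smul' c g := by
    refine LinearMap.ext fun f => funext fun u => ?_
    simp only [mulo, LinearMap.coe_mk, AddHom.coe_mk, LinearMap.smul_apply, Pi.smul_apply,
      smul_eq_mul, RingHom.id_apply]
    ring

/-- the exponential function `u ↦ e(ρ u / n)` on `ℤ/2n` -/
noncomputable def gr (ρ : ℤ) : Fn n := fun u => ZMod.stdAddChar ((ρ : ZMod n) * (u.val : ZMod n))

variable {n ι}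

theorem zt_two (hz2 : ∀ a : ℤ, zt n ι (2 * a) = ZMod.stdAddChar ((ι * a : ℤ) : ZMod n))
    {ι' : ℤ} (hι : (ι : ZMod n) * ι' = 1) (ρ : ℤ) (u : ZMod (2 * n)) :
    zt n ι (2 * ((ι' * ρ : ℤ) : ZMod (2 * n)) * u) = gr n ρ u := by
  have h1 : (2 * ((ι' * ρ : ℤ) : ZMod (2 * n)) * u) =
      2 * (((ι' * ρ * (u.val : ℤ) : ℤ)) : ZMod (2 * n)) := by
    push_cast
    rw [ZMod.natCast_zmod_val]
    ring
  rw [h1, hz2, gr]
  congr 1
  push_cast
  linear_combination (ρ * (u.val : ZMod n)) * hι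

theorem mulo_gr (hz2 : ∀ a : ℤ, zt n ι (2 * a) = ZMod.stdAddChar ((ι * a : ℤ) : ZMod n))
    {ι' : ℤ} (hι : (ι : ZMod n) * ι' = 1) (ρ : ℤ) :
    muloL n (gr n ρ) = Tt n ι (ι' * ρ) 0 := by
  refine LinearMap.ext fun f => funext fun u => ?_
  show gr n ρ u * f u = zt n ι (2 * ((ι' * ρ : ℤ) : ZMod (2 * n)) * ((0 : ℤ) : ZMod (2 * n)) +
    2 * ((ι' * ρ : ℤ) : ZMod (2 * n)) * u) * f (u + 2 * ((0 : ℤ) : ZMod (2 * n)))
  rw [Int.cast_zero, mul_zero, zero_add, mul_zero, add_zero, zt_two hz2 hι]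

theorem cono_gr (hz0 : zt n ι 0 = 1) (hza : ∀ a b, zt n ι (a + b) = zt n ι a * zt n ι b)
    (hzs : ∀ u : ZMod (2 * n), ∑ k, zt n ι (k * u) = if u = 0 then (2 * n : ℂ) else 0)
    (hz2 : ∀ a : ℤ, zt n ι (2 * a) = ZMod.stdAddChar ((ι * a : ℤ) : ZMod n))
    {ι' : ℤ} (hι : (ι : ZMod n) * ι' = 1) (ρ : ℤ) :
    conoL n ι (gr n ρ) = Tt n ι 0 (ι' * ρ) := by
  refine LinearMap.ext fun f => funext fun u => ?_
  show (1 / (2 * n : ℂ)) * ∑ k, ∑ v, gr n ρ k * zt n ι (k * (u - v)) * f v =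
    zt n ι (2 * ((0 : ℤ) : ZMod (2 * n)) * ((ι' * ρ : ℤ) : ZMod (2 * n)) +
      2 * ((0 : ℤ) : ZMod (2 * n)) * u) * f (u + 2 * ((ι' * ρ : ℤ) : ZMod (2 * n)))
  have hn : (n : ℂ) ≠ 0 := by exact_mod_cast NeZero.ne n
  have h1 : ∀ k v : ZMod (2 * n), gr n ρ k * zt n ι (k * (u - v)) * f v =
      zt n ι (k * (2 * ((ι' * ρ : ℤ) : ZMod (2 * n)) + u - v)) * f v := by
    intro k v
    rw [← zt_two hz2 hι, ← hza]
    congr 2
    ring
  simp only [h1]
  rw [Finset.sum_comm]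
  have h2 : ∀ v : ZMod (2 * n), ∑ k, zt n ι (k * (2 * ((ι' * ρ : ℤ) : ZMod (2 * n)) + u - v)) * f v =
      if v = u + 2 * ((ι' * ρ : ℤ) : ZMod (2 * n)) then (2 * n : ℂ) * f v else 0 := by
    intro v
    rw [← Finset.sum_mul, hzs]
    by_cases hv : v = u + 2 * ((ι' * ρ : ℤ) : ZMod (2 * n))
    · rw [if_pos hv, if_pos (by rw [hv]; ring)]
    · rw [if_neg hv, if_neg, zero_mul]
      intro h
      apply hv
      have := sub_eq_zero.1 h
      rw [← this]
      ring
  simp only [h2]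
  rw [Finset.sum_ite_eq' Finset.univ (u + 2 * ((ι' * ρ : ℤ) : ZMod (2 * n)))
    (fun v => (2 * n : ℂ) * f v), if_pos (Finset.mem_univ _)]
  rw [Int.cast_zero, mul_zero, zero_mul, zero_mul, add_zero, hz0]
  field_simp

end Ins

section Sums

variable {n : ℕ} [NeZero n]

theorem sum_range_zmod (F : ZMod n → ℂ) :
    ∑ a ∈ Finset.range n, F (a : ZMod n) = ∑ a : ZMod n, F a := by
  refine Finset.sum_bij' (fun a _ => (a : ZMod n)) (fun a _ => a.val) ?_ ?_ ?_ ?_ ?_
  · intro a _; exact Finset.mem_univ _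
  · intro a _; exact Finset.mem_range.2 (ZMod.val_lt a)
  · intro a ha; exact ZMod.val_cast_of_lt (Finset.mem_range.1 ha)
  · intro a _; exact ZMod.natCast_zmod_val a
  · intro a _; rfl

/-- linear change of variables in `(ℤ/n)²` -/
noncomputable def lin (g g' : ℤ × ℤ) (ε : ZMod n)
    (h : ((g.1 : ZMod n) * g'.2 - g.2 * g'.1) = ε) (hε : ε * ε = 1) :
    ZMod n × ZMod n ≃ ZMod n × ZMod n where
  toFun p := (p.1 * g.1 + p.2 * g'.1, p.1 * g.2 + p.2 * g'.2)
  invFun V := (ε * (V.1 * g'.2 - V.2 * g'.1), -ε * (V.1 * g.2 - V.2 * g.1))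
  left_inv p := by
    ext
    · simp only
      linear_combination (p.1 * ε) * h + p.1 * hε
    · simp only
      linear_combination (p.2 * ε) * h + p.2 * hε
  right_inv V := by
    ext
    · simp only
      linear_combination (V.1 * ε) * h + V.1 * hε
    · simp only
      linear_combination (V.2 * ε) * h + V.2 * hε

/-- `R ↦ (⟨R,g⟩, ⟨R,g'⟩)` -/
noncomputable def dual (g g' : ℤ × ℤ) (ε : ZMod n)
    (h : ((g.1 : ZMod n) * g'.2 - g.2 * g'.1) = ε) (hε : ε * ε = 1) :
    ZMod n × ZMod n ≃ ZMod n × ZMod n where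
  toFun R := (detm n R g, detm n R g')
  invFun p := (ε * (p.2 * g.1 - p.1 * g'.1), ε * (p.2 * g.2 - p.1 * g'.2))
  left_inv R := by
    ext
    · simp only [detm]
      linear_combination (R.1 * ε) * h + R.1 * hε
    · simp only [detm]
      linear_combination (R.2 * ε) * h + R.2 * hε
  right_inv p := by
    ext
    · simp only [detm]
      linear_combination (p.1 * ε) * h + p.1 * hε
    · simp only [detm]
      linear_combination (p.2 * ε) * h + p.2 * hε

/-- the change of variables which diagonalises `N` -/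
noncomputable def dia (A D d : ZMod n) (h : D * d = 1) :
    ZMod n × ZMod n ≃ ZMod n × ZMod n where
  toFun p := (D * (p.1 + A * p.2), p.2)
  invFun V := (d * V.1 - A * V.2, V.2)
  left_inv p := by
    ext
    · simp only
      linear_combination (p.1 + A * p.2) * h
    · rfl
  right_inv V := by
    ext
    · simp only
      linear_combination V.1 * h
    · rfl

theorem gauss (hf3 : ∀ (u : ZMod n) (a b : ZMod n), IsUnit u → ∀ u' : ZMod n, u * u' = 1 →
      ∑ α : ZMod n, ∑ β : ZMod n, (ZMod.stdAddChar (u * α * β + a * α + b * β) : ℂ) =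
        n * ZMod.stdAddChar (-(u' * a * b))) (x : List ℤ) (κ ι : ZMod n)
    (hκ : κ * ι * (lastv x).2 = 1) (R : ZMod n × ZMod n) :
    ∑ V : ZMod n × ZMod n, (ZMod.stdAddChar (R.1 * V.2 - R.2 * V.1 +
      ι * (κ * ι) * Nm n x V) : ℂ) = n * ZMod.stdAddChar (κ * Nm n x R) := by
  set A : ZMod n := ((lastv x).1 : ZMod n) with hA
  set d : ZMod n := ((lastv x).2 : ZMod n) with hd
  rw [← (dia A (κ * ι) d hκ).sum_comp, Fintype.sum_prod_type]
  have hu : ι * (κ * ι) * (κ * d ^ 2) = 1 := by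
    linear_combination (κ * ι * d + 1) * hκ
  have h1 := hf3 (ι * (κ * ι)) (-(R.2 * (κ * ι))) (R.1 - R.2 * (κ * ι) * A)
    (IsUnit.of_mul_eq_one _ hu) (κ * d ^ 2) hu
  have h2 : ∀ α β : ZMod n, (ZMod.stdAddChar (R.1 * ((dia A (κ * ι) d hκ) (α, β)).2 -
      R.2 * ((dia A (κ * ι) d hκ) (α, β)).1 + ι * (κ * ι) *
        Nm n x ((dia A (κ * ι) d hκ) (α, β))) : ℂ) =
      ZMod.stdAddChar (ι * (κ * ι) * α * β + -(R.2 * (κ * ι)) * α +
        (R.1 - R.2 * (κ * ι) * A) * β) := by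
    intro α β
    congr 1
    simp only [dia, Equiv.coe_fn_mk, Nm, detm, ← hA, ← hd]
    linear_combination (ι * (κ * ι) * β * (α + A * β)) * hκ
  simp only [h2]
  rw [h1]
  congr 2
  simp only [Nm, detm, ← hA, ← hd]
  linear_combination (κ * R.2 * d * R.1 - κ * R.2 ^ 2 * A * (κ * ι * d + 1)) * hκ

end Sums

section Main

variable {n : ℕ} [NeZero n] {ι : ℤ}

theorem Nf_smul (x : List ℤ) (m : ℤ) (v : ℤ × ℤ) : Nf x (m • v) = m ^ 2 * Nf x v := by
  simp only [Nf, det2, Prod.smul_fst, Prod.smul_snd, smul_eq_mul]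
  ring

/-- the terms of `Θ` -/
theorem thTerm (hz2 : ∀ a : ℤ, zt n ι (2 * a) = ZMod.stdAddChar ((ι * a : ℤ) : ZMod n))
    (hf1 : ∀ a : ℤ, saw n a = (Complex.I / (2 * n)) * ∑ ρ : ZMod n, ct n ρ *
      ZMod.stdAddChar (ρ * (a : ZMod n)))
    (hf3 : ∀ (u : ZMod n) (a b : ZMod n), IsUnit u → ∀ u' : ZMod n, u * u' = 1 →
      ∑ α : ZMod n, ∑ β : ZMod n, (ZMod.stdAddChar (u * α * β + a * α + b * β) : ℂ) =
        n * ZMod.stdAddChar (-(u' * a * b)))
    (x : List ℤ) (κ : ZMod n) (hκ : κ * ι * (lastv x).2 = 1) (δ : ℤ)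
    (hδ : (δ : ZMod n) = κ * ι) (j : ℕ)
    (hdet : det2 (chain x j) (chain x (j + 1)) = (-1) ^ j) :
    (n : ℂ) * ∑ a ∈ Finset.range n, ∑ b ∈ Finset.range n, (saw n a * saw n b) *
        zt n ι (2 * δ * Nf x ((a : ℤ) • chain x j + (b : ℤ) • chain x (j + 1)) : ℤ) =
      -(1 / 4) * ∑ R : ZMod n × ZMod n, ct n (detm n R (chain x j)) *
        ct n (detm n R (chain x (j + 1))) * ZMod.stdAddChar (κ * Nm n x R) := by
  set g := chain x j with hg
  set g' := chain x (j + 1) with hg'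
  have hn : (n : ℂ) ≠ 0 := by exact_mod_cast NeZero.ne n
  have hε : ((-1 : ZMod n) ^ j) * (-1) ^ j = 1 := by
    rw [← mul_pow]; simp
  have hd : ((g.1 : ZMod n) * g'.2 - g.2 * g'.1) = (-1) ^ j := by
    have := congrArg (fun z : ℤ => (z : ZMod n)) hdet
    simpa [det2] using this
  -- the summand as a function on `ZMod n`
  let F : ZMod n → ZMod n → ℂ := fun a b =>
    ((Complex.I / (2 * n)) * ∑ ρ : ZMod n, ct n ρ * ZMod.stdAddChar (ρ * a)) *
      ((Complex.I / (2 * n)) * ∑ σ : ZMod n, ct n σ * ZMod.stdAddChar (σ * b)) *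
      ZMod.stdAddChar ((ι : ZMod n) * (κ * (ι : ZMod n)) * Nm n x (a * (g.1 : ZMod n) + b * (g'.1 : ZMod n), a * (g.2 : ZMod n) + b * (g'.2 : ZMod n)))
  have h1 : ∀ a b : ℕ, (saw n a * saw n b) *
      zt n ι (2 * δ * Nf x ((a : ℤ) • g + (b : ℤ) • g') : ℤ) = F a b := by
    intro a b
    have h2 : (((2 * δ * Nf x ((a : ℤ) • g + (b : ℤ) • g') : ℤ)) : ZMod (2 * n)) =
        2 * ((δ * Nf x ((a : ℤ) • g + (b : ℤ) • g') : ℤ) : ZMod (2 * n)) := by
      push_cast; ring
    rw [h2, hz2, hf1, hf1]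
    simp only [F]
    have h3 : (((ι * (δ * Nf x ((a : ℤ) • g + (b : ℤ) • g')) : ℤ)) : ZMod n) =
        (ι : ZMod n) * (κ * (ι : ZMod n)) * Nm n x ((a : ZMod n) * (g.1 : ZMod n) + (b : ZMod n) * (g'.1 : ZMod n), (a : ZMod n) * (g.2 : ZMod n) + (b : ZMod n) * (g'.2 : ZMod n)) := by
      simp only [Nf, det2, Nm, detm, Prod.fst_add, Prod.snd_add, Prod.smul_fst, Prod.smul_snd,
        smul_eq_mul]
      push_cast
      rw [hδ]
      ring
    rw [h3]
    push_cast
    rfl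
  have h4 : ∑ a ∈ Finset.range n, ∑ b ∈ Finset.range n, (saw n a * saw n b) *
      zt n ι (2 * δ * Nf x ((a : ℤ) • g + (b : ℤ) • g') : ℤ) = ∑ a : ZMod n, ∑ b : ZMod n, F a b := by
    rw [← sum_range_zmod]
    refine Finset.sum_congr rfl fun a _ => ?_
    rw [← sum_range_zmod]
    exact Finset.sum_congr rfl fun b _ => h1 a b
  rw [h4]
  -- exchange the sums
  have h5 : ∀ a b : ZMod n, F a b = -(1 / (4 * (n : ℂ) ^ 2)) * ∑ p : ZMod n × ZMod n,
      ct n p.1 * ct n p.2 * ZMod.stdAddChar (p.1 * a + p.2 * b +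
        (ι : ZMod n) * (κ * (ι : ZMod n)) * Nm n x (a * (g.1 : ZMod n) + b * (g'.1 : ZMod n), a * (g.2 : ZMod n) + b * (g'.2 : ZMod n))) := by
    intro a b
    simp only [F]
    rw [Fintype.sum_prod_type]
    have h6 : (Complex.I / (2 * n) : ℂ) * (Complex.I / (2 * n)) = -(1 / (4 * (n : ℂ) ^ 2)) := by
      have := Complex.I_mul_I
      field_simp
      rw [Complex.I_sq]
      norm_num
    rw [mul_mul_mul_comm, h6, Finset.sum_mul_sum, mul_assoc, Finset.sum_mul]
    congr 1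
    refine Finset.sum_congr rfl fun ρ _ => ?_
    rw [Finset.sum_mul]
    refine Finset.sum_congr rfl fun σ _ => ?_
    rw [AddChar.map_add_eq_mul, AddChar.map_add_eq_mul]
    ring
  simp only [h5]
  rw [← Fintype.sum_prod_type' (f := fun a b : ZMod n => -(1 / (4 * (n : ℂ) ^ 2)) *
    ∑ p : ZMod n × ZMod n, ct n p.1 * ct n p.2 * ZMod.stdAddChar (p.1 * a + p.2 * b +
        (ι : ZMod n) * (κ * (ι : ZMod n)) * Nm n x (a * (g.1 : ZMod n) + b * (g'.1 : ZMod n), a * (g.2 : ZMod n) + b * (g'.2 : ZMod n))))]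
  rw [← Finset.mul_sum, Finset.sum_comm]
  rw [← (dual g g' ((-1) ^ j) hd hε).sum_comp]
  have h7 : ∀ R : ZMod n × ZMod n, ∑ q : ZMod n × ZMod n,
      ct n ((dual g g' ((-1) ^ j) hd hε) R).1 * ct n ((dual g g' ((-1) ^ j) hd hε) R).2 *
        ZMod.stdAddChar (((dual g g' ((-1) ^ j) hd hε) R).1 * q.1 +
          ((dual g g' ((-1) ^ j) hd hε) R).2 * q.2 +
          (ι : ZMod n) * (κ * (ι : ZMod n)) * Nm n x (q.1 * (g.1 : ZMod n) + q.2 * (g'.1 : ZMod n), q.1 * (g.2 : ZMod n) + q.2 * (g'.2 : ZMod n))) =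
      ct n (detm n R g) * ct n (detm n R g') * (n * ZMod.stdAddChar (κ * Nm n x R)) := by
    intro R
    have h9 := (lin g g' ((-1) ^ j) hd hε).sum_comp (fun V : ZMod n × ZMod n =>
      (ZMod.stdAddChar (R.1 * V.2 - R.2 * V.1 +
        (ι : ZMod n) * (κ * (ι : ZMod n)) * Nm n x V) : ℂ))
    rw [← gauss hf3 x κ ι hκ R, ← h9, Finset.mul_sum]
    refine Finset.sum_congr rfl fun q _ => ?_
    simp only [dual, lin, Equiv.coe_fn_mk, detm]
    congr 2
    ring
  simp only [h7]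
  have h8 : ∀ R : ZMod n × ZMod n, ct n (detm n R g) * ct n (detm n R g') *
      ((n : ℂ) * ZMod.stdAddChar (κ * Nm n x R)) = n * (ct n (detm n R g) * ct n (detm n R g') *
      ZMod.stdAddChar (κ * Nm n x R)) := by
    intro R; ring
  simp only [h8]
  rw [← Finset.mul_sum]
  field_simp

/-- the terms of the letters -/
theorem bqTerm (hz2 : ∀ a : ℤ, zt n ι (2 * a) = ZMod.stdAddChar ((ι * a : ℤ) : ZMod n))
    (x : List ℤ) (κ : ZMod n) (δ : ℤ) (hδ : (δ : ZMod n) = κ * ι) {ι' : ℤ}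
    (hι : (ι : ZMod n) * ι' = 1) (v : ℤ × ℤ) (ρ : ℤ) :
    zt n ι (2 * δ * Nf x ((ι' * ρ) • v) : ℤ) =
      ZMod.stdAddChar (κ * (ρ : ZMod n) ^ 2 * (Nf x v : ZMod n)) := by
  have h2 : (((2 * δ * Nf x ((ι' * ρ) • v) : ℤ)) : ZMod (2 * n)) =
      2 * ((δ * Nf x ((ι' * ρ) • v) : ℤ) : ZMod (2 * n)) := by
    push_cast; ring
  rw [h2, hz2, Nf_smul]
  congr 1
  push_cast
  rw [hδ]
  linear_combination (κ * ρ ^ 2 * (Nf x v : ZMod n) * ((ι : ZMod n) * ι' + 1)) * hι

theorem sum_getD (x : List ℤ) : ∑ i ∈ Finset.range x.length, ((x.getD i 0 : ℤ) : ℂ) =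
    ((x.sum : ℤ) : ℂ) := by
  induction x with
  | nil => simp
  | cons a l ih =>
    rw [List.length_cons, Finset.sum_range_succ', List.sum_cons]
    simp only [List.getD_cons_succ, List.getD_cons_zero]
    rw [ih]
    push_cast
    ring

end Main

end LAM

open LAM in
theorem lam (hz : ZT_Stmt) (hd : DER_Stmt) (he : EXPT_Stmt) (hf : FOU_Stmt) (hc : CHN_Stmt) :
    LAM_Stmt := by
  intro n _ ι hn hι _ x hx κ hκ
  obtain ⟨hz0, hza, -, -, hzs, -, hz2, -⟩ := hz n ι hι
  obtain ⟨hf1, hf2, hf3⟩ := hf n hn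
  obtain ⟨hdet, -⟩ := hc x
  obtain ⟨ι', m, hm⟩ := hι
  have hι1 : (ι : ZMod n) * (ι' : ZMod n) = 1 := by
    have := congrArg (fun z : ℤ => (z : ZMod n)) hm
    push_cast at this
    rw [ZMod.natCast_self, mul_zero, mul_zero, add_zero] at this
    rw [mul_comm]
    exact this
  obtain ⟨δ, hδ⟩ : ∃ δ : ℤ, (δ : ZMod n) = κ * ι := ⟨((κ * ι : ZMod n)).val, by
    rw [Int.cast_natCast, ZMod.natCast_zmod_val]⟩
  have hδd : ((δ * (lastv x).2 : ℤ) : ZMod n) = 1 := by
    push_cast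
    rw [hδ]
    exact hκ
  have hE := he n ι ⟨ι', m, hm⟩ x hx δ (by exact_mod_cast hδd)
  set J0 := (vec n ι false x).1 0 with hJ0
  rw [hd n ι x hx]
  simp only [Pi.add_apply, Pi.neg_apply, Finset.sum_apply, Pi.smul_apply, smul_eq_mul]
  -- first sum
  have h1 : ∀ j ∈ Finset.range (x.length + 1), ins n ι (Th n ι) false x j 0 =
      J0 * (-(1 / 4) * ∑ R : ZMod n × ZMod n, ct n (detm n R (chain x j)) *
        ct n (detm n R (chain x (j + 1))) * ZMod.stdAddChar (κ * Nm n x R)) := by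
    intro j hj
    have hj' : j ≤ x.length := Nat.lt_succ_iff.1 (Finset.mem_range.1 hj)
    rw [← thTerm hz2 hf1 hf3 x κ hκ δ hδ j (hdet j), ← insL_apply, Th, map_smul, map_sum]
    simp only [map_sum, map_smul, insL_apply, smul_eq_mul]
    have h2 : ∀ a b : ℕ, ins n ι (Tt n ι a b) false x j 0 = J0 *
        zt n ι (2 * δ * Nf x (if Even j then (a : ℤ) • chain x j + (b : ℤ) • chain x (j + 1)
          else (a : ℤ) • chain x (j + 1) + (b : ℤ) • chain x j) : ℤ) := fun a b => hE j hj' a b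
    simp only [h2]
    by_cases hev : Even j
    · simp only [if_pos hev]
      simp only [Finset.mul_sum]
      refine Finset.sum_congr rfl fun a _ => Finset.sum_congr rfl fun b _ => ?_
      ring
    · simp only [if_neg hev]
      rw [Finset.sum_comm]
      simp only [Finset.mul_sum]
      refine Finset.sum_congr rfl fun a _ => Finset.sum_congr rfl fun b _ => ?_
      rw [add_comm ((b : ℤ) • chain x (j + 1)) ((a : ℤ) • chain x j)]
      ring
  -- second sum
  have hg : bq n = (-((n : ℂ) ^ 2 - 1) / 6) • gr n 0 + (1 / 2 : ℂ) •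
      ∑ ρ ∈ Finset.Ico 1 n, ((1 / Real.sin (π * ρ / n) ^ 2 : ℝ) : ℂ) • gr n (ρ : ℤ) := by
    funext u
    rw [hf2 u]
    simp only [Pi.add_apply, Pi.smul_apply, Finset.sum_apply, smul_eq_mul, gr]
    rw [Int.cast_zero, zero_mul, AddChar.map_zero_eq_one, mul_one]
    simp only [Int.cast_natCast]
  have h3 : ∀ i ∈ Finset.range x.length,
      ins n ι (if Even i then cono n ι (bq n) else mulo n (bq n)) false x i 0 =
      J0 * (-((n : ℂ) ^ 2 - 1) / 6 + (1 / 2) * ∑ ρ ∈ Finset.Ico 1 n,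
        ((1 / Real.sin (π * ρ / n) ^ 2 : ℝ) : ℂ) *
        ZMod.stdAddChar (κ * (ρ : ZMod n) ^ 2 * (Nf x (chain x (i + 1)) : ZMod n))) := by
    intro i hi
    have hi' : i ≤ x.length := (Finset.mem_range.1 hi).le
    have h4 : ∀ ρ : ℤ, insL n ι false x i
        (if Even i then conoL n ι (gr n ρ) else muloL n (gr n ρ)) =
        J0 * ZMod.stdAddChar (κ * (ρ : ZMod n) ^ 2 * (Nf x (chain x (i + 1)) : ZMod n)) := by
      intro ρ
      rw [← bqTerm hz2 x κ δ hδ hι1, insL_apply]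
      by_cases hev : Even i
      · rw [if_pos hev, cono_gr hz0 hza hzs hz2 hι1, hE i hi', if_pos hev, zero_smul, zero_add]
      · rw [if_neg hev, mulo_gr hz2 hι1, hE i hi', if_neg hev, zero_smul, add_zero]
    have h5 : (if Even i then cono n ι (bq n) else mulo n (bq n)) =
        (-((n : ℂ) ^ 2 - 1) / 6) • (if Even i then conoL n ι (gr n 0) else muloL n (gr n 0)) +
        (1 / 2 : ℂ) • ∑ ρ ∈ Finset.Ico 1 n, ((1 / Real.sin (π * ρ / n) ^ 2 : ℝ) : ℂ) •
          (if Even i then conoL n ι (gr n (ρ : ℤ)) else muloL n (gr n (ρ : ℤ))) := by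
      by_cases hev : Even i
      · simp only [if_pos hev]
        simp only [← map_smul, ← map_sum, ← map_add]
        rw [← hg]
        rfl
      · simp only [if_neg hev]
        simp only [← map_smul, ← map_sum, ← map_add]
        rw [← hg]
        rfl
    rw [← insL_apply, h5]
    simp only [map_add, map_smul, map_sum, h4, smul_eq_mul]
    rw [Int.cast_zero, zero_pow two_ne_zero, mul_zero, zero_mul, AddChar.map_zero_eq_one]
    simp only [Int.cast_natCast]
    rw [mul_add, Finset.mul_sum, Finset.mul_sum, Finset.mul_sum]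
    congr 1
    · ring
    · refine Finset.sum_congr rfl fun ρ _ => ?_
      ring
  have e3 : ∀ RR : ℕ → ℂ, ∑ j ∈ Finset.range (x.length + 1),
      (-1 : ℂ) ^ j * (J0 * (-(1 / 4) * RR j)) =
      -(J0 * ((1 / 4) * ∑ j ∈ Finset.range (x.length + 1), (-1 : ℂ) ^ j * RR j)) := by
    intro RR
    simp only [Finset.mul_sum, ← Finset.sum_neg_distrib]
    refine Finset.sum_congr rfl fun j _ => ?_
    ring
  have e4 : ∀ (c : ℂ) (S : ℕ → ℂ), ∑ i ∈ Finset.range x.length,
      ((x.getD i 0 : ℤ) : ℂ) * (J0 * (c + (1 / 2) * S i)) =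
      J0 * (c * (∑ i ∈ Finset.range x.length, ((x.getD i 0 : ℤ) : ℂ)) +
        (1 / 2) * ∑ i ∈ Finset.range x.length, ((x.getD i 0 : ℤ) : ℂ) * S i) := by
    intro c S
    simp only [Finset.mul_sum, mul_add, ← Finset.sum_add_distrib]
    refine Finset.sum_congr rfl fun i _ => ?_
    ring
  have e1 : ∑ j ∈ Finset.range (x.length + 1), (-1 : ℂ) ^ j * ins n ι (Th n ι) false x j 0 =
      ∑ j ∈ Finset.range (x.length + 1), (-1 : ℂ) ^ j *
      (J0 * (-(1 / 4) * ∑ R : ZMod n × ZMod n, ct n (detm n R (chain x j)) *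
        ct n (detm n R (chain x (j + 1))) * ZMod.stdAddChar (κ * Nm n x R))) :=
    Finset.sum_congr rfl fun j hj => by rw [h1 j hj]
  have e2 : ∑ i ∈ Finset.range x.length, ((x.getD i 0 : ℤ) : ℂ) *
      ins n ι (if Even i then cono n ι (bq n) else mulo n (bq n)) false x i 0 =
      ∑ i ∈ Finset.range x.length, ((x.getD i 0 : ℤ) : ℂ) *
      (J0 * (-((n : ℂ) ^ 2 - 1) / 6 + (1 / 2) * ∑ ρ ∈ Finset.Ico 1 n,
        ((1 / Real.sin (π * ρ / n) ^ 2 : ℝ) : ℂ) *
        ZMod.stdAddChar (κ * (ρ : ZMod n) ^ 2 * (Nf x (chain x (i + 1)) : ZMod n)))) :=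
    Finset.sum_congr rfl fun i hi => by rw [h3 i hi]
  rw [e1, e2, e3, e4, Sx, ← sum_getD]
  ring

end Pool.Agent.TB
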