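import Pool.Agent.TB.Stmts2

/-!
The limit of the cot sums of one quadratic form (module LIM).
-/

open Filter Topology
open scoped Real BigOperators

namespace Pool.Agent.TB.LIM

/-- the weight `(π/n) cot(π m/n)`, `n = 2^s` -/
noncomputable def w (s : ℕ) (m : ℤ) : ℝ := (π / 2 ^ s) * Real.cot (π * m / 2 ^ s)

theorem cot_add_int_mul_pi (x : ℝ) (k : ℤ) : Real.cot (x + k * π) = Real.cot x := by
  rw [Real.cot_eq_cos_div_sin, Real.cot_eq_cos_div_sin, Real.cos_add_int_mul_pi,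
    Real.sin_add_int_mul_pi]
  have h : ((-1 : ℝ) ^ k) ≠ 0 := zpow_ne_zero _ (by norm_num)
  rw [mul_div_mul_left _ _ h]

theorem cot_congr (s : ℕ) (m m' : ℤ) (h : (2 ^ s : ℤ) ∣ m - m') :
    Real.cot (π * m / 2 ^ s) = Real.cot (π * m' / 2 ^ s) := by
  obtain ⟨k, hk⟩ := h
  have h1 : π * m / 2 ^ s = π * m' / 2 ^ s + k * π := by
    have h2 : (m : ℝ) = m' + 2 ^ s * k := by
      have : m = m' + 2 ^ s * k := by linarith
      rw [this]; push_cast; ring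
    rw [h2]
    have h3 : (2 : ℝ) ^ s ≠ 0 := by positivity
    field_simp
  rw [h1, cot_add_int_mul_pi]

theorem w_congr (s : ℕ) (m m' : ℤ) (h : (2 ^ s : ℤ) ∣ m - m') : w s m = w s m' := by
  unfold w
  rw [cot_congr s m m' h]

theorem abs_cot_le {x : ℝ} (hx : x ≠ 0) (hx2 : |x| ≤ π / 2) : |Real.cot x| ≤ 1 / |x| := by
  wlog h : 0 < x with H
  · have hx3 : 0 < -x := by
      rcases lt_trichotomy x 0 with h1 | h1 | h1
      · linarith
      · exact absurd h1 hx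
      · exact absurd h1 h
    have := H (x := -x) (by linarith) (by rwa [abs_neg]) hx3
    rw [Real.cot_eq_cos_div_sin, Real.cos_neg, Real.sin_neg, div_neg, abs_neg, abs_neg,
      ← Real.cot_eq_cos_div_sin] at this
    exact this
  rw [abs_of_pos h] at hx2 ⊢
  have hs : 0 < Real.sin x := Real.sin_pos_of_pos_of_lt_pi h (by linarith [Real.pi_pos])
  have hc : 0 ≤ Real.cos x := Real.cos_nonneg_of_neg_pi_div_two_le_of_le (by linarith) hx2
  rw [Real.cot_eq_cos_div_sin, abs_of_nonneg (div_nonneg hc hs.le), div_le_div_iff₀ hs h, one_mul]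
  rcases hx2.eq_or_lt with h1 | h1
  · rw [h1, Real.cos_pi_div_two, zero_mul]
    rw [← h1]; exact hs.le
  · have hc' : 0 < Real.cos x := Real.cos_pos_of_mem_Ioo ⟨by linarith, h1⟩
    have h2 := Real.le_tan h.le h1
    rw [Real.tan_eq_sin_div_cos, le_div_iff₀ hc'] at h2
    linarith

theorem abs_w_le (s : ℕ) (m : ℤ) (hm : m ≠ 0) (hm2 : 2 * |m| ≤ 2 ^ s) :
    |w s m| ≤ 1 / |(m : ℝ)| := by
  have hpos : (0 : ℝ) < 2 ^ s := by positivity
  have hm' : (m : ℝ) ≠ 0 := by exact_mod_cast hm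
  have hx : π * m / 2 ^ s ≠ 0 := by
    have := Real.pi_pos.ne'
    positivity
  have hx2 : |π * m / 2 ^ s| ≤ π / 2 := by
    rw [abs_div, abs_mul, abs_of_pos Real.pi_pos, abs_of_pos hpos, div_le_div_iff₀ hpos (by norm_num)]
    have h3 : (2 * |(m : ℝ)|) ≤ 2 ^ s := by exact_mod_cast hm2
    nlinarith [Real.pi_pos]
  have h1 := abs_cot_le hx hx2
  unfold w
  rw [abs_mul, abs_of_pos (div_pos Real.pi_pos hpos)]
  calc π / 2 ^ s * |Real.cot (π * m / 2 ^ s)| ≤ π / 2 ^ s * (1 / |π * m / 2 ^ s|) :=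
        mul_le_mul_of_nonneg_left h1 (div_pos Real.pi_pos hpos).le
    _ = 1 / |(m : ℝ)| := by
        rw [abs_div, abs_mul, abs_of_pos Real.pi_pos, abs_of_pos hpos]
        have := Real.pi_pos.ne'
        have h4 : |(m : ℝ)| ≠ 0 := abs_ne_zero.2 hm'
        field_simp

theorem tendsto_w (m : ℤ) (hm : m ≠ 0) : Tendsto (fun s => w s m) atTop (𝓝 (1 / (m : ℝ))) := by
  have hm' : (m : ℝ) ≠ 0 := by exact_mod_cast hm
  have h1 : Tendsto (fun s : ℕ => π * m / 2 ^ s) atTop (𝓝 0) := by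
    have h2 : Tendsto (fun s : ℕ => (π * m) * (1 / 2 : ℝ) ^ s) atTop (𝓝 ((π * m) * 0)) :=
      (tendsto_pow_atTop_nhds_zero_of_lt_one (by norm_num) (by norm_num)).const_mul _
    rw [mul_zero] at h2
    refine h2.congr fun s => ?_
    rw [one_div, inv_pow, div_eq_mul_inv]
  have h3 : Tendsto (fun s : ℕ => (1 / (m : ℝ)) * (Real.cos (π * m / 2 ^ s) /
      Real.sinc (π * m / 2 ^ s))) atTop (𝓝 ((1 / (m : ℝ)) * (Real.cos 0 / Real.sinc 0))) := by
    refine Tendsto.const_mul _ (Tendsto.div ?_ ?_ ?_)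
    · exact (Real.continuous_cos.tendsto 0).comp h1
    · exact (Real.continuous_sinc.tendsto 0).comp h1
    · rw [Real.sinc_zero]; norm_num
  rw [Real.cos_zero, Real.sinc_zero, div_one, mul_one] at h3
  refine h3.congr fun s => ?_
  have hpos : (0 : ℝ) < 2 ^ s := by positivity
  have hx : π * m / 2 ^ s ≠ 0 := by
    have := Real.pi_pos.ne'
    positivity
  unfold w
  rw [Real.sinc_of_ne_zero hx, Real.cot_eq_cos_div_sin]
  have := Real.pi_pos.ne'
  by_cases hs : Real.sin (π * m / 2 ^ s) = 0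
  · rw [hs]; simp
  · field_simp

/-- `Σ 1/m²` over integers with `|m| > K` -/
theorem sum_inv_sq (K : ℕ) (F : Finset ℤ) (hF : ∀ m ∈ F, (K : ℤ) < |m|) :
    ∑ m ∈ F, 1 / (m : ℝ) ^ 2 ≤ 4 / ((K : ℝ) + 1) := by
  have key : ∀ G : Finset ℕ, (∀ m ∈ G, K < m) → ∑ m ∈ G, 1 / (m : ℝ) ^ 2 ≤ 2 / ((K : ℝ) + 1) := by
    intro G hG
    have hsub : G ⊆ Finset.Ioo K (G.sup id + 1) := by
      intro m hm
      rw [Finset.mem_Ioo]
      refine ⟨hG m hm, Nat.lt_succ_of_le ?_⟩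
      exact Finset.le_sup (f := id) hm
    calc ∑ m ∈ G, 1 / (m : ℝ) ^ 2 ≤ ∑ m ∈ Finset.Ioo K (G.sup id + 1), 1 / (m : ℝ) ^ 2 :=
          Finset.sum_le_sum_of_subset_of_nonneg hsub fun _ _ _ => by positivity
      _ = ∑ m ∈ Finset.Ioo K (G.sup id + 1), ((m : ℝ) ^ 2)⁻¹ := by simp only [one_div]
      _ ≤ 2 / ((K : ℝ) + 1) := sum_Ioo_inv_sq_le K _
  have hsplit : ∑ m ∈ F, 1 / (m : ℝ) ^ 2 =
      ∑ m ∈ F.filter (fun m => 0 < m), 1 / (m : ℝ) ^ 2 +
        ∑ m ∈ F.filter (fun m => ¬ 0 < m), 1 / (m : ℝ) ^ 2 :=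
    (Finset.sum_filter_add_sum_filter_not F _ _).symm
  have h1 : ∑ m ∈ F.filter (fun m => 0 < m), 1 / (m : ℝ) ^ 2 ≤ 2 / ((K : ℝ) + 1) := by
    have hinj : Set.InjOn Int.natAbs (F.filter (fun m => 0 < m) : Set ℤ) := by
      intro a ha b hb hab
      rw [Finset.mem_coe, Finset.mem_filter] at ha hb
      have ha2 := ha.2
      have hb2 := hb.2
      omega
    have h2 := key ((F.filter (fun m => 0 < m)).image Int.natAbs) (by
      intro m hm
      rw [Finset.mem_image] at hm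
      obtain ⟨a, ha, rfl⟩ := hm
      have := hF a (Finset.mem_of_mem_filter a ha)
      rw [Int.abs_eq_natAbs] at this
      omega)
    rw [Finset.sum_image hinj] at h2
    refine le_trans (le_of_eq ?_) h2
    refine Finset.sum_congr rfl fun a ha => ?_
    rw [Nat.cast_natAbs, Int.cast_abs, sq_abs]
  have h3 : ∑ m ∈ F.filter (fun m => ¬ 0 < m), 1 / (m : ℝ) ^ 2 ≤ 2 / ((K : ℝ) + 1) := by
    have hinj : Set.InjOn Int.natAbs (F.filter (fun m => ¬ 0 < m) : Set ℤ) := by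
      intro a ha b hb hab
      rw [Finset.mem_coe, Finset.mem_filter] at ha hb
      have ha2 := ha.2
      have hb2 := hb.2
      omega
    have h2 := key ((F.filter (fun m => ¬ 0 < m)).image Int.natAbs) (by
      intro m hm
      rw [Finset.mem_image] at hm
      obtain ⟨a, ha, rfl⟩ := hm
      have := hF a (Finset.mem_of_mem_filter a ha)
      rw [Int.abs_eq_natAbs] at this
      omega)
    rw [Finset.sum_image hinj] at h2
    refine le_trans (le_of_eq ?_) h2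
    refine Finset.sum_congr rfl fun a ha => ?_
    rw [Nat.cast_natAbs, Int.cast_abs, sq_abs]
  rw [hsplit]
  calc _ ≤ 2 / ((K : ℝ) + 1) + 2 / ((K : ℝ) + 1) := add_le_add h1 h3
    _ = 4 / ((K : ℝ) + 1) := by ring

/-! ### The congruence -/

section

variable {A B C N0 : ℤ}

theorem odd_odd (hA : Even A) (hC : Even C) (hN : Odd N0) {a b : ℤ}
    (h : (2 : ℤ) ∣ A * a ^ 2 + B * a * b + C * b ^ 2 - N0) : Odd a ∧ Odd b := by
  have h1 : Odd (B * a * b) := by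
    have e : B * a * b = (A * a ^ 2 + B * a * b + C * b ^ 2 - N0) + N0 - A * a ^ 2 - C * b ^ 2 := by
      ring
    rw [e]
    obtain ⟨k, hk⟩ := h
    rw [hk]
    exact (((even_two_mul k).add_odd hN).sub_even (hA.mul_right _)).sub_even (hC.mul_right _)
  rw [Int.odd_mul, Int.odd_mul] at h1
  exact ⟨h1.1.2, h1.2⟩

theorem inj_right (hB : Odd B) (hC : Even C) {s : ℕ} {a b b' : ℤ}
    (ha : Odd a) (h : (2 ^ s : ℤ) ∣ A * a ^ 2 + B * a * b + C * b ^ 2 - N0)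
    (h' : (2 ^ s : ℤ) ∣ A * a ^ 2 + B * a * b' + C * b' ^ 2 - N0) : (2 ^ s : ℤ) ∣ b - b' := by
  have h1 : (2 ^ s : ℤ) ∣ (C * (b + b') + B * a) * (b - b') := by
    have := dvd_sub h h'
    have e : A * a ^ 2 + B * a * b + C * b ^ 2 - N0 - (A * a ^ 2 + B * a * b' + C * b' ^ 2 - N0) =
      (C * (b + b') + B * a) * (b - b') := by ring
    rwa [e] at this
  have h2 : Odd (C * (b + b') + B * a) := (hC.mul_right _).add_odd (hB.mul ha)
  exact (IsCoprime.pow_left (Int.isCoprime_two_left.2 h2)).dvd_of_dvd_mul_left h1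

theorem inj_left (hA : Even A) (hB : Odd B) {s : ℕ} {a a' b : ℤ}
    (hb : Odd b) (h : (2 ^ s : ℤ) ∣ A * a ^ 2 + B * a * b + C * b ^ 2 - N0)
    (h' : (2 ^ s : ℤ) ∣ A * a' ^ 2 + B * a' * b + C * b ^ 2 - N0) : (2 ^ s : ℤ) ∣ a - a' := by
  have h1 : (2 ^ s : ℤ) ∣ (A * (a + a') + B * b) * (a - a') := by
    have := dvd_sub h h'
    have e : A * a ^ 2 + B * a * b + C * b ^ 2 - N0 - (A * a' ^ 2 + B * a' * b + C * b ^ 2 - N0) =
      (A * (a + a') + B * b) * (a - a') := by ring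
    rwa [e] at this
  have h2 : Odd (A * (a + a') + B * b) := (hA.mul_right _).add_odd (hB.mul hb)
  exact (IsCoprime.pow_left (Int.isCoprime_two_left.2 h2)).dvd_of_dvd_mul_left h1

variable (A B C N0)

/-- The solutions modulo `2^s`. -/
def E (s : ℕ) : Finset (ZMod (2 ^ s) × ZMod (2 ^ s)) :=
  Finset.univ.filter fun e =>
    (A : ZMod (2 ^ s)) * e.1 ^ 2 + B * e.1 * e.2 + C * e.2 ^ 2 = (N0 : ZMod (2 ^ s))

variable {A B C N0}

theorem mem_E {s : ℕ} {e : ZMod (2 ^ s) × ZMod (2 ^ s)} : e ∈ E A B C N0 s ↔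
    (2 ^ s : ℤ) ∣ A * e.1.valMinAbs ^ 2 + B * e.1.valMinAbs * e.2.valMinAbs +
      C * e.2.valMinAbs ^ 2 - N0 := by
  have h := ZMod.intCast_zmod_eq_zero_iff_dvd (A * e.1.valMinAbs ^ 2 +
    B * e.1.valMinAbs * e.2.valMinAbs + C * e.2.valMinAbs ^ 2 - N0) (2 ^ s)
  push_cast at h
  rw [← h, sub_eq_zero]
  unfold E
  rw [Finset.mem_filter]
  simp only [Finset.mem_univ, true_and]

theorem abs_le_half {s : ℕ} (a : ZMod (2 ^ s)) : 2 * |a.valMinAbs| ≤ 2 ^ s := by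
  have h := ZMod.valMinAbs_mem_Ioc a
  rw [Set.mem_Ioc] at h
  push_cast at h
  rcases abs_cases a.valMinAbs with h1 | h1 <;> rw [h1.1] <;> linarith [h.1, h.2]

theorem val_of_small {s : ℕ} {m : ℤ} (hm : 2 * |m| < 2 ^ s) : ((m : ZMod (2 ^ s))).valMinAbs = m := by
  rw [ZMod.valMinAbs_spec]
  refine ⟨rfl, ?_⟩
  rw [Set.mem_Ioc]
  push_cast
  rcases abs_cases m with h1 | h1 <;> rw [h1.1] at hm <;> constructor <;> linarith [h1.2]

theorem ct_eq {s : ℕ} (a : ZMod (2 ^ s)) : ((π : ℂ) / 2 ^ s) * ct (2 ^ s) a =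
    ((w s a.valMinAbs : ℝ) : ℂ) := by
  have h : ((2 ^ s : ℕ) : ℤ) ∣ (a.val : ℤ) - a.valMinAbs := by
    rw [← ZMod.intCast_zmod_eq_zero_iff_dvd]
    push_cast
    rw [ZMod.natCast_val, ZMod.cast_id, sub_self]
  push_cast at h
  have h2 := w_congr s _ _ h
  rw [← h2]
  unfold w ct
  push_cast
  rfl

/-- The tail estimate. -/
theorem tail1 (F : Finset (ℤ × ℤ)) (h1 : Set.InjOn Prod.fst (F : Set (ℤ × ℤ)))
    (h2 : Set.InjOn Prod.snd (F : Set (ℤ × ℤ))) (K : ℕ) (hK : ∀ e ∈ F, (K : ℤ) < |e.1|)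
    (h0 : ∀ e ∈ F, e.2 ≠ 0) :
    ∑ e ∈ F, (1 / |(e.1 : ℝ)|) * (1 / |(e.2 : ℝ)|) ≤ 4 / √((K : ℝ) + 1) := by
  have hKp : (0 : ℝ) < (K : ℝ) + 1 := by positivity
  set t := √((K : ℝ) + 1) with ht
  have htp : 0 < t := Real.sqrt_pos.2 hKp
  have htt : t * t = (K : ℝ) + 1 := Real.mul_self_sqrt hKp.le
  have a1 : ∑ e ∈ F, 1 / (e.1 : ℝ) ^ 2 ≤ 4 / ((K : ℝ) + 1) := by
    have := sum_inv_sq K (F.image Prod.fst) (by
      intro m hm
      rw [Finset.mem_image] at hm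
      obtain ⟨e, he, rfl⟩ := hm
      exact hK e he)
    rwa [Finset.sum_image h1] at this
  have a2 : ∑ e ∈ F, 1 / (e.2 : ℝ) ^ 2 ≤ 4 := by
    have := sum_inv_sq 0 (F.image Prod.snd) (by
      intro m hm
      rw [Finset.mem_image] at hm
      obtain ⟨e, he, rfl⟩ := hm
      have := abs_pos.2 (h0 e he)
      exact_mod_cast this)
    rw [Finset.sum_image h2] at this
    simpa using this
  have a3 : ∀ e ∈ F, (1 / |(e.1 : ℝ)|) * (1 / |(e.2 : ℝ)|) ≤
      (t / 2) * (1 / (e.1 : ℝ) ^ 2) + (1 / (2 * t)) * (1 / (e.2 : ℝ) ^ 2) := by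
    intro e _
    rw [← sq_abs (e.1 : ℝ), ← sq_abs (e.2 : ℝ)]
    set u := 1 / |(e.1 : ℝ)|
    set v := 1 / |(e.2 : ℝ)|
    have e1 : 1 / |(e.1 : ℝ)| ^ 2 = u ^ 2 := by simp [u]
    have e2 : 1 / |(e.2 : ℝ)| ^ 2 = v ^ 2 := by simp [v]
    rw [e1, e2]
    have e3 : (t / 2) * u ^ 2 + (1 / (2 * t)) * v ^ 2 - u * v = (t * u - v) ^ 2 / (2 * t) := by
      field_simp
      ring
    have e4 : 0 ≤ (t * u - v) ^ 2 / (2 * t) := by positivity
    linarith
  calc ∑ e ∈ F, (1 / |(e.1 : ℝ)|) * (1 / |(e.2 : ℝ)|)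
      ≤ ∑ e ∈ F, ((t / 2) * (1 / (e.1 : ℝ) ^ 2) + (1 / (2 * t)) * (1 / (e.2 : ℝ) ^ 2)) :=
        Finset.sum_le_sum a3
    _ = (t / 2) * ∑ e ∈ F, 1 / (e.1 : ℝ) ^ 2 + (1 / (2 * t)) * ∑ e ∈ F, 1 / (e.2 : ℝ) ^ 2 := by
        rw [Finset.sum_add_distrib, Finset.mul_sum, Finset.mul_sum]
    _ ≤ (t / 2) * (4 / ((K : ℝ) + 1)) + (1 / (2 * t)) * 4 := by
        gcongr
    _ = 4 / t := by
        rw [← htt]
        field_simp
        ring

theorem main_est (hA : Even A) (hB : Odd B) (hC : Even C) (hN : Odd N0) (Z : Finset (ℤ × ℤ))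
    (hZ : ∀ p : ℤ × ℤ, p ∈ Z ↔ A * p.1 ^ 2 + B * p.1 * p.2 + C * p.2 ^ 2 = N0) (K : ℕ)
    (hK : ∀ p ∈ Z, |p.1| ≤ K ∧ |p.2| ≤ K) (s : ℕ)
    (hs : (|A| + |B| + |C|) * (K : ℤ) ^ 2 + |N0| + 2 * K < 2 ^ s) :
    |∑ e ∈ E A B C N0 s, w s e.1.valMinAbs * w s e.2.valMinAbs -
      ∑ p ∈ Z, w s p.1 * w s p.2| ≤ 8 / √((K : ℝ) + 1) := by
  have hs0 : 0 < |N0| := abs_pos.2 (by rintro rfl; exact absurd hN (by decide))
  have hs1 : 1 ≤ s := by
    rcases Nat.eq_zero_or_pos s with h | h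
    · subst h
      rw [pow_zero] at hs
      have : 0 ≤ (|A| + |B| + |C|) * (K : ℤ) ^ 2 := by positivity
      omega
    · exact h
  -- the set of representatives
  set F : Finset (ℤ × ℤ) := (E A B C N0 s).image fun e => (e.1.valMinAbs, e.2.valMinAbs) with hF
  have hinj : Function.Injective fun e : ZMod (2 ^ s) × ZMod (2 ^ s) =>
      (e.1.valMinAbs, e.2.valMinAbs) := by
    intro e e' h
    have h1 := (Prod.mk.inj h).1
    have h2 := (Prod.mk.inj h).2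
    exact Prod.ext (ZMod.injective_valMinAbs h1) (ZMod.injective_valMinAbs h2)
  have hsum : ∑ e ∈ E A B C N0 s, w s e.1.valMinAbs * w s e.2.valMinAbs =
      ∑ p ∈ F, w s p.1 * w s p.2 := by
    rw [hF, Finset.sum_image (hinj.injOn)]
  have hmem : ∀ p ∈ F, (2 ^ s : ℤ) ∣ A * p.1 ^ 2 + B * p.1 * p.2 + C * p.2 ^ 2 - N0 ∧
      2 * |p.1| ≤ 2 ^ s ∧ 2 * |p.2| ≤ 2 ^ s := by
    intro p hp
    rw [hF, Finset.mem_image] at hp
    obtain ⟨e, he, rfl⟩ := hp
    exact ⟨mem_E.1 he, abs_le_half _, abs_le_half _⟩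
  have hodd : ∀ p ∈ F, Odd p.1 ∧ Odd p.2 := by
    intro p hp
    refine odd_odd hA hC hN (dvd_trans ?_ (hmem p hp).1)
    exact dvd_pow_self 2 (by omega)
  have hrep : ∀ p ∈ F, ∃ e ∈ E A B C N0 s, (e.1.valMinAbs, e.2.valMinAbs) = p := by
    intro p hp
    rw [hF, Finset.mem_image] at hp
    exact hp
  have hinj1 : Set.InjOn Prod.fst (F : Set (ℤ × ℤ)) := by
    intro p hp q hq hpq
    rw [Finset.mem_coe] at hp hq
    obtain ⟨e, he, rfl⟩ := hrep p hp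
    obtain ⟨e', he', rfl⟩ := hrep q hq
    have h1 := (hmem _ hp).1
    have h2 := (hmem _ hq).1
    simp only at hpq h1 h2
    rw [← hpq] at h2
    have h3 := inj_right hB hC (hodd _ hp).1 h1 h2
    have h4 : e.2 = e'.2 := by
      have h5 := (ZMod.intCast_zmod_eq_zero_iff_dvd (e.2.valMinAbs - e'.2.valMinAbs) (2 ^ s)).2
        (by push_cast; exact h3)
      push_cast at h5
      rw [sub_eq_zero] at h5
      exact h5
    rw [hpq, h4]
  have hinj2 : Set.InjOn Prod.snd (F : Set (ℤ × ℤ)) := by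
    intro p hp q hq hpq
    rw [Finset.mem_coe] at hp hq
    obtain ⟨e, he, rfl⟩ := hrep p hp
    obtain ⟨e', he', rfl⟩ := hrep q hq
    have h1 := (hmem _ hp).1
    have h2 := (hmem _ hq).1
    simp only at hpq h1 h2
    rw [← hpq] at h2
    have h3 := inj_left hA hB (hodd _ hp).2 h1 h2
    have h4 : e.1 = e'.1 := by
      have h5 := (ZMod.intCast_zmod_eq_zero_iff_dvd (e.1.valMinAbs - e'.1.valMinAbs) (2 ^ s)).2
        (by push_cast; exact h3)
      push_cast at h5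
      rw [sub_eq_zero] at h5
      exact h5
    rw [hpq, h4]
  have hZF : Z = F.filter fun p : ℤ × ℤ => |p.1| ≤ (K : ℤ) ∧ |p.2| ≤ (K : ℤ) := by
    ext p
    rw [Finset.mem_filter, hZ]
    constructor
    · intro hp
      have hpK := hK p ((hZ p).2 hp)
      refine ⟨?_, hpK⟩
      rw [hF, Finset.mem_image]
      have hAK : 0 ≤ (|A| + |B| + |C|) * (K : ℤ) ^ 2 := by positivity
      have v1 : ((p.1 : ℤ) : ZMod (2 ^ s)).valMinAbs = p.1 := val_of_small (by linarith [hpK.1])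
      have v2 : ((p.2 : ℤ) : ZMod (2 ^ s)).valMinAbs = p.2 := val_of_small (by linarith [hpK.2])
      refine ⟨((p.1 : ZMod (2 ^ s)), (p.2 : ZMod (2 ^ s))), ?_, ?_⟩
      · rw [mem_E, v1, v2, hp, sub_self]
        exact dvd_zero _
      · show (((p.1 : ℤ) : ZMod (2 ^ s)).valMinAbs, ((p.2 : ℤ) : ZMod (2 ^ s)).valMinAbs) = p
        rw [v1, v2]
    · rintro ⟨hp, hp1, hp2⟩
      have h1 := (hmem p hp).1
      have h2 : |A * p.1 ^ 2 + B * p.1 * p.2 + C * p.2 ^ 2 - N0| < 2 ^ s := by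
        have b1 : p.1 ^ 2 ≤ (K : ℤ) ^ 2 := by
          rw [← sq_abs p.1]; exact pow_le_pow_left₀ (abs_nonneg _) hp1 2
        have b2 : p.2 ^ 2 ≤ (K : ℤ) ^ 2 := by
          rw [← sq_abs p.2]; exact pow_le_pow_left₀ (abs_nonneg _) hp2 2
        have b3 : |p.1| * |p.2| ≤ (K : ℤ) ^ 2 := by
          rw [sq]; exact mul_le_mul hp1 hp2 (abs_nonneg _) (by positivity)
        have c1 : |A * p.1 ^ 2| ≤ |A| * (K : ℤ) ^ 2 := by
          rw [abs_mul, abs_of_nonneg (sq_nonneg p.1)]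
          exact mul_le_mul_of_nonneg_left b1 (abs_nonneg _)
        have c2 : |B * p.1 * p.2| ≤ |B| * (K : ℤ) ^ 2 := by
          rw [abs_mul, abs_mul, mul_assoc]
          exact mul_le_mul_of_nonneg_left b3 (abs_nonneg _)
        have c3 : |C * p.2 ^ 2| ≤ |C| * (K : ℤ) ^ 2 := by
          rw [abs_mul, abs_of_nonneg (sq_nonneg p.2)]
          exact mul_le_mul_of_nonneg_left b2 (abs_nonneg _)
        have c4 := abs_sub (A * p.1 ^ 2 + B * p.1 * p.2 + C * p.2 ^ 2) N0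
        have c5 := abs_add_le (A * p.1 ^ 2 + B * p.1 * p.2) (C * p.2 ^ 2)
        have c6 := abs_add_le (A * p.1 ^ 2) (B * p.1 * p.2)
        have c7 : (0 : ℤ) ≤ 2 * K := by positivity
        nlinarith
      have h3 := Int.eq_zero_of_abs_lt_dvd h1 h2
      linarith
  have hsplit : ∑ p ∈ F, w s p.1 * w s p.2 - ∑ p ∈ Z, w s p.1 * w s p.2 =
      ∑ p ∈ F.filter (fun p : ℤ × ℤ => ¬ (|p.1| ≤ (K : ℤ) ∧ |p.2| ≤ (K : ℤ))), w s p.1 * w s p.2 := by
    rw [hZF, ← Finset.sum_filter_add_sum_filter_not F (fun p : ℤ × ℤ => |p.1| ≤ (K : ℤ) ∧ |p.2| ≤ (K : ℤ))]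
    ring
  rw [hsum, hsplit]
  have hb : ∀ p ∈ F, |w s p.1 * w s p.2| ≤ (1 / |(p.1 : ℝ)|) * (1 / |(p.2 : ℝ)|) := by
    intro p hp
    have o := hodd p hp
    have n1 : p.1 ≠ 0 := by rintro h; rw [h] at o; exact absurd o.1 (by decide)
    have n2 : p.2 ≠ 0 := by rintro h; rw [h] at o; exact absurd o.2 (by decide)
    rw [abs_mul]
    exact mul_le_mul (abs_w_le s _ n1 (hmem p hp).2.1) (abs_w_le s _ n2 (hmem p hp).2.2)
      (abs_nonneg _) (by positivity)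
  have hn : ∀ p ∈ F, p.1 ≠ 0 ∧ p.2 ≠ 0 := by
    intro p hp
    have o := hodd p hp
    constructor
    · rintro h; rw [h] at o; exact absurd o.1 (by decide)
    · rintro h; rw [h] at o; exact absurd o.2 (by decide)
  set F1 := F.filter fun p => (K : ℤ) < |p.1| with hF1
  set F2 := F.filter fun p => (K : ℤ) < |p.2| with hF2
  have t1 : ∑ e ∈ F1, (1 / |(e.1 : ℝ)|) * (1 / |(e.2 : ℝ)|) ≤ 4 / √((K : ℝ) + 1) := by
    refine tail1 F1 (hinj1.mono ?_) (hinj2.mono ?_) K ?_ ?_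
    · exact_mod_cast Finset.filter_subset _ _
    · exact_mod_cast Finset.filter_subset _ _
    · intro e he; exact (Finset.mem_filter.1 he).2
    · intro e he; exact (hn e (Finset.mem_filter.1 he).1).2
  have t2 : ∑ e ∈ F2, (1 / |(e.1 : ℝ)|) * (1 / |(e.2 : ℝ)|) ≤ 4 / √((K : ℝ) + 1) := by
    have hsw : Set.InjOn (Prod.swap : ℤ × ℤ → ℤ × ℤ) (F2 : Set (ℤ × ℤ)) :=
      Prod.swap_injective.injOn
    have := tail1 (F2.image Prod.swap) (by
        intro p hp q hq hpq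
        rw [Finset.mem_coe, Finset.mem_image] at hp hq
        obtain ⟨p', hp', rfl⟩ := hp
        obtain ⟨q', hq', rfl⟩ := hq
        congr 1
        exact hinj2 (Finset.mem_coe.2 (Finset.mem_filter.1 hp').1)
          (Finset.mem_coe.2 (Finset.mem_filter.1 hq').1) hpq) (by
        intro p hp q hq hpq
        rw [Finset.mem_coe, Finset.mem_image] at hp hq
        obtain ⟨p', hp', rfl⟩ := hp
        obtain ⟨q', hq', rfl⟩ := hq
        congr 1
        exact hinj1 (Finset.mem_coe.2 (Finset.mem_filter.1 hp').1)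
          (Finset.mem_coe.2 (Finset.mem_filter.1 hq').1) hpq) K (by
        intro p hp
        rw [Finset.mem_image] at hp
        obtain ⟨p', hp', rfl⟩ := hp
        exact (Finset.mem_filter.1 hp').2) (by
        intro p hp
        rw [Finset.mem_image] at hp
        obtain ⟨p', hp', rfl⟩ := hp
        exact (hn p' (Finset.mem_filter.1 hp').1).1)
    rw [Finset.sum_image hsw] at this
    refine le_trans (le_of_eq ?_) this
    refine Finset.sum_congr rfl fun p _ => ?_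
    rw [mul_comm]
    rfl
  calc |∑ p ∈ F.filter (fun p : ℤ × ℤ => ¬ (|p.1| ≤ (K : ℤ) ∧ |p.2| ≤ (K : ℤ))), w s p.1 * w s p.2|
      ≤ ∑ p ∈ F.filter (fun p : ℤ × ℤ => ¬ (|p.1| ≤ (K : ℤ) ∧ |p.2| ≤ (K : ℤ))), |w s p.1 * w s p.2| :=
        Finset.abs_sum_le_sum_abs _ _
    _ ≤ ∑ p ∈ F.filter (fun p : ℤ × ℤ => ¬ (|p.1| ≤ (K : ℤ) ∧ |p.2| ≤ (K : ℤ))),
        (1 / |(p.1 : ℝ)|) * (1 / |(p.2 : ℝ)|) :=
        Finset.sum_le_sum fun p hp => hb p (Finset.mem_filter.1 hp).1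
    _ ≤ ∑ p ∈ F1 ∪ F2, (1 / |(p.1 : ℝ)|) * (1 / |(p.2 : ℝ)|) := by
        refine Finset.sum_le_sum_of_subset_of_nonneg ?_ fun _ _ _ => by positivity
        intro p hp
        rw [Finset.mem_filter] at hp
        rw [Finset.mem_union, hF1, hF2, Finset.mem_filter, Finset.mem_filter]
        by_cases h : |p.1| ≤ K
        · right
          exact ⟨hp.1, not_le.1 fun h' => hp.2 ⟨h, h'⟩⟩
        · left
          exact ⟨hp.1, not_le.1 h⟩
    _ ≤ ∑ p ∈ F1, (1 / |(p.1 : ℝ)|) * (1 / |(p.2 : ℝ)|) +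
          ∑ p ∈ F2, (1 / |(p.1 : ℝ)|) * (1 / |(p.2 : ℝ)|) := by
        rw [← Finset.sum_union_inter]
        have : 0 ≤ ∑ p ∈ F1 ∩ F2, (1 / |(p.1 : ℝ)|) * (1 / |(p.2 : ℝ)|) :=
          Finset.sum_nonneg fun _ _ => by positivity
        linarith
    _ ≤ 4 / √((K : ℝ) + 1) + 4 / √((K : ℝ) + 1) := add_le_add t1 t2
    _ = 8 / √((K : ℝ) + 1) := by ring

end

end Pool.Agent.TB.LIM

namespace Pool.Agent.TB

open LIM in
/-- The limit of the cot sums of one quadratic form. -/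
theorem lim : LIM_Stmt := by
  intro A B C N0 hA hB hC hN Z hZ
  have hreal : Tendsto (fun s : ℕ => ∑ e ∈ E A B C N0 s, w s e.1.valMinAbs * w s e.2.valMinAbs)
      atTop (𝓝 (∑ p ∈ Z, 1 / ((p.1 : ℝ) * p.2))) := by
    have hz : ∀ p ∈ Z, p.1 ≠ 0 ∧ p.2 ≠ 0 := by
      intro p hp
      have o := odd_odd (B := B) hA hC hN (a := p.1) (b := p.2) (by
        rw [(hZ p).1 hp, sub_self]; exact dvd_zero _)
      constructor
      · rintro h; rw [h] at o; exact absurd o.1 (by decide)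
      · rintro h; rw [h] at o; exact absurd o.2 (by decide)
    have hlim : Tendsto (fun s : ℕ => ∑ p ∈ Z, w s p.1 * w s p.2) atTop
        (𝓝 (∑ p ∈ Z, 1 / ((p.1 : ℝ) * p.2))) := by
      refine tendsto_finset_sum _ fun p hp => ?_
      have := (tendsto_w p.1 (hz p hp).1).mul (tendsto_w p.2 (hz p hp).2)
      rwa [one_div_mul_one_div] at this
    rw [Metric.tendsto_atTop] at hlim ⊢
    intro ε hε
    obtain ⟨s1, hs1⟩ := hlim (ε / 2) (by positivity)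
    -- a bound for Z
    obtain ⟨K0, hK0⟩ : ∃ K0 : ℕ, ∀ p ∈ Z, |p.1| ≤ K0 ∧ |p.2| ≤ K0 := by
      refine ⟨Z.sup fun p => max p.1.natAbs p.2.natAbs, fun p hp => ?_⟩
      have h := Finset.le_sup (f := fun p : ℤ × ℤ => max p.1.natAbs p.2.natAbs) hp
      simp only [max_le_iff] at h
      constructor
      · rw [Int.abs_eq_natAbs]; exact_mod_cast h.1
      · rw [Int.abs_eq_natAbs]; exact_mod_cast h.2
    obtain ⟨K1, hK1⟩ := exists_nat_gt ((16 / ε) ^ 2)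
    set K := max K0 K1 with hK
    have hKb : ∀ p ∈ Z, |p.1| ≤ K ∧ |p.2| ≤ K := by
      intro p hp
      have := hK0 p hp
      have h2 : (K0 : ℤ) ≤ K := by exact_mod_cast le_max_left K0 K1
      exact ⟨this.1.trans h2, this.2.trans h2⟩
    have hKε : 8 / √((K : ℝ) + 1) < ε / 2 := by
      have h1 : (16 / ε) ^ 2 < (K : ℝ) + 1 := by
        have h2 : (K1 : ℝ) ≤ K := by exact_mod_cast le_max_right K0 K1
        linarith
      have h3 : 16 / ε < √((K : ℝ) + 1) := Real.lt_sqrt_of_sq_lt h1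
      have h4 : 0 < √((K : ℝ) + 1) := Real.sqrt_pos.2 (by positivity)
      rw [div_lt_iff₀ hε] at h3
      rw [div_lt_iff₀ h4]
      linarith
    set M : ℤ := (|A| + |B| + |C|) * (K : ℤ) ^ 2 + |N0| + 2 * K with hM
    obtain ⟨s2, hs2⟩ : ∃ s2 : ℕ, M < 2 ^ s2 := by
      refine ⟨M.natAbs, ?_⟩
      have h1 : M.natAbs < 2 ^ M.natAbs := Nat.lt_two_pow_self
      have h2 : M ≤ M.natAbs := Int.le_natAbs
      have h3 : (M.natAbs : ℤ) < 2 ^ M.natAbs := by exact_mod_cast h1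
      linarith
    refine ⟨max s1 s2, fun s hs => ?_⟩
    have e1 := hs1 s (le_trans (le_max_left _ _) hs)
    have e2 := main_est hA hB hC hN Z hZ K hKb s (by
      have h1 : (2 : ℤ) ^ s2 ≤ 2 ^ s := pow_le_pow_right₀ (by norm_num) (le_trans (le_max_right _ _) hs)
      linarith)
    rw [Real.dist_eq] at e1 ⊢
    have e3 := abs_sub_le (∑ e ∈ E A B C N0 s, w s e.1.valMinAbs * w s e.2.valMinAbs)
      (∑ p ∈ Z, w s p.1 * w s p.2) (∑ p ∈ Z, 1 / ((p.1 : ℝ) * p.2))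
    linarith
  have hc := (Complex.continuous_ofReal.tendsto _).comp hreal
  have hl : ((∑ p ∈ Z, 1 / ((p.1 : ℝ) * p.2) : ℝ) : ℂ) = ∑ p ∈ Z, 1 / ((p.1 : ℂ) * p.2) := by
    push_cast
    rfl
  rw [hl] at hc
  refine hc.congr fun s => ?_
  show ((∑ e ∈ E A B C N0 s, w s e.1.valMinAbs * w s e.2.valMinAbs : ℝ) : ℂ) = _
  rw [Complex.ofReal_sum]
  unfold E
  rw [Finset.sum_filter, Finset.mul_sum, Fintype.sum_prod_type]
  refine Finset.sum_congr rfl fun a _ => ?_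
  rw [Finset.mul_sum]
  refine Finset.sum_congr rfl fun b _ => ?_
  by_cases h : (A : ZMod (2 ^ s)) * a ^ 2 + B * a * b + C * b ^ 2 = N0
  · rw [if_pos h, if_pos h, Complex.ofReal_mul, ← ct_eq, ← ct_eq]
    ring
  · rw [if_neg h, if_neg h, mul_zero]

end Pool.Agent.TB
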