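import Pool.Agent.TB.Stmts2

/-!
CHN: elementary facts on the chain of a word.
-/

namespace Pool.Agent.TB

namespace CHN

lemma det2_smul_add (u v : ℤ × ℤ) (c : ℤ) : det2 v (u + c • v) = -det2 u v := by
  unfold det2
  simp only [Prod.fst_add, Prod.snd_add, Prod.smul_fst, Prod.smul_snd, smul_eq_mul]
  ring

lemma chain_succ (x : List ℤ) (i : ℕ) :
    chain x (i + 2) = chain x i + ((-1) ^ i * 2 * x.getD i 0) • chain x (i + 1) := rfl

lemma det_chain (x : List ℤ) (j : ℕ) : det2 (chain x j) (chain x (j + 1)) = (-1) ^ j := by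
  induction j with
  | zero => simp [chain, det2]
  | succ j ih =>
    rw [chain_succ, det2_smul_add, ih, pow_succ]
    ring

lemma fst_succ (x : List ℤ) (i : ℕ) :
    (chain x (i + 2)).1 = (chain x i).1 + 2 * ((-1) ^ i * x.getD i 0 * (chain x (i + 1)).1) := by
  rw [chain_succ]
  simp only [Prod.fst_add, Prod.smul_fst, smul_eq_mul]
  ring

lemma snd_succ (x : List ℤ) (i : ℕ) :
    (chain x (i + 2)).2 = (chain x i).2 + 2 * ((-1) ^ i * x.getD i 0 * (chain x (i + 1)).2) := by
  rw [chain_succ]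
  simp only [Prod.snd_add, Prod.smul_snd, smul_eq_mul]
  ring

lemma parity (x : List ℤ) (k : ℕ) :
    (Odd (chain x (2 * k)).1 ∧ Even (chain x (2 * k)).2) ∧
      (Even (chain x (2 * k + 1)).1 ∧ Odd (chain x (2 * k + 1)).2) := by
  induction k with
  | zero => simp [chain]
  | succ k ih =>
    have h2 : ∀ z : ℤ, Even (2 * z) := fun z => even_two_mul z
    refine ⟨⟨?_, ?_⟩, ?_, ?_⟩
    · rw [show 2 * (k + 1) = 2 * k + 2 by ring, fst_succ]
      exact ih.1.1.add_even (h2 _)
    · rw [show 2 * (k + 1) = 2 * k + 2 by ring, snd_succ]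
      exact ih.1.2.add (h2 _)
    · rw [show 2 * (k + 1) + 1 = (2 * k + 1) + 2 by ring, fst_succ]
      exact ih.2.1.add (h2 _)
    · rw [show 2 * (k + 1) + 1 = (2 * k + 1) + 2 by ring, snd_succ]
      exact ih.2.2.add_even (h2 _)

lemma par_even (x : List ℤ) (j : ℕ) (h : Even j) :
    Odd (chain x j).1 ∧ Even (chain x j).2 := by
  obtain ⟨k, rfl⟩ := h
  rw [← two_mul]
  exact (parity x k).1

lemma par_odd (x : List ℤ) (j : ℕ) (h : Odd j) :
    Even (chain x j).1 ∧ Odd (chain x j).2 := by
  obtain ⟨k, rfl⟩ := h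
  exact (parity x k).2

lemma growth (x : List ℤ) (hx : ∀ a ∈ x, a ≠ 0) (j : ℕ) (hj : j ≤ x.length) :
    |(chain x j).2| < |(chain x (j + 1)).2| ∧ |(chain x (j + 1)).1| < |(chain x (j + 1)).2| := by
  induction j with
  | zero => simp [chain]
  | succ j ih =>
    obtain ⟨ih1, ih2⟩ := ih (by omega)
    have hc : x.getD j 0 ≠ 0 := by
      have hlt : j < x.length := by omega
      rw [List.getD_eq_getElem _ _ hlt]
      exact hx _ (List.getElem_mem hlt)
    have hc1 : 1 ≤ |x.getD j 0| := Int.one_le_abs hc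
    have e1 : |(chain x (j + 1)).2| < |(chain x (j + 2)).2| := by
      have h1 : 2 * ((-1) ^ j * x.getD j 0 * (chain x (j + 1)).2) =
          (chain x (j + 2)).2 - (chain x j).2 := by
        rw [snd_succ]; ring
      have h2 : |2 * ((-1) ^ j * x.getD j 0 * (chain x (j + 1)).2)| =
          2 * (|x.getD j 0| * |(chain x (j + 1)).2|) := by
        rw [abs_mul, abs_mul, abs_mul, abs_pow]
        simp
      have h3 : |(chain x (j + 2)).2 - (chain x j).2| ≤ |(chain x (j + 2)).2| + |(chain x j).2| :=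
        abs_sub _ _
      have h4 : |(chain x (j + 1)).2| ≤ |x.getD j 0| * |(chain x (j + 1)).2| :=
        le_mul_of_one_le_left (abs_nonneg _) hc1
      rw [← h1, h2] at h3
      linarith
    refine ⟨e1, ?_⟩
    have hdet := det_chain x (j + 1)
    unfold det2 at hdet
    have h5 : (chain x (j + 1)).2 * (chain x (j + 1 + 1)).1 =
        (chain x (j + 1)).1 * (chain x (j + 1 + 1)).2 - (-1) ^ (j + 1) := by
      linarith
    have h6 : |(chain x (j + 1)).2| * |(chain x (j + 1 + 1)).1| ≤
        |(chain x (j + 1)).1| * |(chain x (j + 1 + 1)).2| + 1 := by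
      rw [← abs_mul, ← abs_mul, h5]
      refine (abs_sub _ _).trans ?_
      rw [abs_pow]
      simp
    have h7 : |(chain x (j + 1)).1| ≤ |(chain x (j + 1)).2| - 1 := by omega
    have h8 : |(chain x (j + 1)).2| + 1 ≤ |(chain x (j + 1 + 1)).2| := by
      have := e1
      rw [show j + 2 = j + 1 + 1 by ring] at this
      omega
    have h9 : 0 < |(chain x (j + 1)).2| := lt_of_le_of_lt (abs_nonneg _) ih2
    set Q := |(chain x (j + 1)).2|
    set Q' := |(chain x (j + 1 + 1)).2|
    set P := |(chain x (j + 1)).1|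
    set P' := |(chain x (j + 1 + 1)).1|
    have h10 : P * Q' ≤ (Q - 1) * Q' := mul_le_mul_of_nonneg_right h7 (abs_nonneg _)
    have h11 : Q * P' ≤ Q * (Q' - 1) := by nlinarith
    have h12 : P' ≤ Q' - 1 := le_of_mul_le_mul_left h11 h9
    omega

end CHN

theorem chn : CHN_Stmt := by
  intro x
  have hV : Even x.length → Even (lastv x).1 ∧ Odd (lastv x).2 := fun h =>
    CHN.par_odd x _ (h.add_one)
  refine ⟨CHN.det_chain x, CHN.par_even x, CHN.par_odd x, ?_, ?_, ?_, ?_⟩
  · intro h j
    obtain ⟨v1, v2⟩ := hV h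
    unfold Nf det2
    rcases Nat.even_or_odd j with hj | hj
    · obtain ⟨h1, h2⟩ := CHN.par_even x j hj
      refine Even.mul_right ?_ _
      simpa using h2
    · obtain ⟨h1, h2⟩ := CHN.par_odd x j hj
      refine Even.mul_left ?_ _
      exact (h1.mul_right _).sub (v1.mul_left _)
  · intro j a b
    unfold Nf det2
    simp only [Prod.fst_sub, Prod.snd_sub, Prod.smul_fst, Prod.smul_snd, smul_eq_mul]
    ring
  · intro h j
    obtain ⟨v1, v2⟩ := hV h
    unfold det2
    simp only [one_mul, zero_mul, sub_zero]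
    rcases Nat.even_or_odd j with hj | hj
    · obtain ⟨h1, h2⟩ := CHN.par_even x j hj
      obtain ⟨h3, h4⟩ := CHN.par_odd x (j + 1) hj.add_one
      refine (h2.mul_right _).add_odd ?_
      exact h4.mul ((h1.mul v2).sub_even (h2.mul_right _))
    · obtain ⟨h1, h2⟩ := CHN.par_odd x j hj
      obtain ⟨h3, h4⟩ := CHN.par_even x (j + 1) hj.add_one
      refine Odd.add_even ?_ (h4.mul_right _)
      exact h2.mul ((h3.mul v2).sub_even (h4.mul_right _))
  · intro _ hx
    exact (CHN.growth x hx x.length le_rfl).2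

end Pool.Agent.TB
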