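import Pool.Agent.TB.Stmts2

/-!
Finite type invariants of 2-bridge knots: Weyl operators and chirps (module EGO).
-/

open Polynomial
open scoped BigOperators Real

namespace Pool.Agent.TB.EGO

section

variable (n : ℕ) [NeZero n] (ι : ℤ)

theorem Tt_apply (a b : ℤ) (f : Fn n) (u : ZMod (2 * n)) :
    Tt n ι a b f u = zt n ι (2 * a * b + 2 * a * u) * f (u + 2 * b) := rfl

theorem mulo_apply (g f : Fn n) (u : ZMod (2 * n)) : mulo n g f u = g u * f u := rfl

theorem cono_apply (g f : Fn n) (u : ZMod (2 * n)) : cono n ι g f u =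
    (1 / (2 * n : ℂ)) * ∑ k, ∑ v, g k * zt n ι (k * (u - v)) * f v := rfl

theorem Cc_apply (x : ℤ) (f : Fn n) (u : ZMod (2 * n)) :
    Cc n ι x f u = zt n ι (x * u ^ 2) * f u := rfl

theorem Dc_apply (x : ℤ) (f : Fn n) (u : ZMod (2 * n)) : Dc n ι x f u =
    (1 / (2 * n : ℂ)) * ∑ k, ∑ v, zt n ι (x * k ^ 2) * zt n ι (k * (u - v)) * f v := rfl

theorem ext_end {O P : Module.End ℂ (Fn n)} (h : ∀ (f : Fn n) (u : ZMod (2 * n)), O f u = P f u) :
    O = P := by
  apply LinearMap.ext
  intro f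
  funext u
  exact h f u

theorem two_n_ne : (2 * n : ℂ) ≠ 0 := by
  have : (n : ℂ) ≠ 0 := by exact_mod_cast NeZero.ne n
  exact mul_ne_zero two_ne_zero this

theorem cono_mul (hadd : ∀ a b, zt n ι (a + b) = zt n ι a * zt n ι b)
    (hort : ∀ u : ZMod (2 * n), ∑ k, zt n ι (k * u) = if u = 0 then (2 * n : ℂ) else 0)
    (g g' : Fn n) : cono n ι g * cono n ι g' = cono n ι (g * g') := by
  apply ext_end
  intro f u
  rw [Module.End.mul_apply, cono_apply, cono_apply]
  congr 1
  refine Finset.sum_congr rfl fun k _ => ?_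
  simp only [cono_apply, Pi.mul_apply, Finset.mul_sum]
  rw [Finset.sum_comm]
  rw [Finset.sum_eq_single k]
  · rw [Finset.sum_comm]
    refine Finset.sum_congr rfl fun w _ => ?_
    have h1 : ∀ v : ZMod (2 * n), g k * zt n ι (k * (u - v)) *
        (1 / (2 * n : ℂ) * (g' k * zt n ι (k * (v - w)) * f w)) =
        1 / (2 * n : ℂ) * (g k * g' k * zt n ι (k * (u - w)) * f w) := by
      intro v
      have h2 : zt n ι (k * (u - w)) = zt n ι (k * (u - v)) * zt n ι (k * (v - w)) := by
        rw [← hadd]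
        congr 1
        ring
      rw [h2]
      ring
    rw [Finset.sum_congr rfl fun v _ => h1 v, Finset.sum_const, Finset.card_univ, ZMod.card,
      nsmul_eq_mul]
    have h3 := two_n_ne n
    push_cast
    rw [← mul_assoc, mul_one_div_cancel h3, one_mul]
  · intro k' _ hk'
    rw [Finset.sum_comm]
    refine Finset.sum_eq_zero fun w _ => ?_
    have h1 : ∀ v : ZMod (2 * n), g k * zt n ι (k * (u - v)) *
        (1 / (2 * n : ℂ) * (g' k' * zt n ι (k' * (v - w)) * f w)) =
        (1 / (2 * n : ℂ) * (g k * g' k' * zt n ι (k * u - k' * w) * f w)) *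
          zt n ι (v * (k' - k)) := by
      intro v
      have h2 : zt n ι (k * (u - v)) * zt n ι (k' * (v - w)) =
          zt n ι (k * u - k' * w) * zt n ι (v * (k' - k)) := by
        rw [← hadd, ← hadd]
        congr 1
        ring
      linear_combination (1 / (2 * n : ℂ) * (g k * g' k' * f w)) * h2
    rw [Finset.sum_congr rfl fun v _ => h1 v, ← Finset.mul_sum, hort,
      if_neg (sub_ne_zero.2 hk'), mul_zero]
  · intro h
    exact absurd (Finset.mem_univ k) h

theorem cono_one (hort : ∀ u : ZMod (2 * n), ∑ k, zt n ι (k * u) = if u = 0 then (2 * n : ℂ) else 0)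
    : cono n ι (1 : Fn n) = 1 := by
  apply ext_end
  intro f u
  rw [cono_apply, Module.End.one_apply, Finset.sum_comm]
  have h1 : ∀ v : ZMod (2 * n), ∑ k, (1 : Fn n) k * zt n ι (k * (u - v)) * f v =
      if v = u then (2 * n : ℂ) * f v else 0 := by
    intro v
    rw [← Finset.sum_mul]
    have h2 : ∑ k, (1 : Fn n) k * zt n ι (k * (u - v)) = ∑ k, zt n ι (k * (u - v)) :=
      Finset.sum_congr rfl fun k _ => by rw [Pi.one_apply, one_mul]
    rw [h2, hort]
    by_cases h : v = u
    · rw [if_pos (by rw [h, sub_self]), if_pos h]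
    · rw [if_neg (fun h' => h (sub_eq_zero.1 h').symm), if_neg h, zero_mul]
  rw [Finset.sum_congr rfl fun v _ => h1 v, Finset.sum_ite_eq' Finset.univ u,
    if_pos (Finset.mem_univ u), ← mul_assoc, one_div_mul_cancel (two_n_ne n), one_mul]

theorem Dc_Tt (hadd : ∀ a b, zt n ι (a + b) = zt n ι a * zt n ι b) (x a b : ℤ) :
    Dc n ι x * Tt n ι a b = Tt n ι a (b + 2 * x * a) * Dc n ι x := by
  apply ext_end
  intro f u
  rw [Module.End.mul_apply, Module.End.mul_apply, Dc_apply, Tt_apply, Dc_apply]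
  have hk := (Equiv.subRight (2 * (a : ZMod (2 * n)))).sum_comp (fun k : ZMod (2 * n) =>
    (∑ v : ZMod (2 * n), zt n ι (x * k ^ 2) *
      zt n ι (k * (u + 2 * ((b + 2 * x * a : ℤ) : ZMod (2 * n)) - v)) * f v : ℂ))
  rw [mul_left_comm (zt n ι _) (1 / (2 * n : ℂ))]
  refine congrArg (fun z : ℂ => 1 / (2 * n : ℂ) * z) ?_
  rw [← hk, Finset.mul_sum]
  refine Finset.sum_congr rfl fun k _ => ?_
  have hv := Equiv.sum_comp (Equiv.addRight (2 * (b : ZMod (2 * n)))) (fun v : ZMod (2 * n) =>
    (zt n ι (x * (Equiv.subRight (2 * (a : ZMod (2 * n))) k) ^ 2) *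
      zt n ι ((Equiv.subRight (2 * (a : ZMod (2 * n))) k) *
        (u + 2 * ((b + 2 * x * a : ℤ) : ZMod (2 * n)) - v)) * f v : ℂ))
  rw [← hv, Finset.mul_sum]
  refine Finset.sum_congr rfl fun v _ => ?_
  simp only [Equiv.coe_addRight, Equiv.subRight_apply, Tt_apply]
  have h1 : zt n ι (x * k ^ 2) * zt n ι (k * (u - v)) * zt n ι (2 * a * b + 2 * a * v) =
      zt n ι (2 * a * ((b + 2 * x * a : ℤ) : ZMod (2 * n)) + 2 * a * u) *
        (zt n ι (x * (k - 2 * a) ^ 2) *
          zt n ι ((k - 2 * a) * (u + 2 * ((b + 2 * x * a : ℤ) : ZMod (2 * n)) -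
            (v + 2 * b)))) := by
    rw [← hadd, ← hadd, ← hadd, ← hadd]
    congr 1
    push_cast
    ring
  linear_combination (f (v + 2 * b)) * h1

end

end Pool.Agent.TB.EGO

namespace Pool.Agent.TB

open EGO

theorem ego (hz : ZT_Stmt) : EGO_Stmt := by
  intro n _ ι hι
  obtain ⟨h0, hadd, -, -, hort, -, -, -⟩ := hz n ι hι
  refine ⟨?_, ?_, Dc_Tt n ι hadd, ?_, ?_, ?_, ?_⟩
  · intro a b c d
    apply ext_end
    intro f u
    rw [Module.End.mul_apply, LinearMap.smul_apply, Pi.smul_apply, smul_eq_mul, Tt_apply, Tt_apply,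
      Tt_apply, ← mul_assoc, ← mul_assoc, ← hadd, ← hadd]
    congr 2
    · push_cast
      ring
    · push_cast
      ring
  · intro x a b
    apply ext_end
    intro f u
    rw [Module.End.mul_apply, Module.End.mul_apply, Cc_apply, Tt_apply, Tt_apply, Cc_apply,
      ← mul_assoc, ← mul_assoc, ← hadd, ← hadd]
    congr 2
    push_cast
    ring
  · intro x
    constructor
    · apply ext_end
      intro f u
      rw [Module.End.mul_apply, Module.End.one_apply, Cc_apply, Cc_apply, ← mul_assoc, ← hadd]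
      have h1 : (x : ZMod (2 * n)) * u ^ 2 + ((-x : ℤ) : ZMod (2 * n)) * u ^ 2 = 0 := by
        push_cast
        ring
      rw [h1, h0, one_mul]
    · unfold Dc
      rw [cono_mul n ι hadd hort, ← cono_one n ι hort]
      congr 1
      funext k
      rw [Pi.mul_apply, Pi.one_apply, ← hadd]
      have h1 : (x : ZMod (2 * n)) * k ^ 2 + ((-x : ℤ) : ZMod (2 * n)) * k ^ 2 = 0 := by
        push_cast
        ring
      rw [h1, h0]
  · intro a b c d hac hbd
    have key : ∀ a c : ℤ, (a : ZMod n) = c → (2 * a : ZMod (2 * n)) = 2 * c := by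
      intro a c h
      have h1 : (n : ℤ) ∣ c - a := (ZMod.intCast_eq_intCast_iff_dvd_sub a c n).1 h
      have h2 : ((2 * a : ℤ) : ZMod (2 * n)) = ((2 * c : ℤ) : ZMod (2 * n)) := by
        rw [ZMod.intCast_eq_intCast_iff_dvd_sub]
        obtain ⟨e, he⟩ := h1
        refine ⟨e, ?_⟩
        push_cast
        linear_combination 2 * he
      exact_mod_cast h2
    apply ext_end
    intro f u
    rw [Tt_apply, Tt_apply, key b d hbd]
    have h3 : (2 * a * b + 2 * a * u : ZMod (2 * n)) = 2 * c * d + 2 * c * u := by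
      rw [key a c hac]
      have h4 := key b d hbd
      linear_combination (c : ZMod (2 * n)) * h4
    rw [h3]
  · intro a f
    rw [Tt_apply]
    have h1 : (2 * a * ((0 : ℤ) : ZMod (2 * n)) + 2 * a * 0 : ZMod (2 * n)) = 0 := by
      push_cast
      ring
    have h2 : (0 + 2 * ((0 : ℤ) : ZMod (2 * n)) : ZMod (2 * n)) = 0 := by
      push_cast
      ring
    rw [h1, h2, h0, one_mul]
  · intro b
    funext u
    rw [Tt_apply]
    have h1 : (2 * ((0 : ℤ) : ZMod (2 * n)) * b + 2 * ((0 : ℤ) : ZMod (2 * n)) * u :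
        ZMod (2 * n)) = 0 := by
      push_cast
      ring
    rw [h1, h0, one_mul]
    rfl

end Pool.Agent.TB
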