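import Pool.Agent.TB.Stmts2

/-!
FOU: finite Fourier transforms on `ZMod n`.
-/

open scoped BigOperators Real

namespace Pool.Agent.TB.FOU

section

variable {n : ℕ} [NeZero n]

/-- the additive character -/
noncomputable def e (x : ZMod n) : ℂ := ZMod.stdAddChar x

theorem e_add (x y : ZMod n) : e (x + y) = e x * e y := AddChar.map_add_eq_mul _ _ _

theorem e_zero : e (0 : ZMod n) = 1 := AddChar.map_zero_eq_one _

theorem e_sum (b : ZMod n) : ∑ x : ZMod n, e (x * b) = if b = 0 then (n : ℂ) else 0 := by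
  have h := AddChar.sum_mulShift b (ZMod.isPrimitive_stdAddChar n)
  rw [ZMod.card] at h
  change ∑ x : ZMod n, ZMod.stdAddChar (x * b) = _
  rw [h]
  split_ifs <;> simp

/-- `e (ρ) = (cos θ + i sin θ)^2` -/
theorem e_val (ρ : ZMod n) :
    e ρ = (((Real.cos (π * ρ.val / n) : ℝ) : ℂ) +
      Complex.I * ((Real.sin (π * ρ.val / n) : ℝ) : ℂ)) ^ 2 := by
  have h1 : e ρ = Complex.exp (2 * π * Complex.I * (ρ.val : ℤ) / n) := by
    rw [← ZMod.stdAddChar_coe]
    change ZMod.stdAddChar ρ = _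
    congr 1
    simp
  have h2 : (((Real.cos (π * ρ.val / n) : ℝ) : ℂ) +
      Complex.I * ((Real.sin (π * ρ.val / n) : ℝ) : ℂ)) =
      Complex.exp ((((π * ρ.val / n : ℝ)) : ℂ) * Complex.I) := by
    rw [Complex.exp_mul_I, Complex.ofReal_cos, Complex.ofReal_sin]
    ring
  rw [h1, h2, ← Complex.exp_nat_mul]
  congr 1
  push_cast
  ring

theorem sin_ne (ρ : ZMod n) (h : ρ ≠ 0) : Real.sin (π * ρ.val / n) ≠ 0 := by
  have h1 : 0 < ρ.val := Nat.pos_of_ne_zero fun h0 => h ((ZMod.val_eq_zero ρ).1 h0)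
  have h2 : ρ.val < n := ZMod.val_lt ρ
  have hn : (0 : ℝ) < n := by exact_mod_cast lt_trans h1 h2
  apply ne_of_gt
  apply Real.sin_pos_of_pos_of_lt_pi
  · have : (0 : ℝ) < ρ.val := by exact_mod_cast h1
    positivity
  · rw [div_lt_iff₀ hn]
    have : (ρ.val : ℝ) < n := by exact_mod_cast h2
    exact mul_lt_mul_of_pos_left this Real.pi_pos

theorem ct_mul (ρ : ZMod n) (h : ρ ≠ 0) : ct n ρ * (e ρ - 1) = Complex.I * (e ρ + 1) := by
  have hs := sin_ne ρ h
  have hs' : ((Real.sin (π * ρ.val / n) : ℝ) : ℂ) ≠ 0 := by exact_mod_cast hs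
  have hsc : (((Real.sin (π * ρ.val / n) : ℝ) : ℂ)) ^ 2 +
      ((Real.cos (π * ρ.val / n) : ℝ) : ℂ) ^ 2 = 1 := by
    exact_mod_cast Real.sin_sq_add_cos_sq (π * ρ.val / n)
  have hct : ct n ρ = ((Real.cos (π * ρ.val / n) : ℝ) : ℂ) /
      ((Real.sin (π * ρ.val / n) : ℝ) : ℂ) := by
    rw [ct, Real.cot_eq_cos_div_sin]
    push_cast
    rfl
  rw [hct, e_val]
  generalize ((Real.cos (π * ρ.val / n) : ℝ) : ℂ) = c at *
  generalize ((Real.sin (π * ρ.val / n) : ℝ) : ℂ) = s at *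
  rw [div_mul_eq_mul_div, div_eq_iff hs']
  have hI : Complex.I ^ 2 = -1 := Complex.I_sq
  linear_combination (Complex.I * s + c) * hsc - (c * s ^ 2 + Complex.I * s ^ 3) * hI

theorem e_neg_val (ρ : ZMod n) :
    e (-ρ) = (((Real.cos (π * ρ.val / n) : ℝ) : ℂ) -
      Complex.I * ((Real.sin (π * ρ.val / n) : ℝ) : ℂ)) ^ 2 := by
  have h1 : e ρ * e (-ρ) = 1 := by rw [← e_add, add_neg_cancel, e_zero]
  have hsc : (((Real.sin (π * ρ.val / n) : ℝ) : ℂ)) ^ 2 +
      ((Real.cos (π * ρ.val / n) : ℝ) : ℂ) ^ 2 = 1 := by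
    exact_mod_cast Real.sin_sq_add_cos_sq (π * ρ.val / n)
  have hI : Complex.I ^ 2 = -1 := Complex.I_sq
  rw [e_val] at h1
  generalize ((Real.cos (π * ρ.val / n) : ℝ) : ℂ) = c at *
  generalize ((Real.sin (π * ρ.val / n) : ℝ) : ℂ) = s at *
  have h2 : (c + Complex.I * s) ^ 2 * (c - Complex.I * s) ^ 2 = 1 := by
    have h3 : (c + Complex.I * s) * (c - Complex.I * s) = 1 := by
      linear_combination hsc - s ^ 2 * hI
    rw [← mul_pow, h3, one_pow]
  have h4 : (c + Complex.I * s) ^ 2 ≠ 0 := left_ne_zero_of_mul_eq_one h2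
  exact mul_left_cancel₀ h4 (h1.trans h2.symm)

theorem sq_mul (ρ : ZMod n) (h : ρ ≠ 0) :
    ((1 / Real.sin (π * ρ.val / n) ^ 2 : ℝ) : ℂ) * (e ρ - 2 + e (-ρ)) = -4 := by
  have hs := sin_ne ρ h
  have hs' : ((Real.sin (π * ρ.val / n) : ℝ) : ℂ) ≠ 0 := by exact_mod_cast hs
  have hsc : (((Real.sin (π * ρ.val / n) : ℝ) : ℂ)) ^ 2 +
      ((Real.cos (π * ρ.val / n) : ℝ) : ℂ) ^ 2 = 1 := by
    exact_mod_cast Real.sin_sq_add_cos_sq (π * ρ.val / n)
  have hI : Complex.I ^ 2 = -1 := Complex.I_sq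
  rw [e_val, e_neg_val]
  push_cast
  push_cast at hs' hsc
  rw [div_mul_eq_mul_div, one_mul, div_eq_iff (pow_ne_zero 2 hs')]
  linear_combination 2 * hsc + 2 * Complex.sin (π * ρ.val / n) ^ 2 * hI

/-! ### the sawtooth function -/

/-- the right hand side of the first formula -/
noncomputable def S (a : ZMod n) : ℂ := (Complex.I / (2 * n)) * ∑ ρ : ZMod n, ct n ρ * e (ρ * a)

theorem ct_zero : ct n (0 : ZMod n) = 0 := by
  rw [ct, ZMod.val_zero]
  simp [Real.cot_eq_cos_div_sin]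

theorem ct_neg (ρ : ZMod n) : ct n (-ρ) = -ct n ρ := by
  by_cases h : ρ = 0
  · rw [h, neg_zero, ct_zero, neg_zero]
  · have hn : (n : ℝ) ≠ 0 := by exact_mod_cast NeZero.ne n
    have h1 : (-ρ).val = n - ρ.val := by
      rw [ZMod.neg_val, if_neg h]
    have h2 : π * ((-ρ).val : ℝ) / n = π - π * ρ.val / n := by
      rw [h1, Nat.cast_sub (ZMod.val_lt ρ).le]
      field_simp
    rw [ct, ct, h2, Real.cot_eq_cos_div_sin, Real.cot_eq_cos_div_sin, Real.cos_pi_sub,
      Real.sin_pi_sub]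
    push_cast
    ring

theorem sum_ct : ∑ ρ : ZMod n, ct n ρ = 0 := by
  have h1 : ∑ ρ : ZMod n, ct n ρ = ∑ ρ : ZMod n, ct n (-ρ) :=
    (Equiv.sum_comp (Equiv.neg (ZMod n)) (ct n)).symm
  have h2 : ∑ ρ : ZMod n, ct n (-ρ) = -∑ ρ : ZMod n, ct n ρ := by
    rw [← Finset.sum_neg_distrib]
    exact Finset.sum_congr rfl fun ρ _ => ct_neg ρ
  rw [h2] at h1
  have h3 : 2 * ∑ ρ : ZMod n, ct n ρ = 0 := by linear_combination h1
  simpa using h3

theorem S_zero : S (0 : ZMod n) = 0 := by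
  rw [S]
  have : ∑ ρ : ZMod n, ct n ρ * e (ρ * 0) = 0 := by
    rw [← sum_ct (n := n)]
    refine Finset.sum_congr rfl fun ρ _ => ?_
    rw [mul_zero, e_zero, mul_one]
  rw [this, mul_zero]

theorem S_succ (a : ZMod n) : S (a + 1) - S a =
    1 / n - (1 / 2) * ((if a + 1 = 0 then (1 : ℂ) else 0) + if a = 0 then 1 else 0) := by
  have hn : (n : ℂ) ≠ 0 := by exact_mod_cast NeZero.ne n
  have h1 : ∀ ρ : ZMod n, ct n ρ * e (ρ * (a + 1)) - ct n ρ * e (ρ * a) =
      Complex.I * (e (ρ * (a + 1)) + e (ρ * a)) - if ρ = 0 then 2 * Complex.I else 0 := by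
    intro ρ
    have h2 : e (ρ * (a + 1)) = e ρ * e (ρ * a) := by
      rw [← e_add]
      congr 1
      ring
    by_cases h : ρ = 0
    · rw [h, ct_zero, zero_mul, zero_mul, zero_mul, zero_mul, e_zero, if_pos rfl]
      ring
    · rw [if_neg h, h2]
      have h3 := ct_mul ρ h
      linear_combination e (ρ * a) * h3
  have h2 : ∑ ρ : ZMod n, ct n ρ * e (ρ * (a + 1)) - ∑ ρ : ZMod n, ct n ρ * e (ρ * a) =
      Complex.I * ((if a + 1 = 0 then (n : ℂ) else 0) + if a = 0 then (n : ℂ) else 0) -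
        2 * Complex.I := by
    rw [← Finset.sum_sub_distrib, Finset.sum_congr rfl fun ρ _ => h1 ρ, Finset.sum_sub_distrib,
      ← Finset.mul_sum, Finset.sum_add_distrib, e_sum, e_sum]
    simp
  have hI : Complex.I ^ 2 = -1 := Complex.I_sq
  have h3 : (if a + 1 = 0 then (n : ℂ) else 0) = n * (if a + 1 = 0 then (1 : ℂ) else 0) := by
    split_ifs <;> simp
  have h4 : (if a = 0 then (n : ℂ) else 0) = n * (if a = 0 then (1 : ℂ) else 0) := by
    split_ifs <;> simp
  rw [S, S, ← mul_sub, h2, h3, h4]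
  generalize (if a + 1 = 0 then (1 : ℂ) else 0) = d1
  generalize (if a = 0 then (1 : ℂ) else 0) = d2
  field_simp
  linear_combination (n * d1 + n * d2 - 2) * hI

theorem natCast_eq_zero_iff' {k : ℕ} (hk : k < n) : (k : ZMod n) = 0 ↔ k = 0 := by
  rw [ZMod.natCast_eq_zero_iff]
  constructor
  · intro h
    exact Nat.eq_zero_of_dvd_of_lt h hk
  · rintro rfl
    exact dvd_zero n

theorem S_nat (hn1 : 1 < n) (k : ℕ) (hk1 : 1 ≤ k) (hk : k < n) :
    S (k : ZMod n) = (k : ℂ) / n - 1 / 2 := by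
  have hn : (n : ℂ) ≠ 0 := by exact_mod_cast NeZero.ne n
  induction k, hk1 using Nat.le_induction with
  | base =>
    have h := S_succ (0 : ZMod n)
    have h1 : (0 : ZMod n) + 1 ≠ 0 := by
      rw [zero_add]
      have := (natCast_eq_zero_iff' (n := n) hk).not.2 one_ne_zero
      simpa using this
    rw [if_neg h1, if_pos rfl, S_zero, zero_add] at h
    rw [Nat.cast_one, Nat.cast_one]
    linear_combination h
  | succ k hk1 ih =>
    have h := S_succ (k : ZMod n)
    have h1 : (k : ZMod n) + 1 ≠ 0 := by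
      have := (natCast_eq_zero_iff' (n := n) hk).not.2 (by omega)
      push_cast at this
      exact this
    have h2 : (k : ZMod n) ≠ 0 := (natCast_eq_zero_iff' (n := n) (by omega)).not.2 (by omega)
    rw [if_neg h1, if_neg h2, ih (by omega)] at h
    push_cast
    linear_combination h

theorem saw_formula (hn1 : 1 < n) (a : ℤ) : saw n a = S (a : ZMod n) := by
  have hn : (0 : ℤ) < n := by exact_mod_cast lt_trans zero_lt_one hn1
  obtain ⟨k, hk⟩ : ∃ k : ℕ, a % (n : ℤ) = k :=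
    ⟨(a % (n : ℤ)).toNat, (Int.toNat_of_nonneg (Int.emod_nonneg _ hn.ne')).symm⟩
  have hkn : k < n := by
    have := Int.emod_lt_of_pos a hn
    rw [hk] at this
    exact_mod_cast this
  have hcast : (a : ZMod n) = (k : ZMod n) := by
    have h1 : (a : ZMod n) = ((a % (n : ℤ) : ℤ) : ZMod n) := by
      rw [ZMod.intCast_mod]
    rw [h1, hk, Int.cast_natCast]
  rw [hcast, saw]
  by_cases h : (n : ℤ) ∣ a
  · rw [if_pos h]
    have h0 : k = 0 := by
      have := Int.emod_eq_zero_of_dvd h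
      rw [hk] at this
      exact_mod_cast this
    rw [h0, Nat.cast_zero, S_zero]
  · rw [if_neg h, hk, S_nat hn1 k _ hkn, Int.cast_natCast]
    by_contra h0
    have h0' : k = 0 := by omega
    exact h (Int.dvd_of_emod_eq_zero (by rw [hk, h0']; rfl))

/-! ### the function `c (c - n)` -/

/-- the sum in the second formula -/
noncomputable def G (u : ZMod n) : ℂ := -((n : ℂ) ^ 2 - 1) / 6 + (1 / 2) *
  ∑ ρ ∈ Finset.Ico 1 n, ((1 / Real.sin (π * ρ / n) ^ 2 : ℝ) : ℂ) * e ((ρ : ZMod n) * u)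

theorem sum_Ico_e (u : ZMod n) (hn1 : 1 < n) :
    ∑ ρ ∈ Finset.Ico 1 n, e ((ρ : ZMod n) * u) = (if u = 0 then (n : ℂ) else 0) - 1 := by
  have h1 : ∑ ρ ∈ Finset.range n, e ((ρ : ZMod n) * u) = if u = 0 then (n : ℂ) else 0 := by
    rw [← e_sum]
    refine Finset.sum_nbij' (fun k => (k : ZMod n)) (fun x => x.val) ?_ ?_ ?_ ?_ ?_
    · intro k _
      exact Finset.mem_univ _
    · intro x _
      exact Finset.mem_range.2 (ZMod.val_lt x)
    · intro k hk
      exact ZMod.val_cast_of_lt (Finset.mem_range.1 hk)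
    · intro x _
      exact ZMod.natCast_zmod_val x
    · intro k _
      rfl
  rw [Finset.range_eq_Ico, Finset.sum_eq_sum_Ico_succ_bot (by omega)] at h1
  rw [Nat.cast_zero, zero_mul, e_zero] at h1
  linear_combination h1

theorem G_second (hn1 : 1 < n) (u : ZMod n) :
    G (u + 1) - 2 * G u + G (u - 1) = 2 - 2 * (if u = 0 then (n : ℂ) else 0) := by
  have h1 : ∀ ρ ∈ Finset.Ico 1 n,
      ((1 / Real.sin (π * ρ / n) ^ 2 : ℝ) : ℂ) * e ((ρ : ZMod n) * (u + 1)) -
        2 * (((1 / Real.sin (π * ρ / n) ^ 2 : ℝ) : ℂ) * e ((ρ : ZMod n) * u)) +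
        ((1 / Real.sin (π * ρ / n) ^ 2 : ℝ) : ℂ) * e ((ρ : ZMod n) * (u - 1)) =
      -4 * e ((ρ : ZMod n) * u) := by
    intro ρ hρ
    rw [Finset.mem_Ico] at hρ
    have h0 : (ρ : ZMod n) ≠ 0 := (natCast_eq_zero_iff' hρ.2).not.2 (by omega)
    have h2 := sq_mul (ρ : ZMod n) h0
    rw [ZMod.val_cast_of_lt hρ.2] at h2
    have h3 : e ((ρ : ZMod n) * (u + 1)) = e (ρ : ZMod n) * e ((ρ : ZMod n) * u) := by
      rw [← e_add]
      congr 1
      ring
    have h4 : e ((ρ : ZMod n) * (u - 1)) = e (-(ρ : ZMod n)) * e ((ρ : ZMod n) * u) := by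
      rw [← e_add]
      congr 1
      ring
    rw [h3, h4]
    linear_combination e ((ρ : ZMod n) * u) * h2
  have h2 := Finset.sum_congr rfl h1
  rw [Finset.sum_add_distrib, Finset.sum_sub_distrib, ← Finset.mul_sum, ← Finset.mul_sum,
    sum_Ico_e u hn1] at h2
  rw [G, G, G]
  linear_combination (1 / 2) * h2

theorem G_sum (hn1 : 1 < n) :
    ∑ k ∈ Finset.range n, G (k : ZMod n) = n * (-((n : ℂ) ^ 2 - 1) / 6) := by
  have h1 : ∑ k ∈ Finset.range n, G (k : ZMod n) = n * (-((n : ℂ) ^ 2 - 1) / 6) + (1 / 2) *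
      ∑ k ∈ Finset.range n, ∑ ρ ∈ Finset.Ico 1 n,
        ((1 / Real.sin (π * ρ / n) ^ 2 : ℝ) : ℂ) * e ((ρ : ZMod n) * (k : ZMod n)) := by
    simp only [G]
    rw [Finset.sum_add_distrib, Finset.sum_const, Finset.card_range, nsmul_eq_mul,
      ← Finset.mul_sum]
  have h2 : ∀ ρ ∈ Finset.Ico 1 n, ∑ k ∈ Finset.range n, ((1 / Real.sin (π * ρ / n) ^ 2 : ℝ) : ℂ) *
      e ((ρ : ZMod n) * (k : ZMod n)) = 0 := by
    intro ρ hρ
    rw [Finset.mem_Ico] at hρ
    have h0 : (ρ : ZMod n) ≠ 0 := (natCast_eq_zero_iff' hρ.2).not.2 (by omega)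
    have h3 := sum_Ico_e (ρ : ZMod n) hn1
    rw [if_neg h0] at h3
    rw [← Finset.mul_sum, Finset.range_eq_Ico, Finset.sum_eq_sum_Ico_succ_bot (by omega)]
    rw [Nat.cast_zero, mul_zero, e_zero]
    have h4 : ∑ k ∈ Finset.Ico (0 + 1) n, e ((ρ : ZMod n) * (k : ZMod n)) =
        ∑ k ∈ Finset.Ico 1 n, e ((k : ZMod n) * (ρ : ZMod n)) := by
      refine Finset.sum_congr (by rw [zero_add]) fun k _ => ?_
      rw [mul_comm]
    rw [h4, h3]
    ring
  rw [h1, Finset.sum_comm, Finset.sum_eq_zero h2]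
  ring

theorem G_nat (hn1 : 1 < n) (k : ℕ) (hk : k < n) : G (k : ZMod n) = (k : ℂ) * (k - n) := by
  have hn : (n : ℂ) ≠ 0 := by exact_mod_cast NeZero.ne n
  obtain ⟨D, hD⟩ : ∃ D : ℕ → ℂ, D = fun k : ℕ => G ((k : ZMod n) + 1) - G (k : ZMod n) := ⟨_, rfl⟩
  have hDk : ∀ k : ℕ, D k = G ((k : ZMod n) + 1) - G (k : ZMod n) := fun k => by rw [hD]
  clear hD
  have hD1 : ∀ k, k < n → D k = D 0 + 2 * k := by
    intro k
    induction k with
    | zero => intro _; simp
    | succ k ih =>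
      intro hk
      have h1 := G_second hn1 ((k : ZMod n) + 1)
      have h2 : (k : ZMod n) + 1 ≠ 0 := by
        have := (natCast_eq_zero_iff' (n := n) hk).not.2 (by omega)
        push_cast at this
        exact this
      rw [if_neg h2] at h1
      have h3 := ih (by omega)
      rw [hDk k] at h3
      rw [hDk (k + 1)]
      rw [add_sub_cancel_right] at h1
      push_cast
      linear_combination h1 + h3
  have hG1 : ∀ k : ℕ, k ≤ n → G (k : ZMod n) =
      G (0 : ZMod n) + (k : ℂ) * D 0 + (k : ℂ) * ((k : ℂ) - 1) := by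
    intro k
    induction k with
    | zero => intro _; simp
    | succ k ih =>
      intro hk
      have h1 := ih (by omega)
      have h2 := hD1 k (by omega)
      rw [hDk k] at h2
      push_cast
      linear_combination h1 + h2
  have hD0 : D 0 = 1 - n := by
    have h1 := hG1 n le_rfl
    have h2 : ((n : ℕ) : ZMod n) = 0 := ZMod.natCast_self n
    rw [h2] at h1
    have h3 : (n : ℂ) * (D 0 + (n - 1)) = 0 := by linear_combination -h1
    have h4 := (mul_eq_zero.1 h3).resolve_left hn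
    linear_combination h4
  have hG0 : G (0 : ZMod n) = 0 := by
    have h1 := G_sum (n := n) hn1
    have h2 : ∑ k ∈ Finset.range n, G (k : ZMod n) =
        ∑ k ∈ Finset.range n, (G (0 : ZMod n) + (k : ℂ) * (k - n)) := by
      refine Finset.sum_congr rfl fun k hk => ?_
      rw [hG1 k (Finset.mem_range.1 hk).le, hD0]
      ring
    have h3 : ∀ m : ℕ, ∑ k ∈ Finset.range m, (G (0 : ZMod n) + (k : ℂ) * (k - n)) =
        m * G (0 : ZMod n) + ((m : ℂ) - 1) * m * (2 * m - 1) / 6 - n * (m * (m - 1) / 2) := by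
      intro m
      induction m with
      | zero => simp
      | succ m ih =>
        rw [Finset.sum_range_succ, ih]
        push_cast
        ring
    rw [h2, h3] at h1
    have h4 : (n : ℂ) * G (0 : ZMod n) = 0 := by linear_combination h1
    exact (mul_eq_zero.1 h4).resolve_left hn
  rw [hG1 k hk.le, hG0, hD0]
  ring

theorem bq_formula (hn1 : 1 < n) (u : ZMod (2 * n)) : bq n u = G (u.val : ZMod n) := by
  have h1 : ((u.val : ℕ) : ZMod n) = ((u.val % n : ℕ) : ZMod n) := (ZMod.natCast_mod _ _).symm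
  rw [h1, G_nat hn1 _ (Nat.mod_lt _ (by omega)), bq]

theorem gauss (u a b u' : ZMod n) (hu : u * u' = 1) :
    ∑ α : ZMod n, ∑ β : ZMod n, e (u * α * β + a * α + b * β) = n * e (-(u' * a * b)) := by
  have h1 : ∀ α : ZMod n, ∑ β : ZMod n, e (u * α * β + a * α + b * β) =
      if α = -(u' * b) then (n : ℂ) * e (-(u' * a * b)) else 0 := by
    intro α
    have h2 : ∀ β : ZMod n, e (u * α * β + a * α + b * β) = e (a * α) * e (β * (u * α + b)) := by
      intro β
      rw [← e_add]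
      congr 1
      ring
    rw [Finset.sum_congr rfl fun β _ => h2 β, ← Finset.mul_sum, e_sum]
    by_cases h : α = -(u' * b)
    · rw [if_pos h, h]
      have h3 : u * -(u' * b) + b = 0 := by linear_combination -b * hu
      rw [if_pos h3, mul_comm]
      congr 2
      ring
    · rw [if_neg h, if_neg, mul_zero]
      intro h3
      apply h
      linear_combination u' * h3 - α * hu
  rw [Finset.sum_congr rfl fun α _ => h1 α, Finset.sum_ite_eq' Finset.univ, if_pos (Finset.mem_univ _)]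

end

end Pool.Agent.TB.FOU

namespace Pool.Agent.TB

open Pool.Agent.TB.FOU in
theorem fou : FOU_Stmt := by
  intro n _ hn1
  refine ⟨fun a => ?_, fun u => ?_, fun u a b _ u' hu => ?_⟩
  · exact saw_formula hn1 a
  · exact bq_formula hn1 u
  · exact gauss u a b u' hu

end Pool.Agent.TB
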