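import Pool.Agent.TB.Stmts2

/-!
Module JNZ: the absolute value of the value at a root of unity. The density matrix of the vector
is a sum of Weyl operators.
-/

open scoped BigOperators Real ComplexConjugate

namespace Pool.Agent.TB

namespace JNZ

variable (n : ℕ) [NeZero n] (ι : ℤ)

/-- the density matrix of `ψ` is `c` times a sum of Weyl operators -/
def Inv (c : ℂ) (a b h : ℤ) (ψ : Fn n) : Prop :=
  ∀ u w : ZMod (2 * n), ψ u * conj (ψ w) =
    c * ∑ t : ZMod (2 * n), if u + t * (b : ZMod (2 * n)) = w then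
      zt n ι (t ^ 2 * (h : ZMod (2 * n)) + t * (a : ZMod (2 * n)) * u) else 0

/-- the Fourier transform -/
noncomputable def Fo (ψ : Fn n) : Fn n := fun k => ∑ v, zt n ι (-(k * v)) * ψ v

/-- the properties of `ζ` that are used -/
structure ZF : Prop where
  zero : zt n ι 0 = 1
  add : ∀ a b, zt n ι (a + b) = zt n ι a * zt n ι b
  sum : ∀ u : ZMod (2 * n), ∑ k, zt n ι (k * u) = if u = 0 then (2 * n : ℂ) else 0
  star : ∀ u, conj (zt n ι u) = zt n ι (-u)

variable {n ι}

theorem zf (hz : ZT_Stmt) (hι : IsCoprime ι (2 * n : ℤ)) : ZF n ι := by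
  obtain ⟨h0, h1, _, _, h2, _, _, h3⟩ := hz n ι hι
  exact ⟨h0, h1, h2, h3⟩

theorem inv_one (hZ : ZF n ι) : Inv n ι 1 0 1 0 (1 : Fn n) := by
  intro u w
  simp only [Pi.one_apply, map_one, mul_one, Int.cast_zero, mul_zero, zero_mul, add_zero,
    Int.cast_one, hZ.zero, one_mul]
  rw [Finset.sum_eq_single (w - u)]
  · simp
  · intro t _ ht
    rw [if_neg]
    intro h
    apply ht
    rw [← h]
    ring
  · intro h
    exact absurd (Finset.mem_univ _) h

theorem inv_C (hZ : ZF n ι) {c : ℂ} {a b h : ℤ} {ψ : Fn n} (x : ℤ) (hψ : Inv n ι c a b h ψ) :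
    Inv n ι c (a - 2 * x * b) b (h - x * b ^ 2) (Cc n ι x ψ) := by
  intro u w
  have h1 : ∀ v, (Cc n ι x ψ) v = zt n ι (x * v ^ 2) * ψ v := fun v => rfl
  rw [h1, h1, map_mul, hZ.star]
  have h2 : zt n ι (x * u ^ 2) * ψ u * (zt n ι (-(x * w ^ 2)) * conj (ψ w)) =
      (zt n ι (x * u ^ 2) * zt n ι (-(x * w ^ 2))) * (ψ u * conj (ψ w)) := by ring
  rw [h2, hψ u w, mul_left_comm]
  congr 1
  rw [Finset.mul_sum]
  refine Finset.sum_congr rfl fun t _ => ?_
  by_cases hw : u + t * (b : ZMod (2 * n)) = w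
  · rw [if_pos hw, if_pos hw, ← hZ.add, ← hZ.add, ← hw]
    congr 1
    push_cast
    ring
  · rw [if_neg hw, if_neg hw, mul_zero]

theorem inv_smul {c : ℂ} {a b h : ℤ} {ψ : Fn n} (s : ℂ) (hψ : Inv n ι c a b h ψ) :
    Inv n ι (s * conj s * c) a b h (s • ψ) := by
  intro u w
  rw [Pi.smul_apply, Pi.smul_apply, smul_eq_mul, smul_eq_mul, map_mul]
  have h1 : s * ψ u * (conj s * conj (ψ w)) = s * conj s * (ψ u * conj (ψ w)) := by ring
  rw [h1, hψ u w]
  ring

theorem inv_neg {c : ℂ} {a b h : ℤ} {ψ : Fn n} (hψ : Inv n ι c a b h ψ) :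
    Inv n ι c (-a) (-b) h (fun u => ψ (-u)) := by
  intro u w
  beta_reduce
  rw [hψ (-u) (-w)]
  congr 1
  refine Finset.sum_congr rfl fun t _ => ?_
  have h1 : (-u + t * (b : ZMod (2 * n)) = -w) ↔ (u + t * ((-b : ℤ) : ZMod (2 * n)) = w) := by
    push_cast
    constructor
    · intro h
      have h2 : w = -(-w) := by ring
      rw [h2, ← h]
      ring
    · intro h
      rw [← h]
      ring
  by_cases hw : -u + t * (b : ZMod (2 * n)) = -w
  · rw [if_pos hw, if_pos (h1.mp hw)]
    congr 1
    push_cast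
    ring
  · rw [if_neg hw, if_neg (fun h => hw (h1.mpr h))]

theorem inv_F (hZ : ZF n ι) {c : ℂ} {a b h : ℤ} {ψ : Fn n} (hab : a * b = 2 * h)
    (hψ : Inv n ι c a b h ψ) : Inv n ι (2 * n * c) b (-a) (-h) (Fo n ι ψ) := by
  intro k l
  have hab' : (a : ZMod (2 * n)) * b = 2 * h := by exact_mod_cast congrArg (Int.cast) hab
  have h1 : Fo n ι ψ k * conj (Fo n ι ψ l) =
      ∑ v, ∑ w, zt n ι (-(k * v)) * zt n ι (l * w) * (ψ v * conj (ψ w)) := by
    unfold Fo
    rw [map_sum, Finset.sum_mul_sum]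
    refine Finset.sum_congr rfl fun v _ => Finset.sum_congr rfl fun w _ => ?_
    rw [map_mul, hZ.star, neg_neg]
    ring
  rw [h1]
  have h2 : ∀ v w, zt n ι (-(k * v)) * zt n ι (l * w) * (ψ v * conj (ψ w)) =
      ∑ t : ZMod (2 * n), if v + t * (b : ZMod (2 * n)) = w then
        c * zt n ι (l * t * b + t ^ 2 * h) * zt n ι (v * (l - k + t * a)) else 0 := by
    intro v w
    rw [hψ v w, mul_left_comm, Finset.mul_sum, Finset.mul_sum]
    refine Finset.sum_congr rfl fun t _ => ?_
    by_cases hw : v + t * (b : ZMod (2 * n)) = w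
    · rw [if_pos hw, if_pos hw]
      have e1 : zt n ι (-(k * v)) * zt n ι (l * w) * zt n ι (t ^ 2 * h + t * a * v) =
          zt n ι (l * t * b + t ^ 2 * h) * zt n ι (v * (l - k + t * a)) := by
        rw [← hZ.add, ← hZ.add, ← hZ.add, ← hw]
        congr 1
        ring
      rw [e1]
      ring
    · rw [if_neg hw, if_neg hw, mul_zero, mul_zero]
  have h3 : ∑ v, ∑ w, zt n ι (-(k * v)) * zt n ι (l * w) * (ψ v * conj (ψ w)) =
      ∑ t : ZMod (2 * n), ∑ v, c * zt n ι (l * t * b + t ^ 2 * h) *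
        zt n ι (v * (l - k + t * a)) := by
    conv_rhs => rw [Finset.sum_comm]
    refine Finset.sum_congr rfl fun v _ => ?_
    have h4 : ∀ w, zt n ι (-(k * v)) * zt n ι (l * w) * (ψ v * conj (ψ w)) =
      ∑ t : ZMod (2 * n), if v + t * (b : ZMod (2 * n)) = w then
        c * zt n ι (l * t * b + t ^ 2 * h) * zt n ι (v * (l - k + t * a)) else 0 := h2 v
    rw [Finset.sum_congr rfl fun w _ => h4 w, Finset.sum_comm]
    refine Finset.sum_congr rfl fun t _ => ?_
    rw [Finset.sum_ite_eq]
    simp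
  rw [h3, Finset.mul_sum]
  refine Finset.sum_congr rfl fun t _ => ?_
  rw [← Finset.mul_sum, hZ.sum]
  have h5 : (l - k + t * (a : ZMod (2 * n)) = 0) ↔ (k + t * ((-a : ℤ) : ZMod (2 * n)) = l) := by
    push_cast
    constructor
    · intro h
      have h2 : l = k + t * -(a : ZMod (2 * n)) + (l - k + t * (a : ZMod (2 * n))) := by ring
      rw [h2, h]
      ring
    · intro h
      rw [← h]
      ring
  by_cases hw : l - k + t * (a : ZMod (2 * n)) = 0
  · rw [if_pos hw, if_pos (h5.mp hw)]
    have h6 : l * t * b + t ^ 2 * h = t ^ 2 * ((-h : ℤ) : ZMod (2 * n)) + t * b * k := by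
      rw [← h5.mp hw]
      push_cast
      linear_combination (-t ^ 2) * hab'
    rw [h6]
    ring
  · rw [if_neg hw, if_neg (fun h => hw (h5.mpr h))]
    ring

theorem Dc_eq (hZ : ZF n ι) (x : ℤ) (ψ : Fn n) :
    Dc n ι x ψ = (1 / (2 * n : ℂ)) • (fun u => Fo n ι (Cc n ι x (Fo n ι ψ)) (-u)) := by
  funext u
  rw [Pi.smul_apply, smul_eq_mul]
  have h1 : (Dc n ι x ψ) u = (1 / (2 * n : ℂ)) *
      ∑ k, ∑ v, zt n ι (x * k ^ 2) * zt n ι (k * (u - v)) * ψ v := rfl
  rw [h1]
  congr 1
  unfold Fo
  refine Finset.sum_congr rfl fun k _ => ?_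
  have h2 : (Cc n ι x (fun k => ∑ v, zt n ι (-(k * v)) * ψ v)) k =
      zt n ι (x * k ^ 2) * ∑ v, zt n ι (-(k * v)) * ψ v := rfl
  rw [h2, Finset.mul_sum, Finset.mul_sum]
  refine Finset.sum_congr rfl fun v _ => ?_
  have h3 : k * (u - v) = -(-u * k) + -(k * v) := by ring
  rw [h3, hZ.add]
  ring

theorem inv_D (hZ : ZF n ι) {c : ℂ} {a b h : ℤ} {ψ : Fn n} (x : ℤ) (hab : a * b = 2 * h)
    (hψ : Inv n ι c a b h ψ) :
    Inv n ι c a (b + 2 * x * a) (h + x * a ^ 2) (Dc n ι x ψ) := by
  have h1 := inv_F hZ hab hψ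
  have h2 := inv_C hZ x h1
  have h3 := inv_F hZ (by linear_combination (-1) * hab) h2
  have h4 := inv_smul (1 / (2 * n : ℂ)) (inv_neg h3)
  rw [Dc_eq hZ]
  have hn : (n : ℂ) ≠ 0 := by exact_mod_cast NeZero.ne n
  have hc : 1 / (2 * n : ℂ) * conj (1 / (2 * n : ℂ)) * (2 * n * (2 * n * c)) = c := by
    have h5 : conj (1 / (2 * n : ℂ)) = 1 / (2 * n : ℂ) := by
      rw [map_div₀, map_mul, map_one, Complex.conj_natCast, Complex.conj_ofNat]
    rw [h5]
    field_simp
  rw [hc] at h4
  have ha : -(-a) = a := by ring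
  have hb : -(-(b - 2 * x * -a)) = b + 2 * x * a := by ring
  have hh : -(-h - x * (-a) ^ 2) = h + x * a ^ 2 := by ring
  rw [ha, hb, hh] at h4
  exact h4

/-- the vector of a word -/
def pv : Bool → List ℤ → ℤ × ℤ
  | _, [] => (0, 1)
  | false, x :: l => ((pv true l).1, (pv true l).2 + 2 * x * (pv true l).1)
  | true, x :: l => ((pv false l).1 - 2 * x * (pv false l).2, (pv false l).2)

theorem inv_vec (hZ : ZF n ι) : ∀ (e : Bool) (l : List ℤ), ∃ h : ℤ,
    (pv e l).1 * (pv e l).2 = 2 * h ∧ Inv n ι 1 (pv e l).1 (pv e l).2 h (vec n ι e l).1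
  | e, [] => by
      cases e <;> exact ⟨0, by simp [pv], by simpa [pv, vec] using inv_one hZ⟩
  | false, x :: l => by
      obtain ⟨h, h1, h2⟩ := inv_vec hZ true l
      refine ⟨h + x * (pv true l).1 ^ 2, ?_, ?_⟩
      · simp only [pv]
        linear_combination h1
      · simp only [pv, vec]
        exact inv_D hZ x h1 h2
  | true, x :: l => by
      obtain ⟨h, h1, h2⟩ := inv_vec hZ false l
      refine ⟨h - x * (pv false l).2 ^ 2, ?_, ?_⟩
      · simp only [pv]
        linear_combination h1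
      · simp only [pv, vec]
        exact inv_C hZ x h2

/-- the last vector of a chain that starts with `p`, `q` -/
def Lc : ℤ × ℤ → ℤ × ℤ → ℤ → List ℤ → ℤ × ℤ
  | _, q, _, [] => q
  | p, q, s, x :: l => Lc q (p + (s * 2 * x) • q) (-s) l

theorem Lc_chain (x : List ℤ) : ∀ (l : List ℤ) (k : ℕ), x.drop k = l → k ≤ x.length →
    Lc (chain x k) (chain x (k + 1)) ((-1) ^ k) l = lastv x
  | [], k, h, hk => by
      have h1 : x.length ≤ k := List.drop_eq_nil_iff.mp h
      have h2 : k = x.length := le_antisymm hk h1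
      rw [h2]
      rfl
  | a :: l, k, h, hk => by
      have h1 : k < x.length := by
        by_contra hcon
        rw [List.drop_eq_nil_of_le (not_lt.mp hcon)] at h
        exact List.cons_ne_nil _ _ h.symm
      have h2 : x.drop (k + 1) = l := by
        rw [← List.drop_drop, h]
        rfl
      have h3 : x.getD k 0 = a := by
        have h4 : x.drop k = x[k] :: x.drop (k + 1) := List.drop_eq_getElem_cons h1
        rw [h4] at h
        rw [List.getD_eq_getElem _ _ h1]
        exact (List.cons.inj h).1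
      rw [Lc]
      have h4 : chain x (k + 1 + 1) = chain x k + ((-1) ^ k * 2 * a) • chain x (k + 1) := by
        rw [chain, h3]
      rw [← h4]
      have h5 : (-(-1) ^ k : ℤ) = (-1) ^ (k + 1) := by rw [pow_succ]; ring
      rw [h5]
      exact Lc_chain x l (k + 1) h2 h1

/-- the coefficients of the last vector -/
theorem Lc_pv : ∀ (l : List ℤ) (p q : ℤ × ℤ),
    (Even l.length → Lc p q 1 l = (pv false l).1 • p + (pv false l).2 • q) ∧
    (Odd l.length → Lc p q (-1) l = (pv true l).2 • p + (pv true l).1 • q)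
  | [], p, q => by
      constructor
      · intro _
        simp [Lc, pv]
      · intro h
        simp at h
  | x :: l, p, q => by
      constructor
      · intro h
        have h1 : Odd l.length := by
          rw [List.length_cons] at h
          by_contra hcon
          rw [Nat.not_odd_iff_even] at hcon
          exact (Nat.not_even_iff_odd.mpr hcon.add_one) h
        rw [Lc, (Lc_pv l q (p + ((1 : ℤ) * 2 * x) • q)).2 h1]
        simp only [pv]
        ext <;> simp <;> ring
      · intro h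
        have h1 : Even l.length := by
          rw [List.length_cons] at h
          by_contra hcon
          rw [Nat.not_even_iff_odd] at hcon
          exact (Nat.not_odd_iff_even.mpr hcon.add_one) h
        rw [Lc, neg_neg, (Lc_pv l q (p + ((-1 : ℤ) * 2 * x) • q)).1 h1]
        simp only [pv]
        ext <;> simp <;> ring

theorem lastv_eq (x : List ℤ) (hx : Even x.length) : lastv x = pv false x := by
  have h1 := Lc_chain x x 0 (by simp) (Nat.zero_le _)
  rw [pow_zero, (Lc_pv x _ _).1 hx] at h1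
  rw [← h1]
  ext <;> simp [chain]

/-- the value of `|J_0|^2` as a number of elements -/
theorem normsq (hZ : ZF n ι) (hc : CHN_Stmt) (x : List ℤ) (hx : Even x.length) :
    ‖(vec n ι false x).1 0‖ ^ 2 =
      ((Finset.univ.filter fun t : ZMod (2 * n) => t * ((lastv x).2 : ZMod (2 * n)) = 0).card
        : ℝ) := by
  obtain ⟨h, h1, h2⟩ := inv_vec hZ false x
  rw [← lastv_eq x hx] at h1 h2
  have hA : Even (lastv x).1 := ((hc x).2.2.1 (x.length + 1) hx.add_one).1
  obtain ⟨A', hA'⟩ := hA
  have hh : h = A' * (lastv x).2 := by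
    rw [hA'] at h1
    have h3 : 2 * h = 2 * (A' * (lastv x).2) := by rw [← h1]; ring
    exact mul_left_cancel₀ two_ne_zero h3
  have h3 := h2 0 0
  rw [Complex.mul_conj', one_mul] at h3
  have h4 : ∀ t : ZMod (2 * n), (if (0 : ZMod (2 * n)) + t * ((lastv x).2 : ZMod (2 * n)) = 0 then
      zt n ι (t ^ 2 * (h : ZMod (2 * n)) + t * ((lastv x).1 : ZMod (2 * n)) * 0) else 0) =
      if t * ((lastv x).2 : ZMod (2 * n)) = 0 then 1 else 0 := by
    intro t
    rw [zero_add]
    by_cases ht : t * ((lastv x).2 : ZMod (2 * n)) = 0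
    · rw [if_pos ht, if_pos ht]
      have h5 : t ^ 2 * (h : ZMod (2 * n)) + t * ((lastv x).1 : ZMod (2 * n)) * 0 = 0 := by
        rw [hh]
        push_cast
        linear_combination (t * A') * ht
      rw [h5, hZ.zero]
    · rw [if_neg ht, if_neg ht]
  rw [Finset.sum_congr rfl fun t _ => h4 t, Finset.sum_boole] at h3
  exact_mod_cast h3

end JNZ

open JNZ in
/-- **Module JNZ.** -/
theorem jnz (hz : ZT_Stmt) (hc : CHN_Stmt) : JNZ_Stmt := by
  intro n _ ι hι hn x hx
  have hZ := zf hz hι
  have hodd : Odd (lastv x).2 := ((hc x).2.2.1 (x.length + 1) hx.add_one).2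
  rw [normsq hZ hc x hx]
  set d := (lastv x).2 with hd
  have h2n : (2 * n : ℕ) ≠ 0 := NeZero.ne _
  constructor
  · intro hcop
    have h1 : IsCoprime d ((2 * n : ℕ) : ℤ) := by
      push_cast
      refine IsCoprime.mul_right ?_ hcop
      rw [Int.isCoprime_iff_gcd_eq_one]
      have h3 : ¬ (2 : ℤ) ∣ d := by
        rw [← even_iff_two_dvd]
        exact Int.not_even_iff_odd.mpr hodd
      have h4 : IsCoprime (2 : ℤ) d := (Prime.coprime_iff_not_dvd Int.prime_two).mpr h3
      exact Int.isCoprime_iff_gcd_eq_one.mp h4.symm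
    have h2 : IsUnit (d : ZMod (2 * n)) := by
      obtain ⟨a, b, hab⟩ := h1
      refine IsUnit.of_mul_eq_one (a : ZMod (2 * n)) ?_
      have h3 := congrArg (Int.cast : ℤ → ZMod (2 * n)) hab
      push_cast at h3
      have h4 : (2 : ZMod (2 * n)) * (n : ZMod (2 * n)) = 0 := by
        have h5 : (((2 * n : ℕ) : ZMod (2 * n))) = 0 := ZMod.natCast_self _
        push_cast at h5
        exact h5
      rw [h4, mul_zero, add_zero] at h3
      exact (mul_comm _ _).trans h3
    have h3 : (Finset.univ.filter fun t : ZMod (2 * n) => t * (d : ZMod (2 * n)) = 0) = {0} := by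
      ext t
      simp only [Finset.mem_filter, Finset.mem_univ, true_and, Finset.mem_singleton]
      exact h2.mul_left_eq_zero
    rw [h3]
    simp
  · intro hdvd
    have hd0 : d ≠ 0 := by
      intro h
      rw [h] at hodd
      exact (by decide : ¬ Odd (0 : ℤ)) hodd
    obtain ⟨e, he⟩ : d.natAbs ∣ 2 * n := by
      have h1 : d.natAbs ∣ n := Int.natAbs_dvd_natAbs.mpr hdvd |>.trans (by simp)
      exact h1.mul_left 2
    have hdpos : 0 < d.natAbs := Int.natAbs_pos.mpr hd0
    have hepos : 0 < e := by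
      rcases Nat.eq_zero_or_pos e with h | h
      · rw [h, mul_zero] at he
        exact absurd he h2n
      · exact h
    have h1 : (Finset.univ.filter fun t : ZMod (2 * n) => t * (d : ZMod (2 * n)) = 0).card =
        (Finset.range d.natAbs).card := by
      symm
      refine Finset.card_bij (fun k _ => ((e * k : ℕ) : ZMod (2 * n))) ?_ ?_ ?_
      · intro k _
        simp only [Finset.mem_filter, Finset.mem_univ, true_and]
        have h3 : ((e * k : ℕ) : ZMod (2 * n)) * (d : ZMod (2 * n)) =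
            (((e * k : ℕ) * d : ℤ) : ZMod (2 * n)) := by push_cast; ring
        rw [h3, ZMod.intCast_zmod_eq_zero_iff_dvd]
        have h4 : (((2 * n : ℕ) : ℤ)) = (d.natAbs : ℤ) * e := by rw [he]; push_cast; ring
        rw [h4]
        have h5 : (d.natAbs : ℤ) ∣ d := Int.natAbs_dvd.mpr dvd_rfl
        have h6 : ((e * k : ℕ) : ℤ) * d = d * e * k := by push_cast; ring
        rw [h6]
        exact (mul_dvd_mul_right h5 _).mul_right _
      · intro k hk k' hk' hkk
        rw [Finset.mem_range] at hk hk'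
        have h3 : e * k < 2 * n := by
          rw [he, mul_comm d.natAbs e]
          exact Nat.mul_lt_mul_of_pos_left hk hepos
        have h4 : e * k' < 2 * n := by
          rw [he, mul_comm d.natAbs e]
          exact Nat.mul_lt_mul_of_pos_left hk' hepos
        have h5 := congrArg ZMod.val hkk
        rw [ZMod.val_natCast_of_lt h3, ZMod.val_natCast_of_lt h4] at h5
        exact Nat.eq_of_mul_eq_mul_left hepos h5
      · intro t ht
        simp only [Finset.mem_filter, Finset.mem_univ, true_and] at ht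
        have h3 : (((t.val : ℕ) : ℤ) * d : ℤ) = ((t.val : ℤ) * d) := rfl
        have h4 : ((((t.val : ℕ) : ℤ) * d : ℤ) : ZMod (2 * n)) = 0 := by
          push_cast
          rw [ZMod.natCast_zmod_val]
          exact ht
        rw [ZMod.intCast_zmod_eq_zero_iff_dvd] at h4
        have h5 : d.natAbs * e ∣ t.val * d.natAbs := by
          have h6 := Int.natAbs_dvd_natAbs.mpr h4
          rw [Int.natAbs_mul, Int.natAbs_natCast, Int.natAbs_natCast] at h6
          have h7 : d.natAbs * e ∣ 2 * n := ⟨1, by rw [mul_one]; exact he⟩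
          exact h7.trans h6
        rw [mul_comm t.val] at h5
        have h6 : e ∣ t.val := Nat.dvd_of_mul_dvd_mul_left hdpos h5
        obtain ⟨k, hk⟩ := h6
        refine ⟨k, ?_, ?_⟩
        · rw [Finset.mem_range]
          have h7 : t.val < 2 * n := ZMod.val_lt t
          rw [hk, he, mul_comm d.natAbs e] at h7
          exact lt_of_mul_lt_mul_left h7 (Nat.zero_le _)
        · rw [← hk]
          exact ZMod.natCast_zmod_val t
    rw [h1, Finset.card_range]
    rw [← Int.cast_natCast, Int.natCast_natAbs]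
    push_cast
    rfl

end Pool.Agent.TB
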