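import Pool.Agent.TB.Stmts2

/-!
# Module TB_CFU: uniqueness of the even continued fraction

`lastv (a :: b :: l) = D_a C_b (lastv l)` with `C_b (p, q) = (p - 2 b q, q)` and
`D_a (p, q) = (p, q + 2 a p)`.  If `|p| < |q|` and `a, b ≠ 0`, then after `C_b` the first
coordinate is the larger one and after `D_a` the second one.  So `a`, then `b`, are determined by
the ratio of the coordinates.
-/

namespace Pool.Agent.TB

namespace CFU

/-- removal of two letters of the word -/
theorem chain_cons2 (a b : ℤ) (l : List ℤ) : ∀ j : ℕ,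
    chain (a :: b :: l) (j + 2) =
      ((chain l j).1 - 2 * b * (chain l j).2,
        (chain l j).2 + 2 * a * ((chain l j).1 - 2 * b * (chain l j).2))
  | 0 => by
      simp [chain]
  | 1 => by
      simp [chain]
      ring
  | i + 2 => by
      have h1 := chain_cons2 a b l i
      have h2 := chain_cons2 a b l (i + 1)
      have e1 : chain (a :: b :: l) (i + 2 + 2) = chain (a :: b :: l) (i + 2) +
          ((-1) ^ (i + 2) * 2 * (a :: b :: l).getD (i + 2) 0) •
            chain (a :: b :: l) (i + 1 + 2) := rfl
      have e2 : chain l (i + 2) = chain l i + ((-1) ^ i * 2 * l.getD i 0) • chain l (i + 1) := rfl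
      have e3 : (a :: b :: l).getD (i + 2) 0 = l.getD i 0 := by simp
      have e4 : ((-1 : ℤ)) ^ (i + 2) = (-1) ^ i := by
        rw [pow_add]; norm_num
      rw [e1, h1, h2, e2, e3, e4]
      ext
      · simp only [Prod.fst_add, Prod.smul_fst, Prod.snd_add, Prod.smul_snd, smul_eq_mul]
        ring
      · simp only [Prod.fst_add, Prod.smul_fst, Prod.snd_add, Prod.smul_snd, smul_eq_mul]
        ring

theorem lastv_nil : lastv [] = (0, 1) := rfl

theorem lastv_cons2 (a b : ℤ) (l : List ℤ) :
    lastv (a :: b :: l) =
      ((lastv l).1 - 2 * b * (lastv l).2,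
        (lastv l).2 + 2 * a * ((lastv l).1 - 2 * b * (lastv l).2)) :=
  chain_cons2 a b l (l.length + 1)

theorem grow (b A d : ℤ) (hb : b ≠ 0) (h : |A| < |d|) : |d| < |A - 2 * b * d| := by
  have h1 : |2 * b * d| - |A| ≤ |A - 2 * b * d| := by
    have := abs_sub_abs_le_abs_sub (2 * b * d) A
    rwa [abs_sub_comm (2 * b * d) A] at this
  have h2 : |2 * b * d| = 2 * |b| * |d| := by
    rw [abs_mul, abs_mul]; norm_num
  have h3 : 1 ≤ |b| := Int.one_le_abs hb
  have h4 : 0 ≤ |d| := abs_nonneg d
  nlinarith

theorem grow' (a A d : ℤ) (ha : a ≠ 0) (h : |d| < |A|) : |A| < |d + 2 * a * A| := by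
  have := grow (-a) d A (neg_ne_zero.2 ha) h
  have e : d - 2 * -a * A = d + 2 * a * A := by ring
  rwa [e] at this

theorem lt_of_even : ∀ x : List ℤ, Even x.length → (∀ a ∈ x, a ≠ 0) →
    |(lastv x).1| < |(lastv x).2|
  | [], _, _ => by simp [lastv_nil]
  | [_], h, _ => by simp at h
  | a :: b :: l, h, h0 => by
      have hl : Even l.length := by
        simp only [List.length_cons] at h
        obtain ⟨k, hk⟩ := h
        exact ⟨k - 1, by omega⟩
      have ih := lt_of_even l hl (fun c hc => h0 c (by simp [hc]))
      rw [lastv_cons2]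
      exact grow' a _ _ (h0 a (by simp)) (grow b _ _ (h0 b (by simp)) ih)

/-- two integers `a`, `a'` with `2 (a' - a) P Q` smaller than `2 P Q` are equal -/
theorem eq_of_small (a a' P Q u v : ℤ) (hu : |u| < |P|) (hv : |v| < |Q|)
    (h : 2 * (a' - a) * (P * Q) = Q * u - P * v) : a = a' := by
  by_contra hne
  have h1 : 1 ≤ |a' - a| := Int.one_le_abs (sub_ne_zero.2 (Ne.symm hne))
  have h2 : |2 * (a' - a) * (P * Q)| = 2 * |a' - a| * (|P| * |Q|) := by
    rw [abs_mul, abs_mul, abs_mul]; norm_num
  have h3 : |Q * u - P * v| ≤ |Q| * |u| + |P| * |v| := by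
    have := abs_sub (Q * u) (P * v)
    rwa [abs_mul, abs_mul] at this
  have hP : 0 < |P| := lt_of_le_of_lt (abs_nonneg u) hu
  have hQ : 0 < |Q| := lt_of_le_of_lt (abs_nonneg v) hv
  have h4 : |Q| * |u| < |P| * |Q| := by
    rw [mul_comm |P| |Q|]
    exact mul_lt_mul_of_pos_left hu hQ
  have h5 : |P| * |v| < |P| * |Q| := mul_lt_mul_of_pos_left hv hP
  have h6 : 2 * (|P| * |Q|) ≤ 2 * |a' - a| * (|P| * |Q|) := by
    have := mul_pos hP hQ
    nlinarith
  rw [← h2, h] at h6
  linarith

theorem main : ∀ x y : List ℤ, Even x.length → Even y.length → (∀ a ∈ x, a ≠ 0) →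
    (∀ a ∈ y, a ≠ 0) → (lastv x).1 * (lastv y).2 = (lastv y).1 * (lastv x).2 → x = y
  | [_], _, h, _, _, _, _ => by simp at h
  | _, [_], _, h, _, _, _ => by simp at h
  | [], [], _, _, _, _, _ => rfl
  | [], a :: b :: l, _, h, _, h0, e => by
      exfalso
      have hl : Even l.length := by
        simp only [List.length_cons] at h
        obtain ⟨k, hk⟩ := h
        exact ⟨k - 1, by omega⟩
      have ih := lt_of_even l hl (fun c hc => h0 c (by simp [hc]))
      have g := grow b _ _ (h0 b (by simp)) ih
      rw [lastv_nil, lastv_cons2] at e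
      simp only [zero_mul, mul_one] at e
      rw [← e, abs_zero] at g
      exact absurd g (not_lt.2 (abs_nonneg _))
  | a :: b :: l, [], h, _, h0, _, e => by
      exfalso
      have hl : Even l.length := by
        simp only [List.length_cons] at h
        obtain ⟨k, hk⟩ := h
        exact ⟨k - 1, by omega⟩
      have ih := lt_of_even l hl (fun c hc => h0 c (by simp [hc]))
      have g := grow b _ _ (h0 b (by simp)) ih
      rw [lastv_nil, lastv_cons2] at e
      simp only [zero_mul, mul_one] at e
      rw [e, abs_zero] at g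
      exact absurd g (not_lt.2 (abs_nonneg _))
  | a :: b :: l, a' :: b' :: l', h, h', h0, h0', e => by
      have hl : Even l.length := by
        simp only [List.length_cons] at h
        obtain ⟨k, hk⟩ := h
        exact ⟨k - 1, by omega⟩
      have hl' : Even l'.length := by
        simp only [List.length_cons] at h'
        obtain ⟨k, hk⟩ := h'
        exact ⟨k - 1, by omega⟩
      have ih := lt_of_even l hl (fun c hc => h0 c (by simp [hc]))
      have ih' := lt_of_even l' hl' (fun c hc => h0' c (by simp [hc]))
      have g := grow b _ _ (h0 b (by simp)) ih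
      have g' := grow b' _ _ (h0' b' (by simp)) ih'
      rw [lastv_cons2, lastv_cons2] at e
      simp only at e
      have ea : a = a' := by
        refine eq_of_small a a' _ _ _ _ g g' ?_
        linear_combination e
      subst ea
      have eb : b' = b := by
        refine eq_of_small b' b _ _ _ _ ih ih' ?_
        linear_combination (-1 : ℤ) * e
      subst eb
      have el : l = l' := by
        refine main l l' hl hl' (fun c hc => h0 c (by simp [hc]))
          (fun c hc => h0' c (by simp [hc])) ?_
        linear_combination e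
      rw [el]

end CFU

theorem cfu : CFU_Stmt := CFU.main

end Pool.Agent.TB
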