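import Mathlib
import Pool.Agent.LibH11.SlicedKnots

/-!
Finite type invariants of 2-bridge knots: definitions.
See PAPER.md in this folder.
-/

open Polynomial
open scoped BigOperators

namespace Pool.Agent.TB

open Pool.Agent.LibH11.Sliced

/-! ### 1. The knots -/

/-- `2|x|` crossings of the strands `p` and `p+1`, of type `0 < x`. -/
def tw (p : ℕ) (x : ℤ) : Diag := List.replicate (2 * x.natAbs) (Kind.crs (decide (0 < x)), p)

/-- The twist regions of the word `x = (x_1, x_2, ...)`, from bottom to top: `x_1` at the position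
`p`, then `x_2` at the position `1 - p`, and so on (`p` is `0` or `1`). -/
def twd : ℕ → List ℤ → Diag
  | _, [] => []
  | p, a :: l => tw p a ++ twd (1 - p) l

/-- The long 2-bridge diagram of the word `x` (even continued fraction):
`cup 1, (crs 0)^(2 x_1), (crs 1)^(2 x_2), ..., cap 0`. -/
def kdiag (x : List ℤ) : Diag := (Kind.cup, 1) :: (twd 0 x ++ [(Kind.cap, 0)])

/-! ### 2. Functors on sliced diagrams -/

/-- Matrices for the elementary slices. `R e x y a b` is the coefficient of the output `(x,y)` for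
the input `(a,b)`. -/
structure TData (A S : Type) where
  R : Bool → S → S → S → S → A
  cup : S → S → A
  cap : S → S → A

namespace TData

variable {A S : Type} [CommRing A] [Fintype S] [DecidableEq S]

/-- Action of a slice at position 0 on a vector, given by its coefficients `ψ l`. -/
def ap0 (T : TData A S) : Kind → (List S → A) → List S → A
  | .cup, ψ, x :: y :: l => T.cup x y * ψ l
  | .cup, _, _ => 0
  | .cap, ψ, l => ∑ a, ∑ b, T.cap a b * ψ (a :: b :: l)
  | .crs e, ψ, x :: y :: l => ∑ a, ∑ b, T.R e x y a b * ψ (a :: b :: l)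
  | .crs _, _, _ => 0

/-- Action of a slice at position `i`. -/
def ap (T : TData A S) (k : Kind) : ℕ → (List S → A) → List S → A
  | 0, ψ, l => T.ap0 k ψ l
  | _ + 1, _, [] => 0
  | i + 1, ψ, a :: l => T.ap k i (fun l' => ψ (a :: l')) l

/-- Action of a diagram. -/
def st (T : TData A S) : Diag → (List S → A) → List S → A
  | [], ψ => ψ
  | (k, i) :: w, ψ => T.st w (T.ap k i ψ)

/-- The value of a diagram from one strand to one strand, both labelled `s0`. -/
def J (T : TData A S) (s0 : S) (w : Diag) : A := T.st w (fun l => if l = [s0] then 1 else 0) [s0]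

/-- The relations making `J` invariant. -/
structure Good (T : TData A S) : Prop where
  zigzag : ∀ x b, ∑ y, T.cup x y * T.cap y b = if x = b then 1 else 0
  zagzig : ∀ y b, ∑ x, T.cap b x * T.cup x y = if y = b then 1 else 0
  slideCap : ∀ e d a b c,
    ∑ x, T.R e x d b c * T.cap a x = ∑ x, T.R (!e) d x a b * T.cap x c
  slideCup : ∀ e x p z a,
    ∑ y, T.cup x y * T.R e p z y a = ∑ y, T.R (!e) x p a y * T.cup y z
  r1Cap : ∀ e a b, ∑ x, ∑ y, T.cap x y * T.R e x y a b = T.cap a b
  r1Cup : ∀ e a b, ∑ x, ∑ y, T.R e a b x y * T.cup x y = T.cup a b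
  r2 : ∀ e a b c d,
    ∑ x, ∑ y, T.R (!e) a b x y * T.R e x y c d = if a = c ∧ b = d then 1 else 0
  r3 : ∀ a b c a' b' c',
    ∑ x, ∑ y, ∑ z, T.R true a b x y * T.R true y c z c' * T.R true x z a' b' =
      ∑ x, ∑ y, ∑ z, T.R true b c y z * T.R true a y a' x * T.R true x z b' c'

end TData

/-! ### 3. Quantum parameters and the R-matrix -/

/-- A unit `s` (`q = s^2`) and a square root `i` of `-1`. -/
structure QP (A : Type) [CommRing A] where
  s : Aˣ
  i : Aˣ
  hi : (i : A) * i = -1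

namespace QP

variable {A : Type} [CommRing A] (Q : QP A)

/-- `q^m` -/
def qp (m : ℤ) : A := ((Q.s ^ (2 * m) : Aˣ) : A)

/-- `q + q⁻¹` -/
def two : A := Q.qp 1 + Q.qp (-1)

/-- the quantum integer `[m]` -/
def br (m : ℤ) : A :=
  if 0 ≤ m then ∑ k ∈ Finset.range m.toNat, Q.qp (m - 1 - 2 * k)
  else -∑ k ∈ Finset.range (-m).toNat, Q.qp (-m - 1 - 2 * k)

/-- `λ_m = i [m]` -/
def lam (m : ℤ) : A := Q.i * Q.br m

/-- `f_m = i^m s^(m^2)` -/
def fu (m : ℤ) : Aˣ := Q.i ^ m * Q.s ^ (m ^ 2)

/-- `G_m = f_m^2 / f_r^2`, the eigenvalue of a full twist -/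
def Gu (r : ℕ) (m : ℤ) : Aˣ := Q.fu m ^ 2 * (Q.fu r ^ 2)⁻¹

/-- `λ_m - λ_m'` is a unit for different `m, m'` in `[-r, r]`. -/
def Gen (r : ℕ) : Prop :=
  ∀ m ∈ Finset.Icc (-(r : ℤ)) r, ∀ m' ∈ Finset.Icc (-(r : ℤ)) r, m ≠ m' →
    IsUnit (Q.lam m - Q.lam m')

/-- `λ_m ≠ λ_{r+1}, λ_{-(r+1)}` for `m` in `[-r, r]`. -/
def Reg (r : ℕ) : Prop :=
  ∀ m ∈ Finset.Icc (-(r : ℤ)) r, Q.lam m ≠ Q.lam (r + 1) ∧ Q.lam m ≠ Q.lam (-(r + 1))

/-- the polynomial with the roots `λ_m`, `|m| ≤ r` -/
noncomputable def pol (r : ℕ) : A[X] := ∏ m ∈ Finset.Icc (-(r : ℤ)) r, (X - C (Q.lam m))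

/-- Lagrange polynomials -/
noncomputable def basis (r : ℕ) (m : ℤ) : A[X] :=
  ∏ m' ∈ (Finset.Icc (-(r : ℤ)) r).erase m,
    (C (Ring.inverse (Q.lam m - Q.lam m')) * (X - C (Q.lam m')))

/-- the interpolation polynomial with value `g m` at `λ_m`, `|m| ≤ r` -/
noncomputable def interp (r : ℕ) (g : ℤ → A) : A[X] :=
  ∑ m ∈ Finset.Icc (-(r : ℤ)) r, C (g m) * Q.basis r m

/-- base change -/
def map {B : Type} [CommRing B] (φ : A →+* B) : QP B where
  s := Units.map (φ : A →* B) Q.s
  i := Units.map (φ : A →* B) Q.i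
  hi := by
    simp only [Units.coe_map, MonoidHom.coe_coe]
    rw [← map_mul, Q.hi, map_neg, map_one]

end QP

/-- Labels: subsets of a set with `r` elements (the modes). -/
def Lb : ℕ → Type
  | 0 => Unit
  | r + 1 => Lb r × Bool

instance instFintypeLb : ∀ r, Fintype (Lb r)
  | 0 => inferInstanceAs (Fintype Unit)
  | r + 1 => @instFintypeProd _ _ (instFintypeLb r) _

instance instDecidableEqLb : ∀ r, DecidableEq (Lb r)
  | 0 => inferInstanceAs (DecidableEq Unit)
  | r + 1 => @instDecidableEqProd _ _ (instDecidableEqLb r) _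

/-- the empty subset -/
def Lb.zero : ∀ r, Lb r
  | 0 => ()
  | r + 1 => (Lb.zero r, false)

/-- the parity of a subset (`false` is even) -/
def Lb.par : ∀ {r}, Lb r → Bool
  | 0, _ => false
  | r + 1, x => xor (Lb.par (r := r) x.1) x.2

/-- the complement -/
def Lb.compl : ∀ {r}, Lb r → Lb r
  | 0, _ => ()
  | r + 1, x => (Lb.compl (r := r) x.1, !x.2)

section RMatrix

variable {A : Type} [CommRing A] (Q : QP A)

/-- `K⁻¹` on one mode, `K |u v> = q^(u-v) |u v>` -/
def kinv : Bool → Bool → A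
  | true, false => Q.qp (-1)
  | false, true => Q.qp 1
  | _, _ => 1

/-- `B` on one mode: `B|10> = |01>`, `B|01> = -|10>`; `bm u v a b` is the coefficient of `|u v>` in
`B|a b>`. -/
def bm (A : Type) [CommRing A] : Bool → Bool → Bool → Bool → A
  | false, true, true, false => 1
  | true, false, false, true => -1
  | _, _, _, _ => 0

/-- The operator `I = Σ_j B_j Π_{j'>j} K_{j'}⁻¹` on two strands; row: output, column: input. -/
def Im : ∀ r, Matrix (Lb r × Lb r) (Lb r × Lb r) A
  | 0 => 0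
  | r + 1 => fun p c =>
      (if p.1.2 = c.1.2 ∧ p.2.2 = c.2.2 then
          kinv Q p.1.2 p.2.2 * Im r (p.1.1, p.2.1) (c.1.1, c.2.1) else 0) +
        (if p.1.1 = c.1.1 ∧ p.2.1 = c.2.1 then bm A p.1.2 p.2.2 c.1.2 c.2.2 else 0)

/-- The R-matrix. -/
def Rm : ∀ r, Matrix (Lb r × Lb r) (Lb r × Lb r) A
  | 0 => 1
  | r + 1 => fun p c =>
      match p.1.2, p.2.2, c.1.2, c.2.2 with
      | false, false, false, false => Rm r (p.1.1, p.2.1) (c.1.1, c.2.1)
      | true, true, true, true => Rm r (p.1.1, p.2.1) (c.1.1, c.2.1)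
      | false, true, true, false => (Q.s : A) * Rm r (p.1.1, p.2.1) (c.1.1, c.2.1)
      | true, false, false, true => -(Q.s : A) * Rm r (p.1.1, p.2.1) (c.1.1, c.2.1)
      | false, true, false, true =>
          (Q.s : A) * (Q.qp 1 - Q.qp (-1)) * (Rm r * Im Q r) (p.1.1, p.2.1) (c.1.1, c.2.1)
      | _, _, _, _ => 0

/-- The inverse R-matrix. -/
def Rn : ∀ r, Matrix (Lb r × Lb r) (Lb r × Lb r) A
  | 0 => 1
  | r + 1 => fun p c =>
      match p.1.2, p.2.2, c.1.2, c.2.2 with
      | false, false, false, false => Rn r (p.1.1, p.2.1) (c.1.1, c.2.1)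
      | true, true, true, true => Rn r (p.1.1, p.2.1) (c.1.1, c.2.1)
      | false, true, true, false =>
          -((Q.s⁻¹ : Aˣ) : A) * Rn r (p.1.1, p.2.1) (c.1.1, c.2.1)
      | true, false, false, true => ((Q.s⁻¹ : Aˣ) : A) * Rn r (p.1.1, p.2.1) (c.1.1, c.2.1)
      | true, false, true, false =>
          ((Q.s⁻¹ : Aˣ) : A) * (Q.qp 1 - Q.qp (-1)) *
            (Rn r * Im Q r) (p.1.1, p.2.1) (c.1.1, c.2.1)
      | _, _, _, _ => 0

/-- the vector `cup = ⊗_j (|10> - i q^(j-1) |01>)` -/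
def cupv : ∀ r, Lb r → Lb r → A
  | 0, _, _ => 1
  | r + 1, x, y =>
      match x.2, y.2 with
      | true, false => cupv r x.1 y.1
      | false, true => -(Q.i : A) * Q.qp r * cupv r x.1 y.1
      | _, _ => 0

/-- the covector `⊗_j (<10| + i q^(j-1) <01|)` -/
def capu : ∀ r, Lb r → Lb r → A
  | 0, _, _ => 1
  | r + 1, x, y =>
      match x.2, y.2 with
      | true, false => capu r x.1 y.1
      | false, true => (Q.i : A) * Q.qp r * capu r x.1 y.1
      | _, _ => 0

/-- the covector `cap`, normalised by the product of all `i q^(j-1)` -/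
def capv (r : ℕ) (x y : Lb r) : A :=
  (((Q.i ^ (r : ℤ) * Q.s ^ ((r : ℤ) * (r - 1)))⁻¹ : Aˣ) : A) * capu Q r x y

/-- Operators on the strands 1,2, respectively 2,3, of three strands. -/
def emb12 {L : Type} [DecidableEq L] (M : Matrix (L × L) (L × L) A) :
    Matrix (L × L × L) (L × L × L) A :=
  fun p c => if p.2.2 = c.2.2 then M (p.1, p.2.1) (c.1, c.2.1) else 0

/-- Operators on the strands 2,3 of three strands. -/
def emb23 {L : Type} [DecidableEq L] (M : Matrix (L × L) (L × L) A) :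
    Matrix (L × L × L) (L × L × L) A :=
  fun p c => if p.1 = c.1 then M p.2 c.2 else 0

/-- Even labels. -/
abbrev Ev (r : ℕ) : Type := {x : Lb r // x.par = false}

/-- Labels of the functor: even subsets and an orientation. -/
abbrev SL (r : ℕ) : Type := Ev r × Bool

/-- The matrices of the functor: a crossing exchanges the orientations, minima and maxima join
opposite orientations; `κ = s^r`. -/
def tdata (r : ℕ) : TData A (SL r) where
  R := fun e x y a b =>
    if x.2 = b.2 ∧ y.2 = a.2 then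
      match e with
      | true =>
          ((if a.2 = b.2 then Q.fu r * (Q.s ^ r)⁻¹ else (Q.fu r)⁻¹ : Aˣ) : A) *
            Rm Q r (x.1.1, y.1.1) (a.1.1, b.1.1)
      | false =>
          ((if a.2 = b.2 then (Q.fu r)⁻¹ * Q.s ^ r else Q.fu r : Aˣ) : A) *
            Rn Q r (x.1.1, y.1.1) (a.1.1, b.1.1)
    else 0
  cup := fun x y => if x.2 ≠ y.2 then cupv Q r x.1.1 y.1.1 else 0
  cap := fun x y => if x.2 ≠ y.2 then capv Q r x.1.1 y.1.1 else 0

theorem Lb.par_zero : ∀ r, (Lb.zero r).par = false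
  | 0 => rfl
  | r + 1 => by simp [Lb.zero, Lb.par, Lb.par_zero r]

/-- the label of the ends of the long strand -/
def s0 (r : ℕ) : SL r := (⟨Lb.zero r, Lb.par_zero r⟩, true)

end RMatrix

/-! ### 4. Universal values of words -/

section Universal

variable {A : Type} [CommRing A]

/-- `L(z^k)`, where `L(1) = μ`, `L(z) = μ' z`, `L(z^(k+2)) = t z L(z^(k+1)) - z² L(z^k) - L(z^k)` -/
noncomputable def Lz (t μ μ' : A) : ℕ → A[X]
  | 0 => C μ
  | 1 => C μ' * X
  | k + 2 => C t * X * Lz t μ μ' (k + 1) - X ^ 2 * Lz t μ μ' k - Lz t μ μ' k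

/-- the operator `L` on polynomials -/
noncomputable def Lop (t μ μ' : A) : Module.End A A[X] :=
  (Polynomial.basisMonomials A).constr A (Lz t μ μ')

/-- the action of a word of polynomials `P_1(I_1) P_2(I_2) P_3(I_1) ...` on the cyclic vector
(`b = false`: start with `I_1`) -/
noncomputable def wop (t μ μ' : A) : Bool → List A[X] → A[X]
  | _, [] => 1
  | false, P :: l => aeval (Lop t μ μ') P (wop t μ μ' true l)
  | true, P :: l => P * wop t μ μ' false l

/-- the universal value -/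
noncomputable def Uval (t μ μ' : A) (l : List A[X]) : A := (wop t μ μ' false l).eval μ

end Universal

/-- The universal value of the word `x`: `<Ω'| G(I_1)^{x_1} G(I_2)^{x_2} ... |Ω>`. -/
noncomputable def Jval {A : Type} [CommRing A] (Q : QP A) (r : ℕ) (x : List ℤ) : A :=
  Uval Q.two (Q.lam r) (Q.lam (r - 1))
    (x.map fun a => Q.interp r fun m => ((Q.Gu r m ^ a : Aˣ) : A))

end Pool.Agent.TB
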