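import Pool.Agent.TB.Stmts2

/-!
# Module TB_LFT (MP_31fd3b_gt): operators with values in the dual numbers, functional calculus
-/

open Polynomial
open scoped BigOperators Real

namespace Pool.Agent.TB

namespace LFT

section

variable (n : ℕ) [NeZero n]

theorem lift2_apply_fst (O0 O1 : Module.End ℂ (Fn n)) (f : ZMod (2 * n) → DualNumber ℂ)
    (u : ZMod (2 * n)) : (lift2 n O0 O1 f u).fst = O0 (fun v => (f v).fst) u := by
  simp [lift2]

theorem lift2_apply_snd (O0 O1 : Module.End ℂ (Fn n)) (f : ZMod (2 * n) → DualNumber ℂ)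
    (u : ZMod (2 * n)) : (lift2 n O0 O1 f u).snd =
      O0 (fun v => (f v).snd) u + O1 (fun v => (f v).fst) u := by
  simp [lift2]

theorem lift2_mul (O0 O1 P0 P1 : Module.End ℂ (Fn n)) :
    lift2 n O0 O1 * lift2 n P0 P1 = lift2 n (O0 * P0) (O0 * P1 + O1 * P0) := by
  apply LinearMap.ext
  intro f
  funext u
  rw [Module.End.mul_apply]
  ext
  · rw [lift2_apply_fst, lift2_apply_fst]
    simp only [lift2_apply_fst]
    rfl
  · rw [lift2_apply_snd, lift2_apply_snd]
    simp only [lift2_apply_fst, lift2_apply_snd]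
    have h : (fun v => P0 (fun v => (f v).snd) v + P1 (fun v => (f v).fst) v) =
        P0 (fun v => (f v).snd) + P1 (fun v => (f v).fst) := rfl
    rw [h, map_add, LinearMap.add_apply, Module.End.mul_apply, Module.End.mul_apply,
      Module.End.mul_apply, Pi.add_apply, Pi.add_apply]
    ring

theorem lift2_one : lift2 n 1 0 = 1 := by
  apply LinearMap.ext
  intro f
  funext u
  ext
  · rw [lift2_apply_fst]
    rfl
  · rw [lift2_apply_snd]
    simp

theorem lift2_add (O0 O1 P0 P1 : Module.End ℂ (Fn n)) :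
    lift2 n O0 O1 + lift2 n P0 P1 = lift2 n (O0 + P0) (O1 + P1) := by
  apply LinearMap.ext
  intro f
  funext u
  rw [LinearMap.add_apply, Pi.add_apply]
  ext
  · rw [TrivSqZeroExt.fst_add, lift2_apply_fst, lift2_apply_fst, lift2_apply_fst]
    rfl
  · rw [TrivSqZeroExt.snd_add, lift2_apply_snd, lift2_apply_snd, lift2_apply_snd,
      LinearMap.add_apply, LinearMap.add_apply, Pi.add_apply, Pi.add_apply]
    ring

theorem lift2_smul_one (c : DualNumber ℂ) :
    c • (1 : Module.End (DualNumber ℂ) (ZMod (2 * n) → DualNumber ℂ)) =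
      lift2 n (c.fst • 1) (c.snd • 1) := by
  apply LinearMap.ext
  intro f
  funext u
  rw [LinearMap.smul_apply, Module.End.one_apply, Pi.smul_apply, smul_eq_mul]
  ext
  · rw [TrivSqZeroExt.fst_mul, lift2_apply_fst]
    rfl
  · rw [TrivSqZeroExt.snd_mul, lift2_apply_snd]
    simp [mul_comm]

/-- functional calculus for a homomorphism `Ψ` -/
theorem calculus (Ψ : Fn n → Module.End ℂ (Fn n)) (h1 : Ψ 1 = 1)
    (hm : ∀ g g', Ψ (g * g') = Ψ g * Ψ g') (ha : ∀ g g', Ψ (g + g') = Ψ g + Ψ g')
    (hs : ∀ (c : ℂ) g, Ψ (c • g) = c • Ψ g) (g0 g1 : Fn n) (P : (DualNumber ℂ)[X]) :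
    aeval (lift2 n (Ψ g0) (Ψ g1)) P =
      lift2 n (Ψ fun u => (P.eval (TrivSqZeroExt.inl (g0 u) + TrivSqZeroExt.inr (g1 u))).fst)
        (Ψ fun u => (P.eval (TrivSqZeroExt.inl (g0 u) + TrivSqZeroExt.inr (g1 u))).snd) := by
  induction P using Polynomial.induction_on with
  | C a =>
    rw [aeval_C, Algebra.algebraMap_eq_smul_one, lift2_smul_one]
    have e1 : (fun u => ((C a : (DualNumber ℂ)[X]).eval
        (TrivSqZeroExt.inl (g0 u) + TrivSqZeroExt.inr (g1 u))).fst) = a.fst • (1 : Fn n) := by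
      funext u
      simp
    have e2 : (fun u => ((C a : (DualNumber ℂ)[X]).eval
        (TrivSqZeroExt.inl (g0 u) + TrivSqZeroExt.inr (g1 u))).snd) = a.snd • (1 : Fn n) := by
      funext u
      simp
    rw [e1, e2, hs, hs, h1]
  | add P R hP hR =>
    rw [map_add, hP, hR, lift2_add, ← ha, ← ha]
    congr 2
    · funext u
      simp
    · funext u
      simp
  | monomial k a h =>
    rw [pow_succ, ← mul_assoc, map_mul, h, aeval_X, lift2_mul, ← hm, ← hm, ← hm, ← ha]
    congr 2
    · funext u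
      simp only [Pi.mul_apply, eval_mul, eval_X, TrivSqZeroExt.fst_mul, TrivSqZeroExt.fst_add,
        TrivSqZeroExt.fst_inl, TrivSqZeroExt.fst_inr, add_zero]
    · funext u
      simp only [Pi.mul_apply, Pi.add_apply, eval_mul, eval_X, TrivSqZeroExt.snd_mul,
        TrivSqZeroExt.fst_add, TrivSqZeroExt.snd_add, TrivSqZeroExt.snd_inl,
        TrivSqZeroExt.fst_inl, TrivSqZeroExt.fst_inr, TrivSqZeroExt.snd_inr, add_zero, zero_add,
        smul_eq_mul, op_smul_eq_smul]
      ring

/-! ### Multiplication operators -/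

theorem mulo_one : mulo n 1 = 1 := by
  apply LinearMap.ext
  intro f
  funext u
  simp [mulo]

theorem mulo_mul (g g' : Fn n) : mulo n (g * g') = mulo n g * mulo n g' := by
  apply LinearMap.ext
  intro f
  funext u
  simp [mulo, mul_assoc]

theorem mulo_add (g g' : Fn n) : mulo n (g + g') = mulo n g + mulo n g' := by
  apply LinearMap.ext
  intro f
  funext u
  simp [mulo, add_mul]

theorem mulo_smul (c : ℂ) (g : Fn n) : mulo n (c • g) = c • mulo n g := by
  apply LinearMap.ext
  intro f
  funext u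
  simp [mulo, mul_assoc]

/-! ### Convolution operators -/

variable (ι : ℤ)

/-- Fourier coefficients -/
noncomputable def ft (f : Fn n) (k : ZMod (2 * n)) : ℂ := ∑ v, zt n ι (-(k * v)) * f v

theorem cono_add (g g' : Fn n) : cono n ι (g + g') = cono n ι g + cono n ι g' := by
  apply LinearMap.ext
  intro f
  funext u
  simp only [cono, LinearMap.coe_mk, AddHom.coe_mk, LinearMap.add_apply, Pi.add_apply]
  rw [← mul_add, ← Finset.sum_add_distrib]
  congr 1
  apply Finset.sum_congr rfl
  intro k _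
  rw [← Finset.sum_add_distrib]
  apply Finset.sum_congr rfl
  intro v _
  ring

theorem cono_smul (c : ℂ) (g : Fn n) : cono n ι (c • g) = c • cono n ι g := by
  apply LinearMap.ext
  intro f
  funext u
  simp only [cono, LinearMap.coe_mk, AddHom.coe_mk, LinearMap.smul_apply, Pi.smul_apply,
    smul_eq_mul, Finset.mul_sum]
  apply Finset.sum_congr rfl
  intro k _
  apply Finset.sum_congr rfl
  intro v _
  ring

variable (hadd : ∀ a b, zt n ι (a + b) = zt n ι a * zt n ι b) (h0 : zt n ι 0 = 1)
  (hort : ∀ u : ZMod (2 * n), ∑ k, zt n ι (k * u) = if u = 0 then (2 * n : ℂ) else 0)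

include hadd in
theorem cono_eq (g f : Fn n) (u : ZMod (2 * n)) :
    cono n ι g f u = (1 / (2 * n : ℂ)) * ∑ k, g k * zt n ι (k * u) * ft n ι f k := by
  simp only [cono, LinearMap.coe_mk, AddHom.coe_mk, ft]
  congr 1
  apply Finset.sum_congr rfl
  intro k _
  rw [Finset.mul_sum]
  apply Finset.sum_congr rfl
  intro v _
  have h1 : k * (u - v) = k * u + -(k * v) := by ring
  rw [h1, hadd]
  ring

theorem n_ne : (n : ℂ) ≠ 0 := by exact_mod_cast NeZero.ne n

include hadd hort in
theorem ft_cono (g f : Fn n) (k : ZMod (2 * n)) :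
    ft n ι (cono n ι g f) k = g k * ft n ι f k := by
  have h2n := n_ne n
  unfold ft
  have h1 : ∀ v, zt n ι (-(k * v)) * cono n ι g f v =
      ∑ k', (1 / (2 * n : ℂ)) * (g k' * ft n ι f k') * zt n ι (v * (k' - k)) := by
    intro v
    rw [cono_eq n ι hadd, Finset.mul_sum, Finset.mul_sum]
    apply Finset.sum_congr rfl
    intro k' _
    have h2 : v * (k' - k) = -(k * v) + k' * v := by ring
    rw [h2, hadd]
    ring
  rw [Finset.sum_congr rfl (fun v _ => h1 v), Finset.sum_comm]
  have h3 : ∀ k', ∑ v, (1 / (2 * n : ℂ)) * (g k' * ft n ι f k') * zt n ι (v * (k' - k)) =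
      if k' = k then g k * ft n ι f k else 0 := by
    intro k'
    rw [← Finset.mul_sum, hort]
    by_cases h : k' = k
    · rw [if_pos (by rw [h, sub_self]), if_pos h, h]
      field_simp
    · rw [if_neg (fun hc => h (sub_eq_zero.1 hc)), if_neg h, mul_zero]
  rw [Finset.sum_congr rfl (fun k' _ => h3 k'), Finset.sum_ite_eq', if_pos (Finset.mem_univ _)]
  rfl

include hadd hort in
theorem cono_mul (g g' : Fn n) : cono n ι (g * g') = cono n ι g * cono n ι g' := by
  apply LinearMap.ext
  intro f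
  funext u
  rw [Module.End.mul_apply, cono_eq n ι hadd, cono_eq n ι hadd]
  congr 1
  apply Finset.sum_congr rfl
  intro k _
  rw [ft_cono n ι hadd hort, Pi.mul_apply]
  ring

include hadd hort in
theorem cono_one : cono n ι 1 = 1 := by
  have h2n := n_ne n
  apply LinearMap.ext
  intro f
  funext u
  simp only [cono, LinearMap.coe_mk, AddHom.coe_mk, Module.End.one_apply, Pi.one_apply, one_mul]
  rw [Finset.sum_comm]
  have h3 : ∀ v, ∑ k, zt n ι (k * (u - v)) * f v = if v = u then (2 * n : ℂ) * f u else 0 := by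
    intro v
    rw [← Finset.sum_mul, hort]
    by_cases h : v = u
    · rw [if_pos (by rw [h, sub_self]), if_pos h, h]
    · rw [if_neg (fun hc => h (sub_eq_zero.1 hc).symm), if_neg h, zero_mul]
  rw [Finset.sum_congr rfl (fun v _ => h3 v), Finset.sum_ite_eq', if_pos (Finset.mem_univ _)]
  field_simp

include hadd h0 hort in
theorem cono_const (g : Fn n) : cono n ι g 1 = fun _ => g 0 := by
  have h2n := n_ne n
  funext u
  rw [cono_eq n ι hadd]
  have h1 : ∀ k, ft n ι 1 k = if k = 0 then (2 * n : ℂ) else 0 := by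
    intro k
    unfold ft
    have h2 : ∀ v, zt n ι (-(k * v)) * (1 : Fn n) v = zt n ι (v * (-k)) := by
      intro v
      rw [Pi.one_apply, mul_one]
      congr 1
      ring
    rw [Finset.sum_congr rfl (fun v _ => h2 v), hort]
    by_cases h : k = 0
    · rw [if_pos (by rw [h, neg_zero]), if_pos h]
    · rw [if_neg (fun hc => h (neg_eq_zero.1 hc)), if_neg h]
  rw [Finset.sum_eq_single 0]
  · rw [h1, if_pos rfl, zero_mul, h0]
    field_simp
  · intro k _ hk
    rw [h1, if_neg hk, mul_zero]
  · intro h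
    exact absurd (Finset.mem_univ _) h

end

end LFT

open LFT in
theorem lft (hz : ZT_Stmt) : LFT_Stmt := by
  intro n _ ι hι
  obtain ⟨h0, hadd, -, -, hort, -⟩ := hz n ι hι
  refine ⟨lift2_mul n, lift2_one n, ?_, ?_, cono_mul n ι hadd hort,
    cono_const n ι hadd h0 hort⟩
  · intro g0 g1 P
    exact calculus n (mulo n) (mulo_one n) (mulo_mul n) (mulo_add n) (mulo_smul n) g0 g1 P
  · intro g0 g1 P
    exact calculus n (cono n ι) (cono_one n ι hadd hort) (cono_mul n ι hadd hort)
      (cono_add n ι) (cono_smul n ι) g0 g1 P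

end Pool.Agent.TB
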