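import Pool.Agent.TB.Stmts2

/-!
Finite type invariants of 2-bridge knots: the limit of the cot sums telescopes (TEL).
-/

open Filter Topology
open scoped BigOperators Real

namespace Pool.Agent.TB

namespace TEL

/-- Change of variables modulo `n`. -/
lemma sum_change (n : ℕ) [NeZero n] (g h : ℤ × ℤ) (ε : ℤ) (hε : ε * ε = 1)
    (hdet : det2 g h = ε) (F : ZMod n → ZMod n → (ZMod n × ZMod n) → ℂ) :
    ∑ R : ZMod n × ZMod n, F (detm n R g) (detm n R h) R =
      ∑ a : ZMod n, ∑ b : ZMod n,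
        F a b (ε * (b * g.1 - a * h.1), ε * (b * g.2 - a * h.2)) := by
  have hdet' : (g.1 : ZMod n) * h.2 - g.2 * h.1 = ε := by
    rw [← hdet]
    simp [det2]
  have hε' : (ε : ZMod n) * ε = 1 := by
    have := congrArg (fun z : ℤ => (z : ZMod n)) hε
    simpa using this
  rw [← Fintype.sum_prod_type' (f := fun a b =>
    F a b (ε * (b * g.1 - a * h.1), ε * (b * g.2 - a * h.2)))]
  symm
  let e : ZMod n × ZMod n ≃ ZMod n × ZMod n :=
    { toFun := fun p => (ε * (p.2 * g.1 - p.1 * h.1), ε * (p.2 * g.2 - p.1 * h.2))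
      invFun := fun R => (detm n R g, detm n R h)
      left_inv := by
        rintro ⟨a, b⟩
        simp only [detm, Prod.mk.injEq]
        constructor
        · linear_combination (ε * a) * hdet' + a * hε'
        · linear_combination (ε * b) * hdet' + b * hε'
      right_inv := by
        rintro ⟨a, b⟩
        simp only [detm, Prod.mk.injEq]
        constructor
        · linear_combination (ε * a) * hdet' + a * hε'
        · linear_combination (ε * b) * hdet' + b * hε' }
  apply Fintype.sum_equiv e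
  intro p
  have h1 := e.left_inv p
  have h2 : detm n (e p) g = p.1 := congrArg Prod.fst h1
  have h3 : detm n (e p) h = p.2 := congrArg Prod.snd h1
  rw [h2, h3]
  rfl

lemma Nm_cast (n : ℕ) [NeZero n] (x : List ℤ) (R : ℤ × ℤ) :
    Nm n x ((R.1 : ZMod n), (R.2 : ZMod n)) = ((Nf x R : ℤ) : ZMod n) := by
  simp [Nm, Nf, detm, det2]

lemma Nf_smul (x : List ℤ) (ε : ℤ) (hε : ε * ε = 1) (R : ℤ × ℤ) : Nf x (ε • R) = Nf x R := by
  simp only [Nf, det2, Prod.smul_fst, Prod.smul_snd, smul_eq_mul]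
  linear_combination ((1 * R.2 - 0 * R.1) * (R.1 * (lastv x).2 - R.2 * (lastv x).1)) * hε

/-- The set of solutions is finite. -/
lemma finite_sol (x : List ℤ) (hd : (lastv x).2 ≠ 0) (N0 : ℤ) (hN : N0 ≠ 0) :
    {R : ℤ × ℤ | Nf x R = N0}.Finite := by
  set A := (lastv x).1
  set d := (lastv x).2
  set M : ℤ := |N0| + |N0| * |A|
  refine Set.Finite.subset ((Set.finite_Icc (-M) M).prod (Set.finite_Icc (-M) M)) ?_
  rintro ⟨r1, r2⟩ hR
  have h1 : r2 * (r1 * d - r2 * A) = N0 := by
    have : Nf x (r1, r2) = N0 := hR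
    simpa [Nf, det2] using this
  have h2 : |r2| ≤ |N0| :=
    Int.le_of_dvd (abs_pos.2 hN) ((abs_dvd_abs _ _).2 ⟨_, h1.symm⟩)
  have h3 : |r1 * d - r2 * A| ≤ |N0| :=
    Int.le_of_dvd (abs_pos.2 hN) ((abs_dvd_abs _ _).2 ⟨r2, by rw [mul_comm]; exact h1.symm⟩)
  have hA : 0 ≤ |A| := abs_nonneg A
  have hN0 : 0 ≤ |N0| := abs_nonneg N0
  have h4 : |r1| ≤ M := by
    have h5 : |r1| ≤ |r1 * d| := by
      rw [abs_mul]
      exact le_mul_of_one_le_right (abs_nonneg _) (Int.one_le_abs hd)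
    have h6 : |r1 * d| ≤ |r1 * d - r2 * A| + |r2 * A| := by
      have := abs_add_le (r1 * d - r2 * A) (r2 * A)
      simpa using this
    have h7 : |r2 * A| ≤ |N0| * |A| := by
      rw [abs_mul]
      exact mul_le_mul_of_nonneg_right h2 hA
    linarith
  have h8 : |r2| ≤ M := h2.trans (by
    have := mul_nonneg hN0 hA
    change |N0| ≤ |N0| + |N0| * |A|
    linarith)
  exact ⟨⟨(abs_le.1 h4).1, (abs_le.1 h4).2⟩, ⟨(abs_le.1 h8).1, (abs_le.1 h8).2⟩⟩

/-- Telescoping. -/
lemma tele (g : ℕ → ℤ × ℤ) (hg : ∀ j, det2 (g j) (g (j + 1)) = (-1) ^ j) (R : ℤ × ℤ)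
    (hR : ∀ j, det2 R (g j) ≠ 0) (m : ℕ) :
    ∑ j ∈ Finset.range m, (-1 : ℂ) ^ j *
      (1 / ((det2 R (g j) : ℂ) * (det2 R (g (j + 1)) : ℂ))) =
      (det2 (g 0) (g m) : ℂ) / ((det2 R (g 0) : ℂ) * (det2 R (g m) : ℂ)) := by
  induction m with
  | zero => simp [det2, mul_comm]
  | succ m ih =>
    rw [Finset.sum_range_succ, ih]
    have h0 : (det2 R (g 0) : ℂ) ≠ 0 := by exact_mod_cast hR 0
    have h1 : (det2 R (g m) : ℂ) ≠ 0 := by exact_mod_cast hR m
    have h2 : (det2 R (g (m + 1)) : ℂ) ≠ 0 := by exact_mod_cast hR (m + 1)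
    have h3 : ((-1 : ℂ)) ^ m = (det2 (g m) (g (m + 1)) : ℂ) := by
      rw [hg m]
      push_cast
      rfl
    have h4 : (det2 (g 0) (g m) : ℂ) * det2 R (g (m + 1)) +
        (det2 (g m) (g (m + 1)) : ℂ) * det2 R (g 0) = det2 (g 0) (g (m + 1)) * det2 R (g m) := by
      have : det2 (g 0) (g m) * det2 R (g (m + 1)) + det2 (g m) (g (m + 1)) * det2 R (g 0) =
          det2 (g 0) (g (m + 1)) * det2 R (g m) := by
        simp only [det2]
        ring
      exact_mod_cast this
    rw [h3]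
    field_simp
    linear_combination h4

end TEL

open TEL in
theorem tel (hc : CHN_Stmt) (hl : LIM_Stmt) : TEL_Stmt := by
  intro x hx N0 hN0
  obtain ⟨c1, c2, c3, c4, c5, c6, -⟩ := hc x
  have hN0' : N0 ≠ 0 := by
    rintro rfl
    simp at hN0
  have hVodd : Odd (x.length + 1) := hx.add_one
  have hV : Even (lastv x).1 ∧ Odd (lastv x).2 := c3 _ hVodd
  have hd : (lastv x).2 ≠ 0 := by
    intro h
    have := hV.2
    rw [h] at this
    simp at this
  have hfin := finite_sol x hd N0 hN0'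
  refine ⟨hfin, ?_⟩
  let Z : Finset (ℤ × ℤ) := hfin.toFinset
  have hZ : ∀ R, R ∈ Z ↔ Nf x R = N0 := fun R => by simp [Z]
  have hεε : ∀ j : ℕ, ((-1 : ℤ) ^ j) * (-1) ^ j = 1 := fun j => by
    rw [← mul_pow]; simp
  -- the limit for each `j`
  have key : ∀ j : ℕ, Tendsto (fun s : ℕ => ((π : ℂ) / 2 ^ s) ^ 2 *
      ∑ R : ZMod (2 ^ s) × ZMod (2 ^ s), if Nm (2 ^ s) x R = ((N0 : ℤ) : ZMod (2 ^ s)) then
        ct (2 ^ s) (detm (2 ^ s) R (chain x j)) * ct (2 ^ s) (detm (2 ^ s) R (chain x (j + 1)))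
        else 0) atTop
      (𝓝 (∑ R ∈ Z, 1 / ((det2 R (chain x j) : ℂ) * (det2 R (chain x (j + 1)) : ℂ)))) := by
    intro j
    set g := chain x j with hgdef
    set h := chain x (j + 1) with hhdef
    have hgh : det2 g h = (-1) ^ j := c1 j
    set ε : ℤ := (-1) ^ j with hεdef
    have hε : ε * ε = 1 := hεε j
    set B : ℤ := det2 (1, 0) g * det2 h (lastv x) + det2 (1, 0) h * det2 g (lastv x) with hB
    have hBodd : Odd B := c6 hx j
    have hform : ∀ a b : ℤ, Nf x (b • g - a • h) =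
        b ^ 2 * Nf x g + a ^ 2 * Nf x h - a * b * B := c5 j
    let ψ : ℤ × ℤ → ℤ × ℤ := fun R => (det2 R g, det2 R h)
    have hinv : ∀ R : ℤ × ℤ, ε • ((det2 R h) • g - (det2 R g) • h) = R := by
      rintro ⟨r1, r2⟩
      have hgh' : g.1 * h.2 - g.2 * h.1 = ε := hgh
      ext
      · simp only [det2, Prod.smul_fst, Prod.fst_sub, smul_eq_mul]
        linear_combination (ε * r1) * hgh' + r1 * hε
      · simp only [det2, Prod.smul_snd, Prod.snd_sub, smul_eq_mul]
        linear_combination (ε * r2) * hgh' + r2 * hε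
    have hψ : Function.Injective ψ := by
      intro R S hRS
      rw [← hinv R, ← hinv S]
      have h1 : det2 R g = det2 S g := congrArg Prod.fst hRS
      have h2 : det2 R h = det2 S h := congrArg Prod.snd hRS
      rw [h1, h2]
    have hlim := hl (Nf x h) (-B) (Nf x g) N0 (c4 hx (j + 1)) hBodd.neg (c4 hx j) hN0
      (Z.image ψ) (by
        rintro ⟨a, b⟩
        simp only [Finset.mem_image]
        constructor
        · rintro ⟨R, hR, hRab⟩
          have ha : det2 R g = a := congrArg Prod.fst hRab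
          have hb : det2 R h = b := congrArg Prod.snd hRab
          rw [hZ] at hR
          rw [← hR, ← hinv R, Nf_smul x ε hε, ha, hb, hform]
          ring
        · intro hab
          refine ⟨ε • (b • g - a • h), ?_, ?_⟩
          · rw [hZ, Nf_smul x ε hε, hform, ← hab]
            ring
          · have hgh' : g.1 * h.2 - g.2 * h.1 = ε := hgh
            change (det2 _ g, det2 _ h) = (a, b)
            simp only [det2, Prod.smul_fst, Prod.smul_snd, Prod.fst_sub, Prod.snd_sub,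
              smul_eq_mul, Prod.mk.injEq]
            constructor
            · linear_combination (ε * a) * hgh' + a * hε
            · linear_combination (ε * b) * hgh' + b * hε)
    rw [Finset.sum_image hψ.injOn] at hlim
    refine hlim.congr ?_
    intro s
    congr 1
    rw [sum_change (2 ^ s) g h ε hε hgh (fun a b R =>
      if Nm (2 ^ s) x R = ((N0 : ℤ) : ZMod (2 ^ s)) then ct (2 ^ s) a * ct (2 ^ s) b else 0)]
    refine Finset.sum_congr rfl fun a _ => Finset.sum_congr rfl fun b _ => ?_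
    obtain ⟨a', rfl⟩ := ZMod.intCast_surjective a
    obtain ⟨b', rfl⟩ := ZMod.intCast_surjective b
    have h5 : Nm (2 ^ s) x ((ε : ZMod (2 ^ s)) * ((b' : ZMod (2 ^ s)) * g.1 -
        (a' : ZMod (2 ^ s)) * h.1), (ε : ZMod (2 ^ s)) * ((b' : ZMod (2 ^ s)) * g.2 -
        (a' : ZMod (2 ^ s)) * h.2)) = ((Nf x (b' • g - a' • h) : ℤ) : ZMod (2 ^ s)) := by
      rw [← Nf_smul x ε hε, ← Nm_cast]
      congr 1
      ext <;> simp
    rw [h5, hform]
    congr 1
    push_cast
    rw [eq_iff_iff]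
    constructor
    · intro h6
      rw [← h6]
      ring
    · intro h6
      rw [← h6]
      ring
  -- sum over `j`
  have hsum : Tendsto (fun s : ℕ => ∑ j ∈ Finset.range (x.length + 1), (-1 : ℂ) ^ j *
      (((π : ℂ) / 2 ^ s) ^ 2 *
      ∑ R : ZMod (2 ^ s) × ZMod (2 ^ s), if Nm (2 ^ s) x R = ((N0 : ℤ) : ZMod (2 ^ s)) then
        ct (2 ^ s) (detm (2 ^ s) R (chain x j)) * ct (2 ^ s) (detm (2 ^ s) R (chain x (j + 1)))
        else 0)) atTop
      (𝓝 (∑ j ∈ Finset.range (x.length + 1), (-1 : ℂ) ^ j *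
        (∑ R ∈ Z, 1 / ((det2 R (chain x j) : ℂ) * (det2 R (chain x (j + 1)) : ℂ))))) :=
    tendsto_finsetSum _ fun j _ => (key j).const_mul _
  have hlimit : ∑ j ∈ Finset.range (x.length + 1), (-1 : ℂ) ^ j *
        (∑ R ∈ Z, 1 / ((det2 R (chain x j) : ℂ) * (det2 R (chain x (j + 1)) : ℂ))) =
      -((lastv x).2 : ℂ) / N0 * ({R : ℤ × ℤ | Nf x R = N0}.ncard : ℂ) := by
    have h1 : ∀ R ∈ Z, ∑ j ∈ Finset.range (x.length + 1), (-1 : ℂ) ^ j *
        (1 / ((det2 R (chain x j) : ℂ) * (det2 R (chain x (j + 1)) : ℂ))) =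
        -((lastv x).2 : ℂ) / N0 := by
      intro R hR
      rw [hZ] at hR
      have hR' : R.2 * (R.1 * (lastv x).2 - R.2 * (lastv x).1) = N0 := by
        simpa [Nf, det2] using hR
      have hodd : Odd R.2 ∧ Odd (R.1 * (lastv x).2 - R.2 * (lastv x).1) := by
        rw [← hR'] at hN0
        exact Int.odd_mul.1 hN0
      have hodd1 : Odd R.1 := by
        have h2 : Odd (R.1 * (lastv x).2) := by
          have h3 := hodd.2.add_even (hV.1.mul_left R.2)
          rwa [sub_add_cancel] at h3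
        exact (Int.odd_mul.1 h2).1
      have hne : ∀ j, det2 R (chain x j) ≠ 0 := by
        intro j h0
        have h2 : Odd (det2 R (chain x j)) := by
          rcases Nat.even_or_odd j with hj | hj
          · exact (((c2 j hj).2.mul_left R.1).sub_odd (hodd.1.mul (c2 j hj).1))
          · exact ((hodd1.mul (c3 j hj).2).sub_even ((c3 j hj).1.mul_left R.2))
        rw [h0] at h2
        simp at h2
      rw [tele (chain x) c1 R hne]
      have h3 : chain x (x.length + 1) = lastv x := rfl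
      have h4 : chain x 0 = (1, 0) := by simp [chain]
      rw [h3, h4]
      have h5 : (det2 R (1, 0) : ℂ) * (det2 R (lastv x) : ℂ) = -(N0 : ℂ) := by
        rw [← hR']
        simp only [det2]
        push_cast
        ring
      have h6 : (det2 (1, 0) (lastv x) : ℂ) = ((lastv x).2 : ℂ) := by simp [det2]
      rw [h5, h6, div_neg, neg_div]
    simp_rw [Finset.mul_sum]
    rw [Finset.sum_comm]
    rw [Finset.sum_congr rfl h1, Finset.sum_const, nsmul_eq_mul, mul_comm]
    congr 2
    rw [Set.ncard_eq_toFinset_card _ hfin]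
  rw [← hlimit]
  refine hsum.congr ?_
  intro s
  rw [Zs, Finset.mul_sum]
  refine Finset.sum_congr rfl fun j _ => ?_
  ring

end Pool.Agent.TB
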