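import Pool.Agent.TB.Stmts2

/-!
# CNT: the counting function determines `A` up to inversion modulo `P`
-/

namespace Pool.Agent.TB

namespace CNT

theorem set_finite (P A N0 : ℤ) (hP : 0 < P) (hN : N0 ≠ 0) :
    {R : ℤ × ℤ | R.2 * (P * R.1 - A * R.2) = N0}.Finite := by
  have h1 : ((Finset.Icc (-|N0|) |N0| : Finset ℤ) : Set ℤ).Finite := Finset.finite_toSet _
  refine Set.Finite.of_finite_image (f := Prod.snd) (h1.subset ?_) ?_
  · rintro _ ⟨R, hR, rfl⟩
    have hR' : R.2 * (P * R.1 - A * R.2) = N0 := hR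
    have h2 : R.2 ∣ N0 := ⟨_, hR'.symm⟩
    have h3 : |R.2| ≤ |N0| := Int.le_of_dvd (abs_pos.2 hN) ((abs_dvd_abs _ _).2 h2)
    rw [Finset.coe_Icc, Set.mem_Icc]
    exact ⟨by linarith [neg_abs_le R.2], by linarith [le_abs_self R.2]⟩
  · intro R hR S hS hRS
    have hR' : R.2 * (P * R.1 - A * R.2) = N0 := hR
    have hS' : S.2 * (P * S.1 - A * S.2) = N0 := hS
    have e : R.2 = S.2 := hRS
    have hne : R.2 ≠ 0 := by
      intro h
      rw [h, zero_mul] at hR'
      exact hN hR'.symm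
    rw [← e] at hS'
    have h4 : P * R.1 - A * R.2 = P * S.1 - A * R.2 :=
      mul_left_cancel₀ hne (hR'.trans hS'.symm)
    have h5 : P * R.1 = P * S.1 := by linarith
    have h6 : R.1 = S.1 := mul_left_cancel₀ hP.ne' h5
    exact Prod.ext h6 e

theorem exists_prime (P A : ℤ) (hP : 0 < P) (hA : IsCoprime A P) :
    ∃ l : ℕ, l.Prime ∧ 2 < l ∧ P ∣ (l : ℤ) + A := by
  obtain ⟨q, rfl⟩ : ∃ q : ℕ, P = (q : ℤ) := ⟨P.toNat, (Int.toNat_of_nonneg hP.le).symm⟩
  have hq : q ≠ 0 := by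
    rintro rfl
    simp at hP
  have : NeZero q := ⟨hq⟩
  have hu : IsUnit ((-A : ℤ) : ZMod q) := by
    have h1 : IsCoprime (-A) (q : ℤ) := hA.neg_left
    obtain ⟨a, b, hab⟩ := h1
    refine IsUnit.of_mul_eq_one ((a : ℤ) : ZMod q) ?_
    have h2 := congrArg (fun z : ℤ => (z : ZMod q)) hab
    push_cast at h2 ⊢
    simp only [ZMod.natCast_self, mul_zero, add_zero] at h2
    rw [mul_comm]
    exact h2
  obtain ⟨l, hl, hlp, hle⟩ := Nat.forall_exists_prime_gt_and_eq_mod hu 2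
  refine ⟨l, hlp, hl, ?_⟩
  rw [← ZMod.intCast_zmod_eq_zero_iff_dvd]
  push_cast
  rw [hle]
  push_cast
  ring

end CNT

theorem cnt_thm : CNT_Stmt := by
  intro P A A' hP _ hA _ h
  obtain ⟨l, hl, hl2, hlA⟩ := CNT.exists_prime P A hP hA
  have hodd : Odd (l : ℤ) := by
    rw [Int.odd_coe_nat]
    exact hl.odd_of_ne_two (by omega)
  have hl0 : (l : ℤ) ≠ 0 := by exact_mod_cast hl.ne_zero
  have h1 := h l hodd
  have hne : {R : ℤ × ℤ | R.2 * (P * R.1 - A * R.2) = (l : ℤ)}.Nonempty := by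
    obtain ⟨k, hk⟩ := hlA
    refine ⟨(k, 1), ?_⟩
    show 1 * (P * k - A * 1) = (l : ℤ)
    linarith
  have hpos : 0 < {R : ℤ × ℤ | R.2 * (P * R.1 - A' * R.2) = (l : ℤ)}.ncard := by
    rw [← h1]
    exact (Set.ncard_pos (CNT.set_finite P A l hP hl0)).2 hne
  obtain ⟨⟨a, b⟩, hR⟩ := Set.nonempty_of_ncard_ne_zero hpos.ne'
  have hR' : b * (P * a - A' * b) = (l : ℤ) := hR
  obtain ⟨k, hk⟩ := hlA
  have hprime : Prime (l : ℤ) := Nat.prime_iff_prime_int.1 hl
  have hb : b ∣ (l : ℤ) := ⟨_, hR'.symm⟩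
  have hcases : b = 1 ∨ b = -1 ∨ b = (l : ℤ) ∨ b = -(l : ℤ) := by
    have h2 : b.natAbs ∣ l := by
      have := Int.natAbs_dvd_natAbs.2 hb
      simpa using this
    rcases (Nat.dvd_prime hl).1 h2 with h3 | h3
    · rcases Int.natAbs_eq b with h4 | h4
      · left; rw [h4, h3]; rfl
      · right; left; rw [h4, h3]; rfl
    · rcases Int.natAbs_eq b with h4 | h4
      · right; right; left; rw [h4, h3]
      · right; right; right; rw [h4, h3]
  rcases hcases with rfl | rfl | rfl | rfl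
  · left
    exact ⟨k - a, by linear_combination hk + hR'⟩
  · left
    exact ⟨k + a, by linear_combination hk + hR'⟩
  · right
    have h2 : P * a - A' * (l : ℤ) = 1 := by
      apply mul_left_cancel₀ hl0
      rw [hR', mul_one]
    -- `1 = P a - A' l`, `l = P k - A`
    refine ⟨A' * k - a, ?_⟩
    linear_combination A' * hk + h2
  · right
    have h2 : -(P * a + A' * (l : ℤ)) = 1 := by
      apply mul_left_cancel₀ hl0
      linear_combination hR'
    refine ⟨A' * k + a, ?_⟩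
    linear_combination A' * hk + h2

end Pool.Agent.TB
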