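import Pool.Agent.TB.Stmts2

/-!
The derivative as a sum of insertions (module TB_DER).
-/

open scoped BigOperators

namespace Pool.Agent.TB

namespace DER

variable (n : ℕ) [NeZero n] (ι : ℤ)

theorem vec_false (a : ℤ) (l : List ℤ) : (vec n ι false (a :: l)).2 =
    Dc n ι a ((vec n ι true l).2 + Th n ι (vec n ι true l).1) +
      (a : ℂ) • cono n ι (bq n) (vec n ι false (a :: l)).1 - Th n ι (vec n ι false (a :: l)).1 := rfl

theorem vec_true (a : ℤ) (l : List ℤ) : (vec n ι true (a :: l)).2 =
    Cc n ι a (vec n ι false l).2 + (a : ℂ) • mulo n (bq n) (vec n ι true (a :: l)).1 := rfl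

theorem ins_zero (O : Module.End ℂ (Fn n)) (b : Bool) (l : List ℤ) :
    ins n ι O b l 0 = O (vec n ι b l).1 := by
  cases b <;> cases l <;> rfl

theorem ins_false (O : Module.End ℂ (Fn n)) (a : ℤ) (l : List ℤ) (j : ℕ) :
    ins n ι O false (a :: l) (j + 1) = Dc n ι a (ins n ι O true l j) := rfl

theorem ins_true (O : Module.End ℂ (Fn n)) (a : ℤ) (l : List ℤ) (j : ℕ) :
    ins n ι O true (a :: l) (j + 1) = Cc n ι a (ins n ι O false l j) := rfl

theorem ite_succ {α : Sort*} (i : ℕ) (u v : α) :
    (if Even (i + 1) then u else v) = if Even i then v else u := by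
  by_cases h : Even i
  · rw [if_pos h, if_neg (by rw [Nat.even_add_one]; exact fun h' => h' h)]
  · rw [if_neg h, if_pos (by rw [Nat.even_add_one]; exact h)]

theorem main (l : List ℤ) :
    (Even l.length → (vec n ι false l).2 =
      -(∑ j ∈ Finset.range (l.length + 1), (-1 : ℂ) ^ j • ins n ι (Th n ι) false l j) +
        ∑ i ∈ Finset.range l.length, ((l.getD i 0 : ℤ) : ℂ) •
          ins n ι (if Even i then cono n ι (bq n) else mulo n (bq n)) false l i) ∧
    (Odd l.length → (vec n ι true l).2 + Th n ι (vec n ι true l).1 =
      ∑ j ∈ Finset.range (l.length + 1), (-1 : ℂ) ^ j • ins n ι (Th n ι) true l j +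
        ∑ i ∈ Finset.range l.length, ((l.getD i 0 : ℤ) : ℂ) •
          ins n ι (if Even i then mulo n (bq n) else cono n ι (bq n)) true l i) := by
  induction l with
  | nil =>
    refine ⟨fun _ => ?_, fun h => ?_⟩
    · simp only [List.length_nil, zero_add, Finset.range_one, Finset.sum_singleton, pow_zero,
        one_smul, Finset.range_zero, Finset.sum_empty, add_zero, ins_zero]
      rfl
    · simp at h
  | cons a l ih =>
    refine ⟨fun h => ?_, fun h => ?_⟩
    · have hodd : Odd l.length := by
        rw [List.length_cons, Nat.even_add_one] at h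
        exact Nat.not_even_iff_odd.1 h
      rw [vec_false, ih.2 hodd, List.length_cons, Finset.sum_range_succ' _ (l.length + 1),
        Finset.sum_range_succ' (fun i => (((a :: l).getD i 0 : ℤ) : ℂ) •
          ins n ι (if Even i then cono n ι (bq n) else mulo n (bq n)) false (a :: l) i) l.length,
        map_add, map_sum, map_sum]
      simp only [map_smul, ins_false, ins_zero, pow_zero, one_smul, List.getD_cons_succ,
        List.getD_cons_zero, ite_succ, pow_succ, mul_neg, mul_one, neg_smul,
        Finset.sum_neg_distrib, Even.zero, if_true]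
      abel
    · have hev : Even l.length := by
        rw [List.length_cons, Nat.odd_add_one] at h
        exact Nat.not_odd_iff_even.1 h
      rw [vec_true, ih.1 hev, List.length_cons, Finset.sum_range_succ' _ (l.length + 1),
        Finset.sum_range_succ' (fun i => (((a :: l).getD i 0 : ℤ) : ℂ) •
          ins n ι (if Even i then mulo n (bq n) else cono n ι (bq n)) true (a :: l) i) l.length,
        map_add, map_neg, map_sum, map_sum]
      simp only [map_smul, ins_true, ins_zero, pow_zero, one_smul, List.getD_cons_succ,
        List.getD_cons_zero, ite_succ, pow_succ, mul_neg, mul_one, neg_smul,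
        Finset.sum_neg_distrib, Even.zero, if_true]
      abel

end DER

theorem der : DER_Stmt := by
  intro n _ ι x hx
  exact (DER.main n ι x).1 hx

end Pool.Agent.TB
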