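import Pool.Agent.TB.Stmts2

/-!
Finite type invariants of 2-bridge knots: dyadic descent (module DSC).
-/

open Filter Topology
open scoped BigOperators Real

namespace Pool.Agent.TB
namespace DSC

theorem sum_getD (x : List ℤ) : ∑ i ∈ Finset.range x.length, x.getD i 0 = x.sum := by
  induction x with
  | nil => simp
  | cons a l ih =>
    rw [List.length_cons, Finset.sum_range_succ', List.sum_cons, add_comm]
    congr 1

theorem sum_zmod (n : ℕ) [NeZero n] (f : ZMod n → ℂ) :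
    ∑ a, f a = ∑ k ∈ Finset.range n, f (k : ZMod n) := by
  symm
  refine Finset.sum_bij' (fun k _ => (k : ZMod n)) (fun a _ => a.val) ?_ ?_ ?_ ?_ ?_
  · intro a _; exact Finset.mem_univ _
  · intro a _; exact Finset.mem_range.2 (ZMod.val_lt a)
  · intro a ha; exact ZMod.val_cast_of_lt (Finset.mem_range.1 ha)
  · intro a _; exact ZMod.natCast_zmod_val a
  · intro a _; rfl

theorem cot_add (x : ℝ) : Real.cot x + Real.cot (x + π / 2) = 2 * Real.cot (2 * x) := by
  rw [Real.cot_eq_cos_div_sin, Real.cot_eq_cos_div_sin, Real.cot_eq_cos_div_sin,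
    Real.cos_add_pi_div_two, Real.sin_add_pi_div_two, Real.cos_two_mul', Real.sin_two_mul]
  by_cases h1 : Real.sin x = 0
  · simp [h1]
  by_cases h2 : Real.cos x = 0
  · simp [h2]
  field_simp
  ring

theorem sum_two_mul (m : ℕ) (g : ℕ → ℂ) :
    ∑ k ∈ Finset.range (2 * m), g k = ∑ k ∈ Finset.range m, (g k + g (m + k)) := by
  rw [two_mul, Finset.sum_range_add, ← Finset.sum_add_distrib]

theorem csc_add (x : ℝ) (h1 : Real.sin x ≠ 0) (h2 : Real.cos x ≠ 0) :
    1 / Real.sin x ^ 2 + 1 / Real.sin (x + π / 2) ^ 2 = 4 * (1 / Real.sin (2 * x) ^ 2) := by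
  rw [Real.sin_add_pi_div_two, Real.sin_two_mul]
  have := Real.sin_sq_add_cos_sq x
  field_simp
  linarith

/-- The value of `ct` at a natural number. -/
theorem ct_nat (n : ℕ) [NeZero n] (k : ℕ) (hk : k < n) :
    ct n (k : ZMod n) = ((Real.cot (π * k / n) : ℝ) : ℂ) := by
  unfold ct
  rw [ZMod.val_cast_of_lt hk]

theorem double_ct (m : ℕ) [NeZero m] [NeZero (2 * m)] (F : ZMod m → ℂ) :
    ∑ a : ZMod (2 * m), ct (2 * m) a * F (ZMod.castHom (dvd_mul_left m 2) (ZMod m) a) =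
      2 * ∑ c : ZMod m, ct m c * F c := by
  have hm : (m : ℝ) ≠ 0 := by exact_mod_cast NeZero.ne m
  rw [sum_zmod, sum_zmod, sum_two_mul, Finset.mul_sum]
  refine Finset.sum_congr rfl fun k hk => ?_
  rw [Finset.mem_range] at hk
  have e1 : (ZMod.castHom (dvd_mul_left m 2) (ZMod m)) ((k : ℕ) : ZMod (2 * m)) = (k : ZMod m) := by
    rw [map_natCast]
  have e2 : (ZMod.castHom (dvd_mul_left m 2) (ZMod m)) ((m + k : ℕ) : ZMod (2 * m)) =
      (k : ZMod m) := by
    rw [map_natCast]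
    push_cast
    simp
  rw [e1, e2, ct_nat (2 * m) k (by omega), ct_nat (2 * m) (m + k) (by omega),
    ct_nat m k hk, ← add_mul, ← Complex.ofReal_add]
  have e3 : π * ((m + k : ℕ) : ℝ) / ((2 * m : ℕ) : ℝ) = π * k / ((2 * m : ℕ) : ℝ) + π / 2 := by
    push_cast
    field_simp
    ring
  have e4 : 2 * (π * k / ((2 * m : ℕ) : ℝ)) = π * k / m := by
    push_cast
    field_simp
  rw [e3, cot_add, e4]
  push_cast
  ring

theorem char_double (m : ℕ) [NeZero m] [NeZero (2 * m)] (z : ZMod (2 * m)) :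
    ZMod.stdAddChar (2 * z) =
      ZMod.stdAddChar (ZMod.castHom (dvd_mul_left m 2) (ZMod m) z) := by
  obtain ⟨k, rfl⟩ := ZMod.intCast_surjective z
  have e1 : (2 * (k : ZMod (2 * m))) = ((2 * k : ℤ) : ZMod (2 * m)) := by push_cast; ring
  have e2 : (ZMod.castHom (dvd_mul_left m 2) (ZMod m)) (k : ZMod (2 * m)) = (k : ZMod m) :=
    map_intCast _ _
  rw [e1, e2, ZMod.stdAddChar_coe, ZMod.stdAddChar_coe]
  congr 1
  have hm : (m : ℂ) ≠ 0 := by exact_mod_cast NeZero.ne m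
  push_cast
  field_simp

theorem double_csc (m : ℕ) [NeZero m] [NeZero (2 * m)] (F : ZMod m → ℂ) :
    ∑ ρ ∈ Finset.Ico 1 (2 * m), ((1 / Real.sin (π * ρ / (2 * m : ℕ)) ^ 2 : ℝ) : ℂ) *
        F ((ρ : ℕ) : ZMod m) =
      4 * (∑ ρ ∈ Finset.Ico 1 m, ((1 / Real.sin (π * ρ / m) ^ 2 : ℝ) : ℂ) * F ((ρ : ℕ) : ZMod m)) +
        F 0 := by
  have hm0 : 0 < m := Nat.pos_of_ne_zero (NeZero.ne m)
  have hm : (m : ℝ) ≠ 0 := by exact_mod_cast hm0.ne'
  have hmp : (0 : ℝ) < m := by exact_mod_cast hm0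
  set g : ℕ → ℂ := fun ρ => ((1 / Real.sin (π * ρ / (2 * m : ℕ)) ^ 2 : ℝ) : ℂ) *
        F ((ρ : ℕ) : ZMod m) with hg
  have h1 := Finset.sum_range_eq_add_Ico g (show 0 < 2 * m by omega)
  have h2 := sum_two_mul m g
  have h3 := Finset.sum_range_eq_add_Ico (fun ρ => g ρ + g (m + ρ)) hm0
  have h4 : ∑ ρ ∈ Finset.Ico 1 (2 * m), g ρ =
      g m + ∑ ρ ∈ Finset.Ico 1 m, (g ρ + g (m + ρ)) := by
    have h5 := h1.symm.trans (h2.trans h3)
    simp only [add_zero] at h5
    rw [add_assoc] at h5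
    exact add_left_cancel h5
  rw [h4, add_comm]
  congr 1
  · rw [Finset.mul_sum]
    refine Finset.sum_congr rfl fun ρ hρ => ?_
    rw [Finset.mem_Ico] at hρ
    have hρ1 : (0 : ℝ) < ρ := by exact_mod_cast (by omega : 0 < ρ)
    have hρ2 : (ρ : ℝ) < m := by exact_mod_cast hρ.2
    have e3 : π * ((m + ρ : ℕ) : ℝ) / ((2 * m : ℕ) : ℝ) = π * ρ / ((2 * m : ℕ) : ℝ) + π / 2 := by
      push_cast
      field_simp
      ring
    have e4 : 2 * (π * ρ / ((2 * m : ℕ) : ℝ)) = π * ρ / m := by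
      push_cast
      field_simp
    have e5 : 0 < π * ρ / ((2 * m : ℕ) : ℝ) := by
      push_cast
      positivity
    have e6 : π * ρ / ((2 * m : ℕ) : ℝ) < π / 2 := by
      push_cast
      rw [div_lt_div_iff₀ (by positivity) (by norm_num)]
      nlinarith [Real.pi_pos]
    have e7 : Real.sin (π * ρ / ((2 * m : ℕ) : ℝ)) ≠ 0 :=
      (Real.sin_pos_of_pos_of_lt_pi e5 (by linarith [Real.pi_pos])).ne'
    have e8 : Real.cos (π * ρ / ((2 * m : ℕ) : ℝ)) ≠ 0 :=
      (Real.cos_pos_of_mem_Ioo ⟨by linarith [Real.pi_pos], e6⟩).ne'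
    have e9 : ((m + ρ : ℕ) : ZMod m) = (ρ : ZMod m) := by
      push_cast
      simp
    simp only [hg]
    rw [e9, ← add_mul, ← Complex.ofReal_add, e3, csc_add _ e7 e8, e4]
    push_cast
    ring
  · simp only [hg]
    have e1 : π * (m : ℝ) / ((2 * m : ℕ) : ℝ) = π / 2 := by
      push_cast
      field_simp
    rw [e1]
    simp

/-- The quadratic form in the coordinates `(a, b)`. -/
def Q {A : Type*} [CommRing A] (g g' V : ℤ × ℤ) (a b : A) : A :=
  (b * g.2 - a * g'.2) * ((b * g.1 - a * g'.1) * V.2 - (b * g.2 - a * g'.2) * V.1)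

theorem map_Q {A B : Type*} [CommRing A] [CommRing B] (f : A →+* B) (g g' V : ℤ × ℤ) (a b : A) :
    f (Q g g' V a b) = Q g g' V (f a) (f b) := by
  unfold Q
  simp

/-- The coordinates of `R` with respect to two vectors of determinant `±1`. -/
def coo (n : ℕ) (g g' : ℤ × ℤ) (e : ℤ) (he : e * e = 1) (hd : det2 g g' = e) :
    (ZMod n × ZMod n) ≃ (ZMod n × ZMod n) where
  toFun R := (detm n R g, detm n R g')
  invFun p := ((e : ZMod n) * (p.2 * g.1 - p.1 * g'.1), (e : ZMod n) * (p.2 * g.2 - p.1 * g'.2))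
  left_inv R := by
    have h1 : ((g.1 * g'.2 - g.2 * g'.1 : ℤ) : ZMod n) = (e : ZMod n) := by
      rw [← hd]; rfl
    have h2 : (e : ZMod n) * e = 1 := by exact_mod_cast congrArg (Int.cast : ℤ → ZMod n) he
    push_cast at h1
    unfold detm
    ext
    · dsimp only
      linear_combination ((e : ZMod n) * R.1) * h1 + R.1 * h2
    · dsimp only
      linear_combination ((e : ZMod n) * R.2) * h1 + R.2 * h2
  right_inv p := by
    have h1 : ((g.1 * g'.2 - g.2 * g'.1 : ℤ) : ZMod n) = (e : ZMod n) := by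
      rw [← hd]; rfl
    have h2 : (e : ZMod n) * e = 1 := by exact_mod_cast congrArg (Int.cast : ℤ → ZMod n) he
    push_cast at h1
    unfold detm
    ext
    · dsimp only
      linear_combination ((e : ZMod n) * p.1) * h1 + p.1 * h2
    · dsimp only
      linear_combination ((e : ZMod n) * p.2) * h1 + p.2 * h2

/-- The cot sums in the coordinates `(a, b)`. -/
theorem sum_coo (hc : CHN_Stmt) (n : ℕ) [NeZero n] (x : List ℤ) (j : ℕ) (G : ZMod n → ℂ) :
    ∑ R : ZMod n × ZMod n, ct n (detm n R (chain x j)) * ct n (detm n R (chain x (j + 1))) *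
        G (Nm n x R) =
      ∑ a : ZMod n, ct n a * ∑ b : ZMod n, ct n b *
        G (Q (chain x j) (chain x (j + 1)) (lastv x) a b) := by
  have hd := (hc x).1 j
  have he : ((-1 : ℤ) ^ j) * (-1) ^ j = 1 := by
    rw [← mul_pow]; norm_num
  rw [← (coo n (chain x j) (chain x (j + 1)) ((-1) ^ j) he hd).symm.sum_comp]
  rw [Fintype.sum_prod_type]
  refine Finset.sum_congr rfl fun a _ => ?_
  rw [Finset.mul_sum]
  refine Finset.sum_congr rfl fun b _ => ?_
  have h1 := (coo n (chain x j) (chain x (j + 1)) ((-1) ^ j) he hd).apply_symm_apply (a, b)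
  have h2 : detm n ((coo n (chain x j) (chain x (j + 1)) ((-1) ^ j) he hd).symm (a, b))
      (chain x j) = a := congrArg Prod.fst h1
  have h3 : detm n ((coo n (chain x j) (chain x (j + 1)) ((-1) ^ j) he hd).symm (a, b))
      (chain x (j + 1)) = b := congrArg Prod.snd h1
  have h4 : Nm n x ((coo n (chain x j) (chain x (j + 1)) ((-1) ^ j) he hd).symm (a, b)) =
      Q (chain x j) (chain x (j + 1)) (lastv x) a b := by
    have h5 : (((-1 : ℤ) ^ j : ℤ) : ZMod n) * (((-1 : ℤ) ^ j : ℤ) : ZMod n) = 1 := by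
      exact_mod_cast congrArg (Int.cast : ℤ → ZMod n) he
    show (((-1 : ℤ) ^ j : ℤ) : ZMod n) * (b * (chain x j).2 - a * (chain x (j + 1)).2) *
      ((((-1 : ℤ) ^ j : ℤ) : ZMod n) * (b * (chain x j).1 - a * (chain x (j + 1)).1) *
        (lastv x).2 - (((-1 : ℤ) ^ j : ℤ) : ZMod n) *
        (b * (chain x j).2 - a * (chain x (j + 1)).2) * (lastv x).1) = _
    unfold Q
    linear_combination ((b * (chain x j).2 - a * (chain x (j + 1)).2) *
      ((b * (chain x j).1 - a * (chain x (j + 1)).1) * (lastv x).2 -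
        (b * (chain x j).2 - a * (chain x (j + 1)).2) * (lastv x).1)) * h5
  rw [h2, h3, h4]
  ring

theorem double_Sx (hc : CHN_Stmt) (m n : ℕ) [NeZero m] [NeZero n] (hn : n = 2 * m) (x : List ℤ)
    (t : ℤ) : Sx n x ((2 * t : ℤ) : ZMod n) = 4 * Sx m x ((t : ℤ) : ZMod m) + (x.sum : ℂ) / 2 := by
  subst hn
  have h1 : ∀ i, ∑ ρ ∈ Finset.Ico 1 (2 * m), ((1 / Real.sin (π * ρ / (2 * m : ℕ)) ^ 2 : ℝ) : ℂ) *
        ZMod.stdAddChar (((2 * t : ℤ) : ZMod (2 * m)) * (ρ : ZMod (2 * m)) ^ 2 *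
          (Nf x (chain x (i + 1)) : ZMod (2 * m))) =
      4 * (∑ ρ ∈ Finset.Ico 1 m, ((1 / Real.sin (π * ρ / m) ^ 2 : ℝ) : ℂ) *
        ZMod.stdAddChar (((t : ℤ) : ZMod m) * (ρ : ZMod m) ^ 2 *
          (Nf x (chain x (i + 1)) : ZMod m))) + 1 := by
    intro i
    have := double_csc m (fun r : ZMod m => ZMod.stdAddChar (((t : ℤ) : ZMod m) * r ^ 2 *
          (Nf x (chain x (i + 1)) : ZMod m)))
    simp only [ne_eq, OfNat.ofNat_ne_zero, not_false_eq_true, zero_pow, mul_zero, zero_mul,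
      AddChar.map_zero_eq_one] at this
    rw [← this]
    refine Finset.sum_congr rfl fun ρ _ => ?_
    congr 1
    have e1 : ((2 * t : ℤ) : ZMod (2 * m)) * (ρ : ZMod (2 * m)) ^ 2 *
          (Nf x (chain x (i + 1)) : ZMod (2 * m)) = 2 * (((t : ℤ) : ZMod (2 * m)) *
          (ρ : ZMod (2 * m)) ^ 2 * (Nf x (chain x (i + 1)) : ZMod (2 * m))) := by
      push_cast; ring
    rw [e1, char_double]
    congr 1
    simp only [map_mul, map_pow, map_intCast, map_natCast]
  have h2 : ∀ j, ∑ R : ZMod (2 * m) × ZMod (2 * m),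
        ct (2 * m) (detm (2 * m) R (chain x j)) * ct (2 * m) (detm (2 * m) R (chain x (j + 1))) *
        ZMod.stdAddChar (((2 * t : ℤ) : ZMod (2 * m)) * Nm (2 * m) x R) =
      4 * ∑ R : ZMod m × ZMod m,
        ct m (detm m R (chain x j)) * ct m (detm m R (chain x (j + 1))) *
        ZMod.stdAddChar (((t : ℤ) : ZMod m) * Nm m x R) := by
    intro j
    rw [sum_coo hc (2 * m) x j (fun z => ZMod.stdAddChar (((2 * t : ℤ) : ZMod (2 * m)) * z)),
      sum_coo hc m x j (fun z => ZMod.stdAddChar (((t : ℤ) : ZMod m) * z))]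
    have e1 : ∀ a b : ZMod (2 * m), ZMod.stdAddChar (((2 * t : ℤ) : ZMod (2 * m)) *
        Q (chain x j) (chain x (j + 1)) (lastv x) a b) =
        ZMod.stdAddChar (((t : ℤ) : ZMod m) * Q (chain x j) (chain x (j + 1)) (lastv x)
          (ZMod.castHom (dvd_mul_left m 2) (ZMod m) a)
          (ZMod.castHom (dvd_mul_left m 2) (ZMod m) b)) := by
      intro a b
      have e2 : ((2 * t : ℤ) : ZMod (2 * m)) * Q (chain x j) (chain x (j + 1)) (lastv x) a b =
          2 * (((t : ℤ) : ZMod (2 * m)) * Q (chain x j) (chain x (j + 1)) (lastv x) a b) := by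
        push_cast; ring
      rw [e2, char_double, map_mul, map_intCast, map_Q]
    simp only [e1]
    have e3 : ∀ a : ZMod (2 * m), ∑ b : ZMod (2 * m), ct (2 * m) b *
        ZMod.stdAddChar (((t : ℤ) : ZMod m) * Q (chain x j) (chain x (j + 1)) (lastv x)
          (ZMod.castHom (dvd_mul_left m 2) (ZMod m) a)
          (ZMod.castHom (dvd_mul_left m 2) (ZMod m) b)) =
        2 * ∑ b : ZMod m, ct m b *
        ZMod.stdAddChar (((t : ℤ) : ZMod m) * Q (chain x j) (chain x (j + 1)) (lastv x)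
          (ZMod.castHom (dvd_mul_left m 2) (ZMod m) a) b) := fun a =>
      double_ct m (fun b => ZMod.stdAddChar (((t : ℤ) : ZMod m) *
        Q (chain x j) (chain x (j + 1)) (lastv x)
          (ZMod.castHom (dvd_mul_left m 2) (ZMod m) a) b))
    simp only [e3]
    have e4 := double_ct m (fun a => 2 * ∑ b : ZMod m, ct m b *
        ZMod.stdAddChar (((t : ℤ) : ZMod m) * Q (chain x j) (chain x (j + 1)) (lastv x) a b))
    rw [e4, Finset.mul_sum, Finset.mul_sum]
    refine Finset.sum_congr rfl fun a _ => ?_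
    ring
  unfold Sx
  simp only [h1, h2]
  have h3 : ((x.sum : ℤ) : ℂ) = ∑ i ∈ Finset.range x.length, ((x.getD i 0 : ℤ) : ℂ) := by
    rw [← sum_getD]
    push_cast
    rfl
  have h5 : ∀ A : ℕ → ℂ, ∑ i ∈ Finset.range x.length, ((x.getD i 0 : ℤ) : ℂ) * (4 * A i + 1) =
      4 * (∑ i ∈ Finset.range x.length, ((x.getD i 0 : ℤ) : ℂ) * A i) + (x.sum : ℂ) := by
    intro A
    rw [h3, Finset.mul_sum, ← Finset.sum_add_distrib]
    refine Finset.sum_congr rfl fun i _ => ?_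
    ring
  have h6 : ∀ B : ℕ → ℂ, ∑ j ∈ Finset.range (x.length + 1), (-1 : ℂ) ^ j * (4 * B j) =
      4 * ∑ j ∈ Finset.range (x.length + 1), (-1 : ℂ) ^ j * B j := by
    intro B
    rw [Finset.mul_sum]
    refine Finset.sum_congr rfl fun i _ => ?_
    ring
  rw [h5, h6]
  ring

theorem Sx_two (hc : CHN_Stmt) (n : ℕ) [NeZero n] (hn : n = 2) (x : List ℤ) (hx : Even x.length)
    (κ : ZMod n) : Sx n x κ = (x.sum : ℂ) / 2 := by
  subst hn
  have h0 : ∀ a : ZMod 2, ct 2 a = 0 := by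
    intro a
    unfold ct
    have h1 : a.val = 0 ∨ a.val = 1 := by
      have := ZMod.val_lt a
      omega
    rcases h1 with h1 | h1
    · rw [h1, Real.cot_eq_cos_div_sin]; simp
    · rw [h1, Real.cot_eq_cos_div_sin]; simp
  have h1 : ∀ i, ∑ ρ ∈ Finset.Ico (1 : ℕ) 2,
        ((1 / Real.sin (π * (ρ : ℕ) / (2 : ℕ)) ^ 2 : ℝ) : ℂ) *
        ZMod.stdAddChar (κ * ((ρ : ℕ) : ZMod 2) ^ 2 * (Nf x (chain x (i + 1)) : ZMod 2)) = 1 := by
    intro i
    have h2 : (Nf x (chain x (i + 1)) : ZMod 2) = 0 := by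
      rw [ZMod.intCast_zmod_eq_zero_iff_dvd]
      exact ((hc x).2.2.2.1 hx (i + 1)).two_dvd
    have h3 : Finset.Ico (1 : ℕ) 2 = {1} := rfl
    rw [h2, h3, Finset.sum_singleton]
    simp
  unfold Sx
  simp only [h0, h1, zero_mul, mul_zero, Finset.sum_const_zero, add_zero, mul_one]
  have h3 : ((x.sum : ℤ) : ℂ) = ∑ i ∈ Finset.range x.length, ((x.getD i 0 : ℤ) : ℂ) := by
    rw [← sum_getD]
    push_cast
    rfl
  rw [h3]
  ring

/-- The difference is constant. -/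
theorem delta (hc : CHN_Stmt) (x y : List ℤ) (ε ε' : ℤ) (hx : Even x.length) (hy : Even y.length)
    (H : ∀ s : ℕ, 2 ≤ s → ∀ τ : ZMod (2 ^ s), IsUnit τ →
      Sx (2 ^ s) x (ε * τ) - Sx (2 ^ s) y (ε' * τ) =
        (((2 ^ s : ℕ) : ℂ) ^ 2 - 1) / 6 * ((x.sum : ℤ) - (y.sum : ℤ))) :
    ∀ s : ℕ, 1 ≤ s → ∀ τ : ZMod (2 ^ s),
      Sx (2 ^ s) x (ε * τ) - Sx (2 ^ s) y (ε' * τ) =
        (((2 ^ s : ℕ) : ℂ) ^ 2 - 1) / 6 * ((x.sum : ℤ) - (y.sum : ℤ)) := by
  intro s hs
  induction s, hs using Nat.le_induction with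
  | base =>
    intro τ
    rw [Sx_two hc (2 ^ 1) (by norm_num) x hx, Sx_two hc (2 ^ 1) (by norm_num) y hy]
    push_cast
    ring
  | succ s hs ih =>
    intro τ
    by_cases hu : IsUnit τ
    · exact H (s + 1) (by omega) τ hu
    · obtain ⟨k, rfl⟩ := ZMod.intCast_surjective τ
      have hk : Even k := by
        by_contra hodd
        rw [Int.not_even_iff_odd] at hodd
        apply hu
        rw [ZMod.coe_int_isUnit_iff_isCoprime]
        push_cast
        exact IsCoprime.pow_left (Int.isCoprime_iff_gcd_eq_one.2 (by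
          obtain ⟨r, hr⟩ := hodd
          subst hr
          have := Int.gcd_add_mul_left_right 2 1 r
          rw [add_comm, this]
          simp))
      obtain ⟨t, rfl⟩ := hk
      have e1 : (ε : ZMod (2 ^ (s + 1))) * ((t + t : ℤ) : ZMod (2 ^ (s + 1))) =
          ((2 * (ε * t) : ℤ) : ZMod (2 ^ (s + 1))) := by
        push_cast; ring
      have e2 : (ε' : ZMod (2 ^ (s + 1))) * ((t + t : ℤ) : ZMod (2 ^ (s + 1))) =
          ((2 * (ε' * t) : ℤ) : ZMod (2 ^ (s + 1))) := by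
        push_cast; ring
      rw [e1, e2, double_Sx hc (2 ^ s) (2 ^ (s + 1)) (by ring) x (ε * t),
        double_Sx hc (2 ^ s) (2 ^ (s + 1)) (by ring) y (ε' * t)]
      have h2 := ih ((t : ℤ) : ZMod (2 ^ s))
      have e3 : (((ε * t : ℤ)) : ZMod (2 ^ s)) = (ε : ZMod (2 ^ s)) * ((t : ℤ) : ZMod (2 ^ s)) := by
        push_cast; ring
      have e4 : (((ε' * t : ℤ)) : ZMod (2 ^ s)) =
          (ε' : ZMod (2 ^ s)) * ((t : ℤ) : ZMod (2 ^ s)) := by
        push_cast; ring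
      rw [e3, e4]
      push_cast at h2 ⊢
      linear_combination 4 * h2

/-- Fourier inversion. -/
theorem sum_char (n : ℕ) [NeZero n] (z : ZMod n) :
    ∑ τ : ZMod n, ZMod.stdAddChar (τ * z) = if z = 0 then (n : ℂ) else 0 := by
  have h := AddChar.sum_mulShift (R := ZMod n) (ψ := ZMod.stdAddChar) z
    (ZMod.isPrimitive_stdAddChar n)
  rw [h]
  simp

theorem fourier (n : ℕ) [NeZero n] (hn : Even n) (x : List ℤ) (hx : Even x.length) (ε : ℤ)
    (hε : ε = 1 ∨ ε = -1) (hc : CHN_Stmt) (N0 : ℤ) (hN : Odd N0) :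
    ∑ τ : ZMod n, Sx n x (ε * τ) * ZMod.stdAddChar (τ * (-(N0 : ZMod n))) =
      (n : ℂ) / 4 * Zs n x (ε * N0 : ℤ) := by
  have hsq : ε * ε = 1 := by rcases hε with h | h <;> rw [h] <;> norm_num
  have hsq' : (ε : ZMod n) * ε = 1 := by exact_mod_cast congrArg (Int.cast : ℤ → ZMod n) hsq
  have key : ∀ c : ZMod n, ∑ τ : ZMod n, ZMod.stdAddChar ((ε : ZMod n) * τ * c) *
      ZMod.stdAddChar (τ * (-(N0 : ZMod n))) = if c = ((ε * N0 : ℤ) : ZMod n) then (n : ℂ) else 0 := by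
    intro c
    have e1 : ∀ τ : ZMod n, ZMod.stdAddChar ((ε : ZMod n) * τ * c) *
        ZMod.stdAddChar (τ * (-(N0 : ZMod n))) = ZMod.stdAddChar (τ * ((ε : ZMod n) * c - (N0 : ZMod n))) := by
      intro τ
      rw [← AddChar.map_add_eq_mul]
      congr 1
      ring
    simp only [e1, sum_char]
    have e2 : ((ε : ZMod n) * c - (N0 : ZMod n) = 0) ↔ (c = ((ε * N0 : ℤ) : ZMod n)) := by
      push_cast
      constructor
      · intro h
        linear_combination (ε : ZMod n) * h - c * hsq'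
      · intro h
        rw [h]
        linear_combination (N0 : ZMod n) * hsq'
    simp only [e2]
  have hne : ∀ (i : ℕ) (ρ : ℕ), ((ρ : ZMod n) ^ 2 * (Nf x (chain x (i + 1)) : ZMod n)) ≠
      ((ε * N0 : ℤ) : ZMod n) := by
    intro i ρ h
    have h1 : (((ρ : ℤ) ^ 2 * Nf x (chain x (i + 1)) : ℤ) : ZMod n) = ((ε * N0 : ℤ) : ZMod n) := by
      rw [← h]; push_cast; ring
    rw [ZMod.intCast_eq_intCast_iff_dvd_sub] at h1
    have h2 : (2 : ℤ) ∣ ε * N0 - (ρ : ℤ) ^ 2 * Nf x (chain x (i + 1)) :=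
      dvd_trans (by exact_mod_cast hn.two_dvd) h1
    have h3 : Even (Nf x (chain x (i + 1))) := (hc x).2.2.2.1 hx (i + 1)
    have h4 : Odd (ε * N0) := by
      rcases hε with h | h <;> rw [h]
      · rwa [one_mul]
      · rw [neg_one_mul]; exact hN.neg
    have h5 : Even (ε * N0 - (ρ : ℤ) ^ 2 * Nf x (chain x (i + 1))) := even_iff_two_dvd.2 h2
    have h6 : Odd (ε * N0 - (ρ : ℤ) ^ 2 * Nf x (chain x (i + 1))) := h4.sub_even (h3.mul_left _)
    exact (Int.not_even_iff_odd.2 h6) h5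
  have hA : ∀ τ : ZMod n, Sx n x (ε * τ) * ZMod.stdAddChar (τ * (-(N0 : ZMod n))) =
      (∑ i ∈ Finset.range x.length, ∑ ρ ∈ Finset.Ico 1 n,
        (1 / 2 * ((x.getD i 0 : ℤ) : ℂ) * ((1 / Real.sin (π * ρ / n) ^ 2 : ℝ) : ℂ)) *
        (ZMod.stdAddChar ((ε : ZMod n) * τ *
          ((ρ : ZMod n) ^ 2 * (Nf x (chain x (i + 1)) : ZMod n))) *
          ZMod.stdAddChar (τ * (-(N0 : ZMod n))))) +
      ∑ j ∈ Finset.range (x.length + 1), ∑ R : ZMod n × ZMod n,
        (1 / 4 * (-1 : ℂ) ^ j * (ct n (detm n R (chain x j)) * ct n (detm n R (chain x (j + 1))))) *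
        (ZMod.stdAddChar ((ε : ZMod n) * τ * Nm n x R) *
          ZMod.stdAddChar (τ * (-(N0 : ZMod n)))) := by
    intro τ
    unfold Sx
    rw [add_mul]
    congr 1
    · rw [mul_assoc, Finset.sum_mul, Finset.mul_sum]
      refine Finset.sum_congr rfl fun i _ => ?_
      rw [mul_assoc, Finset.sum_mul, Finset.mul_sum, Finset.mul_sum]
      refine Finset.sum_congr rfl fun ρ _ => ?_
      rw [mul_assoc ((ε : ZMod n) * τ)]
      ring
    · rw [mul_assoc, Finset.sum_mul, Finset.mul_sum]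
      refine Finset.sum_congr rfl fun i _ => ?_
      rw [mul_assoc, Finset.sum_mul, Finset.mul_sum, Finset.mul_sum]
      refine Finset.sum_congr rfl fun ρ _ => ?_
      ring
  simp only [hA]
  rw [Finset.sum_add_distrib]
  have hB : ∑ τ : ZMod n, ∑ i ∈ Finset.range x.length, ∑ ρ ∈ Finset.Ico 1 n,
        (1 / 2 * ((x.getD i 0 : ℤ) : ℂ) * ((1 / Real.sin (π * ρ / n) ^ 2 : ℝ) : ℂ)) *
        (ZMod.stdAddChar ((ε : ZMod n) * τ *
          ((ρ : ZMod n) ^ 2 * (Nf x (chain x (i + 1)) : ZMod n))) *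
          ZMod.stdAddChar (τ * (-(N0 : ZMod n)))) = 0 := by
    rw [Finset.sum_comm]
    refine Finset.sum_eq_zero fun i _ => ?_
    rw [Finset.sum_comm]
    refine Finset.sum_eq_zero fun ρ _ => ?_
    rw [← Finset.mul_sum, key, if_neg (hne i ρ), mul_zero]
  have hC : ∑ τ : ZMod n, ∑ j ∈ Finset.range (x.length + 1), ∑ R : ZMod n × ZMod n,
        (1 / 4 * (-1 : ℂ) ^ j * (ct n (detm n R (chain x j)) * ct n (detm n R (chain x (j + 1))))) *
        (ZMod.stdAddChar ((ε : ZMod n) * τ * Nm n x R) *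
          ZMod.stdAddChar (τ * (-(N0 : ZMod n)))) = (n : ℂ) / 4 * Zs n x (ε * N0 : ℤ) := by
    rw [Finset.sum_comm]
    unfold Zs
    rw [Finset.mul_sum]
    refine Finset.sum_congr rfl fun j _ => ?_
    rw [Finset.sum_comm, Finset.mul_sum, Finset.mul_sum]
    refine Finset.sum_congr rfl fun R _ => ?_
    rw [← Finset.mul_sum, key]
    split_ifs <;> ring
  rw [hB, hC, zero_add]

end DSC

theorem dsc (hc : CHN_Stmt) : DSC_Stmt := by
  intro x y ε ε' hx hy hε hε' H s hs N0 hN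
  have hn : Even (2 ^ s) := by
    rw [even_iff_two_dvd]
    exact dvd_pow_self 2 (by omega)
  have h1 := DSC.fourier (2 ^ s) hn x hx ε hε hc N0 hN
  have h2 := DSC.fourier (2 ^ s) hn y hy ε' hε' hc N0 hN
  have hd := DSC.delta hc x y ε ε' hx hy H s hs
  have hz : (-(N0 : ZMod (2 ^ s))) ≠ 0 := by
    intro h
    have h3 : ((N0 : ℤ) : ZMod (2 ^ s)) = 0 := by
      rw [← neg_eq_zero]; exact h
    rw [ZMod.intCast_zmod_eq_zero_iff_dvd] at h3
    have h4 : (2 : ℤ) ∣ N0 := dvd_trans (by exact_mod_cast hn.two_dvd) h3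
    exact (Int.not_even_iff_odd.2 hN) (even_iff_two_dvd.2 h4)
  have h3 : ∑ τ : ZMod (2 ^ s), (Sx (2 ^ s) x (ε * τ) - Sx (2 ^ s) y (ε' * τ)) *
      ZMod.stdAddChar (τ * (-(N0 : ZMod (2 ^ s)))) = 0 := by
    simp only [hd]
    rw [← Finset.mul_sum, DSC.sum_char, if_neg hz, mul_zero]
  simp only [sub_mul] at h3
  rw [Finset.sum_sub_distrib, h1, h2, sub_eq_zero] at h3
  have h4 : (((2 ^ s : ℕ) : ℂ) / 4) ≠ 0 := by
    push_cast
    exact div_ne_zero (pow_ne_zero _ two_ne_zero) (by norm_num)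
  exact mul_left_cancel₀ h4 h3

end Pool.Agent.TB
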