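import Pool.Agent.TB.Stmts2

open Filter Topology
open scoped Real

namespace Pool.Agent.TB

open Pool.Agent.LibH11.Sliced

namespace FIN

/-- Two integers of absolute value less than the odd number `P`, both even and congruent modulo
`P`, are equal. -/
theorem eq_of_even_lt {P a b : ℤ} (hP : Odd P) (ha : Even a) (hb : Even b) (h1 : |a| < P)
    (h2 : |b| < P) (h : P ∣ a - b) : a = b := by
  obtain ⟨k, hk⟩ := h
  have hev : Even (P * k) := by rw [← hk]; exact ha.sub hb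
  have hk2 : Even k := by
    rcases Int.even_mul.1 hev with h3 | h3
    · exact absurd h3 (Int.not_even_iff_odd.2 hP)
    · exact h3
  obtain ⟨l, hl⟩ := hk2
  have hPpos : 0 < P := lt_of_le_of_lt (abs_nonneg _) h1
  rw [abs_lt] at h1 h2
  have hl0 : l = 0 := by
    by_contra hne
    rcases lt_or_gt_of_ne hne with h3 | h3
    · have : l ≤ -1 := by omega
      nlinarith
    · have : 1 ≤ l := by omega
      nlinarith
  rw [hl, hl0] at hk
  linarith

theorem jval_eq (hftm : FTM_Stmt) (htdg : TDG_Stmt) (hval : VAL_Stmt) (hhz : HZ_Stmt)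
    (hgps : GPS_Stmt) {x y : List ℤ} (hx : IsLongKnot (kdiag x)) (hy : IsLongKnot (kdiag y))
    (hxe : Even x.length) (hye : Even y.length)
    (h : ∀ v : Knot → ℂ, IsFiniteType v → v (ofDiag (kdiag x) hx) = v (ofDiag (kdiag y) hy))
    (r : ℕ) (hr : Even r) : Jval QPS r x.reverse = Jval QPS r y.reverse := by
  have h1 := hftm (SL r) (tdata QPS r) (s0 r) (htdg _ QPS r hr (hgps r).1 (hgps r).2)
    (hhz r hr) (kdiag x) (kdiag y) hx hy h
  rwa [hval _ QPS r hr (hgps r).1 (hgps r).2 x hxe, hval _ QPS r hr (hgps r).1 (hgps r).2 y hye]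
    at h1

theorem vec_eq (hgrt : GRT_Stmt) (hot : OT_Stmt) (htor : TOR_Stmt) {x y : List ℤ}
    (hxe : Even x.length) (hye : Even y.length)
    (h : ∀ r : ℕ, Even r → Jval QPS r x = Jval QPS r y) (n : ℕ) [NeZero n] (hn : 4 ∣ n) (ι : ℤ)
    (hι : IsCoprime ι (2 * n : ℤ)) :
    (vec n ι false x).1 0 = (vec n ι false y).1 0 ∧
      (vec n ι false x).2 0 = (vec n ι false y).2 0 := by
  obtain ⟨t, ht⟩ := hn
  have hn2 : n = 2 * (2 * t) := by omega
  have hr : Even (2 * t) := even_two_mul t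
  have hpos : 0 < 2 * t := by
    have := NeZero.ne n
    omega
  have hc : IsCoprime ι (4 * (2 * t : ℕ) : ℤ) := by
    have : (4 * (2 * t : ℕ) : ℤ) = 2 * n := by rw [hn2]; push_cast; ring
    rw [this]; exact hι
  have hg := (hgrt (2 * t) ι hpos hc).1
  rw [← hn2] at hg
  have h1 := hot (2 * t) (sz n ι) hg x y (h _ hr)
  rw [htor n (2 * t) ι hn2 hr hι x hxe, htor n (2 * t) ι hn2 hr hι y hye] at h1
  have hf := congrArg TrivSqZeroExt.fst h1
  have hs := congrArg TrivSqZeroExt.snd h1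
  simp at hf hs
  refine ⟨hf, ?_⟩
  rw [hf] at hs
  simpa using hs

theorem lastv_odd (hchn : CHN_Stmt) (x : List ℤ) (hxe : Even x.length) :
    Odd (lastv x).2 ∧ Even (lastv x).1 := by
  obtain ⟨-, -, h, -⟩ := hchn x
  have := h (x.length + 1) hxe.add_one
  exact ⟨this.2, this.1⟩

theorem lastv_coprime (hchn : CHN_Stmt) (x : List ℤ) : IsCoprime (lastv x).1 (lastv x).2 := by
  obtain ⟨h, -⟩ := hchn x
  have h1 := h x.length
  have hu : IsUnit (det2 (chain x x.length) (chain x (x.length + 1))) := by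
    rw [h1]; exact (isUnit_one.neg).pow _
  obtain ⟨u, hu⟩ := hu
  refine ⟨-(chain x x.length).2 * (↑u⁻¹ : ℤ), (chain x x.length).1 * (↑u⁻¹ : ℤ), ?_⟩
  have h2 : (u : ℤ) * (↑u⁻¹ : ℤ) = 1 := by rw [← Units.val_mul]; simp
  rw [hu] at h2
  unfold det2 at h2
  unfold lastv
  linear_combination h2

/-- the determinants agree up to sign -/
theorem det_eq (hchn : CHN_Stmt) (hjnz : JNZ_Stmt) {x y : List ℤ}
    (hxe : Even x.length) (hye : Even y.length)
    (h : ∀ (n : ℕ) [NeZero n], 4 ∣ n → ∀ ι : ℤ, IsCoprime ι (2 * n : ℤ) →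
      (vec n ι false x).1 0 = (vec n ι false y).1 0) :
    |(lastv x).2| = |(lastv y).2| := by
  have hx0 : (lastv x).2 ≠ 0 := by
    intro h0; have := (lastv_odd hchn x hxe).1; rw [h0] at this; exact absurd this (by decide)
  have hy0 : (lastv y).2 ≠ 0 := by
    intro h0; have := (lastv_odd hchn y hye).1; rw [h0] at this; exact absurd this (by decide)
  set P := (lastv x).2.natAbs with hP
  set P' := (lastv y).2.natAbs with hP'
  have hPp : 0 < P := Int.natAbs_pos.2 hx0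
  have hPp' : 0 < P' := Int.natAbs_pos.2 hy0
  have : NeZero (4 * (P * P')) := ⟨by positivity⟩
  have h1 : IsCoprime (1 : ℤ) (2 * (4 * (P * P') : ℕ) : ℤ) := isCoprime_one_left
  have hev : Even (4 * (P * P')) := ⟨2 * (P * P'), by ring⟩
  have ex := (hjnz (4 * (P * P')) 1 h1 hev x hxe).2
    (Int.natAbs_dvd.1 (Int.natCast_dvd_natCast.2 ⟨4 * P', by rw [← hP]; ring⟩))
  have ey := (hjnz (4 * (P * P')) 1 h1 hev y hye).2
    (Int.natAbs_dvd.1 (Int.natCast_dvd_natCast.2 ⟨4 * P, by rw [← hP']; ring⟩))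
  rw [h (4 * (P * P')) ⟨_, rfl⟩ 1 h1] at ex
  have := ex.symm.trans ey
  exact_mod_cast this

/-- the sign of an odd integer -/
theorem exists_sign {d : ℤ} (hd : d ≠ 0) : ∃ ε : ℤ, (ε = 1 ∨ ε = -1) ∧ d = ε * |d| ∧ |d| = ε * d := by
  rcases lt_or_gt_of_ne hd with h | h
  · exact ⟨-1, Or.inr rfl, by rw [abs_of_neg h]; ring, by rw [abs_of_neg h]; ring⟩
  · exact ⟨1, Or.inl rfl, by rw [abs_of_pos h]; ring, by rw [abs_of_pos h]; ring⟩

/-- the hypothesis of the dyadic descent -/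
theorem descent_hyp (hjnz : JNZ_Stmt) (hlam : LAM_Stmt) {x y : List ℤ}
    (hxe : Even x.length) (hye : Even y.length)
    (h : ∀ (n : ℕ) [NeZero n], 4 ∣ n → ∀ ι : ℤ, IsCoprime ι (2 * n : ℤ) →
      (vec n ι false x).1 0 = (vec n ι false y).1 0 ∧
        (vec n ι false x).2 0 = (vec n ι false y).2 0)
    {P ε ε' : ℤ} (hε : ε = 1 ∨ ε = -1) (hε' : ε' = 1 ∨ ε' = -1) (hP : Odd P)
    (hx : (lastv x).2 = ε * P) (hy : (lastv y).2 = ε' * P) (s : ℕ) (hs : 2 ≤ s)
    (τ : ZMod (2 ^ s)) (hτ : IsUnit τ) :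
    Sx (2 ^ s) x (ε * τ) - Sx (2 ^ s) y (ε' * τ) =
        (((2 ^ s : ℕ) : ℂ) ^ 2 - 1) / 6 * ((x.sum : ℤ) - (y.sum : ℤ)) := by
  have hPc : IsCoprime P (2 ^ s : ℤ) := by
    apply IsCoprime.pow_right
    obtain ⟨k, hk⟩ := hP
    exact ⟨1, -k, by rw [hk]; ring⟩
  have hPu : IsUnit ((P : ℤ) : ZMod (2 ^ s)) := by
    rw [ZMod.coe_int_isUnit_iff_isCoprime]
    push_cast
    exact hPc.symm
  obtain ⟨u, hu⟩ := hPu.mul hτ
  set ι : ℤ := (((u⁻¹ : (ZMod (2 ^ s))ˣ) : ZMod (2 ^ s)).val : ℤ) with hι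
  have hιz : ((ι : ℤ) : ZMod (2 ^ s)) = ((u⁻¹ : (ZMod (2 ^ s))ˣ) : ZMod (2 ^ s)) := by
    rw [hι]; simp
  have hιc : IsCoprime ι (2 * (2 ^ s : ℕ) : ℤ) := by
    have h1 : IsUnit ((ι : ℤ) : ZMod (2 ^ s)) := by rw [hιz]; exact Units.isUnit _
    rw [ZMod.coe_int_isUnit_iff_isCoprime] at h1
    push_cast at h1 ⊢
    have h2 : IsCoprime ι (2 : ℤ) := by
      refine IsCoprime.of_isCoprime_of_dvd_right h1.symm ?_
      exact dvd_pow_self 2 (by omega)
    exact IsCoprime.mul_right h2 h1.symm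
  have h4 : 4 ∣ 2 ^ s := by
    obtain ⟨k, rfl⟩ := Nat.exists_eq_add_of_le hs
    rw [pow_add]; exact ⟨2 ^ k, by norm_num⟩
  have hev : Even (2 ^ s) := by
    obtain ⟨k, hk⟩ := h4
    exact ⟨2 * k, by omega⟩
  have h1n : 1 < 2 ^ s := Nat.one_lt_two_pow (by omega)
  have hιP : ((P : ℤ) : ZMod (2 ^ s)) * τ * ((ι : ℤ) : ZMod (2 ^ s)) = 1 := by
    rw [hιz, ← hu]; simp
  have key : ∀ e : ℤ, (e = 1 ∨ e = -1) →
      ((e : ℤ) : ZMod (2 ^ s)) * τ * ((ι : ℤ) : ZMod (2 ^ s)) * (((e * P : ℤ)) : ZMod (2 ^ s)) = 1 := by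
    intro e he
    have : ((e : ℤ) : ZMod (2 ^ s)) * ((e : ℤ) : ZMod (2 ^ s)) = 1 := by
      rcases he with rfl | rfl <;> simp
    push_cast
    calc _ = (((e : ℤ) : ZMod (2 ^ s)) * ((e : ℤ) : ZMod (2 ^ s))) *
        (((P : ℤ) : ZMod (2 ^ s)) * τ * ((ι : ℤ) : ZMod (2 ^ s))) := by ring
      _ = 1 := by rw [this, hιP, one_mul]
  have lx := hlam (2 ^ s) ι h1n hιc hev x hxe (ε * τ) (by rw [hx]; exact key ε hε)
  have ly := hlam (2 ^ s) ι h1n hιc hev y hye (ε' * τ) (by rw [hy]; exact key ε' hε')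
  obtain ⟨e1, e2⟩ := h (2 ^ s) h4 ι hιc
  have hne : (vec (2 ^ s) ι false y).1 0 ≠ 0 := by
    have hcop : IsCoprime (lastv y).2 ((2 ^ s : ℕ) : ℤ) := by
      rw [hy]
      push_cast
      refine IsCoprime.mul_left ?_ hPc
      rcases hε' with rfl | rfl
      · exact isCoprime_one_left
      · exact isCoprime_one_left.neg_left
    have := (hjnz (2 ^ s) ι hιc hev y hye).1 hcop
    intro h0
    rw [h0] at this
    simp at this
  rw [e1, e2, ly] at lx
  have hcan := mul_left_cancel₀ hne lx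
  push_cast at hcan ⊢
  linear_combination -hcan

/-- equality of the counting functions -/
theorem count_eq (hdsc : DSC_Stmt) (htel : TEL_Stmt) {x y : List ℤ}
    (hxe : Even x.length) (hye : Even y.length)
    {P ε ε' : ℤ} (hε : ε = 1 ∨ ε = -1) (hε' : ε' = 1 ∨ ε' = -1) (hP : Odd P)
    (hx : (lastv x).2 = ε * P) (hy : (lastv y).2 = ε' * P)
    (h : ∀ s : ℕ, 2 ≤ s → ∀ τ : ZMod (2 ^ s), IsUnit τ →
      Sx (2 ^ s) x (ε * τ) - Sx (2 ^ s) y (ε' * τ) =
        (((2 ^ s : ℕ) : ℂ) ^ 2 - 1) / 6 * ((x.sum : ℤ) - (y.sum : ℤ)))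
    (N0 : ℤ) (hN : Odd N0) :
    {R : ℤ × ℤ | Nf x R = ε * N0}.ncard = {R : ℤ × ℤ | Nf y R = ε' * N0}.ncard := by
  have hoddε : ∀ e : ℤ, (e = 1 ∨ e = -1) → Odd (e * N0) := by
    intro e he
    rcases he with rfl | rfl
    · simpa using hN
    · simpa using hN
  have tx := (htel x hxe (ε * N0) (hoddε ε hε)).2
  have ty := (htel y hye (ε' * N0) (hoddε ε' hε')).2
  have hz := hdsc x y ε ε' hxe hye hε hε' h
  have heq : ∀ᶠ s : ℕ in atTop, ((π : ℂ) / 2 ^ s) ^ 2 * Zs (2 ^ s) x ((ε * N0 : ℤ) : ZMod (2 ^ s)) =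
      ((π : ℂ) / 2 ^ s) ^ 2 * Zs (2 ^ s) y ((ε' * N0 : ℤ) : ZMod (2 ^ s)) := by
    filter_upwards [eventually_ge_atTop 1] with s hs
    rw [hz s hs N0 hN]
  have hlim := tendsto_nhds_unique (tx.congr' heq) ty
  rw [hx, hy] at hlim
  have hN0 : (N0 : ℂ) ≠ 0 := by
    intro h0
    have : N0 = 0 := by exact_mod_cast h0
    rw [this] at hN
    exact absurd hN (by decide)
  have hP0 : (P : ℂ) ≠ 0 := by
    intro h0
    have : P = 0 := by exact_mod_cast h0
    rw [this] at hP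
    exact absurd hP (by decide)
  have hsimp : ∀ e : ℤ, (e = 1 ∨ e = -1) →
      -(((e * P : ℤ)) : ℂ) / ((e * N0 : ℤ) : ℂ) = -(P : ℂ) / N0 := by
    intro e he
    rcases he with rfl | rfl
    · push_cast; ring
    · push_cast; field_simp
  rw [hsimp ε hε, hsimp ε' hε'] at hlim
  have hne : -(P : ℂ) / N0 ≠ 0 := div_ne_zero (neg_ne_zero.2 hP0) hN0
  exact_mod_cast mul_left_cancel₀ hne hlim

theorem set_eq {x : List ℤ} {P ε N0 : ℤ} (hε : ε = 1 ∨ ε = -1) (hx : (lastv x).2 = ε * P) :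
    {R : ℤ × ℤ | Nf x R = ε * N0} =
      {R : ℤ × ℤ | R.2 * (P * R.1 - (ε * (lastv x).1) * R.2) = N0} := by
  ext R
  simp only [Set.mem_ofPred_eq, Nf, det2, hx]
  rcases hε with rfl | rfl
  · constructor <;> intro h <;> linarith
  · constructor <;> intro h <;> linarith

end FIN

open FIN in
theorem fin (hftm : FTM_Stmt) (htdg : TDG_Stmt) (hval : VAL_Stmt) (hhz : HZ_Stmt)
    (hgps : GPS_Stmt) (hgrt : GRT_Stmt) (hot : OT_Stmt) (htor : TOR_Stmt) (hchn : CHN_Stmt)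
    (hjnz : JNZ_Stmt) (hlam : LAM_Stmt) (hdsc : DSC_Stmt) (htel : TEL_Stmt) (hcnt : CNT_Stmt)
    (hcfu : CFU_Stmt) (hrvc : RVC_Stmt) : FIN_Stmt := by
  intro x y hx hy hxe hye hx0 hy0 h
  -- work with the reversed words
  have hxe' : Even x.reverse.length := by simpa using hxe
  have hye' : Even y.reverse.length := by simpa using hye
  have hJ := fun r hr => jval_eq hftm htdg hval hhz hgps hx hy hxe hye h r hr
  have hvec := fun (n : ℕ) [NeZero n] (hn : 4 ∣ n) (ι : ℤ) (hι : IsCoprime ι (2 * n : ℤ)) =>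
    vec_eq hgrt hot htor hxe' hye' hJ n hn ι hι
  have hdet := det_eq hchn hjnz hxe' hye' (fun n _ hn ι hι => (hvec n hn ι hι).1)
  obtain ⟨hxo, hxA⟩ := lastv_odd hchn x.reverse hxe'
  obtain ⟨hyo, hyA⟩ := lastv_odd hchn y.reverse hye'
  have hxn : (lastv x.reverse).2 ≠ 0 := by
    intro h0; rw [h0] at hxo; exact absurd hxo (by decide)
  have hyn : (lastv y.reverse).2 ≠ 0 := by
    intro h0; rw [h0] at hyo; exact absurd hyo (by decide)
  obtain ⟨ε, hε, hεd, hεd'⟩ := exists_sign hxn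
  obtain ⟨ε', hε', hεe, hεe'⟩ := exists_sign hyn
  rw [← hdet] at hεe hεe'
  set P : ℤ := |(lastv x.reverse).2| with hPdef
  have hPpos : 0 < P := abs_pos.2 hxn
  have hPodd : Odd P := by rw [hPdef]; exact odd_abs.2 hxo
  have hdh := descent_hyp hjnz hlam hxe' hye' (fun n _ hn ι hι => hvec n hn ι hι) hε hε' hPodd
    hεd hεe
  have hcount : ∀ N0 : ℤ, Odd N0 →
      {R : ℤ × ℤ | R.2 * (P * R.1 - (ε * (lastv x.reverse).1) * R.2) = N0}.ncard =
        {R : ℤ × ℤ | R.2 * (P * R.1 - (ε' * (lastv y.reverse).1) * R.2) = N0}.ncard := by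
    intro N0 hN
    rw [← set_eq hε hεd, ← set_eq hε' hεe]
    exact count_eq hdsc htel hxe' hye' hε hε' hPodd hεd hεe hdh N0 hN
  have hunit : ∀ e : ℤ, (e = 1 ∨ e = -1) → e * e = 1 := by
    intro e he; rcases he with rfl | rfl <;> norm_num
  have hcop : ∀ (z : List ℤ) (e : ℤ), (e = 1 ∨ e = -1) → (lastv z).2 = e * P →
      IsCoprime (e * (lastv z).1) P := by
    intro z e he hz
    have h1 := lastv_coprime hchn z
    rw [hz] at h1
    have h2 : IsCoprime (lastv z).1 P := IsCoprime.of_mul_right_right h1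
    refine IsCoprime.mul_left ?_ h2
    rcases he with rfl | rfl
    · exact isCoprime_one_left
    · exact isCoprime_one_left.neg_left
  have hlt : ∀ (z : List ℤ) (e : ℤ), Even z.length → (∀ a ∈ z, a ≠ 0) → (e = 1 ∨ e = -1) →
      (lastv z).2 = e * P → |e * (lastv z).1| < P := by
    intro z e hz1 hz2 he hz
    obtain ⟨-, -, -, -, -, -, h7⟩ := hchn z
    have h8 := h7 hz1 hz2
    have he1 : |e| = 1 := by rcases he with rfl | rfl <;> norm_num
    rw [hz, abs_mul, he1, one_mul, abs_of_pos hPpos] at h8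
    rwa [abs_mul, he1, one_mul]
  have hxr0 : ∀ a ∈ x.reverse, a ≠ 0 := fun a ha => hx0 a (List.mem_reverse.1 ha)
  have hyr0 : ∀ a ∈ y.reverse, a ≠ 0 := fun a ha => hy0 a (List.mem_reverse.1 ha)
  have hevm : ∀ (e : ℤ) {A : ℤ}, Even A → Even (e * A) := fun e A hA => hA.mul_left e
  -- comparison of two words with the same residue
  have hcmp : ∀ (z w : List ℤ) (e e' : ℤ), Even z.length → Even w.length → (∀ a ∈ z, a ≠ 0) →
      (∀ a ∈ w, a ≠ 0) → (e = 1 ∨ e = -1) → (e' = 1 ∨ e' = -1) → (lastv z).2 = e * P →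
      (lastv w).2 = e' * P → P ∣ e * (lastv z).1 - e' * (lastv w).1 → z = w := by
    intro z w e e' hz hw hz0 hw0 he he' hzd hwd hdvd
    have h1 := eq_of_even_lt hPodd (hevm e (lastv_odd hchn z hz).2) (hevm e' (lastv_odd hchn w hw).2)
      (hlt z e hz hz0 he hzd) (hlt w e' hw hw0 he' hwd) hdvd
    refine hcfu z w hz hw hz0 hw0 ?_
    rw [hzd, hwd]
    have h2 : (lastv z).1 = e * (e' * (lastv w).1) := by
      rw [← h1, ← mul_assoc, hunit e he, one_mul]
    rw [h2]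
    linear_combination ((lastv w).1 * P * e) * hunit e' he'
  rcases hcnt P (ε * (lastv x.reverse).1) (ε' * (lastv y.reverse).1) hPpos hPodd
      (hcop _ ε hε hεd) (hcop _ ε' hε' hεe) hcount with hd | hd
  · left
    have := hcmp x.reverse y.reverse ε ε' hxe' hye' hxr0 hyr0 hε hε' hεd hεe hd
    exact (List.reverse_injective this).symm
  · right
    obtain ⟨hr1, hr2⟩ := hrvc x.reverse hxe'
    rw [List.reverse_reverse] at hr1 hr2
    have hxd : (lastv x).2 = ε * P := by rw [hr1, hεd]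
    have hr3 : P ∣ (lastv x.reverse).1 * (lastv x).1 - 1 := by
      rw [hPdef]; exact (abs_dvd _ _).2 hr2
    have hdvd : P ∣ ε * (lastv x).1 - ε' * (lastv y.reverse).1 := by
      obtain ⟨a, ha⟩ := hd
      obtain ⟨b, hb⟩ := hr3
      refine ⟨ε' * (lastv y.reverse).1 * b - ε * (lastv x).1 * a, ?_⟩
      have hu := hunit ε hε
      linear_combination (ε' * (lastv y.reverse).1) * hb - (ε * (lastv x).1) * ha +
        (ε' * (lastv y.reverse).1 * (lastv x.reverse).1 * (lastv x).1) * hu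
    have := hcmp x y.reverse ε ε' hxe hye' hx0 hyr0 hε hε' hxd hεe hdvd
    rw [this, List.reverse_reverse]

end Pool.Agent.TB
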