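import Pool.Agent.TB.Stmts2

/-!
Assembly, second part: from the hypothesis of DSC to the words.
-/

open Filter Topology
open scoped BigOperators Real

namespace Pool.Agent.TB.FIN2

theorem nf_eq (x : List ℤ) (R : ℤ × ℤ) :
    Nf x R = R.2 * ((lastv x).2 * R.1 - (lastv x).1 * R.2) := by
  simp only [Nf, det2]; ring

theorem nf_iff {x : List ℤ} {ε P : ℤ} (hε : ε = 1 ∨ ε = -1) (hd : (lastv x).2 = ε * P)
    (N0 : ℤ) (R : ℤ × ℤ) :
    Nf x R = ε * N0 ↔ R.2 * (P * R.1 - (ε * (lastv x).1) * R.2) = N0 := by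
  rw [nf_eq, hd]
  rcases hε with rfl | rfl
  · simp
  · constructor
    · intro h; linear_combination -h
    · intro h; linear_combination -h

/-- The counting functions agree. -/
theorem count (hdsc : DSC_Stmt) (htel : TEL_Stmt) {x y : List ℤ} (hx : Even x.length)
    (hy : Even y.length) {ε ε' P : ℤ} (hε : ε = 1 ∨ ε = -1) (hε' : ε' = 1 ∨ ε' = -1)
    (hP : 0 < P) (hd : (lastv x).2 = ε * P) (hd' : (lastv y).2 = ε' * P)
    (h : ∀ s : ℕ, 2 ≤ s → ∀ τ : ZMod (2 ^ s), IsUnit τ →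
      Sx (2 ^ s) x (ε * τ) - Sx (2 ^ s) y (ε' * τ) =
        (((2 ^ s : ℕ) : ℂ) ^ 2 - 1) / 6 * ((x.sum : ℤ) - (y.sum : ℤ)))
    (N0 : ℤ) (hN : Odd N0) :
    {R : ℤ × ℤ | R.2 * (P * R.1 - (ε * (lastv x).1) * R.2) = N0}.ncard =
      {R : ℤ × ℤ | R.2 * (P * R.1 - (ε' * (lastv y).1) * R.2) = N0}.ncard := by
  have hodd : ∀ e : ℤ, (e = 1 ∨ e = -1) → Odd (e * N0) := by
    intro e he
    rcases he with rfl | rfl
    · simpa using hN
    · simpa using hN
  have hNne : N0 ≠ 0 := by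
    rintro rfl
    simp at hN
  have h1 := (htel x hx (ε * N0) (hodd ε hε)).2
  have h2 := (htel y hy (ε' * N0) (hodd ε' hε')).2
  have h3 : ∀ᶠ s : ℕ in atTop, ((π : ℂ) / 2 ^ s) ^ 2 * Zs (2 ^ s) x ((ε * N0 : ℤ) : ZMod (2 ^ s)) =
      ((π : ℂ) / 2 ^ s) ^ 2 * Zs (2 ^ s) y ((ε' * N0 : ℤ) : ZMod (2 ^ s)) := by
    filter_upwards [eventually_ge_atTop 1] with s hs
    rw [hdsc x y ε ε' hx hy hε hε' h s hs N0 hN]
  have h4 := tendsto_nhds_unique (h1.congr' h3) h2
  have h5 : {R : ℤ × ℤ | Nf x R = ε * N0} =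
      {R : ℤ × ℤ | R.2 * (P * R.1 - (ε * (lastv x).1) * R.2) = N0} := by
    ext R; exact nf_iff hε hd N0 R
  have h6 : {R : ℤ × ℤ | Nf y R = ε' * N0} =
      {R : ℤ × ℤ | R.2 * (P * R.1 - (ε' * (lastv y).1) * R.2) = N0} := by
    ext R; exact nf_iff hε' hd' N0 R
  rw [h5, h6, hd, hd'] at h4
  have hcoef : ∀ e : ℤ, (e = 1 ∨ e = -1) →
      -(((e * P : ℤ) : ℂ)) / ((e * N0 : ℤ) : ℂ) = -((P : ℂ) / N0) := by
    intro e he
    have hN' : (N0 : ℂ) ≠ 0 := by exact_mod_cast hNne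
    rcases he with rfl | rfl
    · push_cast; field_simp
    · push_cast; field_simp
  rw [hcoef ε hε, hcoef ε' hε'] at h4
  have hne : -((P : ℂ) / N0) ≠ 0 := by
    have hN' : (N0 : ℂ) ≠ 0 := by exact_mod_cast hNne
    have hP' : (P : ℂ) ≠ 0 := by exact_mod_cast hP.ne'
    exact neg_ne_zero.mpr (div_ne_zero hP' hN')
  have h7 := mul_left_cancel₀ hne h4
  exact_mod_cast h7

theorem even_A (hchn : CHN_Stmt) {x : List ℤ} (hx : Even x.length) :
    Even (lastv x).1 ∧ Odd (lastv x).2 :=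
  (hchn x).2.2.1 (x.length + 1) (Even.add_one hx)

theorem coprime_A (hchn : CHN_Stmt) (x : List ℤ) : IsCoprime (lastv x).1 (lastv x).2 := by
  have h := (hchn x).1 x.length
  unfold det2 at h
  have hs : ((-1 : ℤ) ^ x.length) * ((-1 : ℤ) ^ x.length) = 1 := by
    rw [← mul_pow]; simp
  refine ⟨-((-1) ^ x.length * (chain x x.length).2), (-1) ^ x.length * (chain x x.length).1, ?_⟩
  have h' : (-1 : ℤ) ^ x.length * ((chain x x.length).1 * (chain x (x.length + 1)).2 -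
      (chain x x.length).2 * (chain x (x.length + 1)).1) = 1 := by rw [h, hs]
  show -((-1) ^ x.length * (chain x x.length).2) * (chain x (x.length + 1)).1 +
    (-1) ^ x.length * (chain x x.length).1 * (chain x (x.length + 1)).2 = 1
  linear_combination h'

/-- First case. -/
theorem case1 (hcfu : CFU_Stmt) (hchn : CHN_Stmt) {x y : List ℤ} (hx : Even x.length)
    (hy : Even y.length) (hx0 : ∀ a ∈ x, a ≠ 0) (hy0 : ∀ a ∈ y, a ≠ 0)
    {ε ε' P : ℤ} (hε : ε = 1 ∨ ε = -1) (hε' : ε' = 1 ∨ ε' = -1)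
    (hP : 0 < P) (hd : (lastv x).2 = ε * P) (hd' : (lastv y).2 = ε' * P)
    (h : P ∣ ε * (lastv x).1 - ε' * (lastv y).1) : x = y := by
  obtain ⟨-, -, -, -, -, -, hx7⟩ := hchn x
  obtain ⟨-, -, -, -, -, -, hy7⟩ := hchn y
  have hxl := hx7 hx hx0
  have hyl := hy7 hy hy0
  obtain ⟨hxe, hxo⟩ := even_A hchn hx
  obtain ⟨hye, hyo⟩ := even_A hchn hy
  have habs : ∀ e : ℤ, (e = 1 ∨ e = -1) → ∀ z : ℤ, |e * z| = |z| := by
    intro e he z
    rcases he with rfl | rfl <;> simp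
  have hPo : Odd P := by
    rw [hd] at hxo
    rcases hε with rfl | rfl
    · simpa using hxo
    · simpa using hxo
  have h1 : |ε * (lastv x).1| < P := by
    rw [habs ε hε]
    rw [hd, habs ε hε, abs_of_pos hP] at hxl
    exact hxl
  have h2 : |ε' * (lastv y).1| < P := by
    rw [habs ε' hε']
    rw [hd', habs ε' hε', abs_of_pos hP] at hyl
    exact hyl
  have h3 : (2 : ℤ) ∣ ε * (lastv x).1 - ε' * (lastv y).1 := by
    have h4 : Even (ε * (lastv x).1 - ε' * (lastv y).1) :=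
      (hxe.mul_left ε).sub (hye.mul_left ε')
    exact h4.two_dvd
  have h4 : 2 * P ∣ ε * (lastv x).1 - ε' * (lastv y).1 := by
    have hc : IsCoprime (2 : ℤ) P := by
      obtain ⟨k, hk⟩ := hPo
      exact ⟨-k, 1, by rw [hk]; ring⟩
    exact hc.mul_dvd h3 h
  have h5 : ε * (lastv x).1 - ε' * (lastv y).1 = 0 := by
    apply Int.eq_zero_of_abs_lt_dvd h4
    have := abs_sub (ε * (lastv x).1) (ε' * (lastv y).1)
    linarith
  apply hcfu x y hx hy hx0 hy0
  rw [hd, hd']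
  have hε2 : ε * ε = 1 := by rcases hε with rfl | rfl <;> rfl
  have hε2' : ε' * ε' = 1 := by rcases hε' with rfl | rfl <;> rfl
  linear_combination ε * ε' * P * h5 - ε' * P * (lastv x).1 * hε2 + ε * P * (lastv y).1 * hε2'

end FIN2

open FIN2 in
/-- Assembly, second part. -/
theorem fin2 (hdsc : DSC_Stmt) (htel : TEL_Stmt) (hcnt : CNT_Stmt) (hcfu : CFU_Stmt)
    (hrvc : RVC_Stmt) (hchn : CHN_Stmt) {x y : List ℤ} (hx : Even x.length)
    (hy : Even y.length) (hx0 : ∀ a ∈ x, a ≠ 0) (hy0 : ∀ a ∈ y, a ≠ 0)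
    {ε ε' P : ℤ} (hε : ε = 1 ∨ ε = -1) (hε' : ε' = 1 ∨ ε' = -1)
    (hP : 0 < P) (hd : (lastv x).2 = ε * P) (hd' : (lastv y).2 = ε' * P)
    (h : ∀ s : ℕ, 2 ≤ s → ∀ τ : ZMod (2 ^ s), IsUnit τ →
      Sx (2 ^ s) x (ε * τ) - Sx (2 ^ s) y (ε' * τ) =
        (((2 ^ s : ℕ) : ℂ) ^ 2 - 1) / 6 * ((x.sum : ℤ) - (y.sum : ℤ))) :
    y = x ∨ y = x.reverse := by
  obtain ⟨hxe, hxo⟩ := even_A hchn hx
  have hPo : Odd P := by
    rw [hd] at hxo
    rcases hε with rfl | rfl
    · simpa using hxo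
    · simpa using hxo
  have hcop : ∀ (z : List ℤ) (e : ℤ), (e = 1 ∨ e = -1) → (lastv z).2 = e * P →
      IsCoprime (e * (lastv z).1) P := by
    intro z e he hz
    have h1 := coprime_A hchn z
    rw [hz] at h1
    rcases he with rfl | rfl
    · simpa using h1
    · rw [neg_one_mul, IsCoprime.neg_right_iff] at h1
      rw [neg_one_mul, IsCoprime.neg_left_iff]
      exact h1
  have hcx := hcop x ε hε hd
  have hcy := hcop y ε' hε' hd'
  rcases hcnt P _ _ hP hPo hcx hcy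
    (fun N0 hN => count hdsc htel hx hy hε hε' hP hd hd' h N0 hN) with h1 | h1
  · left
    exact (case1 hcfu hchn hx hy hx0 hy0 hε hε' hP hd hd' h1).symm
  · right
    obtain ⟨h2, h3⟩ := hrvc x hx
    have h4 : (lastv x.reverse).2 = ε * P := by rw [h2, hd]
    have h5 : P ∣ (ε * (lastv x).1) * (ε * (lastv x.reverse).1) - 1 := by
      have h6 : P ∣ (lastv x).1 * (lastv x.reverse).1 - 1 := by
        refine Dvd.dvd.trans ?_ h3
        rw [hd]
        exact Dvd.intro_left ε rfl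
      have h7 : (ε * (lastv x).1) * (ε * (lastv x.reverse).1) - 1 =
          (lastv x).1 * (lastv x.reverse).1 - 1 := by
        rcases hε with rfl | rfl <;> ring
      rw [h7]; exact h6
    have h8 : P ∣ ε * (lastv x.reverse).1 - ε' * (lastv y).1 := by
      have h9 : P ∣ (ε * (lastv x).1) * (ε * (lastv x.reverse).1 - ε' * (lastv y).1) := by
        have h10 := dvd_sub h5 h1
        have h11 : (ε * (lastv x).1) * (ε * (lastv x.reverse).1) - 1 -
            (ε * (lastv x).1 * (ε' * (lastv y).1) - 1) =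
            (ε * (lastv x).1) * (ε * (lastv x.reverse).1 - ε' * (lastv y).1) := by ring
        rwa [h11] at h10
      exact hcx.symm.dvd_of_dvd_mul_left h9
    have hxr : Even x.reverse.length := by rw [List.length_reverse]; exact hx
    have hxr0 : ∀ a ∈ x.reverse, a ≠ 0 := fun a ha => hx0 a (List.mem_reverse.mp ha)
    exact (case1 hcfu hchn hxr hy hxr0 hy0 hε hε' hP h4 hd' h8).symm

end Pool.Agent.TB
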