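import Pool.Agent.TB.Inv
import Pool.Agent.TB.Fti
import Pool.Agent.TB.Ftm
import Pool.Agent.TB.Klk
import Pool.Agent.TB.Emb
import Pool.Agent.TB.Brk
import Pool.Agent.TB.Rel
import Pool.Agent.TB.Spec
import Pool.Agent.TB.Fc
import Pool.Agent.TB.Brd
import Pool.Agent.TB.Top
import Pool.Agent.TB.Rpr
import Pool.Agent.TB.Cup
import Pool.Agent.TB.Sld
import Pool.Agent.TB.Tdg
import Pool.Agent.TB.Unv
import Pool.Agent.TB.Nat
import Pool.Agent.TB.Val
import Pool.Agent.TB.Hz
import Pool.Agent.TB.Gps
import Pool.Agent.TB.Grt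
import Pool.Agent.TB.Ot
import Pool.Agent.TB.Zt
import Pool.Agent.TB.Lft
import Pool.Agent.TB.Eig
import Pool.Agent.TB.Nn
import Pool.Agent.TB.Mu
import Pool.Agent.TB.The
import Pool.Agent.TB.Tor
import Pool.Agent.TB.Ego
import Pool.Agent.TB.Der
import Pool.Agent.TB.Expt
import Pool.Agent.TB.Fou
import Pool.Agent.TB.Chn
import Pool.Agent.TB.Jnz
import Pool.Agent.TB.Lam
import Pool.Agent.TB.Dsc
import Pool.Agent.TB.Lim
import Pool.Agent.TB.Tel
import Pool.Agent.TB.Cnt
import Pool.Agent.TB.Cfu
import Pool.Agent.TB.Rvc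
import Pool.Agent.TB.Fin

namespace Pool.Agent.TB

/-- Finite type invariants determine the word of a 2-bridge diagram up to reversal. -/
theorem fin_all : FIN_Stmt :=
  have hbrk := brk
  have hemb := emb
  have hrel := rel
  have hspec := spec brk
  have hfc := fc
  have hbrd := brd hbrk hfc
  have htop := top hbrk hspec hfc
  have hrpr := rpr hbrk
  have hcup := cup
  have hsld := sld hemb hrel hspec hfc hbrd htop hrpr hcup
  have htdg := tdg hemb hrel hspec hfc hbrd hrpr hcup hsld
  have hval := val hemb hbrk hrel hspec hfc htop hrpr hcup unv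
  have hzt := zt_basic
  have hgrt := grt hbrk
  have hot := ot hbrk nat
  have hlft := lft hzt
  have heig := eig hbrk hzt
  have htor := tor hbrk hfc unv hzt hgrt hlft heig (nn hzt) (mu hzt) the
  have hego := ego hzt
  have hexpt := expt hzt hego chn
  have hlam := lam hzt der hexpt fou chn
  have hjnz := jnz hzt chn
  have hdsc := dsc chn
  have htel := tel chn lim
  fin (ftm inv fti) htdg hval hz (gps hbrk) hgrt hot htor chn hjnz hlam hdsc htel cnt_thm cfu rvc

end Pool.Agent.TB
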