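import Pool.Agent.TB.Stmts
import Pool.Agent.TwoBr.StateSum

/-!
Invariance of the state sum (module INV). The vector valued functor `TData.st` is, after reversing
the diagram and exchanging minima and maxima, the functor of `Pool.Agent.TwoBr.StateSum`.
-/

namespace Pool.Agent.TB.INV

open Pool.Agent.LibH11.Sliced Pool.Agent.TwoBr

/-- exchanging minima and maxima -/
def dk : Kind → Kind
  | .cup => .cap
  | .cap => .cup
  | .crs e => .crs e

theorem dk_ins (k : Kind) : (dk k).ins = k.outs := by cases k <;> rfl

theorem dk_outs (k : Kind) : (dk k).outs = k.ins := by cases k <;> rfl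

/-- turning a diagram upside down -/
def rd (w : Diag) : Diag := (w.map fun p => (dk p.1, p.2)).reverse

theorem rd_append (u v : Diag) : rd (u ++ v) = rd v ++ rd u := by
  simp [rd]

variable {A S : Type} [CommRing A] [Fintype S] [DecidableEq S]

/-- the transposed model -/
def mats (T : TData A S) : Mats A S where
  cup := T.cap
  cap := T.cup
  X := T.R

omit [DecidableEq S] in
theorem ap0_eq (T : TData A S) (k : Kind) (ψ : List S → A) (l : List S) :
    T.ap0 k ψ l = (mats T).loc (dk k) ψ l := by
  cases k with
  | cup =>
    match l with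
    | [] => rfl
    | [_] => rfl
    | _ :: _ :: _ => rfl
  | cap => rfl
  | crs e =>
    match l with
    | [] => rfl
    | [_] => rfl
    | _ :: _ :: _ => rfl

theorem ap_eq (T : TData A S) (k : Kind) : ∀ (i : ℕ) (ψ : List S → A) (l : List S),
    T.ap k i ψ l = (mats T).act (dk k) i ψ l := by
  intro i
  induction i with
  | zero => intro ψ l; exact ap0_eq T k ψ l
  | succ i ih =>
    intro ψ l
    match l with
    | [] => rfl
    | a :: l => exact ih _ l

theorem st_eq (T : TData A S) (w : Diag) : ∀ ψ : List S → A, T.st w ψ = (mats T).val (rd w) ψ := by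
  induction w with
  | nil => intro ψ; rfl
  | cons p w ih =>
    intro ψ
    obtain ⟨k, i⟩ := p
    have h1 : rd ((k, i) :: w) = rd w ++ [(dk k, i)] := by simp [rd]
    rw [h1, Mats.val_append]
    simp only [TData.st, Mats.val]
    rw [ih]
    congr 1
    funext l
    exact ap_eq T k i ψ l

theorem cnt_rd (w : Diag) : ∀ n m : ℕ, cnt n w = some m → cnt m (rd w) = some n := by
  induction w with
  | nil => intro n m h; simpa [rd, cnt, eq_comm] using h
  | cons p w ih =>
    intro n m h
    obtain ⟨k, i⟩ := p
    have h1 : rd ((k, i) :: w) = rd w ++ [(dk k, i)] := by simp [rd]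
    simp only [cnt] at h
    split_ifs at h with h2
    rw [h1, cnt_append, ih _ _ h]
    simp only [Option.bind_some, cnt, dk_ins, dk_outs]
    rw [if_pos (by omega)]
    congr 1
    omega

theorem ok (T : TData A S) (h : T.Good) : (mats T).Ok where
  zigzag x a := by
    simp only [mats]
    rw [h.zagzig]
    simp only [eq_comm]
  zagzig x b := by
    simp only [mats]
    refine (Finset.sum_congr rfl fun a _ => mul_comm _ _).trans ?_
    rw [h.zigzag]
    simp only [eq_comm]
  slideCap e x y z t := by
    simp only [mats]
    rw [← h.slideCup e x y z t]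
    exact Finset.sum_congr rfl fun a _ => mul_comm _ _
  slideCup e x p q r := by
    simp only [mats]
    have := h.slideCap e x p q r
    refine (Finset.sum_congr rfl fun a _ => mul_comm _ _).trans (this.trans ?_)
    exact Finset.sum_congr rfl fun a _ => mul_comm _ _
  r1Cap e x y := h.r1Cup e x y
  r1Cup e c d := h.r1Cap e c d
  r2 e x y p q := by
    simp only [mats]
    have := h.r2 (!e) x y p q
    rw [Bool.not_not] at this
    rw [this]
    simp only [eq_comm]
  r3 x y z p q r := by
    simp only [mats]
    rw [h.r3 x y z p q r]
    rw [Finset.sum_comm]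
    exact Finset.sum_congr rfl fun a _ => Finset.sum_comm

theorem move_rd {a b : Diag} (h : Move a b) : Move (rd a) (rd b) ∨ Move (rd b) (rd a) := by
  cases h with
  | far p q i k =>
    right
    have := Move.far (dk p) (dk q) i k
    rw [dk_ins, dk_outs] at this
    exact this
  | zigzag i => left; exact Move.zagzig i
  | zagzig i => left; exact Move.zigzag i
  | slideCap i e => left; exact Move.slideCup i e
  | slideCup i e => left; exact Move.slideCap i e
  | r1Cap i e => left; exact Move.r1Cup i e
  | r1Cup i e => left; exact Move.r1Cap i e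
  | r2 i e =>
    left
    have := Move.r2 i (!e)
    rw [Bool.not_not] at this
    exact this
  | r3 i => left; exact Move.r3 i

theorem val_move (T : TData A S) (h : T.Good) {c d : Diag} (hcd : Move c d) {n m : ℕ}
    (hc : cnt n c = some m) (hd : cnt n d = some m) :
    Same (mats T) m (rd c) (rd d) := by
  rcases move_rd hcd with h1 | h1
  · exact same_of_move (ok T h) h1 (cnt_rd c n m hc) (cnt_rd d n m hd)
  · intro F l hl
    exact (same_of_move (ok T h) h1 (cnt_rd d n m hd) (cnt_rd c n m hc) F l hl).symm

theorem J_moveIn (T : TData A S) (s0 : S) (hT : T.Good) {x y : {w : Diag // IsLongKnot w}}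
    (hxy : MoveIn x y) : T.J s0 x.1 = T.J s0 y.1 := by
  obtain ⟨u, c, d, v, hcd, hx, hy⟩ := hxy
  obtain ⟨labx, cx, hrx⟩ := x.2
  obtain ⟨laby, cy, hry⟩ := y.2
  have h1 := run_cnt _ _ _ hrx
  have h2 := run_cnt _ _ _ hry
  rw [hx] at h1
  rw [hy] at h2
  simp only [List.append_assoc, cnt_append] at h1 h2
  cases hu : cnt 1 u with
  | none => rw [hu] at h1; simp at h1
  | some n =>
    rw [hu] at h1 h2
    simp only [Option.bind_some] at h1 h2
    cases hc : cnt n c with
    | none => rw [hc] at h1; simp at h1
    | some m =>
      cases hd : cnt n d with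
      | none => rw [hd] at h2; simp at h2
      | some m' =>
        rw [hc] at h1
        rw [hd] at h2
        simp only [Option.bind_some] at h1 h2
        have h3 := cnt_rd v _ _ h1
        have h4 := cnt_rd v _ _ h2
        rw [h3] at h4
        simp only [Option.some.injEq] at h4
        subst h4
        unfold TData.J
        rw [st_eq, st_eq, hx, hy]
        simp only [rd_append, Mats.val_append]
        exact (mats T).val_congr (rd v) h3 (val_move T hT hcd hc hd _) [s0] rfl

end INV

theorem inv : INV_Stmt := by
  intro A S _ _ _ T s0 hT x y hxy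
  exact INV.J_moveIn T s0 hT hxy

end Pool.Agent.TB
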