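import Pool.Agent.LibH11.SlicedCalc

/-! Rational finite type invariants suffice to test equality of complex ones. -/

namespace Pool.Agent.TB

open Pool.Agent.LibH11.Sliced

theorem isFiniteType_map {A B : Type*} [AddCommGroup A] [AddCommGroup B] (φ : A →+ B)
    (v : Knot → A) (hv : IsFiniteType v) : IsFiniteType (fun K => φ (v K)) := by
  obtain ⟨k, hk⟩ := hv
  refine ⟨k, fun s hs => ?_⟩
  have h1 : onDiags (fun K => φ (v K)) = fun w => φ (onDiags v w) := by
    funext w
    by_cases h : IsLongKnot w
    · rw [onDiags_of h, onDiags_of h]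
    · rw [onDiags_of_not h, onDiags_of_not h, map_zero]
  rw [h1]
  have := resolve_map φ s (onDiags v)
  rw [this, hk s hs, map_zero]

theorem complex_of_rat {K K' : Knot} (h : ∀ v : Knot → ℚ, IsFiniteType v → v K = v K')
    (v : Knot → ℂ) (hv : IsFiniteType v) : v K = v K' := by
  by_contra hne
  have h1 : v K - v K' ≠ 0 := sub_ne_zero.2 hne
  obtain ⟨f, hf⟩ : ∃ f : Module.Dual ℚ ℂ, f (v K - v K') ≠ 0 := by
    by_contra hall
    push Not at hall
    exact h1 ((Module.forall_dual_apply_eq_zero_iff ℚ _).1 hall)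
  apply hf
  have h2 := h (fun K => f (v K)) (isFiniteType_map f.toAddMonoidHom v hv)
  rw [map_sub, sub_eq_zero]
  exact h2

end Pool.Agent.TB
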