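import Pool.Agent.TB.Stmts2

/-!
Finite type invariants of 2-bridge knots, module RVC: the last vector of the reversed word.
-/

namespace Pool.Agent.TB

namespace RVC

open Matrix

/-- the chain with a sign -/
def cg (ε : ℤ) (x : List ℤ) : ℕ → ℤ × ℤ
  | 0 => (1, 0)
  | 1 => (0, 1)
  | i + 2 => cg ε x i + (ε * (-1) ^ i * 2 * x.getD i 0) • cg ε x (i + 1)

theorem chain_eq (x : List ℤ) : ∀ j, chain x j = cg 1 x j
  | 0 => rfl
  | 1 => rfl
  | i + 2 => by
    rw [chain, cg, chain_eq x i, chain_eq x (i + 1), one_mul]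

theorem cg_cons (ε a : ℤ) (l : List ℤ) : ∀ j,
    cg ε (a :: l) (j + 1) = ((cg (-ε) l j).2, (cg (-ε) l j).1 + 2 * ε * a * (cg (-ε) l j).2)
  | 0 => by simp [cg]
  | 1 => by
    simp only [cg, zero_add, pow_zero, mul_one, List.getD_cons_zero]
    ext
    · simp
    · simp only [Prod.snd_add, Prod.smul_snd, smul_eq_mul]
      ring
  | j + 2 => by
    rw [cg, cg_cons ε a l j, cg_cons ε a l (j + 1)]
    have : cg (-ε) l (j + 2) =
      cg (-ε) l j + (-ε * (-1) ^ j * 2 * l.getD j 0) • cg (-ε) l (j + 1) := by rw [cg]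
    rw [this]
    simp only [List.getD_cons_succ]
    ext
    · simp; ring
    · simp; ring

/-- the matrix of one step -/
def MM (c : ℤ) : Matrix (Fin 2) (Fin 2) ℤ := !![0, 1; 1, c]

/-- the product of the steps -/
def PM : ℤ → List ℤ → Matrix (Fin 2) (Fin 2) ℤ
  | _, [] => 1
  | ε, a :: l => PM (-ε) l * MM (2 * ε * a)

theorem PM_row (x : List ℤ) : ∀ ε : ℤ,
    PM ε x = !![(cg ε x x.length).1, (cg ε x x.length).2;
      (cg ε x (x.length + 1)).1, (cg ε x (x.length + 1)).2] := by
  induction x with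
  | nil =>
    intro ε
    simp only [PM, List.length_nil, cg, zero_add]
    ext i j
    fin_cases i <;> fin_cases j <;> simp
  | cons a l ih =>
    intro ε
    rw [PM, ih (-ε), List.length_cons, cg_cons, cg_cons, MM]
    ext i j
    fin_cases i <;> fin_cases j <;> simp [Matrix.mul_apply, Fin.sum_univ_two] <;> ring

theorem PM_append (a : ℤ) (l : List ℤ) : ∀ ε : ℤ,
    PM ε (l ++ [a]) = MM (2 * ((-1) ^ l.length * ε) * a) * PM ε l := by
  induction l with
  | nil => intro ε; simp [PM]
  | cons b l ih =>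
    intro ε
    rw [List.cons_append, PM, ih (-ε), PM, List.length_cons, Matrix.mul_assoc]
    congr 2
    ring

/-- the matrix diag(1, -1) -/
def EE : Matrix (Fin 2) (Fin 2) ℤ := !![1, 0; 0, -1]

theorem MM_EE (c : ℤ) : MM c * EE = -(EE * MM (-c)) := by
  ext i j
  fin_cases i <;> fin_cases j <;> simp [MM, EE, Matrix.mul_apply, Fin.sum_univ_two]

theorem MM_tr (c : ℤ) : (MM c)ᵀ = MM c := by
  ext i j
  fin_cases i <;> fin_cases j <;> simp [MM]

theorem PM_reverse (x : List ℤ) : ∀ ε : ℤ,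
    PM ε x.reverse = (-1 : ℤ) ^ x.length • (EE * (PM ((-1) ^ x.length * ε) x)ᵀ * EE) := by
  induction x with
  | nil =>
    intro ε
    ext i j
    fin_cases i <;> fin_cases j <;> simp [PM, EE]
  | cons a l ih =>
    intro ε
    rw [List.reverse_cons, PM_append, ih, PM, List.length_reverse, List.length_cons,
      Matrix.transpose_mul, MM_tr]
    have h1 : -((-1) ^ (l.length + 1) * ε) = (-1) ^ l.length * ε := by ring
    have h2 : 2 * ((-1) ^ (l.length + 1) * ε) * a = -(2 * ((-1) ^ l.length * ε) * a) := by ring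
    rw [h1, h2, Matrix.mul_smul, ← Matrix.mul_assoc, ← Matrix.mul_assoc, MM_EE, pow_succ,
      ← Matrix.mul_assoc, Matrix.neg_mul, Matrix.neg_mul, mul_neg_one, neg_smul, smul_neg]

theorem PM_det (x : List ℤ) : ∀ ε : ℤ, (PM ε x).det = (-1) ^ x.length := by
  induction x with
  | nil => intro ε; simp [PM]
  | cons a l ih =>
    intro ε
    rw [PM, Matrix.det_mul, ih, List.length_cons, pow_succ]
    simp [MM, Matrix.det_fin_two]

end RVC

open RVC in
theorem rvc : RVC_Stmt := by
  intro x hx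
  have hr := PM_reverse x 1
  rw [hx.neg_one_pow, one_smul, one_mul] at hr
  have hd := PM_det x 1
  rw [hx.neg_one_pow, Matrix.det_fin_two] at hd
  have e11 := congrFun (congrFun hr 1) 1
  have e10 := congrFun (congrFun hr 1) 0
  have t11 : (EE * (PM 1 x).transpose * EE) 1 1 = PM 1 x 1 1 := by
    simp only [EE, Matrix.mul_apply, Fin.sum_univ_two, Matrix.transpose_apply]
    simp
  have t10 : (EE * (PM 1 x).transpose * EE) 1 0 = -PM 1 x 0 1 := by
    simp only [EE, Matrix.mul_apply, Fin.sum_univ_two, Matrix.transpose_apply]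
    simp
  rw [t11] at e11
  rw [t10] at e10
  have hl : ∀ y : List ℤ, lastv y = (PM 1 y 1 0, PM 1 y 1 1) := by
    intro y
    rw [PM_row, lastv, chain_eq]
    simp
  rw [hl, hl]
  refine ⟨e11, -PM 1 x 0 0, ?_⟩
  simp only [e10]
  linear_combination hd

end Pool.Agent.TB
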